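import Mathlib

/-!
# Approximation of indicators by exponential sums
-/

namespace Pool.Agent.helper306_thin

open Finset Filter Topology

/-- the coefficients are supported on the rational numbers of `[0, 1]` -/
def SupQ : Submodule ℝ (ℚ →₀ ℝ) := Finsupp.supported ℝ ℝ {z : ℚ | 0 ≤ z ∧ z ≤ 1}

/-- the exponential sum -/
noncomputable def ev (X : ℕ) : (ℚ →₀ ℝ) →ₗ[ℝ] ℝ := Finsupp.linearCombination ℝ (fun z : ℚ => (z : ℝ) ^ X)

lemma ev_apply (X : ℕ) (c : ℚ →₀ ℝ) : ev X c = ∑ z ∈ c.support, c z * (z : ℝ) ^ X := by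
  unfold ev
  rw [Finsupp.linearCombination_apply]
  rfl

lemma ev_single (X : ℕ) (z : ℚ) : ev X (Finsupp.single z 1) = (z : ℝ) ^ X := by
  unfold ev
  rw [Finsupp.linearCombination_single, one_smul]

lemma single_mem {z : ℚ} (h0 : 0 ≤ z) (h1 : z ≤ 1) : Finsupp.single z (1 : ℝ) ∈ SupQ := by
  unfold SupQ
  exact Finsupp.single_mem_supported ℝ 1 ⟨h0, h1⟩

theorem approx1 (k : ℕ) : ∀ η : ℝ, 0 < η → ∃ c ∈ SupQ, ∀ X : ℕ,
    |(if X = k then (1 : ℝ) else 0) - ev X c| ≤ η := by
  induction k using Nat.strong_induction_on with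
  | _ k ih =>
    intro η hη
    -- choose `z`
    obtain ⟨N, hN⟩ := exists_nat_gt (2 / η)
    set z : ℚ := 1 / ((N : ℚ) + 1) with hz
    have hz0 : 0 < z := by positivity
    have hz1 : z ≤ 1 := by
      rw [hz, div_le_one (by positivity)]
      have : (0 : ℚ) ≤ N := Nat.cast_nonneg N
      linarith
    have hzr : (z : ℝ) = 1 / ((N : ℝ) + 1) := by rw [hz]; push_cast; rfl
    have hzr0 : (0 : ℝ) < z := by exact_mod_cast hz0
    have hzr1 : (z : ℝ) ≤ 1 := by exact_mod_cast hz1
    have hzη : (z : ℝ) ≤ η / 2 := by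
      rw [hzr, div_le_iff₀ (by positivity)]
      rw [div_lt_iff₀ hη] at hN
      nlinarith
    have hzk : (0 : ℝ) < (z : ℝ) ^ k := by positivity
    -- the approximations of the smaller indicators
    have h1 : ∀ j : ℕ, ∃ c ∈ SupQ, j < k → ∀ X : ℕ,
        |(if X = j then (1 : ℝ) else 0) - ev X c| ≤ η * (z : ℝ) ^ k / (2 * (k + 1)) := by
      intro j
      by_cases hj : j < k
      · obtain ⟨c, hc1, hc2⟩ := ih j hj (η * (z : ℝ) ^ k / (2 * (k + 1))) (by positivity)
        exact ⟨c, hc1, fun _ => hc2⟩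
      · exact ⟨0, Submodule.zero_mem _, fun h => absurd h hj⟩
    choose cj hcj1 hcj2 using h1
    set c : ℚ →₀ ℝ := ((z : ℝ) ^ k)⁻¹ • (Finsupp.single z 1 - ∑ j ∈ Finset.range k, ((z : ℝ) ^ j) • cj j)
      with hc
    refine ⟨c, ?_, fun X => ?_⟩
    · refine Submodule.smul_mem _ _ (Submodule.sub_mem _ (single_mem hz0.le hz1) ?_)
      exact Submodule.sum_mem _ (fun j _ => Submodule.smul_mem _ _ (hcj1 j))
    · have e1 : ev X c = ((z : ℝ) ^ k)⁻¹ * ((z : ℝ) ^ X - ∑ j ∈ Finset.range k, (z : ℝ) ^ j * ev X (cj j)) := by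
        rw [hc, map_smul, map_sub, ev_single, map_sum, smul_eq_mul]
        congr 2
        exact Finset.sum_congr rfl (fun j _ => by rw [map_smul, smul_eq_mul])
      set D : ℝ := ∑ j ∈ Finset.range k, (z : ℝ) ^ j * ((if X = j then (1 : ℝ) else 0) - ev X (cj j)) with hD
      have e2 : ∑ j ∈ Finset.range k, (z : ℝ) ^ j * ev X (cj j)
          = (if X < k then (z : ℝ) ^ X else 0) - D := by
        have e3 : D = ∑ j ∈ Finset.range k, (z : ℝ) ^ j * (if X = j then (1 : ℝ) else 0)
            - ∑ j ∈ Finset.range k, (z : ℝ) ^ j * ev X (cj j) := by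
          rw [hD, ← Finset.sum_sub_distrib]
          exact Finset.sum_congr rfl (fun j _ => by ring)
        have e4 : ∑ j ∈ Finset.range k, (z : ℝ) ^ j * (if X = j then (1 : ℝ) else 0)
            = if X < k then (z : ℝ) ^ X else 0 := by
          simp only [mul_ite, mul_one, mul_zero]
          rw [Finset.sum_ite_eq]
          simp only [Finset.mem_range]
        rw [e3, e4]; ring
      have hDb : |D| ≤ η * (z : ℝ) ^ k / 2 := by
        have h2 : |D| ≤ ∑ j ∈ Finset.range k, η * (z : ℝ) ^ k / (2 * (k + 1)) := by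
          rw [hD]
          refine (Finset.abs_sum_le_sum_abs _ _).trans (Finset.sum_le_sum (fun j hj => ?_))
          rw [Finset.mem_range] at hj
          rw [abs_mul, abs_of_nonneg (by positivity : (0 : ℝ) ≤ (z : ℝ) ^ j)]
          have h3 : (z : ℝ) ^ j ≤ 1 := pow_le_one₀ hzr0.le hzr1
          calc (z : ℝ) ^ j * |(if X = j then (1 : ℝ) else 0) - ev X (cj j)|
              ≤ 1 * |(if X = j then (1 : ℝ) else 0) - ev X (cj j)| :=
                mul_le_mul_of_nonneg_right h3 (abs_nonneg _)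
            _ ≤ _ := by rw [one_mul]; exact hcj2 j hj X
        rw [Finset.sum_const, Finset.card_range, nsmul_eq_mul] at h2
        refine h2.trans ?_
        have h4 : (k : ℝ) * (η * (z : ℝ) ^ k / (2 * (k + 1))) = (η * (z : ℝ) ^ k / 2) * (k / (k + 1)) := by
          field_simp
        rw [h4]
        refine mul_le_of_le_one_right (by positivity) ?_
        rw [div_le_one (by positivity)]; linarith
      rw [e1, e2]
      have hDz : |((z : ℝ) ^ k)⁻¹ * D| ≤ η / 2 := by
        rw [abs_mul, abs_of_pos (by positivity : (0 : ℝ) < ((z : ℝ) ^ k)⁻¹), inv_mul_le_iff₀ hzk]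
        linarith
      rcases Nat.lt_trichotomy X k with h | h | h
      · rw [if_neg (by omega), if_pos h]
        have e5 : (0 : ℝ) - ((z : ℝ) ^ k)⁻¹ * ((z : ℝ) ^ X - ((z : ℝ) ^ X - D)) = -(((z : ℝ) ^ k)⁻¹ * D) := by
          ring
        rw [e5, abs_neg]; linarith
      · rw [if_pos h, if_neg (by omega), h]
        have e5 : (1 : ℝ) - ((z : ℝ) ^ k)⁻¹ * ((z : ℝ) ^ k - (0 - D)) = -(((z : ℝ) ^ k)⁻¹ * D) := by
          field_simp; ring
        rw [e5, abs_neg]; linarith
      · rw [if_neg (by omega), if_neg (by omega)]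
        have e5 : (0 : ℝ) - ((z : ℝ) ^ k)⁻¹ * ((z : ℝ) ^ X - (0 - D))
            = -(((z : ℝ) ^ k)⁻¹ * (z : ℝ) ^ X) - (((z : ℝ) ^ k)⁻¹ * D) := by ring
        rw [e5]
        refine (abs_sub _ _).trans ?_
        rw [abs_neg]
        have e6 : |((z : ℝ) ^ k)⁻¹ * (z : ℝ) ^ X| ≤ η / 2 := by
          rw [abs_of_nonneg (by positivity), inv_mul_le_iff₀ hzk]
          have e7 : (z : ℝ) ^ X ≤ (z : ℝ) ^ (k + 1) := pow_le_pow_of_le_one hzr0.le hzr1 h
          rw [pow_succ] at e7
          exact e7.trans (mul_le_mul_of_nonneg_left hzη hzk.le)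
        linarith

/-- the Poisson average of an approximation -/
theorem poisson_avg {c : ℚ →₀ ℝ} {k : ℕ} {η : ℝ}
    (hc : ∀ X : ℕ, |(if X = k then (1 : ℝ) else 0) - ev X c| ≤ η) {l : ℝ} (hl : 0 ≤ l) :
    |Real.exp (-l) * l ^ k / k.factorial - ∑ z ∈ c.support, c z * Real.exp (-((1 - (z : ℝ)) * l))| ≤ η := by
  have hexp : ∀ y : ℝ, HasSum (fun X : ℕ => y ^ X / (X.factorial : ℝ)) (Real.exp y) := by
    intro y
    rw [Real.exp_eq_exp_ℝ]
    exact NormedSpace.expSeries_div_hasSum_exp y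
  set w : ℕ → ℝ := fun X => Real.exp (-l) * (l ^ X / X.factorial) with hw
  have hw0 : ∀ X, 0 ≤ w X := fun X => by rw [hw]; positivity
  have hw1 : HasSum w 1 := by
    have h1 := (hexp l).mul_left (Real.exp (-l))
    rw [← Real.exp_add, neg_add_cancel, Real.exp_zero] at h1
    exact h1
  have h2 : ∀ z : ℚ, HasSum (fun X => w X * (z : ℝ) ^ X) (Real.exp (-((1 - (z : ℝ)) * l))) := by
    intro z
    have h1 := (hexp (z * l)).mul_left (Real.exp (-l))
    rw [← Real.exp_add] at h1
    have e1 : -l + (z : ℝ) * l = -((1 - (z : ℝ)) * l) := by ring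
    rw [e1] at h1
    have e2 : (fun X => w X * (z : ℝ) ^ X)
        = (fun X : ℕ => Real.exp (-l) * (((z : ℝ) * l) ^ X / (X.factorial : ℝ))) := by
      funext X
      rw [hw]; simp only
      rw [mul_pow]; ring
    rw [e2]; exact h1
  have h3 : HasSum (fun X => w X * ev X c) (∑ z ∈ c.support, c z * Real.exp (-((1 - (z : ℝ)) * l))) := by
    have h4 : HasSum (fun X => ∑ z ∈ c.support, c z * (w X * (z : ℝ) ^ X))
        (∑ z ∈ c.support, c z * Real.exp (-((1 - (z : ℝ)) * l))) :=
      hasSum_sum (fun z _ => (h2 z).mul_left (c z))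
    have e2 : (fun X => w X * ev X c) = (fun X => ∑ z ∈ c.support, c z * (w X * (z : ℝ) ^ X)) := by
      funext X
      rw [ev_apply, Finset.mul_sum]
      exact Finset.sum_congr rfl (fun z _ => by ring)
    rw [e2]; exact h4
  have h5 : HasSum (fun X => w X * (if X = k then (1 : ℝ) else 0)) (w k) := by
    have h9 := hasSum_ite_eq k (w k)
    have e2 : (fun X => w X * (if X = k then (1 : ℝ) else 0)) = (fun X => if X = k then w k else 0) := by
      funext X
      split_ifs with h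
      · rw [h, mul_one]
      · rw [mul_zero]
    rw [e2]; exact h9
  have h6 := h5.sub h3
  have h7 : HasSum (fun X => η * w X) (η * 1) := hw1.mul_left η
  have h8 := h6.norm_le_of_bounded h7 (fun X => by
    rw [← mul_sub, norm_mul, Real.norm_eq_abs, Real.norm_eq_abs, abs_of_nonneg (hw0 X), mul_comm]
    exact mul_le_mul_of_nonneg_right (hc X) (hw0 X))
  rw [mul_one, Real.norm_eq_abs] at h8
  have e : w k = Real.exp (-l) * l ^ k / k.factorial := by rw [hw]; ring
  rwa [e] at h8

end Pool.Agent.helper306_thin
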