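import Pool.Agent.helper306_thin.Win

/-!
# The mean number of windows with sum `n` in one block
-/

namespace Pool.Agent.helper306_thin

open Finset Pool.Agent.helper306_cramer

variable {p : ℕ → ℝ}

lemma block_mean_sum (hp : PD p) {y L n : ℕ} :
    Ex p (Finset.Ico y (y + L)) (fun A => (cnt A n : ℝ)) ≤
      ∑ l ∈ (Finset.Icc 1 n).filter (fun l => l * y ≤ n ∧ n < l * (y + L)),
        ∑ w ∈ Finset.Ico y (y + L) ×ˢ Finset.Ico y (y + L),
          (if w.1.Prime ∧ w.2.Prime ∧ w.1 ≤ w.2 ∧ l * w.1 ≤ n ∧ n ≤ l * w.2 then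
            Pl p (Pr w.1 w.2) l n else 0) := by
  classical
  rw [Ex_congr (fun A hA => cnt_eq_sum hA n), Ex_sum, Finset.sum_comm]
  refine Finset.sum_le_sum (fun w hw => ?_)
  rw [Finset.mem_product] at hw
  have hs : Finset.Icc w.1 w.2 ⊆ Finset.Ico y (y + L) := Icc_sub hw.1 hw.2
  have e : Ex p (Finset.Ico y (y + L)) (fun A => th n w.1 w.2 (sg A w.1 w.2))
      = Ex p (Finset.Icc w.1 w.2) (th n w.1 w.2) := Ex_inter p hs _
  rw [e]
  have h1 := Finset.mem_Ico.mp hw.1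
  have h2 := Finset.mem_Ico.mp hw.2
  exact Ex_th_le hp h1.1 h2.2

lemma sq_mul_exp_le {x : ℝ} (hx : 0 ≤ x) : x ^ 2 * Real.exp (-(x / 4)) ≤ 64 := by
  have h1 := Real.add_one_le_exp (x / 8)
  have h2 : (x / 8) ^ 2 ≤ Real.exp (x / 8) ^ 2 :=
    pow_le_pow_left₀ (by positivity) (by linarith) 2
  have h3 : Real.exp (x / 8) ^ 2 = Real.exp (x / 4) := by
    rw [← Real.exp_nat_mul]; congr 1; push_cast; ring
  rw [h3] at h2
  rw [Real.exp_neg, ← div_eq_mul_inv, div_le_iff₀ (Real.exp_pos _)]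
  nlinarith

/-- one value of `l` -/
lemma S_le (hp : PD p) {t : ℝ} (ht0 : 0 < t) (ht1 : t ≤ 1) {y L B0 l n : ℕ} {ℓ : ℝ}
    (ht : ∀ r, r.Prime → y ≤ r → r < y + L → t ≤ p r * (1 - p r)) (hℓ : 1 ≤ ℓ)
    (hl : 16 * ℓ ^ 2 ≤ l) (hL : L ≤ 2 ^ B0) :
    ∑ w ∈ Finset.Ico y (y + L) ×ˢ Finset.Ico y (y + L),
      (if w.1.Prime ∧ w.2.Prime ∧ w.1 ≤ w.2 ∧ l * w.1 ≤ n ∧ n ≤ l * w.2 then
        Pl p (Pr w.1 w.2) l n else 0)
    ≤ (B0 * 972800 * ℓ ^ 2 / t ^ 2) * (1 / l) + (L : ℝ) ^ 2 * (4 * Real.exp (-ℓ ^ 2)) := by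
  have hl0 : (0 : ℝ) < l := by nlinarith
  refine (sum_Pl_le hp ht0 ht1 ht hℓ hl hL).trans (add_le_add ?_ le_rfl)
  have h1 : 3 * Real.exp (-(t * l / 4)) ≤ 192 / (t * l) ^ 2 := by
    rw [le_div_iff₀ (by positivity)]
    have := sq_mul_exp_le (x := t * l) (by positivity)
    linarith
  have h2 : 112 / (t * (l : ℝ) ^ 2) ≤ 112 / (t * l) ^ 2 := by
    refine div_le_div_of_nonneg_left (by norm_num) (by positivity) ?_
    rw [mul_pow]
    refine mul_le_mul_of_nonneg_right ?_ (by positivity)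
    nlinarith
  calc (B0 * (3200 * l * ℓ ^ 2)) * (112 / (t * (l : ℝ) ^ 2) + 3 * Real.exp (-(t * l / 4)))
      ≤ (B0 * (3200 * l * ℓ ^ 2)) * (112 / (t * l) ^ 2 + 192 / (t * l) ^ 2) :=
        mul_le_mul_of_nonneg_left (add_le_add h2 h1) (by positivity)
    _ = (B0 * 972800 * ℓ ^ 2 / t ^ 2) * (1 / l) := by field_simp; ring

lemma card_Lam {y L n : ℕ} (hy : 1 ≤ y) :
    (((Finset.Icc 1 n).filter (fun l => l * y ≤ n ∧ n < l * (y + L))).card : ℝ)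
      ≤ (n : ℝ) / y - n / ((y : ℝ) + L) + 1 := by
  have hy0 : (0 : ℝ) < y := by exact_mod_cast hy
  have hyL0 : (0 : ℝ) < (y : ℝ) + L := by positivity
  have hsub : (Finset.Icc 1 n).filter (fun l => l * y ≤ n ∧ n < l * (y + L))
      ⊆ Finset.Ioc (n / (y + L)) (n / y) := by
    intro l hl
    rw [Finset.mem_filter] at hl
    rw [Finset.mem_Ioc]
    refine ⟨?_, ?_⟩
    · rw [Nat.div_lt_iff_lt_mul (by omega)]; exact hl.2.2
    · rw [Nat.le_div_iff_mul_le (by omega)]; exact hl.2.1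
  have h1 := Finset.card_le_card hsub
  rw [Nat.card_Ioc] at h1
  have hle : n / (y + L) ≤ n / y := Nat.div_le_div_left (by omega) (by omega)
  have h2 : (((Finset.Icc 1 n).filter (fun l => l * y ≤ n ∧ n < l * (y + L))).card : ℝ)
      ≤ ((n / y : ℕ) : ℝ) - ((n / (y + L) : ℕ) : ℝ) := by
    rw [← Nat.cast_sub hle]; exact_mod_cast h1
  have h3 : ((n / y : ℕ) : ℝ) ≤ (n : ℝ) / y := Nat.cast_div_le
  have h4 : (n : ℝ) / ((y : ℝ) + L) < ((n / (y + L) : ℕ) : ℝ) + 1 := by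
    rw [div_lt_iff₀ hyL0]
    have := Nat.lt_mul_div_succ n (show 0 < y + L by omega)
    have h5 : (n : ℝ) < (((y + L) * (n / (y + L) + 1) : ℕ) : ℝ) := by exact_mod_cast this
    push_cast at h5
    linarith
  linarith

/-- **The mean number of windows in a block.** -/
theorem block_mean_le (hp : PD p) {t : ℝ} (ht0 : 0 < t) (ht1 : t ≤ 1) {y L B0 n : ℕ} {ℓ : ℝ}
    (hy : 1 ≤ y) (ht : ∀ r, r.Prime → y ≤ r → r < y + L → t ≤ p r * (1 - p r)) (hℓ : 1 ≤ ℓ)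
    (hn : 16 * ℓ ^ 2 * ((y : ℝ) + L) ≤ n) (hL : L ≤ 2 ^ B0) :
    Ex p (Finset.Ico y (y + L)) (fun A => (cnt A n : ℝ)) ≤
      (B0 * 972800 * ℓ ^ 2 / t ^ 2) * ((L : ℝ) / y + ((y : ℝ) + L) / n)
        + n * ((L : ℝ) ^ 2 * (4 * Real.exp (-ℓ ^ 2))) := by
  classical
  have hy0 : (0 : ℝ) < y := by exact_mod_cast hy
  have hyL0 : (0 : ℝ) < (y : ℝ) + L := by positivity
  have hn0 : (0 : ℝ) < n := lt_of_lt_of_le (by positivity) hn
  refine (block_mean_sum hp).trans ?_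
  set Λ := (Finset.Icc 1 n).filter (fun l => l * y ≤ n ∧ n < l * (y + L)) with hΛ
  have h1 : ∀ l ∈ Λ, ∑ w ∈ Finset.Ico y (y + L) ×ˢ Finset.Ico y (y + L),
          (if w.1.Prime ∧ w.2.Prime ∧ w.1 ≤ w.2 ∧ l * w.1 ≤ n ∧ n ≤ l * w.2 then
            Pl p (Pr w.1 w.2) l n else 0)
      ≤ (B0 * 972800 * ℓ ^ 2 / t ^ 2) * (((y : ℝ) + L) / n)
        + (L : ℝ) ^ 2 * (4 * Real.exp (-ℓ ^ 2)) := by
    intro l hl
    rw [hΛ, Finset.mem_filter, Finset.mem_Icc] at hl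
    have hl0 : (0 : ℝ) < l := by exact_mod_cast (by omega : 0 < l)
    have hln : (n : ℝ) < l * ((y : ℝ) + L) := by exact_mod_cast hl.2.2
    have hl16 : 16 * ℓ ^ 2 ≤ l := by
      have h3 : 16 * ℓ ^ 2 * ((y : ℝ) + L) < l * ((y : ℝ) + L) := lt_of_le_of_lt hn hln
      exact (lt_of_mul_lt_mul_right h3 hyL0.le).le
    refine (S_le hp ht0 ht1 ht hℓ hl16 hL).trans (add_le_add ?_ le_rfl)
    refine mul_le_mul_of_nonneg_left ?_ (by positivity)
    rw [div_le_div_iff₀ hl0 hn0]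
    linarith
  refine (Finset.sum_le_sum h1).trans ?_
  rw [Finset.sum_const, nsmul_eq_mul, mul_add]
  refine add_le_add ?_ ?_
  · have h2 := card_Lam (L := L) (n := n) hy
    rw [← hΛ] at h2
    have h3 : (Λ.card : ℝ) * (((y : ℝ) + L) / n) ≤ (L : ℝ) / y + ((y : ℝ) + L) / n := by
      calc (Λ.card : ℝ) * (((y : ℝ) + L) / n)
          ≤ ((n : ℝ) / y - n / ((y : ℝ) + L) + 1) * (((y : ℝ) + L) / n) :=
            mul_le_mul_of_nonneg_right h2 (by positivity)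
        _ = (L : ℝ) / y + ((y : ℝ) + L) / n := by field_simp; ring
    have h4 := mul_le_mul_of_nonneg_left h3
      (by positivity : (0 : ℝ) ≤ B0 * 972800 * ℓ ^ 2 / t ^ 2)
    refine le_trans (le_of_eq ?_) h4
    ring
  · refine mul_le_mul_of_nonneg_right ?_ (by positivity)
    have h3 : Λ.card ≤ n := by
      refine (Finset.card_filter_le _ _).trans ?_
      rw [Nat.card_Icc]; omega
    exact_mod_cast h3

end Pool.Agent.helper306_thin
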