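import Mathlib

/-!
# Many integers of a short interval in a Bohr set
-/

namespace Pool.Agent.helper306_thin

open Finset

/-- two elements in the same cell -/
lemma exists_close {A : Finset ℕ} {a N D : ℕ} (hA : ∀ r ∈ A, a ≤ r ∧ r ≤ a + N) (hD : 1 ≤ D)
    (hc : N / D + 1 < A.card) : ∃ r ∈ A, ∃ s ∈ A, r < s ∧ s < r + D := by
  have h1 : ∀ r ∈ A, (r - a) / D ∈ Finset.range (N / D + 1) := by
    intro r hr
    have := hA r hr
    rw [Finset.mem_range]
    have : (r - a) / D ≤ N / D := Nat.div_le_div_right (by omega)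
    omega
  obtain ⟨r, hr, s, hs, hne, heq⟩ := Finset.exists_ne_map_eq_of_card_lt_of_maps_to
    (by rw [Finset.card_range]; exact hc) h1
  have h2 := hA r hr
  have h3 := hA s hs
  have h4 := Nat.div_add_mod (r - a) D
  have h5 := Nat.div_add_mod (s - a) D
  have h6 := Nat.mod_lt (r - a) hD
  have h7 := Nat.mod_lt (s - a) hD
  rw [heq] at h4
  rcases Nat.lt_or_gt_of_ne hne with h | h
  · exact ⟨r, hr, s, hs, h, by omega⟩
  · exact ⟨s, hs, r, hr, h, by omega⟩

/-- elements of one residue class in an interval of length `B` -/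
lemma card_class_le {S : Finset ℕ} {r0 : ℕ} (hr0 : 1 ≤ r0) {B : ℝ} (hB : 0 ≤ B)
    (h : ∀ r ∈ S, ∀ s ∈ S, (r0 : ℤ) ∣ (r : ℤ) - s ∧ |((r : ℝ) - s)| ≤ B) :
    (S.card : ℝ) ≤ B / r0 + 1 := by
  rcases S.eq_empty_or_nonempty with rfl | hne
  · simp; positivity
  set a := S.min' hne with ha
  have haS : a ∈ S := Finset.min'_mem _ _
  have hr0' : (0 : ℝ) < r0 := by exact_mod_cast hr0
  have h1 : S.card ≤ (Finset.range (⌊B / r0⌋₊ + 1)).card := by
    refine Finset.card_le_card_of_injOn (fun r => (r - a) / r0) ?_ ?_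
    · intro r hr
      rw [Finset.mem_coe] at hr
      rw [Finset.mem_coe, Finset.mem_range, Nat.lt_succ_iff, Nat.le_floor_iff (by positivity)]
      have h2 := (h r hr a haS).2
      have h3 : a ≤ r := Finset.min'_le _ _ hr
      have h4 : (((r - a : ℕ)) : ℝ) ≤ B := by
        rw [Nat.cast_sub h3]
        exact (le_abs_self _).trans h2
      calc (((r - a) / r0 : ℕ) : ℝ) ≤ ((r - a : ℕ) : ℝ) / r0 := Nat.cast_div_le
        _ ≤ B / r0 := div_le_div_of_nonneg_right h4 hr0'.le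
    · intro r hr s hs heq
      rw [Finset.mem_coe] at hr hs
      simp only at heq
      have h3 : a ≤ r := Finset.min'_le _ _ hr
      have h4 : a ≤ s := Finset.min'_le _ _ hs
      have d1 : r0 ∣ r - a := by
        have := (h r hr a haS).1
        rw [← Nat.cast_sub h3] at this
        exact_mod_cast this
      have d2 : r0 ∣ s - a := by
        have := (h s hs a haS).1
        rw [← Nat.cast_sub h4] at this
        exact_mod_cast this
      have e1 := Nat.div_mul_cancel d1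
      have e2 := Nat.div_mul_cancel d2
      rw [heq] at e1
      omega
  rw [Finset.card_range] at h1
  have h2 : (S.card : ℝ) ≤ ((⌊B / r0⌋₊ + 1 : ℕ) : ℝ) := by exact_mod_cast h1
  have h3 := Nat.floor_le (show 0 ≤ B / r0 by positivity)
  push_cast at h2
  linarith

/-- **Structure of Bohr sets with many elements.** -/
theorem bohr {A : Finset ℕ} {a N : ℕ} (hN : 1 ≤ N) (hA : ∀ r ∈ A, a ≤ r ∧ r ≤ a + N)
    (hM : 3 ≤ A.card) {β ρ : ℝ} (hρ0 : 0 ≤ ρ) (hρ : 16 * N * ρ < A.card)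
    (h : ∀ r ∈ A, ∀ s ∈ A, |β * ((r : ℝ) - s) - round (β * ((r : ℝ) - s))| ≤ ρ) :
    ∃ r0 : ℕ, 1 ≤ r0 ∧ (r0 : ℝ) ≤ 2 * N / A.card + 1 ∧
      (∃ b : ℤ, |β - b / r0| < 1 / (4 * r0 * N)) ∧ ∀ r ∈ A, ∀ s ∈ A, (r0 : ℤ) ∣ (r : ℤ) - s := by
  classical
  set M := A.card with hMdef
  have hM0 : (0 : ℝ) < M := by exact_mod_cast (by omega : 0 < M)
  have hN0 : (0 : ℝ) < N := by exact_mod_cast hN
  -- step 1
  set D := 2 * N / M + 1 with hD
  have hcell : N / D + 1 < M := by
    have h1 : 2 * N < M * D := by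
      rw [hD]; exact Nat.lt_mul_div_succ (2 * N) (by omega)
    have h2 : N / D * D ≤ N := Nat.div_mul_le_self N D
    by_contra hcon
    push Not at hcon
    have h3 : M * D ≤ (N / D + 1) * D := Nat.mul_le_mul_right D hcon
    have h4 : (N / D + 1) * D = N / D * D + D := by ring
    have h5 : D ≤ 2 * N / 3 + 1 := by
      rw [hD]
      have h6 : 2 * N / M ≤ 2 * N / 3 := Nat.div_le_div_left (by omega) (by norm_num)
      omega
    have h6 : M * D ≤ N + D := h3.trans (by rw [h4]; omega)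
    omega
  obtain ⟨r, hr, s, hs, hrs, hsr⟩ := exists_close hA (by rw [hD]; exact Nat.le_add_left 1 _ : 1 ≤ D) hcell
  set d0 := s - r with hd0
  have hd0pos : 1 ≤ d0 := by omega
  have hd0D : d0 ≤ 2 * N / M := by omega
  have hd0r : (d0 : ℝ) = (s : ℝ) - r := by rw [hd0, Nat.cast_sub hrs.le]
  have hd0' : (0 : ℝ) < d0 := by exact_mod_cast hd0pos
  have hd0N : (d0 : ℝ) ≤ 2 * N / M := by
    have h1 : (d0 : ℝ) ≤ ((2 * N / M : ℕ) : ℝ) := by exact_mod_cast hd0D
    refine h1.trans ?_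
    have := Nat.cast_div_le (α := ℝ) (m := 2 * N) (n := M)
    push_cast at this
    exact this
  -- step 2
  set b0 : ℤ := round (β * ((s : ℝ) - r)) with hb0
  have h1 := h s hs r hr
  rw [← hb0, ← hd0r] at h1
  set x : ℚ := (b0 : ℚ) / (d0 : ℚ) with hx
  set r0 := x.den with hr0
  have hr0pos : 1 ≤ r0 := x.pos
  have hr0' : (0 : ℝ) < r0 := by exact_mod_cast hr0pos
  have hr0d : r0 ≤ d0 := by
    have h2 : ((x.den : ℕ) : ℤ) ∣ (d0 : ℤ) := by
      have := Rat.den_dvd b0 (d0 : ℤ)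
      rw [hx]
      simpa [Rat.divInt_eq_div] using this
    exact Nat.le_of_dvd (by omega) (by exact_mod_cast h2)
  have hr0d' : (r0 : ℝ) ≤ d0 := by exact_mod_cast hr0d
  have hxr : (x.num : ℝ) / r0 = (b0 : ℝ) / d0 := by
    have h2 : ((x : ℚ) : ℝ) = (x.num : ℝ) / r0 := Rat.cast_def x
    rw [← h2, hx]; push_cast; rfl
  set θ := β - (x.num : ℝ) / r0 with hθ
  have hθd : |θ| ≤ ρ / d0 := by
    rw [hθ, hxr, le_div_iff₀ hd0']
    have e1 : |β - b0 / d0| * d0 = |β * d0 - b0| := by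
      rw [← abs_of_pos hd0', ← abs_mul, abs_of_pos hd0']
      congr 1; field_simp
    rw [e1]; exact h1
  have hθr : |θ| ≤ ρ / r0 := hθd.trans (div_le_div_of_nonneg_left hρ0 hr0' hr0d')
  have hρr : ρ * r0 < 1 / 4 := by
    have h2 : ρ * r0 ≤ ρ * (2 * N / M) := mul_le_mul_of_nonneg_left (hr0d'.trans hd0N) hρ0
    have h3 : ρ * (2 * N / M) < 1 / 4 := by
      rw [← mul_div_assoc, div_lt_iff₀ hM0]; linarith
    linarith
  -- step 3
  have step3 : ∀ r ∈ A, ∀ s ∈ A, |((r : ℝ) - s)| * |θ| ≤ 1 / (4 * r0) →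
      (r0 : ℤ) ∣ (r : ℤ) - s ∧ |((r : ℝ) - s)| * |θ| ≤ ρ := by
    intro r hr s hs hsmall
    set k : ℤ := round (β * ((r : ℝ) - s)) with hk
    have h2 := h r hr s hs
    rw [← hk] at h2
    have e1 : β * ((r : ℝ) - s) = (x.num : ℝ) / r0 * ((r : ℝ) - s) + θ * ((r : ℝ) - s) := by
      rw [hθ]; ring
    have h3 : |θ * ((r : ℝ) - s)| ≤ 1 / (4 * r0) := by
      rw [abs_mul, mul_comm]; exact hsmall
    have h4 : |(x.num : ℝ) / r0 * ((r : ℝ) - s) - k| ≤ ρ + 1 / (4 * r0) := by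
      have e2 : (x.num : ℝ) / r0 * ((r : ℝ) - s) - k
          = (β * ((r : ℝ) - s) - k) - θ * ((r : ℝ) - s) := by rw [e1]; ring
      rw [e2]
      exact (abs_sub _ _).trans (add_le_add h2 h3)
    have h5 : |(x.num : ℝ) * ((r : ℝ) - s) - k * r0| < 1 := by
      have e2 : |(x.num : ℝ) * ((r : ℝ) - s) - k * r0|
          = |(x.num : ℝ) / r0 * ((r : ℝ) - s) - k| * r0 := by
        rw [← abs_of_pos hr0', ← abs_mul, abs_of_pos hr0']
        congr 1; field_simp
      rw [e2]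
      calc |(x.num : ℝ) / r0 * ((r : ℝ) - s) - k| * r0 ≤ (ρ + 1 / (4 * r0)) * r0 :=
            mul_le_mul_of_nonneg_right h4 hr0'.le
        _ = ρ * r0 + 1 / 4 := by field_simp
        _ < 1 := by linarith
    have h6 : x.num * ((r : ℤ) - s) - k * r0 = 0 := by
      have h7 : |(((x.num * ((r : ℤ) - s) - k * r0 : ℤ)) : ℝ)| < 1 := by push_cast; exact h5
      have h8 : |(x.num * ((r : ℤ) - s) - k * r0 : ℤ)| < 1 := by exact_mod_cast h7
      exact Int.abs_lt_one_iff.mp h8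
    have hcop : IsCoprime (x.den : ℤ) x.num := by
      have := x.reduced
      exact (Int.isCoprime_iff_nat_coprime.mpr (by simpa using this)).symm
    have hdvd : (r0 : ℤ) ∣ (r : ℤ) - s := by
      have h7 : (r0 : ℤ) ∣ x.num * ((r : ℤ) - s) := ⟨k, by linarith⟩
      exact hcop.dvd_of_dvd_mul_left h7
    refine ⟨hdvd, ?_⟩
    have h7 : (x.num : ℝ) * ((r : ℝ) - s) = k * r0 := by
      have : (((x.num * ((r : ℤ) - s) - k * r0 : ℤ)) : ℝ) = 0 := by rw [h6]; simp
      push_cast at this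
      linarith
    have h8 : (x.num : ℝ) / r0 * ((r : ℝ) - s) = k := by
      field_simp
      linarith
    rw [e1, h8] at h2
    have e3 : (k : ℝ) + θ * ((r : ℝ) - s) - k = θ * ((r : ℝ) - s) := by ring
    rw [e3, abs_mul, mul_comm] at h2
    exact h2
  -- step 4
  have step4 : |θ| < 1 / (4 * r0 * N) := by
    by_contra hcon
    push Not at hcon
    have hθ0 : 0 < |θ| := lt_of_lt_of_le (by positivity) hcon
    set Λ := 1 / (4 * r0 * |θ|) with hΛ
    have hΛ0 : 0 < Λ := by positivity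
    have hΛN : Λ ≤ N := by
      rw [hΛ, div_le_iff₀ (by positivity)]
      rw [div_le_iff₀ (by positivity)] at hcon
      linarith
    -- cells
    have hfib : ∀ c ∈ A.image (fun r : ℕ => ⌊((r : ℝ) - a) / Λ⌋₊),
        (A.filter (fun r : ℕ => ⌊((r : ℝ) - a) / Λ⌋₊ = c)).card ≤ ⌊ρ / |θ| / r0 + 1⌋₊ := by
      intro c _
      rw [Nat.le_floor_iff (by positivity)]
      refine card_class_le hr0pos (by positivity) (fun r hr s hs => ?_)
      rw [Finset.mem_filter] at hr hs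
      have a1 : (a : ℝ) ≤ r := by exact_mod_cast (hA r hr.1).1
      have a2 : (a : ℝ) ≤ s := by exact_mod_cast (hA s hs.1).1
      have b1 : (0 : ℝ) ≤ ((r : ℝ) - a) / Λ := div_nonneg (by linarith) hΛ0.le
      have b2 : (0 : ℝ) ≤ ((s : ℝ) - a) / Λ := div_nonneg (by linarith) hΛ0.le
      have c1 := Nat.floor_le b1
      have c2 := Nat.lt_floor_add_one (((r : ℝ) - a) / Λ)
      have c3 := Nat.floor_le b2
      have c4 := Nat.lt_floor_add_one (((s : ℝ) - a) / Λ)
      rw [hr.2] at c1 c2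
      rw [hs.2] at c3 c4
      have hlt : |((r : ℝ) - s)| ≤ Λ := by
        rw [le_div_iff₀ hΛ0] at c1 c3
        rw [div_lt_iff₀ hΛ0] at c2 c4
        rw [abs_le]
        constructor <;> nlinarith
      have hsm : |((r : ℝ) - s)| * |θ| ≤ 1 / (4 * r0) := by
        calc |((r : ℝ) - s)| * |θ| ≤ Λ * |θ| := mul_le_mul_of_nonneg_right hlt hθ0.le
          _ = 1 / (4 * r0) := by rw [hΛ]; field_simp
      have := step3 r hr.1 s hs.1 hsm
      refine ⟨this.1, ?_⟩
      rw [le_div_iff₀ hθ0]; exact this.2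
    have hcard := Finset.card_le_mul_card_image (s := A) (f := fun r : ℕ => ⌊((r : ℝ) - a) / Λ⌋₊)
      (⌊ρ / |θ| / r0 + 1⌋₊) hfib
    have him : (A.image (fun r : ℕ => ⌊((r : ℝ) - a) / Λ⌋₊)).card ≤ ⌊N / Λ⌋₊ + 1 := by
      have hsub : A.image (fun r : ℕ => ⌊((r : ℝ) - a) / Λ⌋₊) ⊆ Finset.range (⌊N / Λ⌋₊ + 1) := by
        intro c hc
        rw [Finset.mem_image] at hc
        obtain ⟨r, hr, rfl⟩ := hc
        rw [Finset.mem_range, Nat.lt_succ_iff]
        refine Nat.floor_le_floor ?_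
        refine div_le_div_of_nonneg_right ?_ hΛ0.le
        have : (r : ℝ) ≤ (a : ℝ) + N := by exact_mod_cast (hA r hr).2
        linarith
      refine (Finset.card_le_card hsub).trans ?_
      rw [Finset.card_range]
    have h2 : (M : ℝ) ≤ (ρ / |θ| / r0 + 1) * (N / Λ + 1) := by
      have h3 : (M : ℝ) ≤ ((⌊ρ / |θ| / r0 + 1⌋₊ * (⌊N / Λ⌋₊ + 1) : ℕ) : ℝ) := by
        exact_mod_cast hcard.trans (Nat.mul_le_mul_left _ him)
      refine h3.trans ?_
      push_cast
      refine mul_le_mul (Nat.floor_le (by positivity)) ?_ (by positivity) (by positivity)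
      have := Nat.floor_le (show 0 ≤ (N : ℝ) / Λ by positivity)
      linarith
    have h3 : N / Λ + 1 ≤ 2 * (N / Λ) := by
      have : 1 ≤ N / Λ := (one_le_div hΛ0).mpr hΛN
      linarith
    have h4 : (M : ℝ) ≤ (ρ / |θ| / r0 + 1) * (2 * (N / Λ)) :=
      h2.trans (mul_le_mul_of_nonneg_left h3 (by positivity))
    have e1 : (ρ / |θ| / r0 + 1) * (2 * (N / Λ)) = 8 * N * ρ + 8 * N * (r0 * |θ|) := by
      rw [hΛ]; field_simp; ring
    rw [e1] at h4
    have h5 : r0 * |θ| ≤ ρ := by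
      rw [le_div_iff₀ hr0'] at hθr; linarith
    have h6 : 8 * N * (r0 * |θ|) ≤ 8 * N * ρ := mul_le_mul_of_nonneg_left h5 (by positivity)
    linarith
  refine ⟨r0, hr0pos, ?_, ⟨x.num, step4⟩, ?_⟩
  · linarith
  · intro r hr s hs
    refine (step3 r hr s hs ?_).1
    have h2 : |((r : ℝ) - s)| ≤ N := by
      have a1 : (a : ℝ) ≤ r := by exact_mod_cast (hA r hr).1
      have a2 : (a : ℝ) ≤ s := by exact_mod_cast (hA s hs).1
      have a3 : (r : ℝ) ≤ (a : ℝ) + N := by exact_mod_cast (hA r hr).2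
      have a4 : (s : ℝ) ≤ (a : ℝ) + N := by exact_mod_cast (hA s hs).2
      rw [abs_le]; constructor <;> linarith
    calc |((r : ℝ) - s)| * |θ| ≤ N * (1 / (4 * r0 * N)) :=
          mul_le_mul h2 step4.le (abs_nonneg _) hN0.le
      _ = 1 / (4 * r0) := by field_simp

end Pool.Agent.helper306_thin
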