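import Pool.Agent.helper306_cramer.Model

/-!
# Characters and the distribution of the sum of a random subset
-/

namespace Pool.Agent.helper306_thin

open Finset Pool.Agent.helper306_cramer

/-- complex expectation -/
noncomputable def ExC (p : ℕ → ℝ) (J : Finset ℕ) (Φ : Finset ℕ → ℂ) : ℂ :=
  ∑ A ∈ J.powerset, (wt p J A : ℂ) * Φ A

lemma ExC_empty (p : ℕ → ℝ) (Φ : Finset ℕ → ℂ) : ExC p ∅ Φ = Φ ∅ := by
  simp [ExC, wt]

lemma ExC_insert (p : ℕ → ℝ) {J : Finset ℕ} {a : ℕ} (ha : a ∉ J) (Φ : Finset ℕ → ℂ) :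
    ExC p (insert a J) Φ = (1 - p a) * ExC p J Φ + p a * ExC p J (fun A => Φ (insert a A)) := by
  unfold ExC
  rw [Finset.sum_powerset_insert ha, Finset.mul_sum, Finset.mul_sum]
  congr 1
  · refine Finset.sum_congr rfl (fun A hA => ?_)
    rw [wt_insert_notMem ha (Finset.mem_powerset.mp hA)]; push_cast; ring
  · refine Finset.sum_congr rfl (fun A hA => ?_)
    rw [wt_insert_mem ha]; push_cast; ring

lemma ExC_congr {p : ℕ → ℝ} {J : Finset ℕ} {Φ Ψ : Finset ℕ → ℂ} (h : ∀ A ⊆ J, Φ A = Ψ A) :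
    ExC p J Φ = ExC p J Ψ :=
  Finset.sum_congr rfl (fun A hA => by rw [h A (Finset.mem_powerset.mp hA)])

lemma ExC_mul_left (p : ℕ → ℝ) (J : Finset ℕ) (c : ℂ) (Φ : Finset ℕ → ℂ) :
    ExC p J (fun A => c * Φ A) = c * ExC p J Φ := by
  unfold ExC
  rw [Finset.mul_sum]
  exact Finset.sum_congr rfl (fun A _ => by ring)

lemma ExC_sum {ι : Type*} (p : ℕ → ℝ) (J : Finset ℕ) (s : Finset ι) (Φ : ι → Finset ℕ → ℂ) :
    ExC p J (fun A => ∑ i ∈ s, Φ i A) = ∑ i ∈ s, ExC p J (Φ i) := by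
  unfold ExC
  rw [Finset.sum_comm]
  exact Finset.sum_congr rfl (fun A _ => by rw [Finset.mul_sum])

lemma ofReal_Ex (p : ℕ → ℝ) (J : Finset ℕ) (Φ : Finset ℕ → ℝ) :
    ((Ex p J Φ : ℝ) : ℂ) = ExC p J (fun A => (Φ A : ℂ)) := by
  unfold Ex ExC
  push_cast
  rfl

lemma ExC_prod (p : ℕ → ℝ) (J : Finset ℕ) (z : ℕ → ℂ) :
    ExC p J (fun A => ∏ r ∈ A, z r) = ∏ r ∈ J, (1 - p r + p r * z r) := by
  induction J using Finset.induction_on with
  | empty => rw [ExC_empty]; simp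
  | insert a J ha ih =>
    rw [ExC_insert p ha, Finset.prod_insert ha, ← ih]
    have : ExC p J (fun A => ∏ r ∈ insert a A, z r) = z a * ExC p J (fun A => ∏ r ∈ A, z r) := by
      rw [← ExC_mul_left]
      exact ExC_congr (fun A hA => Finset.prod_insert (fun h => ha (hA h)))
    rw [this]; ring

/-- the character -/
noncomputable def ch (q : ℕ) [NeZero q] (t : ZMod q) : ℂ := ZMod.stdAddChar (N := q) t

variable {q : ℕ} [NeZero q]

lemma norm_ch (t : ZMod q) : ‖ch q t‖ = 1 := by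
  unfold ch
  rw [ZMod.stdAddChar_apply]
  exact Circle.norm_coe _

lemma ch_zero : ch q 0 = 1 := by
  unfold ch
  exact AddChar.map_zero_eq_one _

lemma ch_add (s t : ZMod q) : ch q (s + t) = ch q s * ch q t := by
  unfold ch
  exact AddChar.map_add_eq_mul _ _ _

lemma ch_sum {ι : Type*} (s : Finset ι) (f : ι → ZMod q) :
    ch q (∑ i ∈ s, f i) = ∏ i ∈ s, ch q (f i) := by
  classical
  induction s using Finset.induction_on with
  | empty => simp [ch_zero]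
  | insert a s ha ih => rw [Finset.sum_insert ha, Finset.prod_insert ha, ch_add, ih]

lemma sum_ch_mul (b : ZMod q) : ∑ x : ZMod q, ch q (x * b) = if b = 0 then (q : ℂ) else 0 := by
  classical
  have h := AddChar.sum_mulShift b (ZMod.isPrimitive_stdAddChar q)
  unfold ch
  rw [h]
  split_ifs <;> simp

/-- the probability of prescribed cardinality and sum, in terms of characters -/
lemma prob_le {p : ℕ → ℝ} (hp0 : ∀ m, 0 ≤ p m) (hp1 : ∀ m, p m ≤ 1) (Q : Finset ℕ) (l n : ℕ) :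
    Ex p Q (fun A => if A.card = l ∧ ∑ m ∈ A, m = n then 1 else 0) * (q : ℝ) ^ 2
      ≤ ∑ v : ZMod q, ∑ u : ZMod q, ∏ r ∈ Q, ‖(1 - p r + p r * ch q (u + v * r) : ℂ)‖ := by
  classical
  set ind : Finset ℕ → ℝ := fun A =>
    if ((A.card : ZMod q) - l = 0 ∧ ((∑ m ∈ A, m : ℕ) : ZMod q) - n = 0) then 1 else 0 with hind
  have h1 : Ex p Q (fun A => if A.card = l ∧ ∑ m ∈ A, m = n then 1 else 0) ≤ Ex p Q ind := by
    refine Ex_mono hp0 hp1 (fun A _ => ?_)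
    rw [hind]
    simp only
    split_ifs with h2 h3 h3
    · exact le_rfl
    · exfalso
      apply h3
      rw [h2.1, h2.2]; simp
    · exact zero_le_one
    · exact le_rfl
  have key : ((Ex p Q ind * (q : ℝ) ^ 2 : ℝ) : ℂ)
      = ∑ v : ZMod q, ∑ u : ZMod q, ch q (-(u * l + v * n)) *
        ∏ r ∈ Q, (1 - p r + p r * ch q (u + v * r) : ℂ) := by
    have e1 : ∀ A : Finset ℕ, ((ind A : ℝ) : ℂ) * (q : ℂ) ^ 2
        = ∑ v : ZMod q, ∑ u : ZMod q, ch q (-(u * l + v * n)) * ∏ r ∈ A, ch q (u + v * r) := by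
      intro A
      have e2 : ∀ v u : ZMod q, ch q (-(u * l + v * n)) * ∏ r ∈ A, ch q (u + v * r)
          = ch q (v * (((∑ m ∈ A, m : ℕ) : ZMod q) - n)) * ch q (u * ((A.card : ZMod q) - l)) := by
        intro v u
        rw [← ch_sum, ← ch_add, ← ch_add]
        congr 1
        rw [Finset.sum_add_distrib, Finset.sum_const, ← Finset.mul_sum, nsmul_eq_mul]
        push_cast
        ring
      simp_rw [e2, ← Finset.mul_sum]
      rw [← Finset.sum_mul, sum_ch_mul, sum_ch_mul, hind]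
      simp only
      by_cases h2 : (A.card : ZMod q) - l = 0
      · by_cases h3 : ((∑ m ∈ A, m : ℕ) : ZMod q) - n = 0
        · rw [if_pos ⟨h2, h3⟩, if_pos h3, if_pos h2]; push_cast; ring
        · rw [if_neg (fun h => h3 h.2), if_neg h3]; push_cast; ring
      · rw [if_neg (fun h => h2 h.1), if_neg h2]; push_cast; ring
    have e3 : ((Ex p Q ind * (q : ℝ) ^ 2 : ℝ) : ℂ) = ExC p Q (fun A => (ind A : ℂ) * (q : ℂ) ^ 2) := by
      push_cast
      rw [ofReal_Ex, mul_comm, ← ExC_mul_left]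
      exact ExC_congr (fun A _ => by ring)
    rw [e3, ExC_congr (fun A _ => e1 A), ExC_sum]
    refine Finset.sum_congr rfl (fun v _ => ?_)
    rw [ExC_sum]
    refine Finset.sum_congr rfl (fun u _ => ?_)
    rw [ExC_mul_left, ExC_prod]
  have h2 : Ex p Q ind * (q : ℝ) ^ 2 ≤ ‖((Ex p Q ind * (q : ℝ) ^ 2 : ℝ) : ℂ)‖ := by
    rw [Complex.norm_real]; exact le_abs_self _
  have h3 : Ex p Q ind * (q : ℝ) ^ 2
      ≤ ∑ v : ZMod q, ∑ u : ZMod q, ∏ r ∈ Q, ‖(1 - p r + p r * ch q (u + v * r) : ℂ)‖ := by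
    refine h2.trans ?_
    rw [key]
    refine (norm_sum_le _ _).trans (Finset.sum_le_sum (fun v _ => ?_))
    refine (norm_sum_le _ _).trans (Finset.sum_le_sum (fun u _ => ?_))
    rw [norm_mul, norm_ch, one_mul, norm_prod]
  exact (mul_le_mul_of_nonneg_right h1 (by positivity)).trans h3

/-- one factor -/
lemma factor_le {p : ℝ} (h0 : 0 ≤ p) (h1 : p ≤ 1) {z : ℂ} (hz : ‖z‖ = 1) :
    ‖(1 - p + p * z : ℂ)‖ ≤ Real.exp (-(p * (1 - p) * ‖1 - z‖ ^ 2 / 2)) := by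
  have hz2 : z.re * z.re + z.im * z.im = 1 := by
    have := Complex.normSq_eq_norm_sq z
    rw [Complex.normSq_apply, hz] at this
    linarith
  have e1 : ‖(1 - p + p * z : ℂ)‖ ^ 2 = 1 - p * (1 - p) * ‖1 - z‖ ^ 2 := by
    rw [← Complex.normSq_eq_norm_sq, ← Complex.normSq_eq_norm_sq, Complex.normSq_apply,
      Complex.normSq_apply]
    simp only [Complex.add_re, Complex.sub_re, Complex.one_re, Complex.ofReal_re, Complex.mul_re,
      Complex.ofReal_im, zero_mul, sub_zero, Complex.add_im, Complex.sub_im, Complex.one_im,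
      Complex.mul_im, add_zero, zero_sub]
    nlinarith
  have h2 : ‖(1 - p + p * z : ℂ)‖ ^ 2 ≤ (Real.exp (-(p * (1 - p) * ‖1 - z‖ ^ 2 / 2))) ^ 2 := by
    rw [e1, ← Real.exp_nat_mul]
    have h3 := Real.add_one_le_exp (-(p * (1 - p) * ‖1 - z‖ ^ 2))
    have e2 : ((2 : ℕ) : ℝ) * -(p * (1 - p) * ‖1 - z‖ ^ 2 / 2) = -(p * (1 - p) * ‖1 - z‖ ^ 2) := by
      push_cast; ring
    rw [e2]
    linarith
  exact le_of_sq_le_sq h2 (Real.exp_pos _).le
where
  le_of_sq_le_sq {a b : ℝ} (h : a ^ 2 ≤ b ^ 2) (hb : 0 ≤ b) : a ≤ b := by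
    nlinarith [abs_nonneg a, le_abs_self a, sq_abs a, abs_le_of_sq_le_sq h hb]

/-- the quadratic form -/
noncomputable def Vf (q : ℕ) [NeZero q] (Q : Finset ℕ) (u v : ZMod q) : ℝ :=
  ∑ r ∈ Q, ‖1 - ch q (u + v * r)‖ ^ 2

lemma Vf_nonneg (Q : Finset ℕ) (u v : ZMod q) : 0 ≤ Vf q Q u v :=
  Finset.sum_nonneg (fun _ _ => sq_nonneg _)

lemma prod_le_exp {p : ℕ → ℝ} (hp0 : ∀ m, 0 ≤ p m) (hp1 : ∀ m, p m ≤ 1) {Q : Finset ℕ} {t : ℝ}
    (ht : ∀ r ∈ Q, t ≤ p r * (1 - p r)) (u v : ZMod q) :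
    ∏ r ∈ Q, ‖(1 - p r + p r * ch q (u + v * r) : ℂ)‖ ≤ Real.exp (-(t * Vf q Q u v / 2)) := by
  have h1 : ∏ r ∈ Q, ‖(1 - p r + p r * ch q (u + v * r) : ℂ)‖
      ≤ ∏ r ∈ Q, Real.exp (-(t * ‖1 - ch q (u + v * r)‖ ^ 2 / 2)) := by
    refine Finset.prod_le_prod (fun _ _ => norm_nonneg _) (fun r hr => ?_)
    refine (factor_le (hp0 r) (hp1 r) (norm_ch _)).trans ?_
    refine Real.exp_le_exp.mpr ?_
    have := mul_le_mul_of_nonneg_right (ht r hr) (sq_nonneg ‖1 - ch q (u + v * r)‖)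
    linarith
  refine h1.trans (le_of_eq ?_)
  rw [← Real.exp_sum]
  congr 1
  unfold Vf
  rw [Finset.sum_neg_distrib, Finset.mul_sum, Finset.sum_div]

end Pool.Agent.helper306_thin
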