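import Pool.Agent.helper306_thin.Det2
import Pool.Agent.helper306_thin.Approx

/-!
# Almost sure concentration
-/

namespace Pool.Agent.helper306_thin

open Finset Filter Topology MeasureTheory ProbabilityTheory Pool.Agent.helper306_cramer

/-- there is no low and no high window with sum `n` -/
noncomputable def HH (q i n : ℕ) (A : Finset ℕ) : ℝ :=
  if cnt (A ∩ LowI q i) n = 0 ∧ cnt (A ∩ HighI q i) n = 0 then 1 else 0

lemma HH_nonneg (q i n : ℕ) (A : Finset ℕ) : 0 ≤ HH q i n A := by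
  unfold HH; split_ifs <;> norm_num

lemma HH_le_one (q i n : ℕ) (A : Finset ℕ) : HH q i n A ≤ 1 := by
  unfold HH; split_ifs <;> norm_num

/-- the weighted sum -/
noncomputable def YS (p : ℕ → ℝ) (q i : ℕ) (z : ℝ) (A : Finset ℕ) : ℝ :=
  ∑ n ∈ XX q i, HH q i n A * (z ^ (FS (NB q i) (Ib (i / q)) n A)
    - Ex p (WL i) (fun B => z ^ (FS (NB q i) (Ib (i / q)) n B)))

lemma NB_sub_WL {q i : ℕ} : ∀ s ∈ NB q i, Ib (i / q) s ⊆ WL i := by
  intro s hs m hm
  rw [mem_NB] at hs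
  have h1 := le_JL q i
  have h2 := yb_add_le (e := i / q) (s := s) (by omega) hs.2
  have h3 : 2 ^ (s.1 + 1) ≤ 2 ^ (i + 1) := Nat.pow_le_pow_right (by norm_num) (by omega)
  have h4 := yb_pos (i / q) s
  unfold Ib at hm
  rw [Finset.mem_Ico] at hm
  unfold WL
  rw [Finset.mem_Icc]
  omega

/-- the second moment -/
lemma YS_var {p : ℕ → ℝ} (hp0 : ∀ m, 0 ≤ p m) (hp1 : ∀ m, p m ≤ 1) {q i : ℕ} (hq : 20 ≤ q)
    (hi : 40 ≤ i) {z : ℝ} (hz0 : 0 ≤ z) (hz1 : z ≤ 1) :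
    Ex p (WL i) (fun A => (YS p q i z A) ^ 2) ≤ 2 * (i + 1) / 2 ^ (i / q) * (2 ^ i) ^ 2 := by
  classical
  have he20 : i / q ≤ i / 20 := Nat.div_le_div_left hq (by norm_num)
  have hJ' : JL q i = (i + 3) / 2 + 2 * (i / q) := rfl
  set Fr := LowI q i ∪ HighI q i with hFr
  set Nr := Finset.Ico (2 ^ JL q i) (2 ^ (i - 4 * (i / q) + 1)) with hNr
  have hpow1 : 2 ^ JL q i ≤ 2 ^ (i - 4 * (i / q) + 1) := Nat.pow_le_pow_right (by norm_num) (by omega)
  have hpow2 : 2 ^ (i - 4 * (i / q) + 1) ≤ 2 ^ (i + 1) := Nat.pow_le_pow_right (by norm_num) (by omega)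
  have hpos : 0 < 2 ^ JL q i := by positivity
  have h1 := var_weight (p := p) hp0 hp1 (NB q i) (yb (i / q)) (Lb (i / q))
    (fun s _ => yb_pos (i / q) s) (blocks_disjoint (le_JL q i)) (Fr := Fr) (Nr := Nr) (W := WL i)
    (fun s hs m hm => by
      rw [mem_NB] at hs
      have h1 := le_JL q i
      have h2 := yb_add_le (e := i / q) (s := s) (by omega) hs.2
      have h3 : 2 ^ (s.1 + 1) ≤ 2 ^ (i - 4 * (i / q) + 1) :=
        Nat.pow_le_pow_right (by norm_num) (by omega)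
      have h4 := yb_ge (e := i / q) (s := s) (by omega)
      have h5 : 2 ^ JL q i ≤ 2 ^ s.1 := Nat.pow_le_pow_right (by norm_num) hs.1.1
      rw [Finset.mem_Ico] at hm
      rw [hNr, Finset.mem_Ico]; omega)
    (by
      rw [hFr, hNr, Finset.disjoint_union_left]
      unfold LowI HighI
      constructor
      · rw [Finset.disjoint_left]; intro a; rw [Finset.mem_Ico, Finset.mem_Ico]; omega
      · rw [Finset.disjoint_left]; intro a; rw [Finset.mem_Ico, Finset.mem_Ico]; omega)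
    (by
      intro a ha
      rw [hFr, Finset.mem_union] at ha
      unfold LowI HighI at ha
      unfold WL
      rw [Finset.mem_Ico, Finset.mem_Ico] at ha
      have : 0 < 2 ^ (i - 4 * (i / q) + 1) := by positivity
      rw [Finset.mem_Icc]; omega)
    (by
      intro a ha
      rw [hNr, Finset.mem_Ico] at ha
      unfold WL
      rw [Finset.mem_Icc]; omega)
    (2 ^ i) (X := XX q i) (fun n hn => by
      rw [mem_XX] at hn
      have h0 : 0 < 2 ^ (i - i / q) := by positivity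
      rw [Finset.mem_Icc]; omega) hz0 hz1 (fun n B => HH q i n B)
    (fun n B => HH_nonneg q i n B) (fun n B => HH_le_one q i n B)
  have h2 : ∀ n A, HH q i n (A ∩ Fr) = HH q i n A := by
    intro n A
    unfold HH
    have e1 : A ∩ Fr ∩ LowI q i = A ∩ LowI q i := by
      rw [Finset.inter_assoc, hFr, Finset.inter_eq_right.mpr Finset.subset_union_left]
    have e2 : A ∩ Fr ∩ HighI q i = A ∩ HighI q i := by
      rw [Finset.inter_assoc, hFr, Finset.inter_eq_right.mpr Finset.subset_union_right]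
    rw [e1, e2]
  have h3 : Ex p (WL i) (fun A => (YS p q i z A) ^ 2) ≤
      ∑ s ∈ NB q i, 2 * ((Lb (i / q) s * (2 ^ i / yb (i / q) s) : ℕ) : ℝ) ^ 2 := by
    refine le_trans (le_of_eq ?_) h1
    refine Ex_congr (fun A _ => ?_)
    unfold YS
    congr 1
    refine Finset.sum_congr rfl (fun n _ => ?_)
    rw [h2]
    rfl
  refine h3.trans ?_
  have h4 : ∀ s ∈ NB q i, 2 * ((Lb (i / q) s * (2 ^ i / yb (i / q) s) : ℕ) : ℝ) ^ 2
      ≤ 2 * ((2 : ℝ) ^ i / 2 ^ (i / q)) ^ 2 := by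
    intro s _
    have h5 := Lb_div_le (i / q) s (2 ^ i)
    have h6 : (0 : ℝ) ≤ ((Lb (i / q) s * (2 ^ i / yb (i / q) s) : ℕ) : ℝ) := Nat.cast_nonneg _
    push_cast at h5 h6 ⊢
    have := pow_le_pow_left₀ h6 h5 2
    linarith
  refine (Finset.sum_le_sum h4).trans ?_
  rw [Finset.sum_const, nsmul_eq_mul]
  have hcard := card_NB q i
  calc ((NB q i).card : ℝ) * (2 * ((2 : ℝ) ^ i / 2 ^ (i / q)) ^ 2)
      ≤ ((i + 1) * 2 ^ (i / q)) * (2 * ((2 : ℝ) ^ i / 2 ^ (i / q)) ^ 2) :=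
        mul_le_mul_of_nonneg_right hcard (by positivity)
    _ = 2 * (i + 1) / 2 ^ (i / q) * (2 ^ i) ^ 2 := by field_simp

variable {Ω : Type*} [MeasurableSpace Ω] {μ : Measure Ω} [IsProbabilityMeasure μ]

/-- one scale -/
lemma conc_one {p : ℕ → ℝ} (hp0 : ∀ m, 0 ≤ p m) (hp1 : ∀ m, p m ≤ 1) {E : ℕ → Set Ω}
    (hm : ∀ m, MeasurableSet (E m)) (hi' : iIndepSet E μ)
    (hp : ∀ m, μ (E m) = ENNReal.ofReal (p m)) {q i : ℕ} (hq : 20 ≤ q)
    (hi : 40 ≤ i) {z : ℝ} (hz0 : 0 ≤ z) (hz1 : z ≤ 1) (M : ℕ) :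
    μ {ω | ¬ |YS p q i z (Rf (WL i) (Rs E ω))| ≤ 2 ^ i / ((M : ℝ) + 1)}
      ≤ ENNReal.ofReal (2 * ((M : ℝ) + 1) ^ 2 * ((i : ℝ) + 1) / 2 ^ (i / q)) := by
  classical
  rw [measure_Rf hm hi' hp0 hp1 (fun m _ => hp m)
    (fun A => ¬ |YS p q i z A| ≤ 2 ^ i / ((M : ℝ) + 1))]
  refine ENNReal.ofReal_le_ofReal ?_
  have h1 := Ex_indicator_le (p := p) hp0 hp1
    (J := WL i) (Φ := fun A => (YS p q i z A) ^ 2)
    (fun A _ => sq_nonneg _) (t := ((2 : ℝ) ^ i / ((M : ℝ) + 1)) ^ 2) (by positivity)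
    (fun A => ¬ |YS p q i z A| ≤ 2 ^ i / ((M : ℝ) + 1)) (fun A _ hA => by
      push Not at hA
      rw [← sq_abs (YS p q i z A)]
      exact pow_le_pow_left₀ (by positivity) hA.le 2)
  refine h1.trans ?_
  have h2 := YS_var hp0 hp1 hq hi hz0 hz1
  rw [div_le_iff₀ (by positivity)]
  refine h2.trans (le_of_eq ?_)
  field_simp

/-- almost sure concentration along the powers of two -/
theorem ae_conc' {p : ℕ → ℝ} (hp0 : ∀ m, 0 ≤ p m) (hp1 : ∀ m, p m ≤ 1) {E : ℕ → Set Ω}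
    (hm : ∀ m, MeasurableSet (E m)) (hi' : iIndepSet E μ)
    (hp : ∀ m, μ (E m) = ENNReal.ofReal (p m)) {q : ℕ} (hq : 20 ≤ q)
    {z : ℝ} (hz0 : 0 ≤ z) (hz1 : z ≤ 1) (M : ℕ) :
    ∀ᵐ ω ∂μ, ∀ᶠ i : ℕ in atTop,
      |YS p q i z (Rf (WL i) (Rs E ω))| ≤ 2 ^ i / ((M : ℝ) + 1) := by
  classical
  obtain ⟨N, hN⟩ := ((ev_pow 8 3 (q := q) (by omega)).and
    (eventually_ge_atTop 40)).exists_forall_of_atTop
  set s : ℕ → Set Ω := fun i => if N ≤ i then
    {ω | ¬ |YS p q i z (Rf (WL i) (Rs E ω))| ≤ 2 ^ i / ((M : ℝ) + 1)} else ∅ with hs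
  have hb : ∀ i, μ (s i) ≤ ENNReal.ofReal (2 * ((M : ℝ) + 1) ^ 2 * (1 / ((i : ℝ) + 1) ^ 2)) := by
    intro i
    rw [hs]
    simp only
    split_ifs with h
    · obtain ⟨h1, h2⟩ := hN i h
      refine (conc_one hp0 hp1 hm hi' hp hq h2 hz0 hz1 M).trans (ENNReal.ofReal_le_ofReal ?_)
      have hi0 : (40 : ℝ) ≤ i := by exact_mod_cast h2
      have h3 : ((i : ℝ) + 1) ^ 3 ≤ 2 ^ (i / q) := by
        refine le_trans ?_ h1
        have : ((i : ℝ) + 1) ^ 3 ≤ (2 * i) ^ 3 := pow_le_pow_left₀ (by positivity) (by linarith) 3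
        refine this.trans (le_of_eq ?_)
        ring
      rw [div_le_iff₀ (by positivity)]
      have e1 : 2 * ((M : ℝ) + 1) ^ 2 * (1 / ((i : ℝ) + 1) ^ 2) * 2 ^ (i / q)
          = 2 * ((M : ℝ) + 1) ^ 2 * (2 ^ (i / q) / ((i : ℝ) + 1) ^ 2) := by ring
      rw [e1]
      refine mul_le_mul_of_nonneg_left ?_ (by positivity)
      rw [le_div_iff₀ (by positivity)]
      refine le_trans (le_of_eq ?_) h3
      ring
    · simp
  have hsum : ∑' i, μ (s i) ≠ ⊤ := by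
    have hS : Summable (fun i : ℕ => 2 * ((M : ℝ) + 1) ^ 2 * (1 / ((i : ℝ) + 1) ^ 2)) := by
      refine Summable.mul_left _ ?_
      have h := (summable_nat_add_iff (f := fun n : ℕ => 1 / (n : ℝ) ^ 2) 1).mpr
        (Real.summable_one_div_nat_pow.mpr (by norm_num))
      refine h.congr (fun i => ?_)
      push_cast; rfl
    have h1 : ∑' i, μ (s i) ≤ ∑' i : ℕ, ENNReal.ofReal (2 * ((M : ℝ) + 1) ^ 2 * (1 / ((i : ℝ) + 1) ^ 2)) :=
      ENNReal.tsum_le_tsum hb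
    rw [← ENNReal.ofReal_tsum_of_nonneg (fun i => by positivity) hS] at h1
    exact ne_top_of_le_ne_top ENNReal.ofReal_ne_top h1
  filter_upwards [ae_eventually_notMem hsum] with ω hω
  filter_upwards [hω, eventually_ge_atTop N] with i hi1 hi2
  rw [hs] at hi1
  simp only [if_pos hi2] at hi1
  by_contra hcon
  exact hi1 hcon

end Pool.Agent.helper306_thin
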