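import Pool.Agent.helper306_thin.Conc

/-!
# The number of integers with exactly `k` windows
-/

namespace Pool.Agent.helper306_thin

open Finset Filter Topology MeasureTheory ProbabilityTheory Pool.Agent.helper306_cramer

variable {p : ℕ → ℝ}

lemma La_nonneg (hp : PD p) (q i n : ℕ) : 0 ≤ La p (NB q i) (Ib (i / q)) n :=
  Finset.sum_nonneg (fun s _ => Ex_nonneg hp.nonneg hp.le_one (fun A _ => Nat.cast_nonneg _))

/-- the good integers -/
noncomputable def GG (p : ℕ → ℝ) (q i : ℕ) (c' C'' : ℝ) (A : Finset ℕ) : Finset ℕ := by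
  classical
  exact (XX q i).filter (fun n => c' ≤ La p (NB q i) (Ib (i / q)) n ∧
    La p (NB q i) (Ib (i / q)) n ≤ C'' ∧ HH q i n A = 1)

theorem count_lower (hp : PD p) {q i : ℕ} {A : Finset ℕ} (hA : A ⊆ WL i) {k : ℕ} {c : ℚ →₀ ℝ}
    {η : ℝ} (hc : ∀ X : ℕ, |(if X = k then (1 : ℝ) else 0) - ev X c| ≤ η) {M : ℕ} {ρ : ℝ}
    (hYS : ∀ z ∈ c.support, |YS p q i z A| ≤ 2 ^ i / ((M : ℝ) + 1))
    (hmean : ∀ z ∈ c.support, ∑ n ∈ XX q i, |Ex p (WL i) (fun B => (z : ℝ) ^ (FS (NB q i) (Ib (i / q)) n B))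
        - Real.exp (-((1 - (z : ℝ)) * La p (NB q i) (Ib (i / q)) n))| ≤ 2 ^ i * ρ)
    (hcross : ∑ n ∈ Finset.Icc 1 (2 ^ i), (crossN q i A n : ℝ) ≤ 2 ^ i * ρ)
    {c' C'' g : ℝ} (hc' : 0 ≤ c') (hg : g * 2 ^ i ≤ ((GG p q i c' C'' A).card : ℝ)) :
    (g * (Real.exp (-C'') * c' ^ k / k.factorial) - 2 * η
        - (∑ z ∈ c.support, |c z|) * (1 / ((M : ℝ) + 1) + ρ) - ρ) * 2 ^ i
      ≤ (((XX q i).filter (fun n => cnt A n = k)).card : ℝ) := by
  classical
  set X := XX q i with hX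
  set lam : ℕ → ℝ := fun n => La p (NB q i) (Ib (i / q)) n with hlam
  set F : ℕ → ℕ := fun n => FS (NB q i) (Ib (i / q)) n A with hF
  set H : ℕ → ℝ := fun n => HH q i n A with hH
  have h2i : (0 : ℝ) < 2 ^ i := by positivity
  have hη : 0 ≤ η := (abs_nonneg _).trans (hc 0)
  have hH0 : ∀ n, 0 ≤ H n := fun n => HH_nonneg q i n A
  have hH1 : ∀ n, H n ≤ 1 := fun n => HH_le_one q i n A
  have hXsub : X ⊆ Finset.Icc 1 (2 ^ i) := by
    intro n hn
    rw [hX, mem_XX] at hn
    have h0 : 0 < 2 ^ (i - i / q) := by positivity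
    rw [Finset.mem_Icc]; omega
  have hXcard : (X.card : ℝ) ≤ 2 ^ i := by
    have := Finset.card_le_card hXsub
    rw [Nat.card_Icc, Nat.add_sub_cancel] at this
    exact_mod_cast this
  -- (a)
  have ha : ∑ n ∈ X, H n * (if F n = k then (1 : ℝ) else 0)
      ≤ ((X.filter (fun n => cnt A n = k)).card : ℝ) + 2 ^ i * ρ := by
    have h1 : ∀ n ∈ X, H n * (if F n = k then (1 : ℝ) else 0)
        ≤ (if cnt A n = k then (1 : ℝ) else 0) + (crossN q i A n : ℝ) := by
      intro n _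
      have h0 : (0 : ℝ) ≤ (crossN q i A n : ℝ) := Nat.cast_nonneg _
      have h0' : (0 : ℝ) ≤ (if cnt A n = k then (1 : ℝ) else 0) := by split_ifs <;> norm_num
      by_cases h2 : F n = k
      · rw [if_pos h2, mul_one]
        by_cases h3 : crossN q i A n = 0
        · by_cases h4 : cnt (A ∩ LowI q i) n = 0 ∧ cnt (A ∩ HighI q i) n = 0
          · have h5 := cnt_eq_FS hA n h4.1 h4.2 h3
            have h6 : cnt A n = k := by rw [h5]; exact h2
            rw [if_pos h6]
            linarith [hH1 n]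
          · have h5 : H n = 0 := by rw [hH]; simp only; unfold HH; rw [if_neg h4]
            rw [h5]; linarith
        · have h4 : (1 : ℝ) ≤ (crossN q i A n : ℝ) := by
            have : 1 ≤ crossN q i A n := by omega
            exact_mod_cast this
          linarith [hH1 n]
      · rw [if_neg h2, mul_zero]; linarith
    refine (Finset.sum_le_sum h1).trans ?_
    rw [Finset.sum_add_distrib]
    refine add_le_add (le_of_eq ?_) ?_
    · rw [← Finset.sum_filter, Finset.sum_const, nsmul_eq_mul, mul_one]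
    · refine le_trans ?_ hcross
      exact Finset.sum_le_sum_of_subset_of_nonneg hXsub (fun n _ _ => Nat.cast_nonneg _)
  -- (b)
  have hb : ∑ n ∈ X, H n * ev (F n) c - η * 2 ^ i ≤ ∑ n ∈ X, H n * (if F n = k then (1 : ℝ) else 0) := by
    have h1 : ∀ n ∈ X, H n * ev (F n) c - η ≤ H n * (if F n = k then (1 : ℝ) else 0) := by
      intro n _
      have h2 := (abs_le.mp (hc (F n))).1
      have h3 := mul_le_mul_of_nonneg_left h2 (hH0 n)
      have h4 : H n * η ≤ 1 * η := mul_le_mul_of_nonneg_right (hH1 n) hη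
      nlinarith
    have h2 := Finset.sum_le_sum h1
    rw [Finset.sum_sub_distrib, Finset.sum_const, nsmul_eq_mul] at h2
    have h3 : (X.card : ℝ) * η ≤ 2 ^ i * η := mul_le_mul_of_nonneg_right hXcard hη
    linarith
  -- (c)
  have hcc : ∑ z ∈ c.support, c z * (∑ n ∈ X, H n * Real.exp (-((1 - (z : ℝ)) * lam n)))
      - (∑ z ∈ c.support, |c z|) * (1 / ((M : ℝ) + 1) + ρ) * 2 ^ i ≤ ∑ n ∈ X, H n * ev (F n) c := by
    have e1 : ∑ n ∈ X, H n * ev (F n) c = ∑ z ∈ c.support, c z * (∑ n ∈ X, H n * (z : ℝ) ^ (F n)) := by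
      have : ∀ n ∈ X, H n * ev (F n) c = ∑ z ∈ c.support, c z * (H n * (z : ℝ) ^ (F n)) := by
        intro n _
        rw [ev_apply, Finset.mul_sum]
        exact Finset.sum_congr rfl (fun z _ => by ring)
      rw [Finset.sum_congr rfl this, Finset.sum_comm]
      exact Finset.sum_congr rfl (fun z _ => by rw [Finset.mul_sum])
    rw [e1, Finset.sum_mul, Finset.sum_mul, ← Finset.sum_sub_distrib]
    refine Finset.sum_le_sum (fun z hz => ?_)
    have h1 : |∑ n ∈ X, H n * (z : ℝ) ^ (F n) - ∑ n ∈ X, H n * Real.exp (-((1 - (z : ℝ)) * lam n))|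
        ≤ (1 / ((M : ℝ) + 1) + ρ) * 2 ^ i := by
      have e2 : ∑ n ∈ X, H n * (z : ℝ) ^ (F n) - ∑ n ∈ X, H n * Real.exp (-((1 - (z : ℝ)) * lam n))
          = YS p q i z A + ∑ n ∈ X, H n * (Ex p (WL i) (fun B => (z : ℝ) ^ (FS (NB q i) (Ib (i / q)) n B))
            - Real.exp (-((1 - (z : ℝ)) * lam n))) := by
        unfold YS
        rw [← Finset.sum_sub_distrib, ← hX, ← Finset.sum_add_distrib]
        exact Finset.sum_congr rfl (fun n _ => by ring)
      rw [e2]
      refine (abs_add_le _ _).trans ?_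
      have h2 := hYS z hz
      have h3 : |∑ n ∈ X, H n * (Ex p (WL i) (fun B => (z : ℝ) ^ (FS (NB q i) (Ib (i / q)) n B))
            - Real.exp (-((1 - (z : ℝ)) * lam n)))| ≤ 2 ^ i * ρ := by
        refine le_trans ?_ (hmean z hz)
        refine (Finset.abs_sum_le_sum_abs _ _).trans (Finset.sum_le_sum (fun n _ => ?_))
        rw [abs_mul, abs_of_nonneg (hH0 n)]
        exact mul_le_of_le_one_left (abs_nonneg _) (hH1 n)
      have e3 : (1 / ((M : ℝ) + 1) + ρ) * 2 ^ i = 2 ^ i / ((M : ℝ) + 1) + 2 ^ i * ρ := by ring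
      rw [e3]; linarith
    have h2 : c z * (∑ n ∈ X, H n * Real.exp (-((1 - (z : ℝ)) * lam n)))
        - c z * (∑ n ∈ X, H n * (z : ℝ) ^ (F n))
        ≤ |c z| * ((1 / ((M : ℝ) + 1) + ρ) * 2 ^ i) := by
      rw [← mul_sub]
      refine (le_abs_self _).trans ?_
      rw [abs_mul, abs_sub_comm]
      exact mul_le_mul_of_nonneg_left h1 (abs_nonneg _)
    linarith
  -- (d)
  have hd : g * (Real.exp (-C'') * c' ^ k / k.factorial) * 2 ^ i - η * 2 ^ i
      ≤ ∑ z ∈ c.support, c z * (∑ n ∈ X, H n * Real.exp (-((1 - (z : ℝ)) * lam n))) := by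
    have e1 : ∑ z ∈ c.support, c z * (∑ n ∈ X, H n * Real.exp (-((1 - (z : ℝ)) * lam n)))
        = ∑ n ∈ X, H n * (∑ z ∈ c.support, c z * Real.exp (-((1 - (z : ℝ)) * lam n))) := by
      have : ∀ z ∈ c.support, c z * (∑ n ∈ X, H n * Real.exp (-((1 - (z : ℝ)) * lam n)))
          = ∑ n ∈ X, H n * (c z * Real.exp (-((1 - (z : ℝ)) * lam n))) := by
        intro z _
        rw [Finset.mul_sum]
        exact Finset.sum_congr rfl (fun n _ => by ring)
      rw [Finset.sum_congr rfl this, Finset.sum_comm]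
      exact Finset.sum_congr rfl (fun n _ => by rw [Finset.mul_sum])
    rw [e1]
    set m : ℝ := Real.exp (-C'') * c' ^ k / k.factorial with hm
    have hm0 : 0 ≤ m := by positivity
    have h1 : ∀ n ∈ X, (if n ∈ GG p q i c' C'' A then m else 0) - η
        ≤ H n * (∑ z ∈ c.support, c z * Real.exp (-((1 - (z : ℝ)) * lam n))) := by
      intro n _
      have hl0 : 0 ≤ lam n := La_nonneg hp q i n
      have h2 := (abs_le.mp (poisson_avg hc hl0)).2
      have h3 : Real.exp (-lam n) * lam n ^ k / k.factorial - η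
          ≤ ∑ z ∈ c.support, c z * Real.exp (-((1 - (z : ℝ)) * lam n)) := by linarith
      have h4 := mul_le_mul_of_nonneg_left h3 (hH0 n)
      have h5 : 0 ≤ Real.exp (-lam n) * lam n ^ k / k.factorial := by positivity
      have h6 : H n * η ≤ 1 * η := mul_le_mul_of_nonneg_right (hH1 n) hη
      by_cases hn : n ∈ GG p q i c' C'' A
      · rw [if_pos hn]
        unfold GG at hn
        rw [Finset.mem_filter] at hn
        have hHn : H n = 1 := hn.2.2.2
        have h7 : m ≤ Real.exp (-lam n) * lam n ^ k / k.factorial := by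
          rw [hm]
          refine div_le_div_of_nonneg_right ?_ (by positivity)
          refine mul_le_mul (Real.exp_le_exp.mpr (neg_le_neg hn.2.2.1)) ?_ (by positivity)
            (Real.exp_pos _).le
          exact pow_le_pow_left₀ hc' hn.2.1 k
        rw [hHn] at h4 h6 ⊢
        linarith
      · rw [if_neg hn]
        have h8 := mul_nonneg (hH0 n) h5
        nlinarith
    have h2 := Finset.sum_le_sum h1
    rw [Finset.sum_sub_distrib, Finset.sum_const, nsmul_eq_mul] at h2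
    have h3 : ∑ n ∈ X, (if n ∈ GG p q i c' C'' A then m else 0) = ((GG p q i c' C'' A).card : ℝ) * m := by
      rw [← Finset.sum_filter, Finset.sum_const, nsmul_eq_mul]
      congr 2
      congr 1
      ext n
      rw [Finset.mem_filter]
      constructor
      · exact fun h => h.2
      · intro h
        refine ⟨?_, h⟩
        unfold GG at h
        exact (Finset.mem_filter.mp h).1
    rw [h3] at h2
    have h4 : (X.card : ℝ) * η ≤ 2 ^ i * η := mul_le_mul_of_nonneg_right hXcard hη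
    have h5 : g * 2 ^ i * m ≤ ((GG p q i c' C'' A).card : ℝ) * m := mul_le_mul_of_nonneg_right hg hm0
    calc g * m * 2 ^ i - η * 2 ^ i = g * 2 ^ i * m - 2 ^ i * η := by ring
      _ ≤ ((GG p q i c' C'' A).card : ℝ) * m - (X.card : ℝ) * η := by linarith
      _ ≤ _ := h2
  have e : (g * (Real.exp (-C'') * c' ^ k / k.factorial) - 2 * η
        - (∑ z ∈ c.support, |c z|) * (1 / ((M : ℝ) + 1) + ρ) - ρ) * 2 ^ i
      = (g * (Real.exp (-C'') * c' ^ k / k.factorial) * 2 ^ i - η * 2 ^ i)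
        - (∑ z ∈ c.support, |c z|) * (1 / ((M : ℝ) + 1) + ρ) * 2 ^ i - η * 2 ^ i - 2 ^ i * ρ := by ring
  rw [e]
  linarith

/-- the number of good integers -/
theorem card_GG (hp : PD p) {q i : ℕ} (hq : 20 ≤ q) (hi : 40 ≤ i) {A : Finset ℕ}
    (hP : ∀ a ∈ A, a.Prime) {c' cG C'' : ℝ} (hC : 0 < C'')
    (hmany : cG * 2 ^ i ≤ (((Finset.Icc 1 (2 ^ i)).filter
        (fun n => c' ≤ La p (NB q i) (Ib (i / q)) n)).card : ℝ)) :
    (cG - 1 / 2 ^ (i / q) - 8 / C'' - (4 / 2 ^ (i / q) + (3 * ((i / q : ℕ) : ℝ) + 2) * (16 / i))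
      - 32 * ((i / q : ℕ) : ℝ) / i) * 2 ^ i ≤ ((GG p q i c' C'' A).card : ℝ) := by
  classical
  set lam : ℕ → ℝ := fun n => La p (NB q i) (Ib (i / q)) n with hlam
  set T := (Finset.Icc 1 (2 ^ i)).filter (fun n => c' ≤ lam n) with hT
  set B1 := Finset.Icc 1 (2 ^ (i - i / q)) with hB1
  set B2 := (Finset.Icc 1 (2 ^ i)).filter (fun n => C'' < lam n) with hB2
  set B3 := (Finset.Icc 1 (2 ^ i)).filter (fun n => cnt (A ∩ LowI q i) n ≠ 0) with hB3
  set B4 := (Finset.Icc 1 (2 ^ i)).filter (fun n => cnt (A ∩ HighI q i) n ≠ 0) with hB4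
  have hsub : T ⊆ GG p q i c' C'' A ∪ (B1 ∪ (B2 ∪ (B3 ∪ B4))) := by
    intro n hn
    rw [hT, Finset.mem_filter, Finset.mem_Icc] at hn
    simp only [Finset.mem_union]
    by_cases h1 : n ≤ 2 ^ (i - i / q)
    · right; left; rw [hB1, Finset.mem_Icc]; exact ⟨hn.1.1, h1⟩
    · by_cases h2 : C'' < lam n
      · right; right; left; rw [hB2, Finset.mem_filter, Finset.mem_Icc]; exact ⟨hn.1, h2⟩
      · by_cases h3 : cnt (A ∩ LowI q i) n = 0
        · by_cases h4 : cnt (A ∩ HighI q i) n = 0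
          · left
            unfold GG
            rw [Finset.mem_filter, mem_XX]
            push Not at h1 h2
            refine ⟨⟨h1, hn.1.2⟩, hn.2, h2, ?_⟩
            unfold HH; rw [if_pos ⟨h3, h4⟩]
          · right; right; right; right
            rw [hB4, Finset.mem_filter, Finset.mem_Icc]; exact ⟨hn.1, h4⟩
        · right; right; right; left
          rw [hB3, Finset.mem_filter, Finset.mem_Icc]; exact ⟨hn.1, h3⟩
  have h0 : (T.card : ℝ) ≤ ((GG p q i c' C'' A).card : ℝ) + ((B1.card : ℝ) + ((B2.card : ℝ)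
      + ((B3.card : ℝ) + (B4.card : ℝ)))) := by
    have h1 := Finset.card_le_card hsub
    have h2 := Finset.card_union_le (GG p q i c' C'' A) (B1 ∪ (B2 ∪ (B3 ∪ B4)))
    have h3 := Finset.card_union_le B1 (B2 ∪ (B3 ∪ B4))
    have h4 := Finset.card_union_le B2 (B3 ∪ B4)
    have h5 := Finset.card_union_le B3 B4
    have : T.card ≤ (GG p q i c' C'' A).card + (B1.card + (B2.card + (B3.card + B4.card))) := by omega
    exact_mod_cast this
  have b1 : (B1.card : ℝ) ≤ 1 / 2 ^ (i / q) * 2 ^ i := by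
    rw [hB1, Nat.card_Icc, Nat.add_sub_cancel]
    push_cast
    rw [one_div, ← div_eq_inv_mul, le_div_iff₀ (by positivity), ← pow_add]
    refine pow_le_pow_right₀ (by norm_num) ?_
    have : i / q ≤ i := Nat.div_le_self _ _
    omega
  have b2 : (B2.card : ℝ) ≤ 8 / C'' * 2 ^ i := by
    have h1 := La_total hp hq hi
    have h2 : (B2.card : ℝ) * C'' ≤ ∑ n ∈ B2, lam n := by
      have := Finset.card_nsmul_le_sum B2 lam C'' (fun n hn => by
        rw [hB2, Finset.mem_filter] at hn; exact hn.2.le)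
      rwa [nsmul_eq_mul] at this
    have h3 : ∑ n ∈ B2, lam n ≤ ∑ n ∈ Finset.Icc 1 (2 ^ i), lam n :=
      Finset.sum_le_sum_of_subset_of_nonneg (Finset.filter_subset _ _)
        (fun n _ _ => La_nonneg hp q i n)
    rw [div_mul_eq_mul_div, le_div_iff₀ hC]
    linarith
  have b3 : (B3.card : ℝ) ≤ (4 / 2 ^ (i / q) + (3 * ((i / q : ℕ) : ℝ) + 2) * (16 / i)) * 2 ^ i := by
    have h1 := low_total hq hi hP
    have h2 : (B3.card : ℝ) ≤ ∑ n ∈ Finset.Icc 1 (2 ^ i), (cnt (A ∩ LowI q i) n : ℝ) := by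
      have h3 : (B3.card : ℝ) ≤ ∑ n ∈ B3, (cnt (A ∩ LowI q i) n : ℝ) := by
        have := Finset.card_nsmul_le_sum B3 (fun n => (cnt (A ∩ LowI q i) n : ℝ)) 1 (fun n hn => by
          rw [hB3, Finset.mem_filter] at hn
          have : 1 ≤ cnt (A ∩ LowI q i) n := by omega
          exact_mod_cast this)
        rwa [nsmul_eq_mul, mul_one] at this
      exact h3.trans (Finset.sum_le_sum_of_subset_of_nonneg (Finset.filter_subset _ _)
        (fun n _ _ => Nat.cast_nonneg _))
    linarith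
  have b4 : (B4.card : ℝ) ≤ (32 * ((i / q : ℕ) : ℝ) / i) * 2 ^ i := by
    have h1 := high_total hq hi hP
    have h2 : (B4.card : ℝ) ≤ ∑ n ∈ Finset.Icc 1 (2 ^ i), (cnt (A ∩ HighI q i) n : ℝ) := by
      have h3 : (B4.card : ℝ) ≤ ∑ n ∈ B4, (cnt (A ∩ HighI q i) n : ℝ) := by
        have := Finset.card_nsmul_le_sum B4 (fun n => (cnt (A ∩ HighI q i) n : ℝ)) 1 (fun n hn => by
          rw [hB4, Finset.mem_filter] at hn
          have : 1 ≤ cnt (A ∩ HighI q i) n := by omega
          exact_mod_cast this)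
        rwa [nsmul_eq_mul, mul_one] at this
      exact h3.trans (Finset.sum_le_sum_of_subset_of_nonneg (Finset.filter_subset _ _)
        (fun n _ _ => Nat.cast_nonneg _))
    linarith
  have e : (cG - 1 / 2 ^ (i / q) - 8 / C'' - (4 / 2 ^ (i / q) + (3 * ((i / q : ℕ) : ℝ) + 2) * (16 / i))
      - 32 * ((i / q : ℕ) : ℝ) / i) * 2 ^ i
      = cG * 2 ^ i - (1 / 2 ^ (i / q) * 2 ^ i) - 8 / C'' * 2 ^ i
        - (4 / 2 ^ (i / q) + (3 * ((i / q : ℕ) : ℝ) + 2) * (16 / i)) * 2 ^ i
        - (32 * ((i / q : ℕ) : ℝ) / i) * 2 ^ i := by ring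
  rw [e]
  linarith

end Pool.Agent.helper306_thin
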