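import Pool.Agent.helper306_thin.VarW
import Pool.Agent.helper306_cramer.Almost

/-!
# Deterministic estimates for the windows of a set of primes
-/

namespace Pool.Agent.helper306_thin

open Finset Filter Topology Pool.Agent.helper306_cramer

/-- the number of windows with sum at most `x` -/
lemma total_le {B : Finset ℕ} (hB : ∀ a ∈ B, 1 ≤ a) (x : ℕ) :
    ∑ n ∈ Finset.Icc 1 x, cnt B n ≤ ∑ a ∈ B, x / a := by
  classical
  rw [sum_cnt_eq]
  have h1 : ((Wn B).filter (fun ab => 1 ≤ ∑ m ∈ sg B ab.1 ab.2, m ∧ ∑ m ∈ sg B ab.1 ab.2, m ≤ x))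
      ⊆ B.biUnion (fun a => (B.filter (fun b => a ≤ b ∧ ∑ m ∈ sg B a b, m ≤ x)).image
        (fun b => (a, b))) := by
    rintro ⟨a, b⟩ hab
    simp only [Wn, Finset.mem_filter, Finset.mem_product] at hab
    simp only [Finset.mem_biUnion, Finset.mem_image, Finset.mem_filter]
    exact ⟨a, hab.1.1.1, b, ⟨hab.1.1.2, hab.1.2, hab.2.2⟩, rfl⟩
  refine (Finset.card_le_card h1).trans (Finset.card_biUnion_le.trans ?_)
  refine Finset.sum_le_sum (fun a ha => ?_)
  exact Finset.card_image_le.trans (count_from_le_div (hB a ha))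

/-- the contribution of the primes of a range of dyadic intervals -/
lemma dy_total {B : Finset ℕ} {j0 j1 x : ℕ} (hj0 : 1 ≤ j0) (hj : j0 ≤ j1)
    (hB : ∀ a ∈ B, a.Prime ∧ 2 ^ j0 ≤ a ∧ a < 2 ^ j1) :
    ∑ a ∈ B, ((x / a : ℕ) : ℝ) ≤ ((j1 - j0 : ℕ) : ℝ) * (4 * x / j0) := by
  classical
  have hj0r : (0 : ℝ) < j0 := by exact_mod_cast hj0
  have h1 : B ⊆ (Finset.Ico j0 j1).biUnion (fun j => PDy j) := by
    intro a ha
    obtain ⟨h1, h2, h3⟩ := hB a ha
    have ha0 : a ≠ 0 := h1.ne_zero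
    rw [Finset.mem_biUnion]
    refine ⟨Nat.log 2 a, ?_, ?_⟩
    · rw [Finset.mem_Ico]
      exact ⟨Nat.le_log_of_pow_le (by norm_num) h2, Nat.log_lt_of_lt_pow ha0 h3⟩
    · unfold PDy
      rw [Finset.mem_filter, Finset.mem_Ico]
      exact ⟨⟨Nat.pow_log_le_self 2 ha0, Nat.lt_pow_succ_log_self (by norm_num) a⟩, h1⟩
  have h2 : ∑ a ∈ B, ((x / a : ℕ) : ℝ) ≤ ∑ a ∈ (Finset.Ico j0 j1).biUnion (fun j => PDy j), ((x / a : ℕ) : ℝ) :=
    Finset.sum_le_sum_of_subset_of_nonneg h1 (fun _ _ _ => Nat.cast_nonneg _)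
  refine h2.trans ?_
  rw [Finset.sum_biUnion]
  swap
  · intro j _ j' _ hne
    rw [Function.onFun, Finset.disjoint_left]
    intro a h3 h4
    unfold PDy at h3 h4
    rw [Finset.mem_filter, Finset.mem_Ico] at h3 h4
    have e1 := Nat.log_eq_of_pow_le_of_lt_pow h3.1.1 h3.1.2
    have e2 := Nat.log_eq_of_pow_le_of_lt_pow h4.1.1 h4.1.2
    exact hne (e1.symm.trans e2)
  have h3 : ∀ j ∈ Finset.Ico j0 j1, ∑ a ∈ PDy j, ((x / a : ℕ) : ℝ) ≤ 4 * x / j0 := by
    intro j hj'
    rw [Finset.mem_Ico] at hj'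
    have hjr : (0 : ℝ) < j := by
      have : 0 < j := by omega
      exact_mod_cast this
    have h4 : ∀ a ∈ PDy j, ((x / a : ℕ) : ℝ) ≤ x / 2 ^ j := by
      intro a ha
      unfold PDy at ha
      rw [Finset.mem_filter, Finset.mem_Ico] at ha
      refine Nat.cast_div_le.trans ?_
      refine div_le_div_of_nonneg_left (Nat.cast_nonneg _) (by positivity) ?_
      exact_mod_cast ha.1.1
    refine (Finset.sum_le_sum h4).trans ?_
    rw [Finset.sum_const, nsmul_eq_mul]
    have h5 := PDy_le (j := j) (by omega)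
    calc ((PDy j).card : ℝ) * (x / 2 ^ j) ≤ (4 * 2 ^ j / j) * (x / 2 ^ j) :=
          mul_le_mul_of_nonneg_right h5 (by positivity)
      _ = 4 * x / j := by field_simp
      _ ≤ 4 * x / j0 := by
          refine div_le_div_of_nonneg_left (by positivity) hj0r ?_
          exact_mod_cast hj'.1
  refine (Finset.sum_le_sum h3).trans (le_of_eq ?_)
  rw [Finset.sum_const, Nat.card_Ico, nsmul_eq_mul]

/-- windows through a given point, general form -/
lemma through_gen {A : Finset ℕ} {K1 K2 β : ℕ} (P : ℕ × ℕ → Prop) [DecidablePred P]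
    (h1 : ∀ ab, ab ∈ Wn A → P ab → ab.1 < β ∧ β ≤ ab.2 ∧ (A ∩ Finset.Ico ab.1 β).card ≤ K1 ∧
      (sg A β ab.2).card ≤ K2) :
    ((Wn A).filter P).card ≤ K1 * K2 := by
  have h2 : ((Wn A).filter P).card ≤ ((Finset.Icc 1 K1) ×ˢ (Finset.Icc 1 K2)).card := by
    refine Finset.card_le_card_of_injOn
      (fun ab => ((A ∩ Finset.Ico ab.1 β).card, (sg A β ab.2).card)) ?_ ?_
    · rintro ⟨a, b⟩ hab
      rw [Finset.mem_coe, Finset.mem_filter] at hab
      obtain ⟨h3, h4, hc1, hc2⟩ := h1 _ hab.1 hab.2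
      simp only [Wn, Finset.mem_filter, Finset.mem_product] at hab
      obtain ⟨⟨⟨ha, hb⟩, hle⟩, _⟩ := hab
      simp only at h3 h4 hc1 hc2
      rw [Finset.mem_coe, Finset.mem_product, Finset.mem_Icc, Finset.mem_Icc]
      refine ⟨⟨?_, hc1⟩, ?_, hc2⟩
      · exact Finset.card_pos.mpr ⟨a, by
          rw [Finset.mem_inter, Finset.mem_Ico]; exact ⟨ha, le_rfl, h3⟩⟩
      · exact Finset.card_pos.mpr ⟨b, mem_sg.mpr ⟨hb, h4, le_rfl⟩⟩
    · rintro ⟨a, b⟩ hab ⟨a', b'⟩ hab' heq
      rw [Finset.mem_coe, Finset.mem_filter] at hab hab'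
      obtain ⟨h3, h4, _, _⟩ := h1 _ hab.1 hab.2
      obtain ⟨h3', h4', _, _⟩ := h1 _ hab'.1 hab'.2
      simp only [Wn, Finset.mem_filter, Finset.mem_product] at hab hab'
      obtain ⟨⟨⟨ha, hb⟩, hle⟩, _⟩ := hab
      obtain ⟨⟨⟨ha', hb'⟩, hle'⟩, _⟩ := hab'
      simp only [Prod.mk.injEq] at heq
      simp only at h3 h4 h3' h4'
      have key1 : ∀ u v, u ∈ A → v ∈ A → u < v → v < β →
          (A ∩ Finset.Ico v β).card < (A ∩ Finset.Ico u β).card := by
        intro u v hu hv huv hvb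
        refine Finset.card_lt_card ?_
        rw [Finset.ssubset_iff_of_subset]
        · refine ⟨u, ?_, ?_⟩
          · rw [Finset.mem_inter, Finset.mem_Ico]; exact ⟨hu, le_rfl, by omega⟩
          · rw [Finset.mem_inter, Finset.mem_Ico]; rintro ⟨_, h, _⟩; omega
        · intro z hz
          rw [Finset.mem_inter, Finset.mem_Ico] at hz ⊢
          exact ⟨hz.1, by omega, hz.2.2⟩
      have key2 : ∀ u v, u ∈ A → v ∈ A → u < v → β ≤ u →
          (sg A β u).card < (sg A β v).card := by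
        intro u v hu hv huv hvb
        refine Finset.card_lt_card ?_
        rw [Finset.ssubset_iff_of_subset]
        · refine ⟨v, mem_sg.mpr ⟨hv, by omega, le_rfl⟩, ?_⟩
          rw [mem_sg]; rintro ⟨_, _, h⟩; omega
        · intro z hz
          rw [mem_sg] at hz ⊢
          exact ⟨hz.1, hz.2.1, by omega⟩
      have ea : a = a' := by
        rcases Nat.lt_trichotomy a a' with h | h | h
        · have := key1 a a' ha ha' h h3'; omega
        · exact h
        · have := key1 a' a ha' ha h h3; omega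
      have eb : b = b' := by
        rcases Nat.lt_trichotomy b b' with h | h | h
        · have := key2 b b' hb hb' h h4; omega
        · exact h
        · have := key2 b' b hb' hb h h4'; omega
      rw [ea, eb]
  rwa [Finset.card_product, Nat.card_Icc, Nat.card_Icc, Nat.add_sub_cancel, Nat.add_sub_cancel] at h2

/-- the small primes -/
def LowI (q i : ℕ) : Finset ℕ := Finset.Ico 1 (2 ^ JL q i)

/-- the large primes -/
def HighI (q i : ℕ) : Finset ℕ := Finset.Ico (2 ^ (i - 4 * (i / q) + 1)) (2 ^ (i + 1) + 1)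

/-- windows of the third kind: not in a block, not low, not high -/
noncomputable def crossW (q i : ℕ) (A : Finset ℕ) (x : ℕ) : Finset (ℕ × ℕ) := by
  classical
  exact (Wn A).filter (fun ab => ∑ m ∈ sg A ab.1 ab.2, m ≤ x ∧
    ¬ (∃ s ∈ NB q i, ab.1 ∈ Ib (i / q) s ∧ ab.2 ∈ Ib (i / q) s) ∧
    ¬ ab.2 < 2 ^ JL q i ∧ ¬ 2 ^ (i - 4 * (i / q) + 1) ≤ ab.1)

/-- the third kind with sum `n` -/
noncomputable def crossN (q i : ℕ) (A : Finset ℕ) (n : ℕ) : ℕ := by
  classical
  exact ((Wsum A n).filter (fun ab =>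
    ¬ (∃ s ∈ NB q i, ab.1 ∈ Ib (i / q) s ∧ ab.2 ∈ Ib (i / q) s) ∧
    ¬ ab.2 < 2 ^ JL q i ∧ ¬ 2 ^ (i - 4 * (i / q) + 1) ≤ ab.1)).card

lemma sum_crossN_le (q i : ℕ) (A : Finset ℕ) (x : ℕ) :
    ∑ n ∈ Finset.Icc 1 x, crossN q i A n ≤ (crossW q i A x).card := by
  classical
  unfold crossN crossW
  rw [← Finset.card_biUnion]
  · refine Finset.card_le_card ?_
    intro ab hab
    simp only [Finset.mem_biUnion, Finset.mem_filter, Finset.mem_Icc] at hab
    obtain ⟨n, hn, h1, h2⟩ := hab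
    unfold Wsum at h1
    rw [Finset.mem_filter] at h1
    rw [Finset.mem_filter]
    exact ⟨h1.1, by omega, h2⟩
  · intro n _ n' _ hne
    rw [Function.onFun, Finset.disjoint_left]
    intro ab h1 h2
    rw [Finset.mem_filter] at h1 h2
    unfold Wsum at h1 h2
    rw [Finset.mem_filter] at h1 h2
    exact hne (h1.1.2.symm.trans h2.1.2)

/-- if there is no window of the other kinds, the count is the count inside the blocks -/
lemma cnt_eq_FS {q i : ℕ} {A : Finset ℕ} (hA : A ⊆ WL i) (n : ℕ)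
    (h1 : cnt (A ∩ LowI q i) n = 0) (h2 : cnt (A ∩ HighI q i) n = 0) (h3 : crossN q i A n = 0) :
    cnt A n = FS (NB q i) (Ib (i / q)) n A := by
  classical
  have h4 := cnt_eq_add_rest (e := i / q) (J := JL q i) (L := i - 4 * (i / q)) (le_JL q i) A n
  have h5 : rest (i / q) (JL q i) (i - 4 * (i / q)) A n = 0 := by
    unfold rest
    rw [Finset.card_eq_zero, Finset.filter_eq_empty_iff]
    intro ab hab hbad
    have hm := mem_Wsum.mp hab
    have hw1 := hA hm.1
    have hw2 := hA hm.2.1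
    unfold WL at hw1 hw2
    rw [Finset.mem_Icc] at hw1 hw2
    by_cases c1 : ab.2 < 2 ^ JL q i
    · have e1 : LowI q i = Finset.Ico 1 (1 + (2 ^ JL q i - 1)) := by
        unfold LowI
        have : 0 < 2 ^ JL q i := by positivity
        congr 1; omega
      rw [e1, ← card_Wsum, Wsum_inter, Finset.card_eq_zero, Finset.filter_eq_empty_iff] at h1
      refine h1 hab ?_
      have : 0 < 2 ^ JL q i := by positivity
      rw [Finset.mem_Ico, Finset.mem_Ico]; omega
    · by_cases c2 : 2 ^ (i - 4 * (i / q) + 1) ≤ ab.1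
      · have hle : 2 ^ (i - 4 * (i / q) + 1) ≤ 2 ^ (i + 1) :=
          Nat.pow_le_pow_right (by norm_num) (by omega)
        have e1 : HighI q i = Finset.Ico (2 ^ (i - 4 * (i / q) + 1)) (2 ^ (i - 4 * (i / q) + 1)
            + (2 ^ (i + 1) + 1 - 2 ^ (i - 4 * (i / q) + 1))) := by
          unfold HighI
          congr 1; omega
        rw [e1, ← card_Wsum, Wsum_inter, Finset.card_eq_zero, Finset.filter_eq_empty_iff] at h2
        refine h2 hab ?_
        rw [Finset.mem_Ico, Finset.mem_Ico]; omega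
      · unfold crossN at h3
        rw [Finset.card_eq_zero, Finset.filter_eq_empty_iff] at h3
        exact h3 hab ⟨hbad, c1, c2⟩
  rw [h4, h5, add_zero]
  rfl

/-- the number of windows of the third kind -/
lemma card_crossW_le {q i : ℕ} {A : Finset ℕ} (hA : A ⊆ WL i) :
    (crossW q i A (2 ^ i)).card ≤ 2 ^ ((i + 3) / 2) * (2 ^ i / 2 ^ JL q i)
      + ((NB q i).card + 1) * ((2 ^ i / 2 ^ JL q i) * (2 ^ i / 2 ^ JL q i)) := by
  classical
  set K := 2 ^ i / 2 ^ JL q i with hK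
  set β1 := 2 ^ (i - 4 * (i / q) + 1) with hβ1
  have hpos : ∀ m ∈ A, 1 ≤ m := fun m hm => by
    have := hA hm; unfold WL at this; exact (Finset.mem_Icc.mp this).1
  have hcardle : ∀ a b, 2 ^ JL q i ≤ a → ∑ m ∈ sg A a b, m ≤ 2 ^ i → (sg A a b).card ≤ K := by
    intro a b ha hs
    rw [hK, Nat.le_div_iff_mul_le (by positivity)]
    exact (Nat.mul_le_mul_left _ ha).trans ((card_mul_le_sum a b).trans hs)
  have hcard2 : ∀ a b, ∑ m ∈ sg A a b, m ≤ 2 ^ i → (sg A a b).card ≤ 2 ^ ((i + 3) / 2) := by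
    intro a b hs
    have hsq := card_sq_le_sum (B := sg A a b) (fun m hm => hpos m (mem_sg.mp hm).1)
    by_contra hcon
    push Not at hcon
    have h4 : 2 ^ ((i + 3) / 2) * 2 ^ ((i + 3) / 2) < (sg A a b).card * (sg A a b).card :=
      Nat.mul_lt_mul'' hcon hcon
    have h5 : 2 ^ (i + 2) ≤ 2 ^ ((i + 3) / 2) * 2 ^ ((i + 3) / 2) := by
      rw [← pow_add]
      exact Nat.pow_le_pow_right (by norm_num) (by omega)
    have h6 : 2 ^ (i + 2) = 4 * 2 ^ i := by rw [pow_add]; ring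
    omega
  have hsg1 : ∀ a b β, (A ∩ Finset.Ico a β).card ≤ (sg A a b).card ∨ b < β → β ≤ b →
      (A ∩ Finset.Ico a β).card ≤ (sg A a b).card := by
    intro a b β h1 h2
    rcases h1 with h | h
    · exact h
    · omega
  have hleft : ∀ a b β, β ≤ b → (A ∩ Finset.Ico a β).card ≤ (sg A a b).card := by
    intro a b β hβ
    refine Finset.card_le_card (fun z hz => ?_)
    rw [Finset.mem_inter, Finset.mem_Ico] at hz
    exact mem_sg.mpr ⟨hz.1, hz.2.1, by omega⟩
  have hright : ∀ a b β, a ≤ β → (sg A β b).card ≤ (sg A a b).card := by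
    intro a b β hβ
    refine Finset.card_le_card (fun z hz => ?_)
    rw [mem_sg] at hz
    exact mem_sg.mpr ⟨hz.1, by omega, hz.2.2⟩
  have hrs : ∀ a b β, a ≤ β → ∑ m ∈ sg A β b, m ≤ ∑ m ∈ sg A a b, m := by
    intro a b β hβ
    refine Finset.sum_le_sum_of_subset (fun z hz => ?_)
    rw [mem_sg] at hz
    exact mem_sg.mpr ⟨hz.1, by omega, hz.2.2⟩
  set S0 := (Wn A).filter (fun ab => ab.1 < 2 ^ JL q i ∧ 2 ^ JL q i ≤ ab.2 ∧
    ∑ m ∈ sg A ab.1 ab.2, m ≤ 2 ^ i) with hS0
  set S1 : ℕ → Finset (ℕ × ℕ) := fun β => (Wn A).filter (fun ab => 2 ^ JL q i ≤ ab.1 ∧ ab.1 < β ∧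
    β ≤ ab.2 ∧ ∑ m ∈ sg A ab.1 ab.2, m ≤ 2 ^ i) with hS1
  have hsub : crossW q i A (2 ^ i) ⊆ S0 ∪ ((NB q i).biUnion (fun s => S1 (yb (i / q) s)) ∪ S1 β1) := by
    rintro ⟨a, b⟩ hab
    unfold crossW at hab
    rw [Finset.mem_filter] at hab
    obtain ⟨hW, hs, hbad, hb, ha⟩ := hab
    have hW' := hW
    simp only [Wn, Finset.mem_filter, Finset.mem_product] at hW'
    obtain ⟨⟨ha', hb'⟩, hle⟩ := hW'
    simp only at hbad hb ha hs
    push Not at hb ha
    rw [Finset.mem_union, Finset.mem_union]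
    rcases Nat.lt_or_ge a (2 ^ JL q i) with h | h
    · left
      rw [hS0, Finset.mem_filter]
      exact ⟨hW, h, hb, hs⟩
    · right
      rcases Nat.lt_or_ge b β1 with h' | h'
      · left
        obtain ⟨s, hs1, hs2⟩ := exists_block (e := i / q) (L := i - 4 * (i / q)) (le_JL q i) (m := b) hb h'
        rw [Finset.mem_biUnion]
        refine ⟨s, hs1, ?_⟩
        rw [hS1]
        simp only [Finset.mem_filter]
        refine ⟨hW, h, ?_, ?_, hs⟩
        · by_contra hcon
          push Not at hcon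
          apply hbad
          refine ⟨s, hs1, ?_, hs2⟩
          unfold Ib at hs2 ⊢
          rw [Finset.mem_Ico] at hs2 ⊢
          omega
        · unfold Ib at hs2
          rw [Finset.mem_Ico] at hs2
          exact hs2.1
      · right
        rw [hS1]
        simp only [Finset.mem_filter]
        exact ⟨hW, h, ha, h', hs⟩
  have hS0c : S0.card ≤ 2 ^ ((i + 3) / 2) * K := by
    rw [hS0]
    refine through_gen _ (β := 2 ^ JL q i) (fun ab _ h => ?_)
    refine ⟨h.1, h.2.1, ?_, ?_⟩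
    · exact (hleft ab.1 ab.2 _ h.2.1).trans (hcard2 _ _ h.2.2)
    · exact hcardle _ _ le_rfl ((hrs ab.1 ab.2 _ h.1.le).trans h.2.2)
  have hS1c : ∀ β, (S1 β).card ≤ K * K := by
    intro β
    rw [hS1]
    refine through_gen _ (β := β) (fun ab _ h => ?_)
    refine ⟨h.2.1, h.2.2.1, ?_, ?_⟩
    · exact (hleft ab.1 ab.2 _ h.2.2.1).trans (hcardle _ _ h.1 h.2.2.2)
    · exact (hright ab.1 ab.2 _ h.2.1.le).trans (hcardle _ _ h.1 h.2.2.2)
  refine (Finset.card_le_card hsub).trans ((Finset.card_union_le _ _).trans (add_le_add hS0c ?_))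
  refine (Finset.card_union_le _ _).trans ?_
  have h1 : ((NB q i).biUnion (fun s => S1 (yb (i / q) s))).card ≤ (NB q i).card * (K * K) := by
    refine Finset.card_biUnion_le.trans ((Finset.sum_le_sum (fun s _ => hS1c _)).trans ?_)
    rw [Finset.sum_const, smul_eq_mul]
  have h2 := hS1c β1
  calc ((NB q i).biUnion (fun s => S1 (yb (i / q) s))).card + (S1 β1).card
      ≤ (NB q i).card * (K * K) + K * K := add_le_add h1 h2
    _ = ((NB q i).card + 1) * (K * K) := by ring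

end Pool.Agent.helper306_thin
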