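import Pool.Agent.helper306_thin.Det

/-!
# Deterministic estimates, asymptotic form
-/

namespace Pool.Agent.helper306_thin

open Finset Filter Topology Pool.Agent.helper306_cramer

/-- windows with sum at most `x` by their first element -/
lemma total_from {B : Finset ℕ} (x : ℕ) :
    ∑ n ∈ Finset.Icc 1 x, cnt B n
      ≤ ∑ a ∈ B, (B.filter (fun b => a ≤ b ∧ ∑ m ∈ sg B a b, m ≤ x)).card := by
  classical
  rw [sum_cnt_eq]
  have h1 : ((Wn B).filter (fun ab => 1 ≤ ∑ m ∈ sg B ab.1 ab.2, m ∧ ∑ m ∈ sg B ab.1 ab.2, m ≤ x))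
      ⊆ B.biUnion (fun a => (B.filter (fun b => a ≤ b ∧ ∑ m ∈ sg B a b, m ≤ x)).image
        (fun b => (a, b))) := by
    rintro ⟨a, b⟩ hab
    simp only [Wn, Finset.mem_filter, Finset.mem_product] at hab
    simp only [Finset.mem_biUnion, Finset.mem_image, Finset.mem_filter]
    exact ⟨a, hab.1.1.1, b, ⟨hab.1.1.2, hab.1.2, hab.2.2⟩, rfl⟩
  refine (Finset.card_le_card h1).trans (Finset.card_biUnion_le.trans ?_)
  exact Finset.sum_le_sum (fun a ha => Finset.card_image_le)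

/-- the low windows -/
lemma low_total {q i : ℕ} (hq : 20 ≤ q) (hi : 40 ≤ i) {A : Finset ℕ} (hP : ∀ a ∈ A, a.Prime) :
    ∑ n ∈ Finset.Icc 1 (2 ^ i), (cnt (A ∩ LowI q i) n : ℝ)
      ≤ 2 ^ i * (4 / 2 ^ (i / q) + (3 * ((i / q : ℕ) : ℝ) + 2) * (16 / i)) := by
  classical
  have hi0 : (40 : ℝ) ≤ i := by exact_mod_cast hi
  set e := i / q with he
  have he20 : e ≤ i / 20 := Nat.div_le_div_left hq (by norm_num)
  set J := JL q i with hJ
  have hJ' : J = (i + 3) / 2 + 2 * e := by rw [hJ]; unfold JL; rw [← he]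
  set J1 := i / 2 - e with hJ1
  set B := A ∩ LowI q i with hB
  have hBsub : B ⊆ Finset.Icc 1 (2 ^ i) := by
    intro a ha
    rw [hB, Finset.mem_inter] at ha
    have h1 := ha.2
    unfold LowI at h1
    rw [Finset.mem_Ico, ← hJ] at h1
    have h2 : 2 ^ J ≤ 2 ^ i := Nat.pow_le_pow_right (by norm_num) (by omega)
    rw [Finset.mem_Icc]; omega
  have h1 := total_from (B := B) (2 ^ i)
  have h2 := low_le (J := J) (J1 := J1) (L := i) (x := 2 ^ i)
    (Nat.pow_lt_pow_right (by norm_num) (by omega)) hBsub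
  have hfil : B.filter (fun a => a < 2 ^ J) = B := by
    refine Finset.filter_true_of_mem (fun a ha => ?_)
    rw [hB, Finset.mem_inter] at ha
    have h1 := ha.2
    unfold LowI at h1
    rw [Finset.mem_Ico, ← hJ] at h1
    exact h1.2
  rw [hfil] at h2
  have h3 : ∑ n ∈ Finset.Icc 1 (2 ^ i), (cnt B n : ℝ)
      ≤ 2 ^ J1 * 2 ^ ((i + 3) / 2) + ∑ j ∈ Finset.Ico J1 J,
        ((B ∩ Finset.Ico (2 ^ j) (2 ^ (j + 1))).card : ℝ) * ((2 ^ i / 2 ^ j : ℕ) : ℝ) := by
    exact_mod_cast h1.trans h2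
  refine h3.trans ?_
  rw [mul_add]
  refine add_le_add ?_ ?_
  · rw [← pow_add]
    have h4 : (2 : ℝ) ^ (J1 + (i + 3) / 2) * 2 ^ e ≤ 2 ^ i * 4 := by
      have : (2 : ℝ) ^ i * 4 = 2 ^ (i + 2) := by rw [pow_add]; norm_num
      rw [this, ← pow_add]
      exact pow_le_pow_right₀ (by norm_num) (by omega)
    rw [← mul_div_assoc, le_div_iff₀ (by positivity)]
    exact h4
  · have hJ1r : (i : ℝ) ≤ 4 * J1 := by
      have : i ≤ 4 * J1 := by omega
      exact_mod_cast this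
    have hJ10 : (0 : ℝ) < J1 := by linarith
    have h4 : ∀ j ∈ Finset.Ico J1 J, ((B ∩ Finset.Ico (2 ^ j) (2 ^ (j + 1))).card : ℝ)
        * ((2 ^ i / 2 ^ j : ℕ) : ℝ) ≤ 2 ^ i * (16 / i) := by
      intro j hj
      rw [Finset.mem_Ico] at hj
      have hj0 : (0 : ℝ) < j := by
        have : 0 < j := by omega
        exact_mod_cast this
      have h5 : ((B ∩ Finset.Ico (2 ^ j) (2 ^ (j + 1))).card : ℝ) ≤ 4 * 2 ^ j / j := by
        refine le_trans ?_ (PDy_le (j := j) (by omega))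
        have : B ∩ Finset.Ico (2 ^ j) (2 ^ (j + 1)) ⊆ PDy j := by
          intro m hm
          rw [Finset.mem_inter] at hm
          unfold PDy
          rw [Finset.mem_filter]
          exact ⟨hm.2, hP m (Finset.mem_inter.mp hm.1).1⟩
        exact_mod_cast Finset.card_le_card this
      have h6 : ((2 ^ i / 2 ^ j : ℕ) : ℝ) ≤ 2 ^ i / 2 ^ j := by
        have := Nat.cast_div_le (α := ℝ) (m := 2 ^ i) (n := 2 ^ j)
        push_cast at this
        exact this
      calc ((B ∩ Finset.Ico (2 ^ j) (2 ^ (j + 1))).card : ℝ) * ((2 ^ i / 2 ^ j : ℕ) : ℝ)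
          ≤ (4 * 2 ^ j / j) * (2 ^ i / 2 ^ j) := mul_le_mul h5 h6 (Nat.cast_nonneg _) (by positivity)
        _ = 2 ^ i * (4 / j) := by field_simp
        _ ≤ 2 ^ i * (16 / i) := by
            refine mul_le_mul_of_nonneg_left ?_ (by positivity)
            rw [div_le_div_iff₀ hj0 (by linarith)]
            have : (i : ℝ) ≤ 4 * j := by
              have : i ≤ 4 * j := by omega
              exact_mod_cast this
            linarith
    refine (Finset.sum_le_sum h4).trans ?_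
    rw [Finset.sum_const, Nat.card_Ico, nsmul_eq_mul]
    have h5 : ((J - J1 : ℕ) : ℝ) ≤ 3 * e + 2 := by
      have : J - J1 ≤ 3 * e + 2 := by omega
      exact_mod_cast this
    calc ((J - J1 : ℕ) : ℝ) * (2 ^ i * (16 / i)) ≤ (3 * e + 2) * (2 ^ i * (16 / i)) :=
          mul_le_mul_of_nonneg_right h5 (by positivity)
      _ = 2 ^ i * ((3 * e + 2) * (16 / i)) := by ring

/-- the high windows -/
lemma high_total {q i : ℕ} (hq : 20 ≤ q) (hi : 40 ≤ i) {A : Finset ℕ} (hP : ∀ a ∈ A, a.Prime) :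
    ∑ n ∈ Finset.Icc 1 (2 ^ i), (cnt (A ∩ HighI q i) n : ℝ)
      ≤ 2 ^ i * (32 * ((i / q : ℕ) : ℝ) / i) := by
  classical
  have hi0 : (40 : ℝ) ≤ i := by exact_mod_cast hi
  set e := i / q with he
  have he20 : e ≤ i / 20 := Nat.div_le_div_left hq (by norm_num)
  set B := A ∩ HighI q i with hB
  have hmem : ∀ a ∈ B, a.Prime ∧ 2 ^ (i - 4 * e + 1) ≤ a ∧ a < 2 ^ (i + 1) := by
    intro a ha
    rw [hB, Finset.mem_inter] at ha
    have h1 := ha.2
    unfold HighI at h1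
    rw [Finset.mem_Ico, ← he] at h1
    have hp := hP a ha.1
    refine ⟨hp, h1.1, ?_⟩
    rcases Nat.lt_or_ge a (2 ^ (i + 1)) with h | h
    · exact h
    · exfalso
      have e1 : a = 2 ^ (i + 1) := by omega
      rw [e1] at hp
      have : i + 1 = 1 := by
        by_contra hcon
        exact Nat.Prime.not_prime_pow (by omega : 2 ≤ i + 1) hp
      omega
  have h1 : ∑ n ∈ Finset.Icc 1 (2 ^ i), (cnt B n : ℝ) ≤ ∑ a ∈ B, ((2 ^ i / a : ℕ) : ℝ) := by
    exact_mod_cast total_le (fun a ha => (hmem a ha).1.one_lt.le) (2 ^ i)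
  have h2 := dy_total (x := 2 ^ i) (j0 := i - 4 * e + 1) (j1 := i + 1) (by omega) (by omega) hmem
  refine h1.trans (h2.trans ?_)
  have e1 : i + 1 - (i - 4 * e + 1) = 4 * e := by omega
  rw [e1]
  have hr : (i : ℝ) / 2 ≤ ((i - 4 * e + 1 : ℕ) : ℝ) := by
    have : i ≤ 2 * (i - 4 * e + 1) := by omega
    have : (i : ℝ) ≤ 2 * ((i - 4 * e + 1 : ℕ) : ℝ) := by exact_mod_cast this
    linarith
  have hr0 : (0 : ℝ) < ((i - 4 * e + 1 : ℕ) : ℝ) := by linarith
  have h3 : 4 * ((2 ^ i : ℕ) : ℝ) / ((i - 4 * e + 1 : ℕ) : ℝ) ≤ 4 * 2 ^ i / (i / 2) := by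
    push_cast
    refine div_le_div_of_nonneg_left (by positivity) (by linarith) ?_
    exact_mod_cast hr
  calc ((4 * e : ℕ) : ℝ) * (4 * ((2 ^ i : ℕ) : ℝ) / ((i - 4 * e + 1 : ℕ) : ℝ))
      ≤ ((4 * e : ℕ) : ℝ) * (4 * 2 ^ i / (i / 2)) := mul_le_mul_of_nonneg_left h3 (Nat.cast_nonneg _)
    _ = 2 ^ i * (32 * (e : ℝ) / i) := by push_cast; field_simp; ring

/-- the crossing windows -/
lemma cross_total {q i : ℕ} (hq : 20 ≤ q) (hi : 40 ≤ i) {A : Finset ℕ} (hA : A ⊆ WL i)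
    (hev : (2 : ℝ) * i ≤ 2 ^ (i / (16 * q))) :
    ∑ n ∈ Finset.Icc 1 (2 ^ i), (crossN q i A n : ℝ) ≤ 2 ^ i * (1 / 2 : ℝ) ^ (i / (16 * q)) := by
  have hi0 : (40 : ℝ) ≤ i := by exact_mod_cast hi
  have hdh := div_h q i
  have hcardNB := card_NB q i
  have h1 : ∑ n ∈ Finset.Icc 1 (2 ^ i), (crossN q i A n : ℝ)
      ≤ 2 ^ ((i + 3) / 2) * ((2 ^ i / 2 ^ JL q i : ℕ) : ℝ)
        + (((NB q i).card : ℝ) + 1) * (((2 ^ i / 2 ^ JL q i : ℕ) : ℝ) * ((2 ^ i / 2 ^ JL q i : ℕ) : ℝ)) := by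
    exact_mod_cast (sum_crossN_le q i A (2 ^ i)).trans (card_crossW_le hA)
  refine h1.trans ?_
  set e := i / q with he
  have he20 : e ≤ i / 20 := Nat.div_le_div_left hq (by norm_num)
  set h := i / (16 * q) with hh
  have hJ' : JL q i = (i + 3) / 2 + 2 * e := by unfold JL; rw [← he]
  have hK : (2 ^ i / 2 ^ JL q i : ℕ) = 2 ^ (i - JL q i) := by
    rw [Nat.pow_div (by omega) (by norm_num)]
  rw [hK]
  push_cast
  have b1 : (2 : ℝ) ^ ((i + 3) / 2) * 2 ^ (i - JL q i) ≤ 2 ^ i * ((1 / 2) * (1 / 2) ^ h) := by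
    have c1 : (1 / 2 : ℝ) * (1 / 2) ^ h = 1 / 2 ^ (h + 1) := by
      rw [one_div_pow, pow_succ]; field_simp
    rw [c1, mul_one_div, le_div_iff₀ (by positivity), ← pow_add, ← pow_add]
    refine pow_le_pow_right₀ (by norm_num) ?_
    have : 1 ≤ h := by
      by_contra hcon
      have h0 : h = 0 := by omega
      rw [h0, pow_zero] at hev
      linarith
    omega
  have b2 : (((NB q i).card : ℝ) + 1) * (2 ^ (i - JL q i) * 2 ^ (i - JL q i))
      ≤ 2 ^ i * ((1 / 2) * (1 / 2) ^ h) := by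
    have c0 : ((NB q i).card : ℝ) + 1 ≤ 2 ^ h * 2 ^ e := by
      have : (1 : ℝ) ≤ 2 ^ e := one_le_pow₀ (by norm_num)
      calc ((NB q i).card : ℝ) + 1 ≤ (i + 1) * 2 ^ e + 1 * 2 ^ e := by linarith
        _ = (i + 2) * 2 ^ e := by ring
        _ ≤ 2 ^ h * 2 ^ e := mul_le_mul_of_nonneg_right (by linarith) (by positivity)
    have c1 : (1 / 2 : ℝ) * (1 / 2) ^ h = 1 / 2 ^ (h + 1) := by
      rw [one_div_pow, pow_succ]; field_simp
    rw [c1, mul_one_div, le_div_iff₀ (by positivity)]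
    calc (((NB q i).card : ℝ) + 1) * (2 ^ (i - JL q i) * 2 ^ (i - JL q i)) * 2 ^ (h + 1)
        ≤ (2 ^ h * 2 ^ e) * (2 ^ (i - JL q i) * 2 ^ (i - JL q i)) * 2 ^ (h + 1) := by
          refine mul_le_mul_of_nonneg_right ?_ (by positivity)
          exact mul_le_mul_of_nonneg_right c0 (by positivity)
      _ = 2 ^ (h + e + (i - JL q i) + (i - JL q i) + (h + 1)) := by
          rw [pow_add, pow_add, pow_add, pow_add]; ring
      _ ≤ 2 ^ i := pow_le_pow_right₀ (by norm_num) (by omega)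
  have : (2 : ℝ) ^ i * ((1 / 2) * (1 / 2) ^ h) + 2 ^ i * ((1 / 2) * (1 / 2) ^ h) = 2 ^ i * (1 / 2) ^ h := by
    ring
  linarith

/-- the total mean -/
lemma La_total {p : ℕ → ℝ} (hp : PD p) {q i : ℕ} (hq : 20 ≤ q) (hi : 40 ≤ i) :
    ∑ n ∈ Finset.Icc 1 (2 ^ i), La p (NB q i) (Ib (i / q)) n ≤ 8 * 2 ^ i := by
  classical
  have hi0 : (40 : ℝ) ≤ i := by exact_mod_cast hi
  set e := i / q with he
  have he20 : e ≤ i / 20 := Nat.div_le_div_left hq (by norm_num)
  have hJ' : JL q i = (i + 3) / 2 + 2 * e := by unfold JL; rw [← he]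
  unfold La
  rw [Finset.sum_comm]
  have h1 : ∀ s ∈ NB q i, ∑ n ∈ Finset.Icc 1 (2 ^ i), Ex p (Ib e s) (fun A => (cnt A n : ℝ))
      ≤ ((IP (yb e s) (Lb e s)).card : ℝ) * (2 ^ i / 2 ^ s.1) := by
    intro s hs
    have hs' := hs
    rw [mem_NB] at hs'
    rw [← Ex_sum]
    unfold Ib
    rw [Ex_IP hp]
    refine Ex_le_const hp.nonneg hp.le_one (fun A hA => ?_)
    have hyb := yb_ge (e := e) (s := s) (by omega)
    have h2 : ∑ n ∈ Finset.Icc 1 (2 ^ i), (cnt A n : ℝ) ≤ ∑ a ∈ A, ((2 ^ i / a : ℕ) : ℝ) := by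
      exact_mod_cast total_le (fun a ha => (mem_IP.mp (hA ha)).2.one_lt.le) (2 ^ i)
    refine h2.trans ?_
    have h3 : ∀ a ∈ A, ((2 ^ i / a : ℕ) : ℝ) ≤ 2 ^ i / 2 ^ s.1 := by
      intro a ha
      have h4 := (mem_IP.mp (hA ha)).1.1
      refine Nat.cast_div_le.trans ?_
      push_cast
      refine div_le_div_of_nonneg_left (by positivity) (by positivity) ?_
      have : 2 ^ s.1 ≤ a := by omega
      exact_mod_cast this
    refine (Finset.sum_le_sum h3).trans ?_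
    rw [Finset.sum_const, nsmul_eq_mul]
    refine mul_le_mul_of_nonneg_right ?_ (by positivity)
    exact_mod_cast Finset.card_le_card hA
  refine (Finset.sum_le_sum h1).trans ?_
  unfold NB SS
  rw [Finset.sum_product]
  have h2 : ∀ j ∈ Finset.Icc (JL q i) (i - 4 * (i / q)), ∑ u ∈ Finset.range (2 ^ (i / q)),
      ((IP (yb e (j, u)) (Lb e (j, u))).card : ℝ) * (2 ^ i / 2 ^ j) ≤ 8 * 2 ^ i / i := by
    intro j hj
    rw [Finset.mem_Icc] at hj
    rw [← Finset.sum_mul]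
    have h3 : ∑ u ∈ Finset.range (2 ^ (i / q)), ((IP (yb e (j, u)) (Lb e (j, u))).card : ℝ)
        = ((PDy j).card : ℝ) := by
      rw [← he]
      exact_mod_cast sum_card_IP (e := e) (j := j) (by omega)
    rw [h3]
    have hj0 : (0 : ℝ) < j := by
      have : 0 < j := by omega
      exact_mod_cast this
    have h4 := PDy_le (j := j) (by omega)
    calc ((PDy j).card : ℝ) * (2 ^ i / 2 ^ j) ≤ (4 * 2 ^ j / j) * (2 ^ i / 2 ^ j) :=
          mul_le_mul_of_nonneg_right h4 (by positivity)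
      _ = 4 * 2 ^ i / j := by field_simp
      _ ≤ 8 * 2 ^ i / i := by
          rw [div_le_div_iff₀ hj0 (by linarith)]
          have : (i : ℝ) ≤ 2 * j := by
            have : i ≤ 2 * j := by omega
            exact_mod_cast this
          have h2i : (0 : ℝ) < 2 ^ i := by positivity
          nlinarith
  refine (Finset.sum_le_sum h2).trans ?_
  rw [Finset.sum_const, Nat.card_Icc, nsmul_eq_mul]
  have h3 : ((i - 4 * (i / q) + 1 - JL q i : ℕ) : ℝ) ≤ i := by
    have : i - 4 * (i / q) + 1 - JL q i ≤ i := by omega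
    exact_mod_cast this
  calc ((i - 4 * (i / q) + 1 - JL q i : ℕ) : ℝ) * (8 * 2 ^ i / i) ≤ i * (8 * 2 ^ i / i) :=
        mul_le_mul_of_nonneg_right h3 (by positivity)
    _ = 8 * 2 ^ i := by field_simp

end Pool.Agent.helper306_thin
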