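import Pool.Agent.helper306_thin.Hoeff

/-!
# Counting the intervals which can carry a window with given length and sum
-/

namespace Pool.Agent.helper306_thin

open Finset Pool.Agent.helper306_cramer

/-- densities supported on the primes -/
structure PD (p : ℕ → ℝ) : Prop where
  nonneg : ∀ m, 0 ≤ p m
  le_one : ∀ m, p m ≤ 1
  zero : ∀ m, ¬ m.Prime → p m = 0
  half : ∀ m, m.Prime → 1 / 2 ≤ p m

/-- mean number of elements in `[a, c)` -/
def Mi (p : ℕ → ℝ) (a c : ℕ) : ℝ := ∑ r ∈ Finset.Ico a c, p r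

/-- mean of the sum of the distances to `a` -/
def Wi (p : ℕ → ℝ) (a c : ℕ) : ℝ := ∑ r ∈ Finset.Ico a c, p r * ((r : ℝ) - a)

variable {p : ℕ → ℝ}

lemma Mi_nonneg (hp : PD p) (a c : ℕ) : 0 ≤ Mi p a c :=
  Finset.sum_nonneg (fun r _ => hp.nonneg r)

lemma Mi_add {a b c : ℕ} (h1 : a ≤ b) (h2 : b ≤ c) : Mi p a b + Mi p b c = Mi p a c :=
  Finset.sum_Ico_consecutive _ h1 h2

lemma card_primes_le (hp : PD p) {S : Finset ℕ} (hS : ∀ r ∈ S, r.Prime) :
    (S.card : ℝ) ≤ 2 * ∑ r ∈ S, p r := by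
  rw [Finset.mul_sum]
  have : (S.card : ℝ) = ∑ _r ∈ S, (1 : ℝ) := by simp
  rw [this]
  exact Finset.sum_le_sum (fun r hr => by have := hp.half r (hS r hr); linarith)

lemma card_le_Mi (hp : PD p) {a c : ℕ} {S : Finset ℕ} (hS : ∀ r ∈ S, r.Prime)
    (hS2 : ∀ r ∈ S, a ≤ r ∧ r < c) : (S.card : ℝ) ≤ 2 * Mi p a c := by
  refine (card_primes_le hp hS).trans (mul_le_mul_of_nonneg_left ?_ (by norm_num))
  refine Finset.sum_le_sum_of_subset_of_nonneg (fun r hr => ?_) (fun r _ _ => hp.nonneg r)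
  rw [Finset.mem_Ico]; exact hS2 r hr

lemma Mi_le_card (hp : PD p) (a c : ℕ) :
    Mi p a c ≤ ((Finset.Ico a c).filter Nat.Prime).card := by
  unfold Mi
  have h1 : ∑ r ∈ Finset.Ico a c, p r = ∑ r ∈ (Finset.Ico a c).filter Nat.Prime, p r := by
    rw [Finset.sum_filter]
    refine Finset.sum_congr rfl (fun r _ => ?_)
    split_ifs with h
    · rfl
    · exact hp.zero r h
  rw [h1]
  refine (Finset.sum_le_sum (fun r _ => hp.le_one r)).trans (le_of_eq ?_)
  simp

lemma Wi_shift (p : ℕ → ℝ) (a a' c : ℕ) :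
    ∑ r ∈ Finset.Ico a' c, p r * ((r : ℝ) - a) = Wi p a' c + ((a' : ℝ) - a) * Mi p a' c := by
  unfold Wi Mi
  rw [Finset.mul_sum, ← Finset.sum_add_distrib]
  exact Finset.sum_congr rfl (fun r _ => by ring)

/-- the mean of the sum moves to the right with the window -/
lemma G_ineq (hp : PD p) {a a' c c' : ℕ} {l κ : ℝ} (haa : a ≤ a') (hac : a' ≤ c) (hac' : a' ≤ c')
    (h1 : |Mi p a c - l| ≤ κ) (h2 : |Mi p a' c' - l| ≤ κ) :
    (Mi p a a' - 2 * κ) * ((c : ℝ) - a') - κ * ((a' : ℝ) - a)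
      ≤ (l * a' + Wi p a' c') - (l * a + Wi p a c) := by
  have h1' := abs_le.mp h1
  have h2' := abs_le.mp h2
  have hM := Mi_add (p := p) haa hac
  have haa' : (a : ℝ) ≤ a' := by exact_mod_cast haa
  have hac0 : (a' : ℝ) ≤ c := by exact_mod_cast hac
  -- `W(a', c) - W(a, c)`
  have e1 : Wi p a c = ∑ r ∈ Finset.Ico a a', p r * ((r : ℝ) - a)
      + (Wi p a' c + ((a' : ℝ) - a) * Mi p a' c) := by
    rw [← Wi_shift]
    unfold Wi
    exact (Finset.sum_Ico_consecutive _ haa hac).symm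
  have b1 : ∑ r ∈ Finset.Ico a a', p r * ((r : ℝ) - a) ≤ ((a' : ℝ) - a) * Mi p a a' := by
    unfold Mi
    rw [Finset.mul_sum]
    refine Finset.sum_le_sum (fun r hr => ?_)
    rw [Finset.mem_Ico] at hr
    have : (r : ℝ) ≤ a' := by exact_mod_cast hr.2.le
    have := mul_le_mul_of_nonneg_left (show (r : ℝ) - a ≤ (a' : ℝ) - a by linarith) (hp.nonneg r)
    linarith
  have b2 : Wi p a' c + (Mi p a a' - 2 * κ) * ((c : ℝ) - a') ≤ Wi p a' c' := by
    rcases Nat.le_total c c' with hcc | hcc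
    · have e2 : Wi p a' c' = Wi p a' c + ∑ r ∈ Finset.Ico c c', p r * ((r : ℝ) - a') := by
        unfold Wi
        exact (Finset.sum_Ico_consecutive _ hac hcc).symm
      have b3 : Mi p c c' * ((c : ℝ) - a') ≤ ∑ r ∈ Finset.Ico c c', p r * ((r : ℝ) - a') := by
        unfold Mi
        rw [Finset.sum_mul]
        refine Finset.sum_le_sum (fun r hr => ?_)
        rw [Finset.mem_Ico] at hr
        have : (c : ℝ) ≤ r := by exact_mod_cast hr.1
        exact mul_le_mul_of_nonneg_left (by linarith) (hp.nonneg r)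
      have hM2 := Mi_add (p := p) hac hcc
      have b4 : Mi p a a' - 2 * κ ≤ Mi p c c' := by linarith
      have := mul_le_mul_of_nonneg_right b4 (show (0 : ℝ) ≤ (c : ℝ) - a' by linarith)
      rw [e2]; linarith
    · have e2 : Wi p a' c = Wi p a' c' + ∑ r ∈ Finset.Ico c' c, p r * ((r : ℝ) - a') := by
        unfold Wi
        exact (Finset.sum_Ico_consecutive _ hac' hcc).symm
      have b3 : ∑ r ∈ Finset.Ico c' c, p r * ((r : ℝ) - a') ≤ Mi p c' c * ((c : ℝ) - a') := by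
        unfold Mi
        rw [Finset.sum_mul]
        refine Finset.sum_le_sum (fun r hr => ?_)
        rw [Finset.mem_Ico] at hr
        have : (r : ℝ) ≤ c := by exact_mod_cast hr.2.le
        exact mul_le_mul_of_nonneg_left (by linarith) (hp.nonneg r)
      have hM2 := Mi_add (p := p) hac' hcc
      have b4 : Mi p c' c ≤ 2 * κ - Mi p a a' := by linarith
      have := mul_le_mul_of_nonneg_right b4 (show (0 : ℝ) ≤ (c : ℝ) - a' by linarith)
      rw [e2]; linarith
  have b5 : ((a' : ℝ) - a) * Mi p a c ≤ ((a' : ℝ) - a) * (l + κ) :=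
    mul_le_mul_of_nonneg_left (by linarith) (by linarith)
  rw [← hM] at b5
  rw [e1]
  nlinarith

lemma card_le_real {ι α : Type*} [DecidableEq α] {s : Finset ι} {f : ι → α} {K : ℝ}
    (h : ∀ c ∈ s.image f, ((s.filter (fun x => f x = c)).card : ℝ) ≤ K) :
    (s.card : ℝ) ≤ K * ((s.image f).card : ℝ) := by
  rw [Finset.card_eq_sum_card_image f s]
  push_cast
  refine (Finset.sum_le_sum h).trans (le_of_eq ?_)
  rw [Finset.sum_const, nsmul_eq_mul, mul_comm]

lemma card_le_nine {S : Finset ℕ} (h : ∀ x ∈ S, ∀ y ∈ S, x ≤ y + 8) : S.card ≤ 9 := by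
  rcases S.eq_empty_or_nonempty with rfl | hne
  · simp
  have h1 : S ⊆ Finset.Icc (S.min' hne) (S.min' hne + 8) := by
    intro x hx
    rw [Finset.mem_Icc]
    exact ⟨Finset.min'_le _ _ hx, h x hx _ (Finset.min'_mem _ _)⟩
  have := Finset.card_le_card h1
  rw [Nat.card_Icc] at this
  omega

/-- **Feasible pairs of one dyadic length.** -/
theorem feas_class (hp : PD p) {l n i : ℕ} {κ : ℝ} (hκ : 1 ≤ κ) (hl : 1 ≤ l) (F : Finset (ℕ × ℕ))
    (hF : ∀ w ∈ F, w.1.Prime ∧ w.2.Prime ∧ w.1 ≤ w.2 ∧ |Mi p w.1 (w.2 + 1) - l| ≤ κ ∧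
      |(n : ℝ) - (l * w.1 + Wi p w.1 (w.2 + 1))| ≤ κ * ((w.2 : ℝ) - w.1) ∧
      l * w.1 ≤ n ∧ n ≤ l * w.2 ∧ 2 ^ i ≤ w.2 - w.1 ∧ w.2 - w.1 < 2 ^ (i + 1)) :
    (F.card : ℝ) ≤ 800 * κ ^ 2 := by
  classical
  have hκ0 : 0 < κ := by linarith
  -- number of `b` for given `a`
  have h1 : (F.card : ℝ) ≤ (5 * κ) * ((F.image Prod.fst).card : ℝ) := by
    refine card_le_real (fun a _ => ?_)
    have e : (F.filter (fun w => w.1 = a)).card
        = ((F.filter (fun w => w.1 = a)).image Prod.snd).card := by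
      refine (Finset.card_image_of_injOn ?_).symm
      intro w hw w' hw' h
      rw [Finset.mem_coe, Finset.mem_filter] at hw hw'
      exact Prod.ext (hw.2.trans hw'.2.symm) h
    rw [e]
    set B := (F.filter (fun w => w.1 = a)).image Prod.snd with hB
    rcases B.eq_empty_or_nonempty with h0 | hne
    · rw [h0]; simp; positivity
    have hmem : ∀ b ∈ B, (a, b) ∈ F := by
      intro b hb
      rw [hB, Finset.mem_image] at hb
      obtain ⟨w, hw, rfl⟩ := hb
      rw [Finset.mem_filter] at hw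
      have : (a, w.2) = w := Prod.ext hw.2.symm rfl
      rw [this]; exact hw.1
    set b0 := B.min' hne with hb0
    set b1 := B.max' hne with hb1
    have hb0B : b0 ∈ B := Finset.min'_mem _ _
    have hb1B : b1 ∈ B := Finset.max'_mem _ _
    have f0 := hF _ (hmem b0 hb0B)
    have f1 := hF _ (hmem b1 hb1B)
    simp only at f0 f1
    have hb01 : b0 ≤ b1 := Finset.min'_le _ _ hb1B
    have hM := Mi_add (p := p) (a := a) (b := b0 + 1) (c := b1 + 1) (by omega) (by omega)
    have g0 := abs_le.mp f0.2.2.2.1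
    have g1 := abs_le.mp f1.2.2.2.1
    have hle : ((B.erase b0).card : ℝ) ≤ 2 * Mi p (b0 + 1) (b1 + 1) := by
      refine card_le_Mi hp (fun b hb => ?_) (fun b hb => ?_)
      · rw [Finset.mem_erase] at hb
        exact (hF _ (hmem b hb.2)).2.1
      · rw [Finset.mem_erase] at hb
        have h2 : b0 ≤ b := Finset.min'_le _ _ hb.2
        have h3 : b ≤ b1 := Finset.le_max' _ _ hb.2
        have := hb.1
        omega
    have hc : B.card = (B.erase b0).card + 1 := (Finset.card_erase_add_one hb0B).symm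
    rw [hc]; push_cast
    linarith
  -- number of `a`
  have h2 : ((F.image Prod.fst).card : ℝ)
      ≤ (17 * κ) * (((F.image Prod.fst).image (fun a => 4 * a / 2 ^ i)).card : ℝ) := by
    refine card_le_real (fun c _ => ?_)
    set S := (F.image Prod.fst).filter (fun a => 4 * a / 2 ^ i = c) with hS
    rcases S.eq_empty_or_nonempty with h0 | hne
    · rw [h0]; simp; positivity
    have hmem : ∀ a ∈ S, ∃ b, (a, b) ∈ F := by
      intro a ha
      rw [hS, Finset.mem_filter, Finset.mem_image] at ha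
      obtain ⟨⟨w, hw, rfl⟩, _⟩ := ha
      exact ⟨w.2, hw⟩
    have hcell : ∀ a ∈ S, c * 2 ^ i ≤ 4 * a ∧ 4 * a < c * 2 ^ i + 2 ^ i := by
      intro a ha
      rw [hS, Finset.mem_filter] at ha
      have hpos : 0 < 2 ^ i := by positivity
      have := ha.2
      constructor
      · rw [← this]; exact Nat.div_mul_le_self _ _
      · have h3 := Nat.lt_mul_div_succ (4 * a) hpos
        rw [this] at h3
        calc 4 * a < 2 ^ i * (c + 1) := h3
          _ = c * 2 ^ i + 2 ^ i := by ring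
    set a0 := S.min' hne with ha0
    set a1 := S.max' hne with ha1
    have ha0S : a0 ∈ S := Finset.min'_mem _ _
    have ha1S : a1 ∈ S := Finset.max'_mem _ _
    obtain ⟨b0, hb0⟩ := hmem a0 ha0S
    obtain ⟨b1, hb1⟩ := hmem a1 ha1S
    have f0 := hF _ hb0
    have f1 := hF _ hb1
    simp only at f0 f1
    have ha01 : a0 ≤ a1 := Finset.min'_le _ _ ha1S
    have c0 := hcell a0 ha0S
    have c1 := hcell a1 ha1S
    have hMle : Mi p a0 a1 ≤ 8 * κ := by
      by_contra hcon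
      push Not at hcon
      have hd : 4 * (a1 - a0) < 2 ^ i := by omega
      have hac : a1 ≤ b0 + 1 := by omega
      have hG := G_ineq hp (l := l) (κ := κ) ha01 hac (by omega : a1 ≤ b1 + 1) f0.2.2.2.1 f1.2.2.2.1
      have g0 := abs_le.mp f0.2.2.2.2.1
      have g1 := abs_le.mp f1.2.2.2.2.1
      set T : ℝ := 2 ^ i with hT
      have hT0 : 0 < T := by positivity
      have r1 : 4 * ((a1 : ℝ) - a0) ≤ T := by
        have : 4 * (a1 - a0) ≤ 2 ^ i := hd.le
        have h3 : ((4 * (a1 - a0) : ℕ) : ℝ) ≤ ((2 ^ i : ℕ) : ℝ) := by exact_mod_cast this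
        push_cast [Nat.cast_sub ha01] at h3
        exact h3
      have r2 : T ≤ (b0 : ℝ) - a0 := by
        have h3 : ((2 ^ i : ℕ) : ℝ) ≤ ((b0 - a0 : ℕ) : ℝ) := by exact_mod_cast f0.2.2.2.2.2.2.2.1
        push_cast [Nat.cast_sub f0.2.2.1] at h3
        exact h3
      have r3 : (b0 : ℝ) - a0 ≤ 2 * T := by
        have h3 : ((b0 - a0 : ℕ) : ℝ) ≤ ((2 ^ (i + 1) : ℕ) : ℝ) := by
          exact_mod_cast f0.2.2.2.2.2.2.2.2.le
        push_cast [Nat.cast_sub f0.2.2.1] at h3
        rw [pow_succ] at h3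
        linarith
      have r4 : (b1 : ℝ) - a1 ≤ 2 * T := by
        have h3 : ((b1 - a1 : ℕ) : ℝ) ≤ ((2 ^ (i + 1) : ℕ) : ℝ) := by
          exact_mod_cast f1.2.2.2.2.2.2.2.2.le
        push_cast [Nat.cast_sub f1.2.2.1] at h3
        rw [pow_succ] at h3
        linarith
      have r5 : κ * ((b0 : ℝ) - a0) ≤ κ * (2 * T) := mul_le_mul_of_nonneg_left r3 hκ0.le
      have r6 : κ * ((b1 : ℝ) - a1) ≤ κ * (2 * T) := mul_le_mul_of_nonneg_left r4 hκ0.le
      have r7 : κ * ((a1 : ℝ) - a0) ≤ κ * (T / 4) :=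
        mul_le_mul_of_nonneg_left (by linarith) hκ0.le
      have r8 : 3 / 4 * T ≤ ((b0 + 1 : ℕ) : ℝ) - a1 := by push_cast; linarith
      have r9 : (6 * κ) * (3 / 4 * T) ≤ (Mi p a0 a1 - 2 * κ) * (((b0 + 1 : ℕ) : ℝ) - a1) :=
        mul_le_mul (by linarith) r8 (by positivity) (by linarith)
      have hκT : 0 < κ * T := by positivity
      nlinarith
    have hle : ((S.erase a1).card : ℝ) ≤ 2 * Mi p a0 a1 := by
      refine card_le_Mi hp (fun a ha => ?_) (fun a ha => ?_)
      · rw [Finset.mem_erase] at ha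
        obtain ⟨b, hb⟩ := hmem a ha.2
        exact (hF _ hb).1
      · rw [Finset.mem_erase] at ha
        have h3 : a0 ≤ a := Finset.min'_le _ _ ha.2
        have h4 : a ≤ a1 := Finset.le_max' _ _ ha.2
        have := ha.1
        omega
    have hc : S.card = (S.erase a1).card + 1 := (Finset.card_erase_add_one ha1S).symm
    rw [hc]; push_cast
    linarith
  have h3 : ((F.image Prod.fst).image (fun a => 4 * a / 2 ^ i)).card ≤ 9 := by
    refine card_le_nine (fun x hx y hy => ?_)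
    rw [Finset.mem_image] at hx hy
    obtain ⟨a, ha, rfl⟩ := hx
    obtain ⟨a', ha', rfl⟩ := hy
    rw [Finset.mem_image] at ha ha'
    obtain ⟨w, hw, rfl⟩ := ha
    obtain ⟨w', hw', rfl⟩ := ha'
    have f0 := hF _ hw
    have f1 := hF _ hw'
    have hlt : w.1 < w'.1 + 2 ^ (i + 1) := by
      have h4 : l * w.1 ≤ l * w'.2 := f0.2.2.2.2.2.1.trans f1.2.2.2.2.2.2.1
      have h5 : w.1 ≤ w'.2 := Nat.le_of_mul_le_mul_left h4 hl
      have := f1.2.2.2.2.2.2.2.2
      omega
    have hpos : 0 < 2 ^ i := by positivity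
    have h4 : 4 * w.1 ≤ 4 * w'.1 + 2 ^ i * 8 := by
      have : 2 ^ (i + 1) = 2 * 2 ^ i := by rw [pow_succ]; ring
      omega
    calc 4 * w.1 / 2 ^ i ≤ (4 * w'.1 + 2 ^ i * 8) / 2 ^ i := Nat.div_le_div_right h4
      _ = 4 * w'.1 / 2 ^ i + 8 := by rw [Nat.add_mul_div_left _ _ hpos]
  have h3' : (((F.image Prod.fst).image (fun a => 4 * a / 2 ^ i)).card : ℝ) ≤ 9 := by
    exact_mod_cast h3
  have h4 : ((F.image Prod.fst).card : ℝ) ≤ (17 * κ) * 9 :=
    h2.trans (mul_le_mul_of_nonneg_left h3' (by positivity))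
  have h5 := mul_le_mul_of_nonneg_left h4 (by positivity : (0 : ℝ) ≤ 5 * κ)
  nlinarith [sq_nonneg κ]

end Pool.Agent.helper306_thin
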