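import Pool.Agent.helper306_thin.Small

/-!
# Random sets of primes: the final form
-/

namespace Pool.Agent.helper306_thin

open Finset Filter Topology MeasureTheory ProbabilityTheory Pool.Agent.helper306_cramer

/-- the events, with the small primes made certain -/
def Emod {Ω : Type*} (q₀ : ℕ) (R : Ω → Set ℕ) (m : ℕ) : Set Ω :=
  {ω | (m < q₀ ∧ m.Prime) ∨ (q₀ ≤ m ∧ m ∈ R ω)}

lemma Emod_small {Ω : Type*} {q₀ : ℕ} {R : Ω → Set ℕ} {m : ℕ} (h : m < q₀) (hp : m.Prime) :
    Emod q₀ R m = Set.univ := by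
  unfold Emod
  ext ω
  simp [h, hp]

lemma Emod_small' {Ω : Type*} {q₀ : ℕ} {R : Ω → Set ℕ} {m : ℕ} (h : m < q₀) (hp : ¬ m.Prime) :
    Emod q₀ R m = ∅ := by
  unfold Emod
  ext ω
  simp [h, hp]

lemma Emod_large {Ω : Type*} {q₀ : ℕ} {R : Ω → Set ℕ} {m : ℕ} (h : q₀ ≤ m) :
    Emod q₀ R m = {ω | m ∈ R ω} := by
  unfold Emod
  ext ω
  have : ¬ m < q₀ := by omega
  simp [h, this]

lemma Emod_indep {Ω : Type*} [MeasurableSpace Ω] {μ : Measure Ω} [IsProbabilityMeasure μ] (q₀ : ℕ)
    {R : Ω → Set ℕ} (hm : ∀ m, MeasurableSet {ω | m ∈ R ω})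
    (hi : iIndepSet (fun m => {ω | m ∈ R ω}) μ) : iIndepSet (Emod q₀ R) μ := by
  classical
  have hmE : ∀ m, MeasurableSet (Emod q₀ R m) := by
    intro m
    by_cases h : q₀ ≤ m
    · rw [Emod_large h]; exact hm m
    · by_cases hp : m.Prime
      · rw [Emod_small (by omega) hp]; exact MeasurableSet.univ
      · rw [Emod_small' (by omega) hp]; exact MeasurableSet.empty
  rw [iIndepSet_iff_meas_biInter hmE]
  rw [iIndepSet_iff_meas_biInter hm] at hi
  intro S
  by_cases hbad : ∃ m ∈ S, m < q₀ ∧ ¬ m.Prime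
  · obtain ⟨m, hmS, h1, h2⟩ := hbad
    have e1 : ⋂ i ∈ S, Emod q₀ R i = ∅ := by
      refine Set.eq_empty_of_subset_empty ?_
      refine (Set.biInter_subset_of_mem hmS).trans ?_
      rw [Emod_small' h1 h2]
    rw [e1, measure_empty]
    symm
    refine Finset.prod_eq_zero hmS ?_
    rw [Emod_small' h1 h2, measure_empty]
  · push Not at hbad
    have e1 : ⋂ i ∈ S, Emod q₀ R i = ⋂ i ∈ S.filter (fun m => q₀ ≤ m), {ω | i ∈ R ω} := by
      ext ω
      simp only [Set.mem_iInter, Finset.mem_filter]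
      constructor
      · intro h i hi'
        have := h i hi'.1
        rwa [Emod_large hi'.2] at this
      · intro h i hi'
        by_cases h2 : q₀ ≤ i
        · rw [Emod_large h2]; exact h i ⟨hi', h2⟩
        · rw [Emod_small (by omega) (hbad i hi' (by omega))]; exact Set.mem_univ _
    rw [e1, hi, Finset.prod_filter]
    refine Finset.prod_congr rfl (fun m hmS => ?_)
    by_cases h2 : q₀ ≤ m
    · rw [if_pos h2, Emod_large h2]
    · rw [if_neg h2, Emod_small (by omega) (hbad m hmS (by omega)), measure_univ]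

/-- **Random sets of primes.** -/
theorem thinned_final (K : ℝ) (hK : 1 ≤ K) : ∃ α β c : ℝ, 0 < α ∧ 0 < β ∧ 0 < c ∧
    ∀ (Ω : Type*) (_ : MeasurableSpace Ω) (μ : Measure Ω) (_ : IsProbabilityMeasure μ)
      (τ : ℕ → ℝ) (q₀ : ℕ),
      (∀ q : ℕ, q.Prime → q₀ ≤ q → (q : ℝ) ^ (-c) ≤ τ q ∧ τ q ≤ 1 / 2) →
      (∀ q r : ℕ, q.Prime → r.Prime → q₀ ≤ q → q ≤ r → r ≤ 2 * q → τ q ≤ K * τ r ∧ τ r ≤ K * τ q) →
      ∀ R : Ω → Set ℕ, (∀ ω, ∀ m ∈ R ω, m.Prime) → (∀ m, MeasurableSet {ω | m ∈ R ω}) →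
      iIndepSet (fun m => {ω | m ∈ R ω}) μ →
      (∀ q : ℕ, q.Prime → q₀ ≤ q → μ {ω | q ∈ R ω} = ENNReal.ofReal (1 - τ q)) →
      ∀ᵐ ω ∂μ, ∀ k : ℕ, ∀ᶠ x : ℕ in atTop,
        α * β ^ k / k.factorial * x
          ≤ (((Finset.Icc 1 x).filter (fun n => reps (R ω) n = k)).card : ℝ) := by
  classical
  obtain ⟨q, α, β, hq, hα, hβ, hmain⟩ := thinned_main (2 * K ^ 2) (by nlinarith)
  have hq0 : (0 : ℝ) < q := by
    have : 0 < q := by omega
    exact_mod_cast this
  refine ⟨α / 2, β, 1 / (32 * q), by positivity, hβ, by positivity, ?_⟩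
  intro Ω _ μ _ τ q₀ hτ hcomp R hRP hRm hRi hRp
  set c : ℝ := 1 / (32 * q) with hc
  have hc0 : 0 < c := by positivity
  set j0 := q₀ + 1 with hj0
  have hq₀ : q₀ < 2 ^ q₀ := Nat.lt_two_pow_self
  have hj : ∀ j, j0 ≤ j → ∀ r, 2 ^ j ≤ r → q₀ ≤ r := by
    intro j hj r hr
    have : 2 ^ q₀ ≤ 2 ^ j := Nat.pow_le_pow_right (by norm_num) (by omega)
    omega
  have hbert : ∀ j : ℕ, ∃ r, r.Prime ∧ 2 ^ j < r ∧ r ≤ 2 * 2 ^ j := fun j =>
    Nat.exists_prime_lt_and_le_two_mul (2 ^ j) (by positivity)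
  choose s hsp hs1 hs2 using hbert
  set t : ℕ → ℝ := fun j => if j < j0 then 1 / 2 else τ (s j) / (2 * K) with ht
  set p : ℕ → ℝ := fun m => if m.Prime then (if m < q₀ then 1 else 1 - τ m) else 0 with hp
  have hτpos : ∀ r, r.Prime → q₀ ≤ r → 0 < τ r := by
    intro r hr hrq
    have h1 := (hτ r hr hrq).1
    have h2 : (0 : ℝ) < (r : ℝ) ^ (-c) :=
      Real.rpow_pos_of_pos (by exact_mod_cast hr.pos) _
    linarith
  have hp' : PD p := by
    refine ⟨?_, ?_, ?_, ?_⟩
    · intro m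
      simp only [hp]
      split_ifs with h1 h2
      · norm_num
      · have := (hτ m h1 (by omega)).2; linarith
      · exact le_rfl
    · intro m
      simp only [hp]
      split_ifs with h1 h2
      · exact le_rfl
      · have := hτpos m h1 (by omega); linarith
      · norm_num
    · intro m hm
      simp only [hp]
      rw [if_neg hm]
    · intro m hm
      simp only [hp]
      rw [if_pos hm]
      split_ifs with h2
      · norm_num
      · have := (hτ m hm (by omega)).2; linarith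
  have hT : TD p t (2 * K ^ 2) j0 := by
    refine ⟨?_, ?_, ?_, ?_⟩
    · intro j
      simp only [ht]
      split_ifs with h1
      · norm_num
      · have := hτpos (s j) (hsp j) (hj j (by omega) _ (hs1 j).le)
        positivity
    · intro j
      simp only [ht]
      split_ifs with h1
      · norm_num
      · have := (hτ (s j) (hsp j) (hj j (by omega) _ (hs1 j).le)).2
        rw [div_le_one (by positivity)]
        linarith
    · intro j hjj r hr hr1 hr2
      have hrq : q₀ ≤ r := hj j hjj r hr1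
      have hsq : q₀ ≤ s j := hj j hjj _ (hs1 j).le
      have h1 : τ (s j) ≤ K * τ r := by
        rcases le_total r (s j) with h | h
        · exact (hcomp r (s j) hr (hsp j) hrq h (by have := hs2 j; omega)).2
        · refine (hcomp (s j) r (hsp j) hr hsq h (by
            have := hs1 j
            rw [pow_succ] at hr2; omega)).1
      have h2 := (hτ r hr hrq).2
      have h3 := hτpos r hr hrq
      have ep : p r = 1 - τ r := by simp only [hp]; rw [if_pos hr, if_neg (by omega)]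
      have et : t j = τ (s j) / (2 * K) := by simp only [ht]; rw [if_neg (by omega)]
      rw [ep, et, div_le_iff₀ (by positivity)]
      have h4 : 0 ≤ K * τ r * (1 / 2 - τ r) := mul_nonneg (by positivity) (by linarith)
      nlinarith
    · intro j hjj r hr hr1 hr2
      have hrq : q₀ ≤ r := hj j hjj r hr1
      have hsq : q₀ ≤ s j := hj j hjj _ (hs1 j).le
      have h1 : τ r ≤ K * τ (s j) := by
        rcases le_total r (s j) with h | h
        · exact (hcomp r (s j) hr (hsp j) hrq h (by have := hs2 j; omega)).1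
        · refine (hcomp (s j) r (hsp j) hr hsq h (by
            have := hs1 j
            rw [pow_succ] at hr2; omega)).2
      have h2 := (hτ r hr hrq).2
      have h3 := hτpos r hr hrq
      have ep : p r = 1 - τ r := by simp only [hp]; rw [if_pos hr, if_neg (by omega)]
      have et : t j = τ (s j) / (2 * K) := by simp only [ht]; rw [if_neg (by omega)]
      rw [ep, et]
      have e1 : 2 * K ^ 2 * (τ (s j) / (2 * K)) = K * τ (s j) := by
        have : K ≠ 0 := by positivity
        field_simp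
      rw [e1]
      nlinarith
  have hev : ∀ᶠ i : ℕ in atTop, ∀ j, j ≤ i → (1 / 2 : ℝ) ^ (i / (16 * q)) ≤ t j := by
    have h1 : Tendsto (fun i : ℕ => (2 : ℝ) ^ (i / (16 * q))) atTop atTop :=
      (tendsto_pow_atTop_atTop_of_one_lt (by norm_num : (1 : ℝ) < 2)).comp
        (tendsto_div_atTop (by omega))
    filter_upwards [h1.eventually_ge_atTop (8 * K ^ 2), eventually_ge_atTop (16 * q)] with i hi hi2 j hji
    set h := i / (16 * q) with hh
    have hh1 : 1 ≤ h := by
      rw [hh]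
      exact (Nat.one_le_div_iff (by omega)).mpr hi2
    by_cases hjj : j < j0
    · simp only [ht]
      rw [if_pos hjj]
      calc (1 / 2 : ℝ) ^ h ≤ (1 / 2 : ℝ) ^ 1 := pow_le_pow_of_le_one (by norm_num) (by norm_num) hh1
        _ = 1 / 2 := by norm_num
    · simp only [ht]
      rw [if_neg hjj, le_div_iff₀ (by positivity)]
      have hsq : q₀ ≤ s j := hj j (by omega) _ (hs1 j).le
      refine le_trans ?_ (hτ (s j) (hsp j) hsq).1
      have hs0 : (0 : ℝ) < s j := by exact_mod_cast (hsp j).pos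
      have hsi : (s j : ℝ) ≤ 2 ^ (i + 1) := by
        have : s j ≤ 2 ^ (i + 1) := by
          calc s j ≤ 2 * 2 ^ j := hs2 j
            _ = 2 ^ (j + 1) := by rw [pow_succ]; ring
            _ ≤ 2 ^ (i + 1) := Nat.pow_le_pow_right (by norm_num) (by omega)
        exact_mod_cast this
      have h2 : ((2 : ℝ) ^ (i + 1)) ^ (-c) ≤ (s j : ℝ) ^ (-c) :=
        Real.rpow_le_rpow_of_nonpos hs0 hsi (by linarith)
      refine le_trans ?_ h2
      have e1 : ((2 : ℝ) ^ (i + 1)) ^ (-c) = (2 : ℝ) ^ (-(c * (i + 1 : ℕ))) := by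
        rw [← Real.rpow_natCast 2 (i + 1), ← Real.rpow_mul (by norm_num)]
        congr 1; ring
      rw [e1]
      have h3 : c * ((i + 1 : ℕ) : ℝ) ≤ (h + 1 : ℕ) / 2 := by
        have h4 : i < 16 * q * (h + 1) := by
          have := Nat.lt_mul_div_succ i (by omega : 0 < 16 * q)
          exact this
        have h5 : ((i + 1 : ℕ) : ℝ) ≤ 16 * q * (h + 1 : ℕ) := by exact_mod_cast h4
        rw [hc]
        rw [one_div, inv_mul_le_iff₀ (by positivity)]
        calc ((i + 1 : ℕ) : ℝ) ≤ 16 * q * (h + 1 : ℕ) := h5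
          _ = 32 * q * ((h + 1 : ℕ) / 2) := by ring
      have h4 : (2 : ℝ) ^ (-(((h + 1 : ℕ) : ℝ) / 2)) ≤ (2 : ℝ) ^ (-(c * (i + 1 : ℕ))) :=
        Real.rpow_le_rpow_of_exponent_le (by norm_num) (by linarith)
      refine le_trans ?_ h4
      have h5 : (0 : ℝ) < (2 : ℝ) ^ (-(((h + 1 : ℕ) : ℝ) / 2)) := Real.rpow_pos_of_pos (by norm_num) _
      have h6 : ((2 : ℝ) ^ (-(((h + 1 : ℕ) : ℝ) / 2))) ^ 2 = (1 / 2) ^ (h + 1) := by
        rw [← Real.rpow_natCast _ 2, ← Real.rpow_mul (by norm_num)]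
        have e2 : -(((h + 1 : ℕ) : ℝ) / 2) * ((2 : ℕ) : ℝ) = -((h + 1 : ℕ) : ℝ) := by push_cast; ring
        rw [e2, Real.rpow_neg (by norm_num), Real.rpow_natCast, one_div, inv_pow]
      refine le_of_sq_le_sq ?_ h5.le
      rw [h6]
      have h7 : (1 / 2 : ℝ) ^ h * 2 ^ h = 1 := by rw [← mul_pow]; norm_num
      have h8 : (0 : ℝ) < (1 / 2 : ℝ) ^ h := by positivity
      have h9 : 8 * K ^ 2 * (1 / 2 : ℝ) ^ h ≤ 1 := by
        calc 8 * K ^ 2 * (1 / 2 : ℝ) ^ h ≤ 2 ^ h * (1 / 2 : ℝ) ^ h :=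
              mul_le_mul_of_nonneg_right hi h8.le
          _ = 1 := by rw [mul_comm]; exact h7
      have e3 : ((1 / 2 : ℝ) ^ h * (2 * K)) ^ 2 = (8 * K ^ 2 * (1 / 2 : ℝ) ^ h) * ((1 / 2 : ℝ) ^ h / 2) := by
        ring
      rw [e3, pow_succ]
      calc (8 * K ^ 2 * (1 / 2 : ℝ) ^ h) * ((1 / 2 : ℝ) ^ h / 2) ≤ 1 * ((1 / 2 : ℝ) ^ h / 2) :=
            mul_le_mul_of_nonneg_right h9 (by positivity)
        _ = (1 / 2) ^ h * (1 / 2) := by ring
  have hEm : ∀ m, MeasurableSet (Emod q₀ R m) := by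
    intro m
    by_cases h : q₀ ≤ m
    · rw [Emod_large h]; exact hRm m
    · by_cases hp1 : m.Prime
      · rw [Emod_small (by omega) hp1]; exact MeasurableSet.univ
      · rw [Emod_small' (by omega) hp1]; exact MeasurableSet.empty
  have hEp : ∀ m, μ (Emod q₀ R m) = ENNReal.ofReal (p m) := by
    intro m
    simp only [hp]
    by_cases h : q₀ ≤ m
    · rw [Emod_large h]
      by_cases hp1 : m.Prime
      · rw [if_pos hp1, if_neg (by omega)]; exact hRp m hp1 h
      · rw [if_neg hp1]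
        have : {ω | m ∈ R ω} = ∅ := by
          ext ω
          constructor
          · intro h'; exact absurd (hRP ω m h') hp1
          · intro h'; exact absurd h' (Set.notMem_empty ω)
        rw [this]; simp
    · by_cases hp1 : m.Prime
      · rw [Emod_small (by omega) hp1, if_pos hp1, if_pos (by omega)]; simp
      · rw [Emod_small' (by omega) hp1, if_neg hp1]; simp
  have hEP : ∀ m, ¬ m.Prime → Emod q₀ R m = ∅ := by
    intro m hm
    by_cases h : q₀ ≤ m
    · rw [Emod_large h]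
      ext ω
      constructor
      · intro h'; exact absurd (hRP ω m h') hm
      · intro h'; exact absurd h' (Set.notMem_empty ω)
    · exact Emod_small' (by omega) hm
  have hres := hmain Ω inferInstance μ inferInstance p t j0 hp' hT hev (Emod q₀ R) hEm
    (Emod_indep q₀ hRm hRi) hEp hEP
  filter_upwards [hres] with ω hω k
  have h1 : ∀ m, q₀ ≤ m → (m ∈ R ω ↔ m ∈ Rs (Emod q₀ R) ω) := by
    intro m hm
    show m ∈ R ω ↔ ω ∈ Emod q₀ R m
    rw [Emod_large hm]
    exact Iff.rfl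
  have hε : 0 < α / 2 * β ^ k / k.factorial := by positivity
  filter_upwards [hω k, ev_sqrt q₀ hε] with x hx1 hx2
  have h2 := count_transfer h1 x k
  have h3 : (((Finset.Icc 1 x).filter (fun n => reps (Rs (Emod q₀ R) ω) n = k)).card : ℝ)
      ≤ (((Finset.Icc 1 x).filter (fun n => reps (R ω) n = k)).card : ℝ)
        + ((q₀ * (2 * (Nat.sqrt (2 * x) + 1)) : ℕ) : ℝ) := by exact_mod_cast h2
  have e1 : α * β ^ k / k.factorial * x = α / 2 * β ^ k / k.factorial * x
      + α / 2 * β ^ k / k.factorial * x := by ring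
  linarith

end Pool.Agent.helper306_thin
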