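import Pool.Agent.helper306_thin.Sharp

/-!
# The sharp local bound, conclusion
-/

namespace Pool.Agent.helper306_thin

open Finset Pool.Agent.helper306_cramer

/-- the primes of the interval are spread out -/
lemma spread {a N : ℕ} {A : ℝ} (hA : 1 ≤ A) (hm1 : 700 ≤ (Qp a N).card)
    (hm2 : (400 * A + 1) ^ 2 ≤ (Qp a N).card)
    (hNA : (N : ℝ) ≤ A * (Qp a N).card * Real.log (Qp a N).card) :
    ∃ T L : ℕ, (N : ℝ) / (400 * A) ≤ L ∧
      ((Qp a N).card : ℝ) / 4 ≤ ((Qp a N).filter (fun r => r ≤ T)).card ∧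
      ((Qp a N).card : ℝ) / 4 ≤ ((Qp a N).filter (fun r => T + L ≤ r)).card := by
  classical
  set Q := Qp a N with hQ
  set m := Q.card with hm
  have hm1' : (700 : ℝ) ≤ m := by exact_mod_cast hm1
  have hm0 : (0 : ℝ) < m := by linarith
  have hex : ∃ T : ℕ, (m : ℝ) / 4 ≤ (Q.filter (fun r => r ≤ T)).card := by
    refine ⟨a + N, ?_⟩
    have : Q.filter (fun r => r ≤ a + N) = Q := by
      refine Finset.filter_true_of_mem (fun r hr => ?_)
      rw [hQ, mem_Qp] at hr; exact hr.1.2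
    rw [this, ← hm]; linarith
  set T := Nat.find hex with hT
  have hT1 := Nat.find_spec hex
  set L := ⌊(N : ℝ) / (400 * A)⌋₊ + 2 with hL
  have hNA0 : (0 : ℝ) ≤ (N : ℝ) / (400 * A) := by positivity
  have hL1 : (N : ℝ) / (400 * A) ≤ L := by
    rw [hL]; push_cast
    have := Nat.lt_floor_add_one ((N : ℝ) / (400 * A)); linarith
  have hL2 : (L : ℝ) ≤ (N : ℝ) / (400 * A) + 2 := by
    rw [hL]; push_cast
    have := Nat.floor_le hNA0; linarith
  refine ⟨T, L, hL1, hT1, ?_⟩
  have hlow : ((Q.filter (fun r => r < T)).card : ℝ) < m / 4 := by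
    rcases Nat.eq_zero_or_pos T with h0 | h0
    · have : Q.filter (fun r => r < T) = ∅ := by
        rw [Finset.filter_eq_empty_iff]; intro r _; omega
      rw [this]; simp; linarith
    · have h1 := Nat.find_min hex (m := T - 1) (by omega)
      push Not at h1
      have : Q.filter (fun r => r < T) = Q.filter (fun r => r ≤ T - 1) := by
        refine Finset.filter_congr (fun r _ => ?_); omega
      rw [this]; exact h1
  have hmid : ((Q.filter (fun r => T ≤ r ∧ r < T + L)).card : ℝ) ≤ m / 4 := by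
    have hL2' : 2 ≤ L := by omega
    have hbt := Pool.Agent.TH915.UC.bt_gen T 1 L (by norm_num) hL2'
    have h1 : (Q.filter (fun r => T ≤ r ∧ r < T + L)).card
        ≤ ((Finset.range L).filter (fun k => (T + k * 1).Prime)).card := by
      refine Finset.card_le_card_of_injOn (fun r => r - T) ?_ ?_
      · intro r hr
        rw [Finset.mem_coe, Finset.mem_filter, hQ, mem_Qp] at hr
        rw [Finset.mem_coe, Finset.mem_filter, Finset.mem_range]
        simp only
        refine ⟨by omega, ?_⟩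
        have : T + (r - T) * 1 = r := by omega
        rw [this]; exact hr.1.2
      · intro r hr s hs h
        rw [Finset.mem_coe, Finset.mem_filter] at hr hs
        simp only at h
        omega
    have h2 : ((Q.filter (fun r => T ≤ r ∧ r < T + L)).card : ℝ)
        ≤ 22 * (((1 : ℕ) : ℝ) / ((1 : ℕ).totient : ℝ)) * L / Real.log L := by
      refine le_trans ?_ hbt
      exact_mod_cast h1
    rw [Nat.totient_one, Nat.cast_one, div_one, mul_one] at h2
    refine h2.trans ?_
    have hsm : Real.sqrt m ≤ L := by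
      have h3 : 400 * A + 1 ≤ Real.sqrt m := Real.le_sqrt_of_sq_le hm2
      have h4 := Real.sq_sqrt hm0.le
      have h5 : (m : ℝ) ≤ N + 1 := by exact_mod_cast card_Qp_le a N
      have h6 : Real.sqrt m * (400 * A) ≤ N := by
        have : 1 ≤ Real.sqrt m := by linarith
        nlinarith
      have h7 : Real.sqrt m ≤ (N : ℝ) / (400 * A) := by
        rw [le_div_iff₀ (by positivity)]; exact h6
      linarith
    have hlogm : 1 ≤ Real.log m := by
      rw [Real.le_log_iff_exp_le hm0]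
      have := Real.exp_one_lt_d9; linarith
    have hlogL : Real.log m / 2 ≤ Real.log L := by
      have h1 : Real.log m / 2 = Real.log (Real.sqrt m) := by rw [Real.log_sqrt hm0.le]
      rw [h1]
      exact Real.log_le_log (Real.sqrt_pos.mpr hm0) hsm
    have hLm : (L : ℝ) ≤ m * Real.log m / 400 + 2 := by
      refine hL2.trans ?_
      have : (N : ℝ) / (400 * A) ≤ m * Real.log m / 400 := by
        rw [div_le_div_iff₀ (by positivity) (by norm_num)]
        nlinarith
      linarith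
    calc 22 * (L : ℝ) / Real.log L ≤ 22 * (m * Real.log m / 400 + 2) / (Real.log m / 2) :=
          div_le_div₀ (by positivity) (by linarith) (by linarith) hlogL
      _ = 44 / 400 * m + 88 / Real.log m := by field_simp; ring
      _ ≤ 44 / 400 * m + 88 := by
          have : 88 / Real.log m ≤ 88 := div_le_self (by norm_num) hlogm
          linarith
      _ ≤ m / 4 := by linarith
  have hsplit : m ≤ (Q.filter (fun r => r < T)).card
      + ((Q.filter (fun r => T ≤ r ∧ r < T + L)).card + (Q.filter (fun r => T + L ≤ r)).card) := by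
    have h1 : Q ⊆ Q.filter (fun r => r < T) ∪ (Q.filter (fun r => T ≤ r ∧ r < T + L)
        ∪ Q.filter (fun r => T + L ≤ r)) := by
      intro r hr
      simp only [Finset.mem_union, Finset.mem_filter]
      rcases Nat.lt_or_ge r T with h | h
      · exact Or.inl ⟨hr, h⟩
      · rcases Nat.lt_or_ge r (T + L) with h' | h'
        · exact Or.inr (Or.inl ⟨hr, h, h'⟩)
        · exact Or.inr (Or.inr ⟨hr, h'⟩)
    refine (Finset.card_le_card h1).trans ((Finset.card_union_le _ _).trans ?_)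
    exact Nat.add_le_add_left (Finset.card_union_le _ _) _
  have hsplit' : (m : ℝ) ≤ (Q.filter (fun r => r < T)).card
      + ((Q.filter (fun r => T ≤ r ∧ r < T + L)).card + (Q.filter (fun r => T + L ≤ r)).card) := by
    exact_mod_cast hsplit
  linarith

variable {q : ℕ} [NeZero q]

/-- two elements of the projection in one cell are close -/
lemma cell_close {a N : ℕ} {A : ℝ} (hA : 1 ≤ A) (hm1 : 700 ≤ (Qp a N).card)
    (hm2 : (400 * A + 1) ^ 2 ≤ (Qp a N).card)
    (hNA : (N : ℝ) ≤ A * (Qp a N).card * Real.log (Qp a N).card) {s : ℝ} (hs : 0 ≤ s)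
    {v w : ZMod q} (hv : v ∈ Pj q (Qp a N) s) (hw : w ∈ Pj q (Qp a N) s)
    (hvw : |(v.val : ℝ) - w.val| * (2 * N) ≤ q) :
    |(v.val : ℝ) - w.val| ≤ 800 * A * (s / Real.sqrt (Qp a N).card) * q / N := by
  classical
  obtain ⟨T, L, hL, hlo, hhi⟩ := spread hA hm1 hm2 hNA
  set Q := Qp a N with hQ
  set m := Q.card with hm
  have hm1' : (700 : ℝ) ≤ m := by exact_mod_cast hm1
  have hm0 : (0 : ℝ) < m := by linarith
  have hq0 : (0 : ℝ) < q := by exact_mod_cast Nat.pos_of_ne_zero (NeZero.ne q)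
  have hN1 : 1 ≤ N := by
    have := card_Qp_le a N
    rw [← hQ, ← hm] at this; omega
  have hN0 : (0 : ℝ) < N := by exact_mod_cast hN1
  set Lo := Q.filter (fun r => r ≤ T) with hLo
  set Hi := Q.filter (fun r => T + L ≤ r) with hHi
  have hlo0 : (0 : ℝ) < Lo.card := by linarith
  have hhi0 : (0 : ℝ) < Hi.card := by linarith
  have hL0 : (0 : ℝ) < L := lt_of_lt_of_le (by positivity) hL
  obtain ⟨u', hu'⟩ := mem_Pj.mp (Pj_sub hv hw)
  set V := Vf q Q u' (v - w) with hV
  have hV1 : V ≤ 4 * s ^ 2 := by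
    have h1 := Real.sq_sqrt (Vf_nonneg Q u' (v - w))
    have h3 : Real.sqrt (Vf q Q u' (v - w)) ^ 2 ≤ (s + s) ^ 2 :=
      pow_le_pow_left₀ (Real.sqrt_nonneg _) hu' 2
    rw [h1, ← hV] at h3
    nlinarith
  set z : ℤ := (v.val : ℤ) - w.val with hz
  have hzr : (z : ℝ) = (v.val : ℝ) - w.val := by rw [hz]; push_cast; ring
  have hzm : (z : ZMod q) = v - w := by
    rw [hz]; push_cast; rw [ZMod.natCast_zmod_val, ZMod.natCast_zmod_val]
  rw [← hzr] at hvw ⊢
  set f : ℕ → ℝ := fun r => ‖1 - ch q (u' + (v - w) * r)‖ with hf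
  have hpair : ∀ r ∈ Lo, ∀ r' ∈ Hi, (4 * |(z : ℝ)| * L / q) ^ 2 ≤ 2 * (f r' ^ 2 + f r ^ 2) := by
    intro r hr r' hr'
    rw [hLo, Finset.mem_filter, hQ, mem_Qp] at hr
    rw [hHi, Finset.mem_filter, hQ, mem_Qp] at hr'
    have hd1 : (L : ℝ) ≤ (r' : ℝ) - r := by
      have : r + L ≤ r' := by omega
      have : (r : ℝ) + L ≤ r' := by exact_mod_cast this
      linarith
    have hd2 : (r' : ℝ) - r ≤ N := by
      have h1 : r' ≤ r + N := by omega
      have h2 : (r' : ℝ) ≤ r + N := by exact_mod_cast h1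
      linarith
    have habs : |((z * ((r' : ℤ) - r) : ℤ) : ℝ)| = |(z : ℝ)| * ((r' : ℝ) - r) := by
      push_cast
      rw [abs_mul, abs_of_nonneg (by linarith : (0 : ℝ) ≤ (r' : ℝ) - r)]
    have h1 := four_mul_le (q := q) (z * ((r' : ℤ) - r)) (by
      rw [habs]
      have : |(z : ℝ)| * ((r' : ℝ) - r) ≤ |(z : ℝ)| * N :=
        mul_le_mul_of_nonneg_left hd2 (abs_nonneg _)
      linarith)
    rw [habs] at h1
    have e1 : ((z * ((r' : ℤ) - r) : ℤ) : ZMod q)
        = (u' + (v - w) * r') - (u' + (v - w) * r) := by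
      push_cast; rw [hzm]; ring
    rw [e1] at h1
    have h2 := h1.trans (norm_one_sub_ch_sub _ _)
    have h3 : 4 * |(z : ℝ)| * L / q ≤ f r' + f r := by
      refine le_trans ?_ h2
      refine div_le_div_of_nonneg_right ?_ hq0.le
      have := mul_le_mul_of_nonneg_left hd1 (abs_nonneg (z : ℝ))
      linarith
    have h4 : (4 * |(z : ℝ)| * L / q) ^ 2 ≤ (f r' + f r) ^ 2 :=
      pow_le_pow_left₀ (by positivity) h3 2
    nlinarith [sq_nonneg (f r' - f r)]
  have hsum : (Lo.card : ℝ) * (Hi.card * (4 * |(z : ℝ)| * L / q) ^ 2)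
      ≤ 2 * (Lo.card * V + Hi.card * V) := by
    have h1 : ∑ r ∈ Lo, ∑ r' ∈ Hi, (4 * |(z : ℝ)| * L / q) ^ 2
        ≤ ∑ r ∈ Lo, ∑ r' ∈ Hi, 2 * (f r' ^ 2 + f r ^ 2) :=
      Finset.sum_le_sum (fun r hr => Finset.sum_le_sum (fun r' hr' => hpair r hr r' hr'))
    have e1 : ∑ r ∈ Lo, ∑ r' ∈ Hi, (4 * |(z : ℝ)| * L / q) ^ 2
        = (Lo.card : ℝ) * (Hi.card * (4 * |(z : ℝ)| * L / q) ^ 2) := by
      rw [Finset.sum_const, Finset.sum_const, nsmul_eq_mul, nsmul_eq_mul]
    have e2 : ∑ r ∈ Lo, ∑ r' ∈ Hi, 2 * (f r' ^ 2 + f r ^ 2)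
        = 2 * (Lo.card * ∑ r' ∈ Hi, f r' ^ 2 + Hi.card * ∑ r ∈ Lo, f r ^ 2) := by
      simp_rw [← Finset.mul_sum, Finset.sum_add_distrib, Finset.sum_const, nsmul_eq_mul]
      rw [← Finset.mul_sum]
    rw [e1, e2] at h1
    refine h1.trans ?_
    have b1 : ∑ r' ∈ Hi, f r' ^ 2 ≤ V :=
      Finset.sum_le_sum_of_subset_of_nonneg (Finset.filter_subset _ _) (fun _ _ _ => sq_nonneg _)
    have b2 : ∑ r' ∈ Lo, f r' ^ 2 ≤ V :=
      Finset.sum_le_sum_of_subset_of_nonneg (Finset.filter_subset _ _) (fun _ _ _ => sq_nonneg _)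
    have b3 := mul_le_mul_of_nonneg_left b1 hlo0.le
    have b4 := mul_le_mul_of_nonneg_left b2 hhi0.le
    linarith
  -- `X ^ 2 ≤ 64 s ^ 2 / m`
  set X := 4 * |(z : ℝ)| * L / q with hX
  have hX0 : 0 ≤ X := by positivity
  have hX2 : X ^ 2 * m ≤ 64 * s ^ 2 := by
    have hV0 : 0 ≤ V := Vf_nonneg _ _ _
    have h1 : X ^ 2 ≤ 2 * V * (1 / Hi.card + 1 / Lo.card) := by
      have e : 2 * V * (1 / (Hi.card : ℝ) + 1 / Lo.card)
          = 2 * (Lo.card * V + Hi.card * V) / (Lo.card * Hi.card) := by field_simp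
      rw [e, le_div_iff₀ (by positivity)]
      linarith
    have h2 : 1 / (Hi.card : ℝ) + 1 / Lo.card ≤ 8 / m := by
      have a1 : 1 / (Hi.card : ℝ) ≤ 1 / (m / 4) := one_div_le_one_div_of_le (by positivity) hhi
      have a2 : 1 / (Lo.card : ℝ) ≤ 1 / (m / 4) := one_div_le_one_div_of_le (by positivity) hlo
      have e : 8 / (m : ℝ) = 1 / (m / 4) + 1 / (m / 4) := by field_simp; norm_num
      linarith
    have h3 : X ^ 2 ≤ 2 * V * (8 / m) := h1.trans (mul_le_mul_of_nonneg_left h2 (by positivity))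
    have h4 : X ^ 2 * m ≤ 2 * V * (8 / m) * m := mul_le_mul_of_nonneg_right h3 hm0.le
    have e : 2 * V * (8 / m) * m = 16 * V := by field_simp; ring
    linarith
  have hX3 : X ≤ 8 * (s / Real.sqrt m) := by
    have hsm : 0 < Real.sqrt m := Real.sqrt_pos.mpr hm0
    have h1 : (X * Real.sqrt m) ^ 2 ≤ (8 * s) ^ 2 := by
      rw [mul_pow, Real.sq_sqrt hm0.le]; nlinarith
    have h2 : X * Real.sqrt m ≤ 8 * s := le_of_abs_le (abs_le_of_sq_le_sq h1 (by positivity))
    rw [← mul_div_assoc, le_div_iff₀ hsm]; exact h2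
  have h5 : |(z : ℝ)| = X * q / (4 * L) := by
    rw [eq_div_iff (by positivity), hX, div_mul_cancel₀ _ hq0.ne']; ring
  rw [h5]
  clear h5 hpair hsum hX0 hX2
  clear_value X
  have hNL : (N : ℝ) ≤ 400 * A * L := by
    rw [div_le_iff₀ (by positivity)] at hL; linarith
  rw [div_le_div_iff₀ (by positivity) hN0]
  have hsm0 : 0 ≤ s / Real.sqrt m := by positivity
  calc X * q * N ≤ (8 * (s / Real.sqrt m)) * q * (400 * A * L) := by
        refine mul_le_mul (mul_le_mul_of_nonneg_right hX3 hq0.le) hNL hN0.le (by positivity)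
    _ = 800 * A * (s / Real.sqrt m) * q * (4 * L) := by ring

/-- the bound for the projection -/
lemma Pj_card_sharp {a N : ℕ} {A : ℝ} (hA : 1 ≤ A) (hm1 : 700 ≤ (Qp a N).card)
    (hm2 : (400 * A + 1) ^ 2 ≤ (Qp a N).card)
    (hNA : (N : ℝ) ≤ A * (Qp a N).card * Real.log (Qp a N).card) {s : ℝ} (hs1 : 1 ≤ s)
    (hs : s ^ 2 ≤ (Qp a N).card / (1024 * A ^ 2 * Real.log (Qp a N).card ^ 2))
    (hq : (Qp a N).card * N ≤ q) :
    ((Pj q (Qp a N) s).card : ℝ) ≤ ((⌊4 * (176 * A) ^ 2⌋₊ + 1 : ℕ) : ℝ) ^ 2 * (1601 * A) / N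
      * (s / Real.sqrt (Qp a N).card) * q := by
  classical
  set Q := Qp a N with hQ
  set m := Q.card with hm
  set K := ⌊4 * (176 * A) ^ 2⌋₊ with hK
  have hm1' : (700 : ℝ) ≤ m := by exact_mod_cast hm1
  have hm0 : (0 : ℝ) < m := by linarith
  have hsm : 0 < Real.sqrt m := Real.sqrt_pos.mpr hm0
  have hq0 : (0 : ℝ) < q := by exact_mod_cast Nat.pos_of_ne_zero (NeZero.ne q)
  have hN1 : 1 ≤ N := by
    have := card_Qp_le a N
    rw [← hQ, ← hm] at this; omega
  have hN0 : (0 : ℝ) < N := by exact_mod_cast hN1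
  have hs0 : 0 ≤ s := by linarith
  set B := 800 * A * (s / Real.sqrt m) * q / N with hB
  have hB0 : 0 ≤ B := by positivity
  set cell : ℕ × ℕ → Finset (ZMod q) := fun c => (Pj q Q s).filter (fun v =>
    |(v.val : ℝ) / q - (c.2 : ℝ) / c.1| < 1 / (4 * c.1 * N)) with hcell
  have hcover : Pj q Q s ⊆ ((Finset.range (K + 1) ×ˢ Finset.range (K + 1)).filter
      (fun c => 1 ≤ c.1)).biUnion cell := by
    intro v hv
    obtain ⟨r0, b, h1, h2, h3, h4⟩ := arc hA (le_trans (by norm_num) hm1) hNA hs hv hs0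
    rw [Finset.mem_biUnion]
    refine ⟨(r0, b), ?_, ?_⟩
    · rw [Finset.mem_filter, Finset.mem_product, Finset.mem_range, Finset.mem_range]
      simp only
      omega
    · rw [hcell, Finset.mem_filter]
      exact ⟨hv, h4⟩
  have hone : ∀ c ∈ (Finset.range (K + 1) ×ˢ Finset.range (K + 1)).filter (fun c => 1 ≤ c.1),
      ((cell c).card : ℝ) ≤ 2 * B + 1 := by
    rintro ⟨r0, b⟩ hc
    rw [Finset.mem_filter] at hc
    have hr0 : 1 ≤ r0 := hc.2
    have hr0' : (1 : ℝ) ≤ r0 := by exact_mod_cast hr0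
    rcases (cell (r0, b)).eq_empty_or_nonempty with h0 | ⟨w, hw⟩
    · rw [h0]; simp; positivity
    have e1 : (cell (r0, b)).card = ((cell (r0, b)).image
        (fun v => ((v.val : ℤ) - w.val))).card := by
      refine (Finset.card_image_of_injective _ ?_).symm
      intro v v' h
      simp only at h
      have h2 : v.val = v'.val := by omega
      exact ZMod.val_injective q h2
    rw [e1]
    refine card_int_le hB0 _ ?_
    intro z hz
    rw [Finset.mem_image] at hz
    obtain ⟨v, hv, rfl⟩ := hz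
    rw [hcell, Finset.mem_filter] at hv hw
    simp only at hv hw
    have hcl : |(v.val : ℝ) - w.val| * (2 * N) ≤ q := by
      have h1 := abs_sub_lt_iff.mp hv.2
      have h2 := abs_sub_lt_iff.mp hw.2
      have hbd : 1 / (4 * (r0 : ℝ) * N) ≤ 1 / (4 * N) :=
        one_div_le_one_div_of_le (by positivity) (by nlinarith)
      have h3 : |(v.val : ℝ) / q - (w.val : ℝ) / q| ≤ 1 / (2 * N) := by
        have e : 1 / (2 * (N : ℝ)) = 1 / (4 * N) + 1 / (4 * N) := by field_simp; norm_num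
        rw [e, abs_le]
        constructor <;> linarith [h1.1, h1.2, h2.1, h2.2]
      have e : |(v.val : ℝ) - w.val| * (2 * N) = |(v.val : ℝ) / q - (w.val : ℝ) / q| * (q * (2 * N)) := by
        rw [← sub_div, abs_div, abs_of_pos hq0]; field_simp
      rw [e]
      calc |(v.val : ℝ) / q - (w.val : ℝ) / q| * (q * (2 * N)) ≤ 1 / (2 * N) * (q * (2 * N)) :=
            mul_le_mul_of_nonneg_right h3 (by positivity)
        _ = q := by field_simp
    have := cell_close hA hm1 hm2 hNA hs0 hv.1 hw.1 hcl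
    push_cast
    exact this
  have h1 : ((Pj q Q s).card : ℝ) ≤ ((K + 1 : ℕ) : ℝ) ^ 2 * (2 * B + 1) := by
    have h2 : ((Pj q Q s).card : ℝ) ≤ ∑ c ∈ (Finset.range (K + 1) ×ˢ Finset.range (K + 1)).filter
        (fun c => 1 ≤ c.1), ((cell c).card : ℝ) := by
      exact_mod_cast (Finset.card_le_card hcover).trans Finset.card_biUnion_le
    refine h2.trans ((Finset.sum_le_sum hone).trans ?_)
    rw [Finset.sum_const, nsmul_eq_mul]
    refine mul_le_mul_of_nonneg_right ?_ (by positivity)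
    have h3 : ((Finset.range (K + 1) ×ˢ Finset.range (K + 1)).filter (fun c => 1 ≤ c.1)).card
        ≤ (K + 1) ^ 2 := by
      refine (Finset.card_filter_le _ _).trans (le_of_eq ?_)
      rw [Finset.card_product, Finset.card_range]; ring
    exact_mod_cast h3
  refine h1.trans ?_
  have h2 : 2 * B + 1 ≤ 1601 * A / N * (s / Real.sqrt m) * q := by
    have h3 : 1 ≤ A / N * (s / Real.sqrt m) * q := by
      have e : A / N * (s / Real.sqrt m) * q = (A * s * q) / (N * Real.sqrt m) := by field_simp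
      rw [e, le_div_iff₀ (by positivity), one_mul]
      have h4 : Real.sqrt m ≤ m := by
        have h12 : (1 : ℝ) ≤ Real.sqrt m := Real.one_le_sqrt.mpr (by linarith)
        have h13 := Real.sq_sqrt hm0.le
        nlinarith
      have h5 : (m : ℝ) * N ≤ q := by exact_mod_cast hq
      have h6 : (1 : ℝ) ≤ A * s := by nlinarith
      nlinarith
    have e : 1601 * A / N * (s / Real.sqrt m) * q = 2 * B + A / N * (s / Real.sqrt m) * q := by
      rw [hB]; field_simp; ring
    rw [e]; linarith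
  have h3 := mul_le_mul_of_nonneg_left h2 (by positivity : (0 : ℝ) ≤ ((K + 1 : ℕ) : ℝ) ^ 2)
  refine h3.trans (le_of_eq ?_)
  ring

/-- the constant of the sharp bound -/
noncomputable def Ksh (A : ℝ) : ℝ := 16 * (((⌊4 * (176 * A) ^ 2⌋₊ + 1 : ℕ) : ℝ) ^ 2 * (1601 * A))

/-- **The sharp local bound.** -/
theorem sharp_llt {p : ℕ → ℝ} (hp0 : ∀ m, 0 ≤ p m) (hp1 : ∀ m, p m ≤ 1) {a N : ℕ} {A : ℝ}
    (hA : 1 ≤ A) (hm1 : 700 ≤ (Qp a N).card) (hm2 : (400 * A + 1) ^ 2 ≤ (Qp a N).card)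
    (hNA : (N : ℝ) ≤ A * (Qp a N).card * Real.log (Qp a N).card)
    {t : ℝ} (ht0 : 0 < t) (ht1 : t ≤ 1) (ht : ∀ r ∈ Qp a N, t ≤ p r * (1 - p r)) (l n : ℕ) :
    Ex p (Qp a N) (fun A => if A.card = l ∧ ∑ m ∈ A, m = n then 1 else 0)
      ≤ Ksh A / (t * (Qp a N).card * N)
        + 3 * Real.exp (-(t * ((Qp a N).card / (1024 * A ^ 2 * Real.log (Qp a N).card ^ 2)) / 2)) := by
  set m := (Qp a N).card with hm
  have hm1' : (700 : ℝ) ≤ m := by exact_mod_cast hm1
  have hm0 : (0 : ℝ) < m := by linarith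
  have hN1 : 1 ≤ N := by
    have := card_Qp_le a N
    rw [← hm] at this; omega
  have hN0 : (0 : ℝ) < N := by exact_mod_cast hN1
  obtain ⟨q, hqge, hq⟩ := Nat.exists_infinite_primes (m * N + m)
  have : NeZero q := ⟨hq.ne_zero⟩
  have h := local_bound (q := q) hp0 hp1 (by omega : 1 ≤ (Qp a N).card) ht0 ht1 ht
    (Y := ((⌊4 * (176 * A) ^ 2⌋₊ + 1 : ℕ) : ℝ) ^ 2 * (1601 * A) / N)
    (W := m / (1024 * A ^ 2 * Real.log m ^ 2)) (by positivity) (by
      have h1 : (m : ℝ) ≤ q := by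
        have : m ≤ q := by nlinarith
        exact_mod_cast this
      have h11 : Real.sqrt m ≤ m := by
        have h12 : (1 : ℝ) ≤ Real.sqrt m := Real.one_le_sqrt.mpr (by linarith)
        have h13 := Real.sq_sqrt hm0.le
        nlinarith
      linarith)
    (fun s hs1 hs2 => Pj_card_sharp hA hm1 hm2 hNA hs1 hs2 (by rw [← hm]; omega)) l n
  refine h.trans (le_of_eq ?_)
  congr 1
  unfold Ksh
  rw [← hm]
  field_simp

end Pool.Agent.helper306_thin
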