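import Pool.Agent.helper306_thin.GoodPairs
import Pool.Agent.helper306_thin.Sharp2

/-!
# Typical windows between good pairs of primes
-/

namespace Pool.Agent.helper306_thin

open Finset Pool.Agent.helper306_cramer

variable {p : ℕ → ℝ}

/-- the probability of a typical window from `a` to `b` with sum `n` -/
noncomputable def gg (p : ℕ → ℝ) (κ : ℝ) (n a b : ℕ) : ℝ :=
  Ex p (Pr a b) (fun A => if a ∈ A ∧ b ∈ A ∧ ∑ m ∈ A, m = n ∧ |Mi p a (b + 1) - A.card| ≤ κ ∧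
    |((∑ m ∈ A, m : ℕ) : ℝ) - (A.card * a + Wi p a (b + 1))| ≤ κ * ((b : ℝ) - a) then 1 else 0)

lemma gg_nonneg (hp : PD p) (κ : ℝ) (n a b : ℕ) : 0 ≤ gg p κ n a b :=
  Ex_nonneg hp.nonneg hp.le_one (fun A _ => by split_ifs <;> norm_num)

lemma gg_le_th (hp : PD p) {κ : ℝ} {n a b : ℕ} (hab : a ≤ b) :
    gg p κ n a b ≤ Ex p (Finset.Icc a b) (th n a b) := by
  rw [Ex_Pr hp]
  refine Ex_mono hp.nonneg hp.le_one (fun A _ => ?_)
  unfold th
  by_cases h : a ∈ A ∧ b ∈ A ∧ ∑ m ∈ A, m = n ∧ |Mi p a (b + 1) - A.card| ≤ κ ∧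
    |((∑ m ∈ A, m : ℕ) : ℝ) - (A.card * a + Wi p a (b + 1))| ≤ κ * ((b : ℝ) - a)
  · rw [if_pos h, if_pos ⟨hab, h.1, h.2.1, h.2.2.1⟩]
  · rw [if_neg h]; split_ifs <;> norm_num

/-- typical windows between good pairs are windows -/
lemma sum_gg_le_cnt (hp : PD p) {κ : ℝ} {Y Lb K D n : ℕ} (hK : 2 ≤ K) :
    ∑ w ∈ GP Y Lb K D, gg p κ n w.1 w.2
      ≤ Ex p (Finset.Ico Y (Y + Lb)) (fun A => (cnt A n : ℝ)) := by
  classical
  rw [Ex_congr (fun A hA => cnt_eq_sum hA n), Ex_sum]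
  have hsub : GP Y Lb K D ⊆ Finset.Ico Y (Y + Lb) ×ˢ Finset.Ico Y (Y + Lb) := by
    intro w hw
    have h := GP_prop hK hw
    rw [Finset.mem_product, Finset.mem_Ico, Finset.mem_Ico]
    omega
  refine le_trans (Finset.sum_le_sum (fun w hw => ?_)) (Finset.sum_le_sum_of_subset_of_nonneg hsub
    (fun w _ _ => Ex_nonneg hp.nonneg hp.le_one (fun A _ => th_nonneg _ _ _ _)))
  have h := GP_prop hK hw
  have hw' := hsub hw
  rw [Finset.mem_product] at hw'
  have hs : Finset.Icc w.1 w.2 ⊆ Finset.Ico Y (Y + Lb) := Icc_sub hw'.1 hw'.2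
  have e : Ex p (Finset.Ico Y (Y + Lb)) (fun A => th n w.1 w.2 (sg A w.1 w.2))
      = Ex p (Finset.Icc w.1 w.2) (th n w.1 w.2) := Ex_inter p hs _
  rw [e]
  exact gg_le_th hp h.2.2.2.1.le

lemma Ex_single (p : ℕ → ℝ) (a : ℕ) (Φ : Finset ℕ → ℝ) :
    Ex p {a} Φ = (1 - p a) * Φ ∅ + p a * Φ {a} := by
  have h := Ex_insert p (J := ∅) (a := a) (by simp) Φ
  rw [Ex_empty, Ex_empty] at h
  simpa using h

/-- both end points survive with probability at least `1/4` -/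
lemma prob_ends (hp : PD p) {a b : ℕ} (ha : a.Prime) (hb : b.Prime) (hab : a < b) :
    1 / 4 ≤ Ex p (Pr a b) (fun A => (if a ∈ A then 1 else 0) * (if b ∈ A then 1 else 0)) := by
  classical
  have hd : Disjoint ({a} : Finset ℕ) {b} := by
    rw [Finset.disjoint_singleton]; omega
  have h1 : ({a} : Finset ℕ) ⊆ Pr a b := by
    intro r hr; rw [Finset.mem_singleton] at hr; rw [hr, mem_Pr]; exact ⟨⟨le_rfl, hab.le⟩, ha⟩
  have h2 : ({b} : Finset ℕ) ⊆ Pr a b := by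
    intro r hr; rw [Finset.mem_singleton] at hr; rw [hr, mem_Pr]; exact ⟨⟨hab.le, le_rfl⟩, hb⟩
  have h3 := Ex_mul_inter p hd h1 h2 (fun B => if a ∈ B then (1 : ℝ) else 0)
    (fun B => if b ∈ B then (1 : ℝ) else 0)
  have h4 : Ex p (Pr a b) (fun A => (if a ∈ A then (1 : ℝ) else 0) * (if b ∈ A then 1 else 0))
      = p a * p b := by
    have e : Ex p (Pr a b) (fun A => (if a ∈ A then (1 : ℝ) else 0) * (if b ∈ A then 1 else 0))
        = Ex p (Pr a b) (fun A => (fun B => if a ∈ B then (1 : ℝ) else 0) (A ∩ {a}) *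
          (fun B => if b ∈ B then (1 : ℝ) else 0) (A ∩ {b})) := by
      refine Ex_congr (fun A _ => ?_)
      simp
    rw [e, h3, Ex_single, Ex_single]
    simp
  rw [h4]
  have h5 := hp.half a ha
  have h6 := hp.half b hb
  nlinarith

/-- the total probability of the typical windows from `a` to `b` -/
lemma sum_gg_ge (hp : PD p) {κ : ℝ} (hκ : 0 < κ) {a b x : ℕ} (ha : a.Prime) (hb : b.Prime)
    (hab : a < b) (hv : ∑ r ∈ Pr a b, p r * (1 - p r) ≤ κ ^ 2 / 36) (hx : (Pr a b).card * b ≤ x) :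
    1 / 6 ≤ ∑ n ∈ Finset.Icc 1 x, gg p κ n a b := by
  classical
  have hD : (0 : ℝ) < (b : ℝ) - a := by
    have : (a : ℝ) < b := by exact_mod_cast hab
    linarith
  unfold gg
  rw [← Ex_sum]
  -- the two exceptional events
  set P1 : Finset ℕ → Prop := fun A => |Mi p a (b + 1) - A.card| ≤ κ with hP1
  set P2 : Finset ℕ → Prop := fun A =>
    |((∑ m ∈ A, m : ℕ) : ℝ) - (A.card * a + Wi p a (b + 1))| ≤ κ * ((b : ℝ) - a) with hP2
  have hv1 : ∑ r ∈ Pr a b, (fun _ => (1 : ℝ)) r ^ 2 * (p r * (1 - p r)) ≤ κ ^ 2 / 36 := by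
    refine le_trans (le_of_eq ?_) hv
    exact Finset.sum_congr rfl (fun r _ => by ring)
  have hv2 : ∑ r ∈ Pr a b, (fun r : ℕ => ((r : ℝ) - a) / ((b : ℝ) - a)) r ^ 2 * (p r * (1 - p r))
      ≤ κ ^ 2 / 36 := by
    refine le_trans (Finset.sum_le_sum (fun r hr => ?_)) hv
    have h1 := (mem_Pr.mp hr).1
    have h2 : (a : ℝ) ≤ r := by exact_mod_cast h1.1
    have h3 : (r : ℝ) ≤ b := by exact_mod_cast h1.2
    have h4 : ((r : ℝ) - a) / ((b : ℝ) - a) ≤ 1 := by rw [div_le_one hD]; linarith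
    have h5 : 0 ≤ ((r : ℝ) - a) / ((b : ℝ) - a) := div_nonneg (by linarith) hD.le
    have h6 : 0 ≤ p r * (1 - p r) := mul_nonneg (hp.nonneg r) (by linarith [hp.le_one r])
    simp only
    have h7 : (((r : ℝ) - a) / ((b : ℝ) - a)) ^ 2 ≤ 1 := pow_le_one₀ h5 h4
    nlinarith
  have hκ2 : 0 < κ ^ 2 := by positivity
  have b1 : Ex p (Pr a b) (fun A => if ¬ P1 A then 1 else 0) ≤ 1 / 36 := by
    have h1 := cheb_lin hp.nonneg hp.le_one (J := Pr a b) (c := fun _ => 1) hκ (fun A => ¬ P1 A)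
      (fun A _ hA => by
        rw [hP1] at hA
        simp only [not_le] at hA
        rw [lin_one, mlin_Pr_one hp, abs_sub_comm]; exact hA.le)
    refine h1.trans ?_
    rw [div_le_iff₀ hκ2]
    linarith
  have b2 : Ex p (Pr a b) (fun A => if ¬ P2 A then 1 else 0) ≤ 1 / 36 := by
    have h1 := cheb_lin hp.nonneg hp.le_one (J := Pr a b)
      (c := fun r : ℕ => ((r : ℝ) - a) / ((b : ℝ) - a)) hκ (fun A => ¬ P2 A)
      (fun A _ hA => by
        rw [hP2] at hA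
        simp only [not_le] at hA
        have e1 : lin (fun r : ℕ => ((r : ℝ) - a) / ((b : ℝ) - a)) A
            = (((∑ m ∈ A, m : ℕ) : ℝ) - A.card * a) / ((b : ℝ) - a) := by
          unfold lin
          rw [← Finset.sum_div, Finset.sum_sub_distrib, Finset.sum_const, nsmul_eq_mul]
          push_cast; rfl
        rw [e1, mlin_Pr_W hp, ← sub_div, abs_div, abs_of_pos hD, le_div_iff₀ hD]
        have e2 : ((∑ m ∈ A, m : ℕ) : ℝ) - A.card * a - Wi p a (b + 1)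
            = ((∑ m ∈ A, m : ℕ) : ℝ) - (A.card * a + Wi p a (b + 1)) := by ring
        rw [e2]; exact hA.le)
    refine h1.trans ?_
    rw [div_le_iff₀ hκ2]
    linarith
  have b3 := prob_ends hp ha hb hab
  have hle : ∀ A ⊆ Pr a b, (if a ∈ A then (1 : ℝ) else 0) * (if b ∈ A then 1 else 0)
      - ((if ¬ P1 A then 1 else 0) + (if ¬ P2 A then 1 else 0))
      ≤ ∑ n ∈ Finset.Icc 1 x, (if a ∈ A ∧ b ∈ A ∧ ∑ m ∈ A, m = n ∧ |Mi p a (b + 1) - A.card| ≤ κ ∧
        |((∑ m ∈ A, m : ℕ) : ℝ) - (A.card * a + Wi p a (b + 1))| ≤ κ * ((b : ℝ) - a)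
        then (1 : ℝ) else 0) := by
    intro A hA
    have hnn : ∀ n ∈ Finset.Icc 1 x, (0 : ℝ) ≤ (if a ∈ A ∧ b ∈ A ∧ ∑ m ∈ A, m = n ∧
        |Mi p a (b + 1) - A.card| ≤ κ ∧
        |((∑ m ∈ A, m : ℕ) : ℝ) - (A.card * a + Wi p a (b + 1))| ≤ κ * ((b : ℝ) - a)
        then (1 : ℝ) else 0) := by
      intro n _; split_ifs <;> norm_num
    have hn1 : (0 : ℝ) ≤ (if ¬ P1 A then 1 else 0) := by split_ifs <;> norm_num
    have hn2 : (0 : ℝ) ≤ (if ¬ P2 A then 1 else 0) := by split_ifs <;> norm_num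
    by_cases h : a ∈ A ∧ b ∈ A ∧ P1 A ∧ P2 A
    · have hmem : ∑ m ∈ A, m ∈ Finset.Icc 1 x := by
        rw [Finset.mem_Icc]
        constructor
        · have h1 := Finset.single_le_sum (f := fun m => m) (fun m _ => Nat.zero_le m) h.1
          have := ha.one_lt
          omega
        · have h1 := Finset.sum_le_card_nsmul A (fun m => m) b (fun m hm => (mem_Pr.mp (hA hm)).1.2)
          rw [smul_eq_mul] at h1
          have h2 : A.card * b ≤ (Pr a b).card * b := Nat.mul_le_mul_right _ (Finset.card_le_card hA)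
          omega
      have h1 := Finset.single_le_sum hnn hmem
      rw [if_pos ⟨h.1, h.2.1, rfl, h.2.2.1, h.2.2.2⟩] at h1
      rw [if_pos h.1, if_pos h.2.1]
      linarith
    · have h0 := Finset.sum_nonneg hnn
      by_cases haA : a ∈ A
      · by_cases hbA : b ∈ A
        · have h2 : ¬ P1 A ∨ ¬ P2 A := by
            by_contra hcon
            push Not at hcon
            exact h ⟨haA, hbA, hcon.1, hcon.2⟩
          rw [if_pos haA, if_pos hbA]
          rcases h2 with h3 | h3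
          · rw [if_pos h3]; linarith
          · rw [if_pos h3]; linarith
        · rw [if_neg hbA, mul_zero]; linarith
      · rw [if_neg haA, zero_mul]; linarith
  have h1 := Ex_mono hp.nonneg hp.le_one hle
  rw [Ex_sub, Ex_add] at h1
  linarith

/-- decomposition according to the number of elements -/
lemma gg_le_sum (hp : PD p) {κ : ℝ} {n a b K : ℕ} (hm : (Pr a b).card ≤ K) :
    gg p κ n a b ≤ ∑ l ∈ Finset.Icc 1 K,
      if |Mi p a (b + 1) - l| ≤ κ ∧ |(n : ℝ) - (l * a + Wi p a (b + 1))| ≤ κ * ((b : ℝ) - a) ∧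
        l * a ≤ n ∧ n ≤ l * b then Pl p (Pr a b) l n else 0 := by
  classical
  unfold gg
  have h1 : ∀ A ⊆ Pr a b, (if a ∈ A ∧ b ∈ A ∧ ∑ m ∈ A, m = n ∧ |Mi p a (b + 1) - A.card| ≤ κ ∧
      |((∑ m ∈ A, m : ℕ) : ℝ) - (A.card * a + Wi p a (b + 1))| ≤ κ * ((b : ℝ) - a)
      then (1 : ℝ) else 0) ≤ ∑ l ∈ Finset.Icc 1 K,
      (if |Mi p a (b + 1) - l| ≤ κ ∧ |(n : ℝ) - (l * a + Wi p a (b + 1))| ≤ κ * ((b : ℝ) - a) ∧
        l * a ≤ n ∧ n ≤ l * b then (if A.card = l ∧ ∑ m ∈ A, m = n then (1 : ℝ) else 0) else 0) := by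
    intro A hA
    have hnn : ∀ l ∈ Finset.Icc 1 K, (0 : ℝ) ≤
      (if |Mi p a (b + 1) - l| ≤ κ ∧ |(n : ℝ) - (l * a + Wi p a (b + 1))| ≤ κ * ((b : ℝ) - a) ∧
        l * a ≤ n ∧ n ≤ l * b then (if A.card = l ∧ ∑ m ∈ A, m = n then (1 : ℝ) else 0) else 0) := by
      intro l _; split_ifs <;> norm_num
    by_cases h : a ∈ A ∧ b ∈ A ∧ ∑ m ∈ A, m = n ∧ |Mi p a (b + 1) - A.card| ≤ κ ∧
      |((∑ m ∈ A, m : ℕ) : ℝ) - (A.card * a + Wi p a (b + 1))| ≤ κ * ((b : ℝ) - a)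
    · rw [if_pos h]
      obtain ⟨haA, hbA, hs, h3, h4⟩ := h
      have hmem : A.card ∈ Finset.Icc 1 K := by
        rw [Finset.mem_Icc]
        exact ⟨Finset.card_pos.mpr ⟨a, haA⟩, (Finset.card_le_card hA).trans hm⟩
      have hla : A.card * a ≤ n := by
        rw [← hs]
        have := Finset.card_nsmul_le_sum A (fun m => m) a (fun m hm => (mem_Pr.mp (hA hm)).1.1)
        rwa [smul_eq_mul] at this
      have hlb : n ≤ A.card * b := by
        rw [← hs]
        have := Finset.sum_le_card_nsmul A (fun m => m) b (fun m hm => (mem_Pr.mp (hA hm)).1.2)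
        rwa [smul_eq_mul] at this
      rw [hs] at h4
      refine le_trans ?_ (Finset.single_le_sum hnn hmem)
      rw [if_pos ⟨h3, h4, hla, hlb⟩, if_pos ⟨rfl, hs⟩]
    · rw [if_neg h]; exact Finset.sum_nonneg hnn
  refine (Ex_mono hp.nonneg hp.le_one h1).trans (le_of_eq ?_)
  rw [Ex_sum]
  refine Finset.sum_congr rfl (fun l _ => ?_)
  split_ifs
  · rfl
  · exact Ex_const _ _ _

lemma geom_tail {T : Finset ℕ} {Z : ℝ} (hZ : 0 < Z) (hT : ∀ v ∈ T, Z ≤ 2 ^ (v + 1)) :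
    ∑ v ∈ T, (1 / 2 : ℝ) ^ v ≤ 4 / Z := by
  rcases T.eq_empty_or_nonempty with rfl | hne
  · simp; positivity
  set v0 := T.min' hne with hv0
  have h0 := hT v0 (Finset.min'_mem T hne)
  have e1 : ∀ v ∈ T, (1 / 2 : ℝ) ^ v = (2 * (1 / 2 : ℝ) ^ v0) * (1 / 2) ^ (v - v0 + 1) := by
    intro v hv
    have hle : v0 ≤ v := Finset.min'_le _ _ hv
    have : v = v0 + (v - v0) := by omega
    conv_lhs => rw [this, pow_add]
    rw [pow_succ]; ring
  rw [Finset.sum_congr rfl e1, ← Finset.mul_sum]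
  have h1 : ∑ v ∈ T, (1 / 2 : ℝ) ^ (v - v0 + 1) ≤ 1 := by
    have h2 := sum_half_pow_le (T.image (fun v => v - v0 + 1)) (fun l hl => by
      rw [Finset.mem_image] at hl
      obtain ⟨v, _, rfl⟩ := hl
      omega)
    rwa [Finset.sum_image] at h2
    intro v hv v' hv' h
    have hle : v0 ≤ v := Finset.min'_le _ _ hv
    have hle' : v0 ≤ v' := Finset.min'_le _ _ hv'
    simp only at h
    omega
  have h2 : (0 : ℝ) < (1 / 2) ^ v0 := by positivity
  have h3 : 2 * (1 / 2 : ℝ) ^ v0 ≤ 4 / Z := by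
    rw [le_div_iff₀ hZ]
    have e : (1 / 2 : ℝ) ^ v0 * 2 ^ (v0 + 1) = 2 := by
      rw [pow_succ, ← mul_assoc, ← mul_pow]; norm_num
    nlinarith
  nlinarith

/-- long intervals are needed for many primes -/
lemma len_lower {a b : ℕ} {m : ℝ} (hab : a < b) (hm : 2 ≤ m) (h : m ≤ (Pr a b).card) :
    m * Real.log m / 44 ≤ (b : ℝ) - a := by
  set N := b - a + 1 with hN
  have hN2 : 2 ≤ N := by omega
  have h1 := Pool.Agent.TH915.UC.bt_gen a 1 N (by norm_num) hN2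
  have h2 : ((Finset.range N).filter (fun k => (a + k * 1).Prime)).card = (Pr a b).card := by
    refine Finset.card_bij (fun k _ => a + k) ?_ ?_ ?_
    · intro k hk
      rw [Finset.mem_filter, Finset.mem_range] at hk
      rw [mem_Pr]
      refine ⟨⟨by omega, by omega⟩, ?_⟩
      have := hk.2
      rwa [mul_one] at this
    · intro k _ k' _ h
      simpa using h
    · intro r hr
      rw [mem_Pr] at hr
      refine ⟨r - a, ?_, by omega⟩
      rw [Finset.mem_filter, Finset.mem_range, mul_one]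
      refine ⟨by omega, ?_⟩
      have : a + (r - a) = r := by omega
      rw [this]; exact hr.2
  rw [h2] at h1
  have e1 : (22 : ℝ) * (((1 : ℕ) : ℝ) / ((1 : ℕ).totient : ℝ)) = 22 := by norm_num
  rw [e1] at h1
  have hNr : (2 : ℝ) ≤ N := by exact_mod_cast hN2
  have hlogN : 0 < Real.log N := Real.log_pos (by linarith)
  have hmN : m ≤ N := by
    refine h.trans ?_
    have : (Pr a b).card ≤ N := by
      unfold Pr
      refine (Finset.card_filter_le _ _).trans ?_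
      rw [Nat.card_Icc]; omega
    exact_mod_cast this
  have hlog : Real.log m ≤ Real.log N := Real.log_le_log (by linarith) hmN
  rw [le_div_iff₀ hlogN] at h1
  have h3 : m * Real.log m ≤ 22 * N := by
    have h4 : 0 ≤ Real.log m := Real.log_nonneg (by linarith)
    calc m * Real.log m ≤ m * Real.log N := mul_le_mul_of_nonneg_left hlog (by linarith)
      _ ≤ ((Pr a b).card : ℝ) * Real.log N := mul_le_mul_of_nonneg_right h hlogN.le
      _ ≤ 22 * N := h1
  have h5 : (N : ℝ) ≤ 2 * ((b : ℝ) - a) := by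
    have h6 : (N : ℝ) = (b : ℝ) - a + 1 := by
      rw [hN, Nat.cast_add, Nat.cast_sub hab.le]; push_cast; ring
    have h7 : (1 : ℝ) ≤ (b : ℝ) - a := by
      have : (a : ℝ) + 1 ≤ b := by exact_mod_cast hab
      linarith
    linarith
  linarith

/-- the good pairs of one level -/
noncomputable def GQ (e j K D : ℕ) : Finset (ℕ × ℕ) :=
  (Finset.range (2 ^ e)).biUnion (fun u => GP (yb e (j, u)) (Lb e (j, u)) K D)

lemma GQ_prop {e j K D : ℕ} (he : e ≤ j) (hK : 2 ≤ K) {w : ℕ × ℕ} (hw : w ∈ GQ e j K D) :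
    w.1.Prime ∧ w.2.Prime ∧ 2 ^ j ≤ w.1 ∧ w.1 < w.2 ∧ w.2 < 2 ^ (j + 1) ∧ K / 2 < (Pr w.1 w.2).card ∧
      (Pr w.1 w.2).card ≤ K ∧ w.2 ≤ w.1 + D := by
  unfold GQ at hw
  rw [Finset.mem_biUnion] at hw
  obtain ⟨u, hu, hw⟩ := hw
  rw [Finset.mem_range] at hu
  have h := GP_prop hK hw
  have h1 := yb_ge (e := e) (s := (j, u)) he
  have h2 := yb_add_le (e := e) (s := (j, u)) he hu
  simp only at h1 h2
  refine ⟨h.1, h.2.1, by omega, h.2.2.2.1, by omega, h.2.2.2.2.2⟩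

lemma sum_GQ {e j K D : ℕ} (he : e ≤ j) (hK : 2 ≤ K) (φ : ℕ × ℕ → ℝ) :
    ∑ w ∈ GQ e j K D, φ w = ∑ u ∈ Finset.range (2 ^ e), ∑ w ∈ GP (yb e (j, u)) (Lb e (j, u)) K D, φ w := by
  classical
  unfold GQ
  rw [Finset.sum_biUnion]
  intro u hu u' hu' hne
  rw [Function.onFun, Finset.disjoint_left]
  intro w hw hw'
  have h := GP_prop hK hw
  have h' := GP_prop hK hw'
  rw [Finset.mem_coe, Finset.mem_range] at hu hu'
  have h1 : ((j, u) : ℕ × ℕ) = (j, u') := by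
    refine block_unique (e := e) (J := j) (L := j) he ?_ ?_ (m := w.1) ?_ ?_
    · rw [mem_SS]; exact ⟨⟨le_rfl, le_rfl⟩, hu⟩
    · rw [mem_SS]; exact ⟨⟨le_rfl, le_rfl⟩, hu'⟩
    · unfold Ib; rw [Finset.mem_Ico]; omega
    · unfold Ib; rw [Finset.mem_Ico]; omega
  exact hne (by simpa using h1)

end Pool.Agent.helper306_thin
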