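import Pool.Agent.helper306_thin.Good

/-!
# Pointwise upper bound for the typical windows of one level
-/

namespace Pool.Agent.helper306_thin

open Finset Pool.Agent.helper306_cramer

variable {p : ℕ → ℝ}

lemma Pr_eq_Qp {a b : ℕ} (hab : a ≤ b) : Pr a b = Qp a (b - a) := by
  unfold Pr Qp
  have : a + (b - a) = b := by omega
  rw [this]

/-- the exponential error -/
noncomputable def errE (A t : ℝ) (K : ℕ) : ℝ :=
  3 * Real.exp (-(t * ((K / 2 : ℝ) / (1024 * A ^ 2 * Real.log K ^ 2)) / 2))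

lemma Pl_good (hp : PD p) {A : ℝ} (hA : 1 ≤ A) {t : ℝ} (ht0 : 0 < t) (ht1 : t ≤ 1)
    {e j K D l n v : ℕ} (he : e ≤ j) (hK1 : 1400 ≤ K) (hK2 : 2 * (400 * A + 1) ^ 2 ≤ K)
    (hD : (D : ℝ) ≤ A * (K / 2) * Real.log (K / 2))
    (ht : ∀ r, r.Prime → 2 ^ j ≤ r → r < 2 ^ (j + 1) → t ≤ p r * (1 - p r))
    {w : ℕ × ℕ} (hw : w ∈ GQ e j K D) (hv : 2 ^ v ≤ w.2 - w.1) :
    Pl p (Pr w.1 w.2) l n ≤ (2 * Ksh A / (t * K)) * (1 / 2) ^ v + errE A t K := by
  have h := GQ_prop he (by omega) hw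
  obtain ⟨h1, h2, h3, h4, h5, h6, h7, h8⟩ := h
  set m := (Pr w.1 w.2).card with hm
  have hKr : (1400 : ℝ) ≤ K := by exact_mod_cast hK1
  have hm1 : (K : ℝ) / 2 ≤ m := by
    have : K ≤ 2 * m := by omega
    have : (K : ℝ) ≤ 2 * m := by exact_mod_cast this
    linarith
  have hmK : (m : ℝ) ≤ K := by exact_mod_cast h7
  have hm700 : 700 ≤ m := by omega
  have hm0 : (0 : ℝ) < m := by linarith
  have e0 : Pr w.1 w.2 = Qp w.1 (w.2 - w.1) := Pr_eq_Qp h4.le
  have hcard : (Qp w.1 (w.2 - w.1)).card = m := by rw [hm, e0]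
  have hN : ((w.2 - w.1 : ℕ) : ℝ) ≤ D := by
    have : w.2 - w.1 ≤ D := by omega
    exact_mod_cast this
  have hlog1 : Real.log (K / 2) ≤ Real.log m := Real.log_le_log (by linarith) hm1
  have hlog0 : 0 < Real.log (K / 2) := Real.log_pos (by linarith)
  have hNA : ((w.2 - w.1 : ℕ) : ℝ) ≤ A * m * Real.log m := by
    refine (hN.trans hD).trans ?_
    have hAm : 0 ≤ A * (m : ℝ) := mul_nonneg (by linarith) hm0.le
    exact mul_le_mul (mul_le_mul_of_nonneg_left hm1 (by linarith)) hlog1 hlog0.le hAm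
  have hmain := sharp_llt (p := p) hp.nonneg hp.le_one (a := w.1) (N := w.2 - w.1) hA
    (by rw [hcard]; exact hm700) (by rw [hcard]; linarith) (by rw [hcard]; exact hNA) ht0 ht1
    (fun r hr => by
      rw [← e0, mem_Pr] at hr
      exact ht r hr.2 (by omega) (by omega)) l n
  rw [hcard] at hmain
  unfold Pl
  rw [e0]
  refine hmain.trans (add_le_add ?_ ?_)
  · have hKsh : 0 ≤ Ksh A := by unfold Ksh; positivity
    have hv' : (2 : ℝ) ^ v ≤ ((w.2 - w.1 : ℕ) : ℝ) := by exact_mod_cast hv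
    have e1 : (2 * Ksh A / (t * K)) * (1 / 2) ^ v = Ksh A / (t * (K / 2) * 2 ^ v) := by
      rw [one_div, inv_pow]; field_simp
    rw [e1]
    have h2v : (0 : ℝ) < 2 ^ v := by positivity
    have hK0 : (0 : ℝ) < (K : ℝ) / 2 := by linarith
    refine div_le_div_of_nonneg_left hKsh (mul_pos (mul_pos ht0 hK0) h2v) ?_
    exact mul_le_mul (mul_le_mul_of_nonneg_left hm1 ht0.le) hv' h2v.le (mul_pos ht0 hm0).le
  · unfold errE
    refine mul_le_mul_of_nonneg_left (Real.exp_le_exp.mpr ?_) (by norm_num)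
    have hlogm : Real.log m ≤ Real.log K := Real.log_le_log hm0 hmK
    have hlogm0 : 0 < Real.log m := by linarith
    have h9 : (K / 2 : ℝ) / (1024 * A ^ 2 * Real.log K ^ 2)
        ≤ (m : ℝ) / (1024 * A ^ 2 * Real.log m ^ 2) := by
      refine div_le_div₀ hm0.le hm1 (by positivity) ?_
      refine mul_le_mul_of_nonneg_left ?_ (by positivity)
      exact pow_le_pow_left₀ hlogm0.le hlogm 2
    have := mul_le_mul_of_nonneg_left h9 ht0.le
    linarith

/-- **Pointwise upper bound for one level.** -/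
theorem level_upper (hp : PD p) {A : ℝ} (hA : 1 ≤ A) {t Kt κ : ℝ} (ht0 : 0 < t) (ht1 : t ≤ 1)
    {e j K D n : ℕ} (he : e ≤ j) (hK1 : 1400 ≤ K) (hK2 : 2 * (400 * A + 1) ^ 2 ≤ K)
    (hD : (D : ℝ) ≤ A * (K / 2) * Real.log (K / 2))
    (ht : ∀ r, r.Prime → 2 ^ j ≤ r → r < 2 ^ (j + 1) → t ≤ p r * (1 - p r))
    (hκ : 1 ≤ κ) (hκ2 : κ ^ 2 = 36 * Kt * t * K) :
    ∑ w ∈ GQ e j K D, gg p κ n w.1 w.2
      ≤ 20275200 * Ksh A * Kt / Real.log (K / 2) + K * (2 ^ (2 * j) * errE A t K) := by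
  classical
  have hKr : (1400 : ℝ) ≤ K := by exact_mod_cast hK1
  have hK0 : (0 : ℝ) < K := by linarith
  have hlog0 : 0 < Real.log (K / 2) := Real.log_pos (by linarith)
  have hKsh : 0 ≤ Ksh A := by unfold Ksh; positivity
  set Z : ℝ := (K / 2) * Real.log (K / 2) / 44 with hZ
  have hZ0 : 0 < Z := by positivity
  have herr0 : 0 ≤ errE A t K := by unfold errE; positivity
  -- step 1
  have s1 : ∑ w ∈ GQ e j K D, gg p κ n w.1 w.2 ≤ ∑ l ∈ Finset.Icc 1 K, ∑ w ∈ GQ e j K D,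
      if |Mi p w.1 (w.2 + 1) - l| ≤ κ ∧ |(n : ℝ) - (l * w.1 + Wi p w.1 (w.2 + 1))|
        ≤ κ * ((w.2 : ℝ) - w.1) ∧ l * w.1 ≤ n ∧ n ≤ l * w.2 then Pl p (Pr w.1 w.2) l n else 0 := by
    rw [Finset.sum_comm]
    refine Finset.sum_le_sum (fun w hw => ?_)
    exact gg_le_sum hp (GQ_prop he (by omega) hw).2.2.2.2.2.2.1
  refine s1.trans ?_
  -- step 2: one value of l
  have s2 : ∀ l ∈ Finset.Icc 1 K, ∑ w ∈ GQ e j K D,
      (if |Mi p w.1 (w.2 + 1) - l| ≤ κ ∧ |(n : ℝ) - (l * w.1 + Wi p w.1 (w.2 + 1))|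
        ≤ κ * ((w.2 : ℝ) - w.1) ∧ l * w.1 ≤ n ∧ n ≤ l * w.2 then Pl p (Pr w.1 w.2) l n else 0)
      ≤ 20275200 * Ksh A * Kt / Real.log (K / 2) / K + 2 ^ (2 * j) * errE A t K := by
    intro l hl
    rw [Finset.mem_Icc] at hl
    rw [← Finset.sum_filter]
    set F := (GQ e j K D).filter (fun w => |Mi p w.1 (w.2 + 1) - l| ≤ κ ∧
      |(n : ℝ) - (l * w.1 + Wi p w.1 (w.2 + 1))| ≤ κ * ((w.2 : ℝ) - w.1) ∧
      l * w.1 ≤ n ∧ n ≤ l * w.2) with hF
    set v : ℕ × ℕ → ℕ := fun w => Nat.log 2 (w.2 - w.1) with hv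
    have hFmem : ∀ w ∈ F, w ∈ GQ e j K D ∧ 2 ^ (v w) ≤ w.2 - w.1 ∧ w.2 - w.1 < 2 ^ (v w + 1) := by
      intro w hw
      rw [hF, Finset.mem_filter] at hw
      have h := GQ_prop he (by omega) hw.1
      have hne : w.2 - w.1 ≠ 0 := by omega
      exact ⟨hw.1, Nat.pow_log_le_self 2 hne, Nat.lt_pow_succ_log_self (by norm_num) _⟩
    have h1 : ∀ w ∈ F, Pl p (Pr w.1 w.2) l n
        ≤ (2 * Ksh A / (t * K)) * (1 / 2) ^ (v w) + errE A t K := fun w hw =>
      Pl_good hp hA ht0 ht1 he hK1 hK2 hD ht (hFmem w hw).1 (hFmem w hw).2.1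
    refine (Finset.sum_le_sum h1).trans ?_
    rw [Finset.sum_add_distrib, ← Finset.mul_sum, Finset.sum_const, nsmul_eq_mul]
    refine add_le_add ?_ ?_
    · -- the classes
      have h2 : ∑ w ∈ F, (1 / 2 : ℝ) ^ (v w)
          = ∑ u ∈ F.image v, ∑ w ∈ F.filter (fun w => v w = u), (1 / 2 : ℝ) ^ (v w) :=
        (Finset.sum_fiberwise_of_maps_to (fun w hw => Finset.mem_image_of_mem v hw) _).symm
      have h3 : ∀ u ∈ F.image v, ∑ w ∈ F.filter (fun w => v w = u), (1 / 2 : ℝ) ^ (v w)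
          ≤ (800 * κ ^ 2) * (1 / 2) ^ u := by
        intro u _
        have h4 : ∑ w ∈ F.filter (fun w => v w = u), (1 / 2 : ℝ) ^ (v w)
            = ((F.filter (fun w => v w = u)).card : ℝ) * (1 / 2) ^ u := by
          rw [Finset.sum_congr rfl (g := fun _ => (1 / 2 : ℝ) ^ u)
            (fun w hw => by rw [(Finset.mem_filter.mp hw).2]), Finset.sum_const, nsmul_eq_mul]
        rw [h4]
        refine mul_le_mul_of_nonneg_right ?_ (by positivity)
        refine feas_class hp (l := l) (n := n) (i := u) hκ hl.1 _ (fun w hw => ?_)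
        rw [Finset.mem_filter] at hw
        have hwF := hw.1
        rw [hF, Finset.mem_filter] at hwF
        have h := GQ_prop he (by omega) hwF.1
        have h5 := hFmem w hw.1
        rw [hw.2] at h5
        exact ⟨h.1, h.2.1, h.2.2.2.1.le, hwF.2.1, hwF.2.2.1, hwF.2.2.2.1, hwF.2.2.2.2, h5.2.1, h5.2.2⟩
      have h4 : ∑ u ∈ F.image v, (1 / 2 : ℝ) ^ u ≤ 4 / Z := by
        refine geom_tail hZ0 (fun u hu => ?_)
        rw [Finset.mem_image] at hu
        obtain ⟨w, hw, rfl⟩ := hu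
        have h5 := hFmem w hw
        have h := GQ_prop he (by omega) h5.1
        have h6 := len_lower (m := (K : ℝ) / 2) h.2.2.2.1 (by linarith) (by
          have : K ≤ 2 * (Pr w.1 w.2).card := by omega
          have : (K : ℝ) ≤ 2 * (Pr w.1 w.2).card := by exact_mod_cast this
          linarith)
        have h7 : ((w.2 - w.1 : ℕ) : ℝ) ≤ 2 ^ (v w + 1) := by exact_mod_cast h5.2.2.le
        rw [Nat.cast_sub h.2.2.2.1.le] at h7
        linarith
      rw [h2]
      have h5 : ∑ u ∈ F.image v, ∑ w ∈ F.filter (fun w => v w = u), (1 / 2 : ℝ) ^ (v w)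
          ≤ (800 * κ ^ 2) * (4 / Z) := by
        refine (Finset.sum_le_sum h3).trans ?_
        rw [← Finset.mul_sum]
        exact mul_le_mul_of_nonneg_left h4 (by positivity)
      refine (mul_le_mul_of_nonneg_left h5 (by positivity)).trans (le_of_eq ?_)
      rw [hκ2, hZ]
      field_simp
      ring
    · refine mul_le_mul_of_nonneg_right ?_ herr0
      have h2 : F.card ≤ 2 ^ (2 * j) := by
        rw [hF]
        refine (Finset.card_filter_le _ _).trans ?_
        have h3 : GQ e j K D ⊆ Finset.Ico (2 ^ j) (2 ^ (j + 1)) ×ˢ Finset.Ico (2 ^ j) (2 ^ (j + 1)) := by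
          intro w hw
          have h := GQ_prop he (by omega) hw
          rw [Finset.mem_product, Finset.mem_Ico, Finset.mem_Ico]
          omega
        refine (Finset.card_le_card h3).trans (le_of_eq ?_)
        rw [Finset.card_product, Nat.card_Ico]
        have e1 : 2 ^ (j + 1) - 2 ^ j = 2 ^ j := by rw [pow_succ]; omega
        rw [e1, ← pow_add]; congr 1; ring
      exact_mod_cast h2
  refine (Finset.sum_le_sum s2).trans ?_
  rw [Finset.sum_const, Nat.card_Icc, Nat.add_sub_cancel, nsmul_eq_mul, mul_add]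
  refine add_le_add (le_of_eq ?_) le_rfl
  field_simp

end Pool.Agent.helper306_thin
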