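import Pool.Agent.helper306_thin.Good2
import Pool.Agent.helper306_cramer.Asym

/-!
# Many integers have a mean number of windows bounded from below
-/

namespace Pool.Agent.helper306_thin

open Finset Filter Topology Pool.Agent.helper306_cramer

/-- the variances are comparable on dyadic intervals -/
structure TD (p : ℕ → ℝ) (t : ℕ → ℝ) (Kt : ℝ) (j0 : ℕ) : Prop where
  pos : ∀ j, 0 < t j
  le_one : ∀ j, t j ≤ 1
  lower : ∀ j, j0 ≤ j → ∀ r, r.Prime → 2 ^ j ≤ r → r < 2 ^ (j + 1) → t j ≤ p r * (1 - p r)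
  upper : ∀ j, j0 ≤ j → ∀ r, r.Prime → 2 ^ j ≤ r → r < 2 ^ (j + 1) → p r * (1 - p r) ≤ Kt * t j

/-- exponentials beat polynomials -/
lemma ev_pow (C : ℝ) (k : ℕ) {q : ℕ} (hq : 1 ≤ q) :
    ∀ᶠ i : ℕ in atTop, C * (i : ℝ) ^ k ≤ 2 ^ (i / q) := by
  have h1 : Tendsto (fun n : ℕ => (n : ℝ) ^ k / (2 : ℝ) ^ n) atTop (𝓝 0) :=
    tendsto_pow_const_div_const_pow_of_one_lt k (by norm_num)
  have h2 : ∀ᶠ n : ℕ in atTop, (n : ℝ) ^ k / (2 : ℝ) ^ n < 1 / ((|C| + 1) * (2 * q) ^ k) :=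
    h1.eventually (gt_mem_nhds (by positivity))
  have h3 := (tendsto_div_atTop hq).eventually (h2.and (eventually_ge_atTop 1))
  filter_upwards [h3] with i hi
  obtain ⟨h4, h5⟩ := hi
  have hi1 : i ≤ 2 * q * (i / q) := by
    have := Nat.lt_mul_div_succ i (by omega : 0 < q)
    have h6 : q * (i / q + 1) ≤ q * (2 * (i / q)) := Nat.mul_le_mul_left _ (by omega)
    calc i ≤ q * (i / q + 1) := this.le
      _ ≤ q * (2 * (i / q)) := h6
      _ = 2 * q * (i / q) := by ring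
  have hi2 : (i : ℝ) ≤ 2 * q * ((i / q : ℕ) : ℝ) := by exact_mod_cast hi1
  rw [div_lt_iff₀ (by positivity)] at h4
  have h6 : (i : ℝ) ^ k ≤ (2 * q) ^ k * ((i / q : ℕ) : ℝ) ^ k := by
    rw [← mul_pow]; exact pow_le_pow_left₀ (Nat.cast_nonneg i) hi2 k
  have h7 : C ≤ |C| + 1 := by linarith [le_abs_self C]
  have h8 : (0 : ℝ) < (|C| + 1) * (2 * q) ^ k := by positivity
  calc C * (i : ℝ) ^ k ≤ (|C| + 1) * (i : ℝ) ^ k := mul_le_mul_of_nonneg_right h7 (by positivity)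
    _ ≤ (|C| + 1) * ((2 * q) ^ k * ((i / q : ℕ) : ℝ) ^ k) :=
        mul_le_mul_of_nonneg_left h6 (by positivity)
    _ = ((|C| + 1) * (2 * q) ^ k) * ((i / q : ℕ) : ℝ) ^ k := by ring
    _ ≤ ((|C| + 1) * (2 * q) ^ k) * (1 / ((|C| + 1) * (2 * q) ^ k) * 2 ^ (i / q)) :=
        mul_le_mul_of_nonneg_left h4.le h8.le
    _ = 2 ^ (i / q) := by field_simp

lemma sum_pair (F : ℕ → ℝ) {a b : ℕ} (hab : a ≤ b) :
    ∑ j ∈ Finset.Ico (2 * a) (2 * b), F j = ∑ v ∈ Finset.Ico a b, (F (2 * v) + F (2 * v + 1)) := by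
  induction b, hab using Nat.le_induction with
  | base => simp
  | succ b hb ih =>
    rw [Finset.sum_Ico_succ_top hb, ← ih]
    have e : 2 * (b + 1) = 2 * b + 1 + 1 := by ring
    rw [e, Finset.sum_Ico_succ_top (by omega), Finset.sum_Ico_succ_top (by omega)]
    ring

/-- number of primes in the windows of level `j` -/
def Kj (i j : ℕ) : ℕ := 2 ^ (i - j - 2)

/-- maximal length of the windows of level `j` -/
def Dj (i j : ℕ) : ℕ := 64 * Kj i j * j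

/-- typical deviation at level `j` -/
noncomputable def kj (t : ℕ → ℝ) (Kt : ℝ) (i j : ℕ) : ℝ := 6 * Real.sqrt (Kt * t j * Kj i j)

/-- the levels -/
def Lv (i : ℕ) : Finset ℕ := Finset.Ico (2 * (i / 3)) (2 * (3 * i / 8))

lemma mem_Lv {i j : ℕ} : j ∈ Lv i ↔ 2 * (i / 3) ≤ j ∧ j < 2 * (3 * i / 8) := by
  unfold Lv; rw [Finset.mem_Ico]

lemma Kj_mul {i j : ℕ} (h : j + 2 ≤ i) : Kj i j * 2 ^ j = 2 ^ (i - 2) := by
  unfold Kj; rw [← pow_add]; congr 1; omega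

/-- the number of good pairs of two levels -/
lemma pairs_two {e i v : ℕ} (he : e ≤ 2 * v) (hv : 12 ≤ v) (hvi : 2 * v + 4 ≤ i)
    (hsmall : (2 : ℝ) ^ (e + 1) * (Kj i (2 * v) : ℝ) ^ 2 ≤ 2 ^ i / (512 * v)) :
    (2 : ℝ) ^ i / (256 * v) ≤ ((GQ e (2 * v) (Kj i (2 * v)) (Dj i (2 * v))).card : ℝ)
      + ((GQ e (2 * v + 1) (Kj i (2 * v + 1)) (Dj i (2 * v + 1))).card : ℝ) := by
  have hv0 : (12 : ℝ) ≤ v := by exact_mod_cast hv
  -- one level
  have one : ∀ j, e ≤ j → 1 ≤ j → j + 3 ≤ i → (Kj i j : ℝ) * (PDy j).card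
      ≤ 2 * ((GQ e j (Kj i j) (Dj i j)).card : ℝ) + 2 ^ e * (Kj i j : ℝ) ^ 2 + 2 ^ i / (256 * j) := by
    intro j hej hj1 hji
    have h1 := level_count (K := Kj i j) (D := Dj i j) hej
    have hcard : (GQ e j (Kj i j) (Dj i j)).card
        = ∑ u ∈ Finset.range (2 ^ e), (GP (yb e (j, u)) (Lb e (j, u)) (Kj i j) (Dj i j)).card := by
      have hK2 : 2 ≤ Kj i j := by
        unfold Kj
        calc 2 = 2 ^ 1 := by norm_num
          _ ≤ 2 ^ (i - j - 2) := Nat.pow_le_pow_right (by norm_num) (by omega)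
      have h2 := sum_GQ (D := Dj i j) hej hK2 (fun _ => (1 : ℝ))
      simp only [Finset.sum_const, nsmul_eq_mul, mul_one] at h2
      exact_mod_cast h2
    rw [← hcard] at h1
    have hK0 : 0 < Kj i j := by unfold Kj; positivity
    have hKr : (0 : ℝ) < Kj i j := by exact_mod_cast hK0
    have hjr : (0 : ℝ) < j := by exact_mod_cast hj1
    have h2 : (Kj i j : ℝ) * (((PDy j).card : ℝ) * (Dj i j : ℝ))
        ≤ 2 * ((GQ e j (Kj i j) (Dj i j)).card : ℝ) * (Dj i j : ℝ)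
          + (Kj i j : ℝ) * (2 ^ e * ((Kj i j : ℝ) * (Dj i j : ℝ)) + (Kj i j : ℝ) * 2 ^ j) := by
      exact_mod_cast h1
    have hDr : (Dj i j : ℝ) = 64 * Kj i j * j := by unfold Dj; push_cast; ring
    have hD0 : (0 : ℝ) < Dj i j := by rw [hDr]; positivity
    have hpow : (Kj i j : ℝ) * 2 ^ j = 2 ^ i / 4 := by
      have h3 := Kj_mul (i := i) (j := j) (by omega)
      have h4 : ((Kj i j * 2 ^ j : ℕ) : ℝ) = ((2 ^ (i - 2) : ℕ) : ℝ) := by rw [h3]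
      push_cast at h4
      rw [h4]
      have h5 : (2 : ℝ) ^ i = 2 ^ (i - 2) * 2 ^ 2 := by rw [← pow_add]; congr 1; omega
      rw [h5]; ring
    have h3 : (Kj i j : ℝ) * (PDy j).card * (Dj i j : ℝ)
        ≤ (2 * ((GQ e j (Kj i j) (Dj i j)).card : ℝ) + 2 ^ e * (Kj i j : ℝ) ^ 2
          + 2 ^ i / (256 * j)) * (Dj i j : ℝ) := by
      have e1 : (2 : ℝ) ^ i / (256 * j) * (Dj i j : ℝ) = (Kj i j : ℝ) * ((Kj i j : ℝ) * 2 ^ j) := by
        rw [hpow, hDr]; field_simp; ring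
      rw [add_mul, e1]
      calc (Kj i j : ℝ) * (PDy j).card * (Dj i j : ℝ)
          = (Kj i j : ℝ) * (((PDy j).card : ℝ) * (Dj i j : ℝ)) := by ring
        _ ≤ _ := h2
        _ = _ := by ring
    exact le_of_mul_le_mul_right h3 hD0
  have h1 := one (2 * v) he (by omega) (by omega)
  have h2 := one (2 * v + 1) (by omega) (by omega) (by omega)
  have h3 := two_levels (j := 2 * v) (by omega)
  have hKK : (Kj i (2 * v) : ℝ) = 2 * Kj i (2 * v + 1) := by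
    have : Kj i (2 * v) = 2 * Kj i (2 * v + 1) := by
      unfold Kj
      rw [← pow_succ']
      congr 1; omega
    exact_mod_cast this
  have hK10 : (0 : ℝ) ≤ Kj i (2 * v + 1) := Nat.cast_nonneg _
  have h4 : (2 : ℝ) ^ (2 * v) ≤ (((PDy (2 * v)).card : ℝ) + (PDy (2 * v + 1)).card) * (2 * v + 3) := by
    exact_mod_cast h3
  have hpow1 : (Kj i (2 * v + 1) : ℝ) * 2 ^ (2 * v) = 2 ^ i / 8 := by
    have h5 := Kj_mul (i := i) (j := 2 * v + 1) (by omega)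
    have h6 : ((Kj i (2 * v + 1) * 2 ^ (2 * v + 1) : ℕ) : ℝ) = ((2 ^ (i - 2) : ℕ) : ℝ) := by rw [h5]
    push_cast at h6
    have h7 : (2 : ℝ) ^ i = 2 ^ (i - 2) * 2 ^ 2 := by rw [← pow_add]; congr 1; omega
    rw [h7, ← h6, pow_succ]; ring
  -- left-hand side
  have h5 : (2 : ℝ) ^ i / (32 * v) ≤ (Kj i (2 * v + 1) : ℝ)
      * (((PDy (2 * v)).card : ℝ) + (PDy (2 * v + 1)).card) := by
    have h6 := mul_le_mul_of_nonneg_left h4 hK10
    rw [hpow1] at h6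
    rw [div_le_iff₀ (by positivity)]
    have h7 : (2 * (v : ℝ) + 3) ≤ 4 * v := by linarith
    have h8 : 0 ≤ (Kj i (2 * v + 1) : ℝ) * (((PDy (2 * v)).card : ℝ) + (PDy (2 * v + 1)).card) := by
      positivity
    nlinarith
  have h6 : (Kj i (2 * v + 1) : ℝ) * (((PDy (2 * v)).card : ℝ) + (PDy (2 * v + 1)).card)
      ≤ (Kj i (2 * v) : ℝ) * (PDy (2 * v)).card + (Kj i (2 * v + 1) : ℝ) * (PDy (2 * v + 1)).card := by
    rw [hKK]
    have : 0 ≤ (Kj i (2 * v + 1) : ℝ) * (PDy (2 * v)).card := by positivity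
    nlinarith
  have h7 : (2 : ℝ) ^ i / (256 * ((2 * v : ℕ) : ℝ)) = 2 ^ i / (512 * v) := by
    push_cast; congr 1; ring
  have h8 : (2 : ℝ) ^ i / (256 * ((2 * v + 1 : ℕ) : ℝ)) ≤ 2 ^ i / (512 * v) := by
    refine div_le_div_of_nonneg_left (by positivity) (by positivity) ?_
    push_cast; linarith
  have h9 : (2 : ℝ) ^ e * (Kj i (2 * v + 1) : ℝ) ^ 2 ≤ 2 ^ e * (Kj i (2 * v) : ℝ) ^ 2 := by
    rw [hKK]
    have : (0 : ℝ) < 2 ^ e := by positivity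
    nlinarith [sq_nonneg (Kj i (2 * v + 1) : ℝ)]
  have h10 : (2 : ℝ) ^ (e + 1) * (Kj i (2 * v) : ℝ) ^ 2
      = 2 ^ e * (Kj i (2 * v) : ℝ) ^ 2 + 2 ^ e * (Kj i (2 * v) : ℝ) ^ 2 := by
    rw [pow_succ]; ring
  rw [h7] at h1
  have e1 : (2 : ℝ) ^ i / (32 * v) = 16 * (2 ^ i / (512 * v)) := by field_simp; norm_num
  have e2 : (2 : ℝ) ^ i / (256 * v) = 2 * (2 ^ i / (512 * v)) := by field_simp; norm_num
  rw [e1] at h5
  rw [e2]
  have hpos : (0 : ℝ) < 2 ^ i / (512 * v) := by positivity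
  linarith

end Pool.Agent.helper306_thin
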