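import Pool.Agent.helper306_thin.Good3

/-!
# Many integers have a mean number of windows bounded from below: conclusion
-/

namespace Pool.Agent.helper306_thin

open Finset Filter Topology Pool.Agent.helper306_cramer

/-- the typical windows of all the levels -/
noncomputable def lamT (p t : ℕ → ℝ) (Kt : ℝ) (i e n : ℕ) : ℝ :=
  ∑ j ∈ Lv i, ∑ w ∈ GQ e j (Kj i j) (Dj i j), gg p (kj t Kt i j) n w.1 w.2

variable {p t : ℕ → ℝ} {Kt : ℝ} {j0 : ℕ}

lemma lamT_le_La (hp : PD p) {i e J L1 n : ℕ} (he : e ≤ 2 * (i / 3)) (hJ : J ≤ 2 * (i / 3))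
    (hL : 2 * (3 * i / 8) ≤ L1 + 1) (hi : 12 ≤ i) :
    lamT p t Kt i e n ≤ La p (SS e J L1) (Ib e) n := by
  classical
  unfold lamT La SS
  rw [Finset.sum_product]
  have hsub : Lv i ⊆ Finset.Icc J L1 := by
    intro j hj
    rw [mem_Lv] at hj
    rw [Finset.mem_Icc]
    omega
  refine le_trans (Finset.sum_le_sum (fun j hj => ?_)) (Finset.sum_le_sum_of_subset_of_nonneg hsub
    (fun j _ _ => Finset.sum_nonneg (fun u _ => Ex_nonneg hp.nonneg hp.le_one
      (fun A _ => Nat.cast_nonneg _))))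
  rw [mem_Lv] at hj
  have hK2 : 2 ≤ Kj i j := by
    unfold Kj
    calc 2 = 2 ^ 1 := by norm_num
      _ ≤ 2 ^ (i - j - 2) := Nat.pow_le_pow_right (by norm_num) (by omega)
  rw [sum_GQ (by omega) hK2]
  exact Finset.sum_le_sum (fun u _ => sum_gg_le_cnt hp hK2)

lemma log_Kj {i j : ℕ} (hj : j ∈ Lv i) (hi : 160 ≤ i) :
    (i : ℝ) / 8 ≤ Real.log ((Kj i j : ℝ) / 2) ∧ Real.log (Kj i j) ≤ i := by
  rw [mem_Lv] at hj
  have hl2 : 0.69 < Real.log 2 := by have := Real.log_two_gt_d9; linarith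
  have hl2' : Real.log 2 < 0.7 := by have := Real.log_two_lt_d9; linarith
  have hi' : (160 : ℝ) ≤ i := by exact_mod_cast hi
  constructor
  · have e1 : (Kj i j : ℝ) / 2 = 2 ^ (i - j - 3) := by
      unfold Kj
      have : i - j - 2 = (i - j - 3) + 1 := by omega
      rw [this, pow_succ]; push_cast; ring
    rw [e1, Real.log_pow]
    have h1 : (i : ℝ) ≤ 4 * ((i - j - 3 : ℕ) : ℝ) + 12 := by
      have : i ≤ 4 * (i - j - 3) + 12 := by omega
      exact_mod_cast this
    nlinarith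
  · unfold Kj
    push_cast
    rw [Real.log_pow]
    have h1 : ((i - j - 2 : ℕ) : ℝ) ≤ i := by
      have : i - j - 2 ≤ i := by omega
      exact_mod_cast this
    have h0 : (0 : ℝ) ≤ ((i - j - 2 : ℕ) : ℝ) := Nat.cast_nonneg _
    nlinarith

lemma Kj_ge {i j : ℕ} (hj : j ∈ Lv i) (hi : 160 ≤ i) : (2 : ℝ) ^ (i / 4) ≤ 2 * Kj i j := by
  rw [mem_Lv] at hj
  unfold Kj
  push_cast
  rw [← pow_succ']
  exact pow_le_pow_right₀ (by norm_num) (by omega)

/-- the pointwise upper bound -/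
lemma lamT_upper (hp : PD p) (hT : TD p t Kt j0) (hKt : 1 ≤ Kt) {i e : ℕ} (hi : 160 ≤ i)
    (hj0 : 2 * j0 ≤ i)
    (he : e ≤ 2 * (i / 3)) (ht : ∀ j, j ≤ i → (1 / 2 : ℝ) ^ (i / 100) ≤ t j)
    (hev : (3 * 2 ^ 34 : ℝ) * (i : ℝ) ^ 3 ≤ 2 ^ (i / 8)) (n : ℕ) :
    lamT p t Kt i e n ≤ 162201600 * Ksh 1024 * Kt + 1 := by
  have hi0 : (160 : ℝ) ≤ i := by exact_mod_cast hi
  have hKsh : 0 ≤ Ksh 1024 := by unfold Ksh; positivity
  have hl2 : 0.69 < Real.log 2 := by have := Real.log_two_gt_d9; linarith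
  have hl2' : Real.log 2 < 0.7 := by have := Real.log_two_lt_d9; linarith
  have one : ∀ j ∈ Lv i, ∑ w ∈ GQ e j (Kj i j) (Dj i j), gg p (kj t Kt i j) n w.1 w.2
      ≤ (162201600 * Ksh 1024 * Kt + 1) / i := by
    intro j hj
    have hjm := mem_Lv.mp hj
    obtain ⟨hlg1, hlg2⟩ := log_Kj hj hi
    have hKge := Kj_ge hj hi
    set K := Kj i j with hK
    have hK0 : (0 : ℝ) < K := by
      have : 0 < K := by rw [hK]; unfold Kj; positivity
      exact_mod_cast this
    have htj := ht j (by omega)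
    have htpos := hT.pos j
    have hK39 : 2 ^ 39 ≤ K := by
      rw [hK]; unfold Kj
      exact Nat.pow_le_pow_right (by norm_num) (by omega)
    have hK39r : (2 : ℝ) ^ 39 ≤ K := by exact_mod_cast hK39
    have hsplit : (2 : ℝ) ^ (i / 100) * 2 ^ (i / 8) ≤ 2 ^ (i / 4) := by
      rw [← pow_add]; exact pow_le_pow_right₀ (by norm_num) (by omega)
    -- `t K` is large
    have htK : (2 : ℝ) ^ (i / 8) ≤ 2 * (t j * K) := by
      have h1 : (1 / 2 : ℝ) ^ (i / 100) * 2 ^ (i / 4) ≤ t j * (2 * K) :=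
        mul_le_mul htj hKge (by positivity) htpos.le
      have h2 : (2 : ℝ) ^ (i / 8) ≤ (1 / 2 : ℝ) ^ (i / 100) * 2 ^ (i / 4) := by
        rw [one_div, inv_pow, ← div_eq_inv_mul, le_div_iff₀ (by positivity), mul_comm]
        exact hsplit
      linarith
    have hi3 : (1 : ℝ) ≤ (i : ℝ) ^ 3 := one_le_pow₀ (by linarith)
    have hD : ((Dj i j : ℕ) : ℝ) ≤ 1024 * (K / 2) * Real.log (K / 2) := by
      unfold Dj
      rw [← hK]
      push_cast
      have h1 : (j : ℝ) ≤ i := by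
        have : j ≤ i := by omega
        exact_mod_cast this
      have h2 : (64 : ℝ) * K * j ≤ 64 * K * i := mul_le_mul_of_nonneg_left h1 (by positivity)
      have h3 : (1024 : ℝ) * (K / 2) * (i / 8) ≤ 1024 * (K / 2) * Real.log (K / 2) :=
        mul_le_mul_of_nonneg_left hlg1 (by positivity)
      linarith
    have hκ2 : (kj t Kt i j) ^ 2 = 36 * Kt * t j * K := by
      unfold kj
      rw [← hK, mul_pow, Real.sq_sqrt (by positivity)]; ring
    have hκ1 : 1 ≤ kj t Kt i j := by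
      unfold kj
      rw [← hK]
      have h1 : 1 ≤ Real.sqrt (Kt * t j * K) := by
        rw [Real.one_le_sqrt]
        have h2 : t j * K ≤ Kt * (t j * K) := le_mul_of_one_le_left (by positivity) hKt
        have h3 : (2 : ℝ) ≤ 2 ^ (i / 8) := by
          have : (3 * 2 ^ 34 : ℝ) ≤ 2 ^ (i / 8) := le_trans (by nlinarith) hev
          linarith
        nlinarith
      linarith
    have hlev := level_upper (A := 1024) (n := n) hp (by norm_num) htpos (hT.le_one j)
      (e := e) (j := j) (K := K) (D := Dj i j) (Kt := Kt) (by omega) (by omega)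
      (by linarith) hD (hT.lower j (by omega)) hκ1 hκ2
    refine hlev.trans ?_
    rw [add_div]
    refine add_le_add ?_ ?_
    · have hlg0 : 0 < Real.log ((K : ℝ) / 2) := by linarith
      rw [div_le_div_iff₀ hlg0 (by linarith)]
      have h1 : 0 ≤ Ksh 1024 * Kt := by positivity
      nlinarith
    · -- the exponential error
      have hKu : (K : ℝ) * 2 ^ (2 * j) ≤ 2 ^ (2 * i) := by
        have h1 : K * 2 ^ (2 * j) ≤ 2 ^ (2 * i) := by
          rw [hK]; unfold Kj
          rw [← pow_add]; exact Nat.pow_le_pow_right (by norm_num) (by omega)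
        exact_mod_cast h1
      have herr : errE 1024 (t j) K ≤ 3 * Real.exp (-(3 * i)) := by
        unfold errE
        refine mul_le_mul_of_nonneg_left (Real.exp_le_exp.mpr (neg_le_neg ?_)) (by norm_num)
        have hlK0 : 0 < Real.log K := by
          have : Real.log ((K : ℝ) / 2) ≤ Real.log K := Real.log_le_log (by positivity) (by linarith)
          linarith
        have h1 : (K / 2 : ℝ) / (1024 * 1024 ^ 2 * (i : ℝ) ^ 2)
            ≤ (K / 2 : ℝ) / (1024 * 1024 ^ 2 * Real.log K ^ 2) := by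
          refine div_le_div_of_nonneg_left (by positivity) (by positivity) ?_
          refine mul_le_mul_of_nonneg_left ?_ (by positivity)
          exact pow_le_pow_left₀ hlK0.le hlg2 2
        have h2 := mul_le_mul_of_nonneg_left h1 htpos.le
        have h3 : (3 : ℝ) * i ≤ t j * ((K / 2 : ℝ) / (1024 * 1024 ^ 2 * (i : ℝ) ^ 2)) / 2 := by
          have e1 : t j * ((K / 2 : ℝ) / (1024 * 1024 ^ 2 * (i : ℝ) ^ 2)) / 2
              = (2 * (t j * K)) / (8 * (1024 * 1024 ^ 2 * (i : ℝ) ^ 2)) := by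
            field_simp; norm_num
          rw [e1, le_div_iff₀ (by positivity)]
          refine le_trans ?_ (hev.trans htK)
          have : (3 : ℝ) * i * (8 * (1024 * 1024 ^ 2 * (i : ℝ) ^ 2)) = (24 * 2 ^ 30) * (i : ℝ) ^ 3 := by
            ring
          rw [this]
          exact mul_le_mul_of_nonneg_right (by norm_num) (by positivity)
        linarith
      have herr0 : 0 ≤ errE 1024 (t j) K := by unfold errE; positivity
      have h1 : (K : ℝ) * (2 ^ (2 * j) * errE 1024 (t j) K) ≤ 2 ^ (2 * i) * (3 * Real.exp (-(3 * i))) := by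
        rw [← mul_assoc]
        exact mul_le_mul hKu herr herr0 (by positivity)
      refine h1.trans ?_
      rw [le_div_iff₀ (by linarith : (0 : ℝ) < i)]
      have h2 : Real.exp (-(3 * (i : ℝ))) * 2 ^ (4 * i) ≤ 1 := by
        have h3 : (2 : ℝ) ^ (4 * i) = Real.exp ((4 * i : ℕ) * Real.log 2) := by
          rw [mul_comm ((4 * i : ℕ) : ℝ), Real.exp_mul, Real.exp_log (by norm_num), Real.rpow_natCast]
        rw [h3, ← Real.exp_add, Real.exp_le_one_iff]
        push_cast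
        nlinarith
      have h4 : (3 : ℝ) * i ≤ 2 ^ (2 * i) := by
        have h5 : 3 * i ≤ 2 ^ (2 * i) := by
          have h6 : i < 2 ^ i := Nat.lt_two_pow_self
          have h7 : 3 ≤ 2 ^ i := by
            calc 3 ≤ 2 ^ 2 := by norm_num
              _ ≤ 2 ^ i := Nat.pow_le_pow_right (by norm_num) (by omega)
          calc 3 * i ≤ 2 ^ i * 2 ^ i := Nat.mul_le_mul h7 h6.le
            _ = 2 ^ (2 * i) := by rw [← pow_add]; congr 1; ring
        exact_mod_cast h5
      have hexp := Real.exp_pos (-(3 * (i : ℝ)))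
      calc (2 : ℝ) ^ (2 * i) * (3 * Real.exp (-(3 * i))) * i
          = Real.exp (-(3 * (i : ℝ))) * (2 ^ (2 * i) * (3 * i)) := by ring
        _ ≤ Real.exp (-(3 * (i : ℝ))) * (2 ^ (2 * i) * 2 ^ (2 * i)) := by
            refine mul_le_mul_of_nonneg_left ?_ hexp.le
            exact mul_le_mul_of_nonneg_left h4 (by positivity)
        _ = Real.exp (-(3 * (i : ℝ))) * 2 ^ (4 * i) := by
            rw [← pow_add]; congr 2; ring
        _ ≤ 1 := h2
  unfold lamT
  refine (Finset.sum_le_sum one).trans ?_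
  rw [Finset.sum_const, nsmul_eq_mul]
  have hcard : ((Lv i).card : ℝ) ≤ i := by
    have : (Lv i).card ≤ i := by unfold Lv; rw [Nat.card_Ico]; omega
    exact_mod_cast this
  have h0 : 0 ≤ (162201600 * Ksh 1024 * Kt + 1) / i := by positivity
  calc ((Lv i).card : ℝ) * ((162201600 * Ksh 1024 * Kt + 1) / i)
      ≤ i * ((162201600 * Ksh 1024 * Kt + 1) / i) := mul_le_mul_of_nonneg_right hcard h0
    _ = 162201600 * Ksh 1024 * Kt + 1 := by field_simp

/-- the total -/
lemma lamT_lower (hp : PD p) (hT : TD p t Kt j0) (hKt : 1 ≤ Kt) {i e : ℕ} (hi : 160 ≤ i)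
    (hj0 : 2 * j0 ≤ i)
    (he : e ≤ i / 100) (hev : (1024 : ℝ) * (i : ℝ) ^ 1 ≤ 2 ^ (i / 8)) :
    (2 : ℝ) ^ i / 36864 ≤ ∑ n ∈ Finset.Icc 1 (2 ^ i), lamT p t Kt i e n := by
  have hi0 : (160 : ℝ) ≤ i := by exact_mod_cast hi
  unfold lamT
  rw [Finset.sum_comm]
  have one : ∀ j ∈ Lv i, ((GQ e j (Kj i j) (Dj i j)).card : ℝ) / 6
      ≤ ∑ n ∈ Finset.Icc 1 (2 ^ i), ∑ w ∈ GQ e j (Kj i j) (Dj i j), gg p (kj t Kt i j) n w.1 w.2 := by
    intro j hj
    have hjm := mem_Lv.mp hj
    have hK2 : 2 ≤ Kj i j := by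
      unfold Kj
      calc 2 = 2 ^ 1 := by norm_num
        _ ≤ 2 ^ (i - j - 2) := Nat.pow_le_pow_right (by norm_num) (by omega)
    have hK0 : (0 : ℝ) < Kj i j := by
      have : 0 < Kj i j := by omega
      exact_mod_cast this
    have htpos := hT.pos j
    rw [Finset.sum_comm]
    have h1 : ∀ w ∈ GQ e j (Kj i j) (Dj i j), (1 / 6 : ℝ)
        ≤ ∑ n ∈ Finset.Icc 1 (2 ^ i), gg p (kj t Kt i j) n w.1 w.2 := by
      intro w hw
      have h := GQ_prop (by omega : e ≤ j) hK2 hw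
      have hκ2 : (kj t Kt i j) ^ 2 = 36 * Kt * t j * Kj i j := by
        unfold kj
        rw [mul_pow, Real.sq_sqrt (by positivity)]; ring
      have hκ0 : 0 < kj t Kt i j := by
        unfold kj
        have : 0 < Real.sqrt (Kt * t j * Kj i j) := Real.sqrt_pos.mpr (by positivity)
        positivity
      refine sum_gg_ge hp hκ0 h.1 h.2.1 h.2.2.2.1 ?_ ?_
      · rw [hκ2]
        have h2 : ∑ r ∈ Pr w.1 w.2, p r * (1 - p r) ≤ ∑ _r ∈ Pr w.1 w.2, Kt * t j := by
          refine Finset.sum_le_sum (fun r hr => ?_)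
          rw [mem_Pr] at hr
          exact hT.upper j (by omega) r hr.2 (by omega) (by omega)
        refine h2.trans ?_
        rw [Finset.sum_const, nsmul_eq_mul]
        have h3 : ((Pr w.1 w.2).card : ℝ) ≤ Kj i j := by exact_mod_cast h.2.2.2.2.2.2.1
        have h4 : ((Pr w.1 w.2).card : ℝ) * (Kt * t j) ≤ Kj i j * (Kt * t j) :=
          mul_le_mul_of_nonneg_right h3 (by positivity)
        refine h4.trans (le_of_eq ?_)
        ring
      · have h2 : (Pr w.1 w.2).card * w.2 ≤ Kj i j * 2 ^ (j + 1) :=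
          Nat.mul_le_mul h.2.2.2.2.2.2.1 h.2.2.2.2.1.le
        refine h2.trans ?_
        unfold Kj
        rw [← pow_add]
        exact Nat.pow_le_pow_right (by norm_num) (by omega)
    have h2 := Finset.sum_le_sum h1
    rw [Finset.sum_const, nsmul_eq_mul] at h2
    linarith
  refine le_trans ?_ (Finset.sum_le_sum one)
  unfold Lv
  rw [sum_pair _ (by omega : i / 3 ≤ 3 * i / 8)]
  have two : ∀ v ∈ Finset.Ico (i / 3) (3 * i / 8), (2 : ℝ) ^ i / (768 * i)
      ≤ ((GQ e (2 * v) (Kj i (2 * v)) (Dj i (2 * v))).card : ℝ) / 6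
        + ((GQ e (2 * v + 1) (Kj i (2 * v + 1)) (Dj i (2 * v + 1))).card : ℝ) / 6 := by
    intro v hv
    rw [Finset.mem_Ico] at hv
    have hv0 : (0 : ℝ) < v := by
      have : 0 < v := by omega
      exact_mod_cast this
    have hvi : (v : ℝ) ≤ i / 2 := by
      have : 2 * v ≤ i := by omega
      have : (2 : ℝ) * v ≤ i := by exact_mod_cast this
      linarith
    have h1 := pairs_two (e := e) (i := i) (v := v) (by omega) (by omega) (by omega) (by
      rw [le_div_iff₀ (by positivity)]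
      have h2 : (2 : ℝ) ^ (e + 1) * (Kj i (2 * v) : ℝ) ^ 2 ≤ 2 ^ (e + 1) * 2 ^ (2 * (i / 3)) := by
        refine mul_le_mul_of_nonneg_left ?_ (by positivity)
        unfold Kj
        push_cast
        rw [← pow_mul]
        exact pow_le_pow_right₀ (by norm_num) (by omega)
      have h3 : (512 : ℝ) * v ≤ 2 ^ (i / 8) := by
        rw [pow_one] at hev; linarith
      calc (2 : ℝ) ^ (e + 1) * (Kj i (2 * v) : ℝ) ^ 2 * (512 * v)
          ≤ (2 ^ (e + 1) * 2 ^ (2 * (i / 3))) * 2 ^ (i / 8) :=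
            mul_le_mul h2 h3 (by positivity) (by positivity)
        _ = 2 ^ (e + 1 + 2 * (i / 3) + i / 8) := by rw [← pow_add, ← pow_add]
        _ ≤ 2 ^ i := pow_le_pow_right₀ (by norm_num) (by omega))
    have h2 : (2 : ℝ) ^ i / (128 * i) ≤ 2 ^ i / (256 * v) := by
      refine div_le_div_of_nonneg_left (by positivity) (by positivity) ?_
      linarith
    have e1 : (2 : ℝ) ^ i / (768 * i) = (2 ^ i / (128 * i)) / 6 := by
      rw [div_div]; congr 1; ring
    rw [e1]
    linarith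
  refine le_trans ?_ (Finset.sum_le_sum two)
  rw [Finset.sum_const, Nat.card_Ico, nsmul_eq_mul]
  have hcard : (i : ℝ) ≤ 48 * ((3 * i / 8 - i / 3 : ℕ) : ℝ) := by
    have : i ≤ 48 * (3 * i / 8 - i / 3) := by omega
    exact_mod_cast this
  have h2 : ((3 * i / 8 - i / 3 : ℕ) : ℝ) * ((2 : ℝ) ^ i / (768 * i))
      = (48 * ((3 * i / 8 - i / 3 : ℕ) : ℝ)) * ((2 : ℝ) ^ i / (36864 * i)) := by
    field_simp; ring
  rw [h2]
  have h3 : (i : ℝ) * ((2 : ℝ) ^ i / (36864 * i)) = 2 ^ i / 36864 := by field_simp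
  rw [← h3]
  exact mul_le_mul_of_nonneg_right hcard (by positivity)

/-- **Many integers have a mean number of windows bounded from below.** -/
theorem many_good (Kt : ℝ) (hKt : 1 ≤ Kt) : ∃ c' cG : ℝ, 0 < c' ∧ 0 < cG ∧ ∀ q : ℕ, 100 ≤ q →
    ∃ i0 : ℕ, ∀ i, i0 ≤ i → ∀ (p t : ℕ → ℝ) (j0 : ℕ), PD p → TD p t Kt j0 → 2 * j0 ≤ i →
      (∀ j, j ≤ i → (1 / 2 : ℝ) ^ (i / 100) ≤ t j) →
      cG * 2 ^ i ≤ (((Finset.Icc 1 (2 ^ i)).filter
        (fun n => c' ≤ La p (SS (i / q) (JL q i) (i - 4 * (i / q))) (Ib (i / q)) n)).card : ℝ) := by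
  classical
  have hKsh : 0 ≤ Ksh 1024 := by unfold Ksh; positivity
  set C1 : ℝ := 162201600 * Ksh 1024 * Kt + 1 with hC1
  have hC10 : 0 < C1 := by positivity
  refine ⟨1 / 73728, 1 / (73728 * C1), by norm_num, by positivity, fun q hq => ?_⟩
  obtain ⟨i0, hi0⟩ := ((ev_pow (3 * 2 ^ 34) 3 (q := 8) (by norm_num)).and
    (ev_pow 1024 1 (q := 8) (by norm_num))).exists_forall_of_atTop
  refine ⟨max i0 400, fun i hi p t j0 hp hT hj0 ht => ?_⟩
  obtain ⟨h1, h2⟩ := hi0 i (le_trans (le_max_left _ _) hi)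
  have hi400 : 400 ≤ i := le_trans (le_max_right _ _) hi
  have he : i / q ≤ i / 100 := Nat.div_le_div_left hq (by norm_num)
  have hup := fun n => lamT_upper hp hT hKt (e := i / q) (by omega : 160 ≤ i) hj0 (by omega) ht h1 n
  rw [← hC1] at hup
  have hlow := lamT_lower hp hT hKt (e := i / q) (by omega : 160 ≤ i) hj0 he h2
  have hLa : ∀ n, lamT p t Kt i (i / q) n ≤ La p (SS (i / q) (JL q i) (i - 4 * (i / q))) (Ib (i / q)) n :=
    fun n => lamT_le_La hp (by omega) (by unfold JL; omega) (by omega) (by omega)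
  set G := (Finset.Icc 1 (2 ^ i)).filter
        (fun n => (1 / 73728 : ℝ) ≤ La p (SS (i / q) (JL q i) (i - 4 * (i / q))) (Ib (i / q)) n) with hG
  have h3 : ∑ n ∈ Finset.Icc 1 (2 ^ i), lamT p t Kt i (i / q) n
      ≤ (G.card : ℝ) * C1 + 2 ^ i * (1 / 73728) := by
    rw [← Finset.sum_filter_add_sum_filter_not (Finset.Icc 1 (2 ^ i))
      (fun n => (1 / 73728 : ℝ) ≤ La p (SS (i / q) (JL q i) (i - 4 * (i / q))) (Ib (i / q)) n)]
    refine add_le_add ?_ ?_
    · have := Finset.sum_le_card_nsmul G (fun n => lamT p t Kt i (i / q) n) C1 (fun n _ => hup n)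
      rwa [nsmul_eq_mul] at this
    · have h4 := Finset.sum_le_card_nsmul ((Finset.Icc 1 (2 ^ i)).filter
        (fun n => ¬ (1 / 73728 : ℝ) ≤ La p (SS (i / q) (JL q i) (i - 4 * (i / q))) (Ib (i / q)) n))
        (fun n => lamT p t Kt i (i / q) n) (1 / 73728) (fun n hn => by
          rw [Finset.mem_filter] at hn
          have h5 := hn.2
          push Not at h5
          exact (hLa n).trans h5.le)
      rw [nsmul_eq_mul] at h4
      refine h4.trans (mul_le_mul_of_nonneg_right ?_ (by norm_num))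
      have h5 := Finset.card_filter_le (Finset.Icc 1 (2 ^ i))
        (fun n => ¬ (1 / 73728 : ℝ) ≤ La p (SS (i / q) (JL q i) (i - 4 * (i / q))) (Ib (i / q)) n)
      rw [Nat.card_Icc, Nat.add_sub_cancel] at h5
      exact_mod_cast h5
  have h4 : (2 : ℝ) ^ i / 73728 ≤ (G.card : ℝ) * C1 := by
    have : (2 : ℝ) ^ i / 36864 = 2 ^ i / 73728 + 2 ^ i * (1 / 73728) := by ring
    linarith
  have e1 : 1 / (73728 * C1) * (2 : ℝ) ^ i = ((2 : ℝ) ^ i / 73728) / C1 := by field_simp
  rw [e1, div_le_iff₀ hC10]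
  exact h4

end Pool.Agent.helper306_thin
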