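import Pool.Agent.helper306_thin.Pairs2

/-!
# Pairs of primes at a given distance (in the sequence of primes) which are not far apart
-/

namespace Pool.Agent.helper306_thin

open Finset Pool.Agent.helper306_cramer

/-- the `s`-th prime (counted from zero) -/
noncomputable def pn (s : ℕ) : ℕ := Nat.nth Nat.Prime s

lemma pn_prime (s : ℕ) : (pn s).Prime := Nat.prime_nth_prime s

lemma pn_strictMono : StrictMono pn := Nat.nth_strictMono Nat.infinite_setOfPred_prime

lemma pn_count {r : ℕ} (hr : r.Prime) : pn (Nat.count Nat.Prime r) = r := Nat.nth_count hr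

lemma count_pn (s : ℕ) : Nat.count Nat.Prime (pn s) = s :=
  Nat.count_nth_of_infinite Nat.infinite_setOfPred_prime s

lemma pn_ge {Y s : ℕ} (h : Nat.count Nat.Prime Y ≤ s) : Y ≤ pn s := by
  by_contra hcon
  push Not at hcon
  have h1 : Nat.count Nat.Prime (pn s) < Nat.count Nat.Prime Y :=
    Nat.count_strict_mono (pn_prime s) hcon
  rw [count_pn] at h1
  omega

lemma pn_lt {Y s : ℕ} (h : s < Nat.count Nat.Prime Y) : pn s < Y := by
  by_contra hcon
  push Not at hcon
  have h1 : Nat.count Nat.Prime Y ≤ Nat.count Nat.Prime (pn s) := Nat.count_monotone _ hcon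
  rw [count_pn] at h1
  omega

lemma Pr_pn (s t : ℕ) : Pr (pn s) (pn t) = (Finset.Icc s t).image pn := by
  ext r
  rw [mem_Pr, Finset.mem_image]
  constructor
  · rintro ⟨⟨h1, h2⟩, h3⟩
    refine ⟨Nat.count Nat.Prime r, ?_, pn_count h3⟩
    rw [Finset.mem_Icc]
    rw [← pn_count h3] at h1 h2
    exact ⟨pn_strictMono.le_iff_le.mp h1, pn_strictMono.le_iff_le.mp h2⟩
  · rintro ⟨u, hu, rfl⟩
    rw [Finset.mem_Icc] at hu
    exact ⟨⟨pn_strictMono.monotone hu.1, pn_strictMono.monotone hu.2⟩, pn_prime u⟩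

lemma card_Pr_pn {s t : ℕ} : (Pr (pn s) (pn t)).card = t + 1 - s := by
  rw [Pr_pn, Finset.card_image_of_injective _ pn_strictMono.injective, Nat.card_Icc]

lemma card_IP (Y Lb : ℕ) :
    (IP Y Lb).card = Nat.count Nat.Prime (Y + Lb) - Nat.count Nat.Prime Y := by
  have h1 : IP Y Lb = (Finset.Ico (Nat.count Nat.Prime Y) (Nat.count Nat.Prime (Y + Lb))).image pn := by
    ext r
    rw [mem_IP, Finset.mem_image]
    constructor
    · rintro ⟨⟨h1, h2⟩, h3⟩
      refine ⟨Nat.count Nat.Prime r, ?_, pn_count h3⟩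
      rw [Finset.mem_Ico]
      exact ⟨Nat.count_monotone _ h1, Nat.count_strict_mono h3 h2⟩
    · rintro ⟨u, hu, rfl⟩
      rw [Finset.mem_Ico] at hu
      exact ⟨⟨pn_ge hu.1, pn_lt hu.2⟩, pn_prime u⟩
  rw [h1, Finset.card_image_of_injective _ pn_strictMono.injective, Nat.card_Ico]

/-- good indices in the block `[Y, Y + Lb)` -/
noncomputable def GI (Y Lb K D : ℕ) : Finset ℕ :=
  (Finset.Ico (Nat.count Nat.Prime Y) (Nat.count Nat.Prime (Y + Lb))).filter
    (fun s => s + K < Nat.count Nat.Prime (Y + Lb) ∧ pn (s + K) ≤ pn s + D)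

lemma sum_shift_le {s0 s1 K Y Lb : ℕ} (hs : s0 + K ≤ s1) (h0 : ∀ s, s0 ≤ s → Y ≤ pn s)
    (h1 : ∀ s, s < s1 → pn s ≤ Y + Lb) :
    ∑ s ∈ Finset.Ico s0 (s1 - K), pn (s + K) ≤ ∑ s ∈ Finset.Ico s0 (s1 - K), pn s + K * Lb := by
  have e1 : ∑ s ∈ Finset.Ico s0 (s1 - K), pn (s + K) = ∑ s ∈ Finset.Ico (s0 + K) s1, pn s := by
    have h2 : Finset.Ico (s0 + K) s1 = (Finset.Ico s0 (s1 - K)).image (fun s => s + K) := by
      ext r
      simp only [Finset.mem_Ico, Finset.mem_image]
      constructor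
      · intro h; exact ⟨r - K, by omega, by omega⟩
      · rintro ⟨s, hs, rfl⟩; omega
    rw [h2, Finset.sum_image (fun a _ b _ h => by simpa using h)]
  have e2 : ∑ s ∈ Finset.Ico s0 (s0 + K), pn s + ∑ s ∈ Finset.Ico (s0 + K) s1, pn s
      = ∑ s ∈ Finset.Ico s0 s1, pn s := Finset.sum_Ico_consecutive _ (by omega) hs
  have e3 : ∑ s ∈ Finset.Ico s0 (s1 - K), pn s + ∑ s ∈ Finset.Ico (s1 - K) s1, pn s
      = ∑ s ∈ Finset.Ico s0 s1, pn s := Finset.sum_Ico_consecutive _ (by omega) (by omega)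
  have e4 : K * Y ≤ ∑ s ∈ Finset.Ico s0 (s0 + K), pn s := by
    have := Finset.card_nsmul_le_sum (Finset.Ico s0 (s0 + K)) pn Y (fun s hs => by
      rw [Finset.mem_Ico] at hs; exact h0 s hs.1)
    rwa [smul_eq_mul, Nat.card_Ico, Nat.add_sub_cancel_left] at this
  have e5 : ∑ s ∈ Finset.Ico (s1 - K) s1, pn s ≤ K * (Y + Lb) := by
    have := Finset.sum_le_card_nsmul (Finset.Ico (s1 - K) s1) pn (Y + Lb) (fun s hs => by
      rw [Finset.mem_Ico] at hs; exact h1 s hs.2)
    rw [smul_eq_mul, Nat.card_Ico] at this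
    have e : s1 - (s1 - K) = K := by omega
    rwa [e] at this
  rw [e1]
  have e6 : K * (Y + Lb) = K * Y + K * Lb := by ring
  omega

/-- most indices are good -/
lemma card_GI_ge (Y Lb K D : ℕ) :
    (IP Y Lb).card * D ≤ (GI Y Lb K D).card * D + K * D + K * Lb := by
  classical
  rw [card_IP]
  set s0 := Nat.count Nat.Prime Y with hs0
  set s1 := Nat.count Nat.Prime (Y + Lb) with hs1
  rcases Nat.lt_or_ge s1 (s0 + K) with h | h
  · have : (s1 - s0) * D ≤ K * D := Nat.mul_le_mul_right _ (by omega)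
    omega
  set B := (Finset.Ico s0 (s1 - K)).filter (fun s => ¬ pn (s + K) ≤ pn s + D) with hB
  have h1 : (Finset.Ico s0 (s1 - K)).card = ((Finset.Ico s0 (s1 - K)).filter
      (fun s => pn (s + K) ≤ pn s + D)).card + B.card :=
    (Finset.card_filter_add_card_filter_not _).symm
  rw [Nat.card_Ico] at h1
  have h2 : ((Finset.Ico s0 (s1 - K)).filter (fun s => pn (s + K) ≤ pn s + D)).card
      ≤ (GI Y Lb K D).card := by
    refine Finset.card_le_card (fun s hs => ?_)
    unfold GI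
    rw [Finset.mem_filter, Finset.mem_Ico] at hs ⊢
    rw [← hs0, ← hs1]
    exact ⟨⟨hs.1.1, by omega⟩, by omega, hs.2⟩
  have h3 : B.card * D ≤ K * Lb := by
    have h4 := sum_shift_le (Y := Y) (Lb := Lb) h (fun s hs => pn_ge hs) (fun s hs => (pn_lt hs).le)
    have h5 : ∑ s ∈ Finset.Ico s0 (s1 - K), pn s + B.card * D
        ≤ ∑ s ∈ Finset.Ico s0 (s1 - K), pn (s + K) := by
      have e1 : B.card * D = ∑ s ∈ Finset.Ico s0 (s1 - K),
          (if ¬ pn (s + K) ≤ pn s + D then D else 0) := by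
        rw [← Finset.sum_filter, Finset.sum_const, smul_eq_mul]
      rw [e1, ← Finset.sum_add_distrib]
      refine Finset.sum_le_sum (fun s _ => ?_)
      have h6 : pn s ≤ pn (s + K) := pn_strictMono.monotone (by omega)
      split_ifs with h7
      · omega
      · omega
    omega
  have h6 : (s1 - s0) ≤ (GI Y Lb K D).card + B.card + K := by omega
  calc (s1 - s0) * D ≤ ((GI Y Lb K D).card + B.card + K) * D := Nat.mul_le_mul_right _ h6
    _ = (GI Y Lb K D).card * D + K * D + B.card * D := by ring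
    _ ≤ _ := by omega

/-- the good pairs of the block -/
noncomputable def GP (Y Lb K D : ℕ) : Finset (ℕ × ℕ) :=
  ((GI Y Lb K D) ×ˢ (Finset.Ico (K / 2) K)).image (fun sm => (pn sm.1, pn (sm.1 + sm.2)))

lemma card_GP (Y Lb K D : ℕ) : (GP Y Lb K D).card = (GI Y Lb K D).card * (K - K / 2) := by
  unfold GP
  rw [Finset.card_image_of_injective, Finset.card_product, Nat.card_Ico]
  rintro ⟨s, m⟩ ⟨s', m'⟩ h
  simp only [Prod.mk.injEq] at h
  have h1 := pn_strictMono.injective h.1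
  have h2 := pn_strictMono.injective h.2
  rw [Prod.ext_iff]
  simp only
  omega

lemma GP_prop {Y Lb K D : ℕ} (hK : 2 ≤ K) {w : ℕ × ℕ} (hw : w ∈ GP Y Lb K D) :
    w.1.Prime ∧ w.2.Prime ∧ Y ≤ w.1 ∧ w.1 < w.2 ∧ w.2 < Y + Lb ∧ K / 2 < (Pr w.1 w.2).card ∧
      (Pr w.1 w.2).card ≤ K ∧ w.2 ≤ w.1 + D := by
  unfold GP at hw
  rw [Finset.mem_image] at hw
  obtain ⟨⟨s, m⟩, hsm, rfl⟩ := hw
  rw [Finset.mem_product, Finset.mem_Ico] at hsm
  obtain ⟨hs, hm⟩ := hsm
  unfold GI at hs
  rw [Finset.mem_filter, Finset.mem_Ico] at hs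
  simp only at hs hm ⊢
  rw [card_Pr_pn]
  refine ⟨pn_prime _, pn_prime _, pn_ge hs.1.1, pn_strictMono (by omega), pn_lt (by omega), by omega,
    by omega, ?_⟩
  have : pn (s + m) ≤ pn (s + K) := pn_strictMono.monotone (by omega)
  omega

/-- the primes of a dyadic interval -/
def PDy (j : ℕ) : Finset ℕ := (Finset.Ico (2 ^ j) (2 ^ (j + 1))).filter Nat.Prime

lemma sum_card_IP {e j : ℕ} (he : e ≤ j) :
    ∑ u ∈ Finset.range (2 ^ e), (IP (yb e (j, u)) (Lb e (j, u))).card = (PDy j).card := by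
  classical
  rw [← Finset.card_biUnion]
  · congr 1
    ext r
    rw [Finset.mem_biUnion]
    unfold PDy
    rw [Finset.mem_filter, Finset.mem_Ico]
    constructor
    · rintro ⟨u, hu, hr⟩
      rw [Finset.mem_range] at hu
      rw [mem_IP] at hr
      have h1 := yb_ge (e := e) (s := (j, u)) he
      have h2 := yb_add_le (e := e) (s := (j, u)) he hu
      simp only at h1 h2
      exact ⟨⟨by omega, by omega⟩, hr.2⟩
    · rintro ⟨⟨h1, h2⟩, h3⟩
      obtain ⟨s, hs, hr⟩ := exists_block (e := e) (J := j) (L := j) he h1 h2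
      rw [mem_SS] at hs
      have hs1 : s.1 = j := by omega
      refine ⟨s.2, Finset.mem_range.mpr hs.2, ?_⟩
      have : s = (j, s.2) := Prod.ext hs1 rfl
      rw [← this, mem_IP]
      unfold Ib at hr
      rw [Finset.mem_Ico] at hr
      exact ⟨hr, h3⟩
  · intro u hu u' hu' hne
    rw [Function.onFun, Finset.disjoint_left]
    intro r hr hr'
    rw [mem_IP] at hr hr'
    rw [Finset.mem_coe, Finset.mem_range] at hu hu'
    have h1 : ((j, u) : ℕ × ℕ) = (j, u') := by
      refine block_unique (e := e) (J := j) (L := j) he ?_ ?_ (m := r) ?_ ?_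
      · rw [mem_SS]; exact ⟨⟨le_rfl, le_rfl⟩, hu⟩
      · rw [mem_SS]; exact ⟨⟨le_rfl, le_rfl⟩, hu'⟩
      · unfold Ib; rw [Finset.mem_Ico]; exact hr.1
      · unfold Ib; rw [Finset.mem_Ico]; exact hr'.1
    exact hne (by simpa using h1)

/-- the number of good pairs of one level -/
lemma level_count {e j K D : ℕ} (he : e ≤ j) :
    K * ((PDy j).card * D) ≤ 2 * (∑ u ∈ Finset.range (2 ^ e), (GP (yb e (j, u)) (Lb e (j, u)) K D).card) * D
      + K * (2 ^ e * (K * D) + K * 2 ^ j) := by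
  have h1 : ∑ u ∈ Finset.range (2 ^ e), (IP (yb e (j, u)) (Lb e (j, u))).card * D
      ≤ ∑ u ∈ Finset.range (2 ^ e), ((GI (yb e (j, u)) (Lb e (j, u)) K D).card * D + K * D
        + K * Lb e (j, u)) :=
    Finset.sum_le_sum (fun u _ => card_GI_ge _ _ K D)
  rw [← Finset.sum_mul, sum_card_IP he, Finset.sum_add_distrib, Finset.sum_add_distrib,
    ← Finset.sum_mul, Finset.sum_const, Finset.card_range, smul_eq_mul, ← Finset.mul_sum] at h1
  have h2 : ∑ u ∈ Finset.range (2 ^ e), Lb e (j, u) = 2 ^ j := by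
    unfold Lb
    simp only
    rw [Finset.sum_const, Finset.card_range, smul_eq_mul, mul_comm]
    exact pow_split he
  rw [h2] at h1
  have h3 : K * (∑ u ∈ Finset.range (2 ^ e), (GI (yb e (j, u)) (Lb e (j, u)) K D).card)
      ≤ 2 * ∑ u ∈ Finset.range (2 ^ e), (GP (yb e (j, u)) (Lb e (j, u)) K D).card := by
    rw [Finset.mul_sum, Finset.mul_sum]
    refine Finset.sum_le_sum (fun u _ => ?_)
    rw [card_GP]
    have : K ≤ 2 * (K - K / 2) := by omega
    calc K * (GI (yb e (j, u)) (Lb e (j, u)) K D).card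
        ≤ (2 * (K - K / 2)) * (GI (yb e (j, u)) (Lb e (j, u)) K D).card := Nat.mul_le_mul_right _ this
      _ = _ := by ring
  calc K * ((PDy j).card * D)
      ≤ K * ((∑ u ∈ Finset.range (2 ^ e), (GI (yb e (j, u)) (Lb e (j, u)) K D).card) * D
        + 2 ^ e * (K * D) + K * 2 ^ j) := Nat.mul_le_mul_left _ h1
    _ = (K * (∑ u ∈ Finset.range (2 ^ e), (GI (yb e (j, u)) (Lb e (j, u)) K D).card)) * D
        + K * (2 ^ e * (K * D) + K * 2 ^ j) := by ring
    _ ≤ _ := by
        refine Nat.add_le_add_right ?_ _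
        exact Nat.mul_le_mul_right _ h3

/-! ## Number of primes -/

theorem theta_diff (Y : ℕ) : Chebyshev.theta ((4 * Y : ℕ) : ℝ)
    = Chebyshev.theta (Y : ℝ) + ∑ p ∈ (Finset.Ioc Y (4 * Y)).filter Nat.Prime, Real.log p := by
  unfold Chebyshev.theta
  rw [Nat.floor_natCast, Nat.floor_natCast]
  have h1 : Finset.Ioc 0 (4 * Y) = Finset.Ioc 0 Y ∪ Finset.Ioc Y (4 * Y) := by
    rw [Finset.Ioc_union_Ioc_eq_Ioc (by omega) (by omega)]
  rw [h1, Finset.filter_union, Finset.sum_union]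
  apply Finset.disjoint_filter_filter
  rw [Finset.disjoint_left]
  intro a ha hb
  simp only [Finset.mem_Ioc] at ha hb
  omega

theorem log_small (n : ℝ) (hn : 50 ^ 4 ≤ n) :
    Real.log (n + 1) + 2 * Real.sqrt n * Real.log n ≤ n / 4 * Real.log 2 := by
  have hn0 : 0 < n := lt_of_lt_of_le (by norm_num) hn
  set t := Real.sqrt (Real.sqrt n) with ht
  have ht0 : 0 < t := Real.sqrt_pos.mpr (Real.sqrt_pos.mpr hn0)
  have ht2 : t ^ 2 = Real.sqrt n := Real.sq_sqrt (Real.sqrt_nonneg n)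
  have ht4 : t ^ 4 = n := by
    have : t ^ 4 = (t ^ 2) ^ 2 := by ring
    rw [this, ht2, Real.sq_sqrt hn0.le]
  have ht50 : 50 ≤ t := by
    by_contra h
    push Not at h
    have : t ^ 4 < 50 ^ 4 := by gcongr
    rw [ht4] at this
    linarith
  have hlt : Real.log t ≤ t := by
    have := Real.log_le_sub_one_of_pos ht0
    linarith
  have hlogn : Real.log n = 4 * Real.log t := by
    rw [← ht4, Real.log_pow]
    norm_num
  have hlog1 : Real.log (n + 1) ≤ 1 + 4 * t := by
    have h1 : n + 1 ≤ 2 * n := by linarith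
    have h2 : Real.log (n + 1) ≤ Real.log (2 * n) := Real.log_le_log (by linarith) h1
    rw [Real.log_mul (by norm_num) hn0.ne'] at h2
    have h3 : Real.log 2 ≤ 1 := by
      have := Real.log_two_lt_d9
      linarith
    linarith
  have hlog2 : 0.69 ≤ Real.log 2 := by
    have := Real.log_two_gt_d9
    linarith
  have hlogn0 : 0 ≤ Real.log t := Real.log_nonneg (by linarith)
  rw [← ht2, hlogn]
  calc Real.log (n + 1) + 2 * t ^ 2 * (4 * Real.log t)
      ≤ (1 + 4 * t) + 2 * t ^ 2 * (4 * t) := by gcongr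
    _ ≤ t ^ 4 / 4 * 0.69 := by nlinarith [pow_pos ht0 3, pow_pos ht0 2]
    _ ≤ t ^ 4 / 4 * Real.log 2 := by gcongr
    _ = n / 4 * Real.log 2 := by rw [ht4]

/-- number of primes of two consecutive dyadic intervals -/
theorem two_levels {j : ℕ} (hj : 23 ≤ j) :
    2 ^ j ≤ ((PDy j).card + (PDy (j + 1)).card) * (j + 3) := by
  set Y := 2 ^ j with hYdef
  have hY : 50 ^ 4 ≤ Y := by
    rw [hYdef]
    calc 50 ^ 4 ≤ 2 ^ 23 := by norm_num
      _ ≤ 2 ^ j := Nat.pow_le_pow_right (by norm_num) hj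
  set PP := (Finset.Ioc Y (4 * Y)).filter Nat.Prime with hPP
  have hlog : Nat.log 2 (4 * Y) = j + 2 := by
    rw [hYdef]
    have : 4 * 2 ^ j = 2 ^ (j + 2) := by rw [pow_add]; ring
    rw [this]
    exact Nat.log_pow (by norm_num) _
  have hYpos : (0 : ℝ) < Y := by
    have : 0 < Y := by omega
    exact_mod_cast this
  have hYR : (50 : ℝ) ^ 4 ≤ Y := by exact_mod_cast hY
  have h1 := Chebyshev.theta_ge (4 * Y)
  have h2 := Chebyshev.theta_le_log4_mul_x (x := (Y : ℝ)) hYpos.le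
  have h3 := theta_diff Y
  have hlog4 : Real.log 4 = 2 * Real.log 2 := by
    have : (4 : ℝ) = 2 ^ 2 := by norm_num
    rw [this, Real.log_pow]
    norm_num
  have h4 := log_small ((4 * Y : ℕ) : ℝ) (by push_cast; linarith)
  have hlog2 : 0 < Real.log 2 := Real.log_pos (by norm_num)
  have h5 : (Y : ℝ) * Real.log 2 ≤ ∑ p ∈ PP, Real.log p := by
    push_cast at *
    nlinarith
  have h6 : ∑ p ∈ PP, Real.log p ≤ (PP.card : ℝ) * (((j + 2 : ℕ) : ℝ) + 1) * Real.log 2 := by
    have h7 : Real.log ((4 * Y : ℕ) : ℝ) ≤ (((j + 2 : ℕ) : ℝ) + 1) * Real.log 2 := by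
      have h8 : 4 * Y < 2 ^ (Nat.log 2 (4 * Y) + 1) := Nat.lt_pow_succ_log_self (by norm_num) _
      rw [hlog] at h8
      have h9 : ((4 * Y : ℕ) : ℝ) ≤ (2 : ℝ) ^ (j + 2 + 1) := by
        exact_mod_cast h8.le
      have h10 := Real.log_le_log (by positivity) h9
      rw [Real.log_pow] at h10
      push_cast at h10 ⊢
      exact h10
    calc ∑ p ∈ PP, Real.log p
        ≤ ∑ _p ∈ PP, (((j + 2 : ℕ) : ℝ) + 1) * Real.log 2 := by
          refine Finset.sum_le_sum (fun p hp => ?_)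
          have hp1 : p ≤ 4 * Y := (Finset.mem_Ioc.mp (Finset.mem_filter.mp hp).1).2
          have hp0 : 0 < p := (Finset.mem_filter.mp hp).2.pos
          refine le_trans (Real.log_le_log (by exact_mod_cast hp0) ?_) h7
          exact_mod_cast hp1
      _ = _ := by
          rw [Finset.sum_const, nsmul_eq_mul]
          ring
  have h11 : (Y : ℝ) ≤ (PP.card : ℝ) * (((j + 2 : ℕ) : ℝ) + 1) := by
    have := h5.trans h6
    exact le_of_mul_le_mul_right this hlog2
  have h12 : Y ≤ PP.card * (j + 3) := by exact_mod_cast h11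
  refine h12.trans (Nat.mul_le_mul_right _ ?_)
  have hsub : PP ⊆ PDy j ∪ PDy (j + 1) := by
    intro r hr
    rw [hPP, Finset.mem_filter, Finset.mem_Ioc] at hr
    unfold PDy
    rw [Finset.mem_union, Finset.mem_filter, Finset.mem_filter, Finset.mem_Ico, Finset.mem_Ico]
    have e1 : 2 ^ (j + 1) = 2 * Y := by rw [hYdef, pow_succ]; ring
    have e2 : 2 ^ (j + 1 + 1) = 4 * Y := by rw [hYdef, pow_succ, pow_succ]; ring
    have h4Y : r ≠ 4 * Y := by
      intro h
      have h5 : ¬ (4 * Y).Prime := by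
        rw [show 4 * Y = 2 * (2 * Y) by ring]
        exact Nat.not_prime_mul (by norm_num) (by omega)
      rw [h] at hr
      exact h5 hr.2
    rcases Nat.lt_or_ge r (2 ^ (j + 1)) with h | h
    · left; exact ⟨⟨by omega, h⟩, hr.2⟩
    · right; exact ⟨⟨h, by omega⟩, hr.2⟩
  exact (Finset.card_le_card hsub).trans (Finset.card_union_le _ _)

/-- Chebyshev's upper bound in dyadic form -/
theorem PDy_le {j : ℕ} (hj : 1 ≤ j) : ((PDy j).card : ℝ) ≤ 4 * 2 ^ j / j := by
  have hl2 := Real.log_pos (by norm_num : (1:ℝ) < 2)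
  have hj' : (0:ℝ) < j := by exact_mod_cast hj
  have h1 := Chebyshev.theta_le_log4_mul_x (x := ((2 ^ (j + 1) : ℕ) : ℝ)) (by positivity)
  rw [Chebyshev.theta_eq_sum_Icc, Nat.floor_natCast] at h1
  have h2 : ((PDy j).card : ℝ) * ((j : ℝ) * Real.log 2) ≤
      ∑ p ∈ (Finset.Icc 0 (2 ^ (j + 1))).filter Nat.Prime, Real.log p := by
    rw [← nsmul_eq_mul, ← Finset.sum_const]
    unfold PDy
    calc ∑ p ∈ (Finset.Ico (2 ^ j) (2 ^ (j + 1))).filter Nat.Prime, ((j : ℝ) * Real.log 2)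
        ≤ ∑ p ∈ (Finset.Ico (2 ^ j) (2 ^ (j + 1))).filter Nat.Prime, Real.log p := by
          apply Finset.sum_le_sum
          intro p hp
          rw [Finset.mem_filter, Finset.mem_Ico] at hp
          rw [← Real.log_pow]
          apply Real.log_le_log (by positivity)
          exact_mod_cast hp.1.1
      _ ≤ _ := by
          apply Finset.sum_le_sum_of_subset_of_nonneg
          · intro p hp
            rw [Finset.mem_filter, Finset.mem_Ico] at hp
            rw [Finset.mem_filter, Finset.mem_Icc]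
            exact ⟨⟨by omega, hp.1.2.le⟩, hp.2⟩
          · intro p _ _
            exact Real.log_natCast_nonneg p
  have h3 := h2.trans h1
  have hlog4 : Real.log 4 = 2 * Real.log 2 := by
    have : (4 : ℝ) = 2 ^ 2 := by norm_num
    rw [this, Real.log_pow]
    norm_num
  rw [hlog4] at h3
  push_cast at h3
  rw [le_div_iff₀ hj']
  have h4 : ((PDy j).card : ℝ) * j * Real.log 2 ≤ (4 * 2 ^ j) * Real.log 2 := by
    calc ((PDy j).card : ℝ) * j * Real.log 2 = ((PDy j).card : ℝ) * ((j : ℝ) * Real.log 2) := by ring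
      _ ≤ 2 * Real.log 2 * 2 ^ (j + 1) := h3
      _ = (4 * 2 ^ j) * Real.log 2 := by rw [pow_succ]; ring
  exact le_of_mul_le_mul_right h4 hl2

end Pool.Agent.helper306_thin
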