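import Pool.Agent.helper306_cramer.Link

/-!
# Exponential moments of linear statistics
-/

namespace Pool.Agent.helper306_thin

open Finset Pool.Agent.helper306_cramer

/-- the linear statistic -/
def lin (c : ℕ → ℝ) (A : Finset ℕ) : ℝ := ∑ r ∈ A, c r

/-- its mean -/
def mlin (p c : ℕ → ℝ) (J : Finset ℕ) : ℝ := ∑ r ∈ J, p r * c r

lemma Ex_exp_prod (p : ℕ → ℝ) (J : Finset ℕ) (c : ℕ → ℝ) :
    Ex p J (fun A => Real.exp (lin c A - mlin p c J))
      = ∏ r ∈ J, ((1 - p r) * Real.exp (-(p r * c r)) + p r * Real.exp (c r - p r * c r)) := by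
  induction J using Finset.induction_on with
  | empty => rw [Ex_empty]; simp [lin, mlin]
  | insert a J ha ih =>
    rw [Ex_insert p ha, Finset.prod_insert ha, ← ih]
    have hml : mlin p c (insert a J) = p a * c a + mlin p c J := by
      unfold mlin; rw [Finset.sum_insert ha]
    have e1 : Ex p J (fun A => Real.exp (lin c A - mlin p c (insert a J)))
        = Real.exp (-(p a * c a)) * Ex p J (fun A => Real.exp (lin c A - mlin p c J)) := by
      rw [← Ex_mul_left]
      refine Ex_congr (fun A _ => ?_)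
      rw [← Real.exp_add, hml]; congr 1; ring
    have e2 : Ex p J (fun A => Real.exp (lin c (insert a A) - mlin p c (insert a J)))
        = Real.exp (c a - p a * c a) * Ex p J (fun A => Real.exp (lin c A - mlin p c J)) := by
      rw [← Ex_mul_left]
      refine Ex_congr (fun A hA => ?_)
      rw [← Real.exp_add, hml]
      unfold lin
      rw [Finset.sum_insert (fun h => ha (hA h))]
      congr 1; ring
    rw [e1, e2]; ring

lemma exp_le_quad {t : ℝ} (ht : |t| ≤ 1) : Real.exp t ≤ 1 + t + t ^ 2 := by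
  have := Real.abs_exp_sub_one_sub_id_le ht
  have := (abs_le.mp this).2
  linarith

lemma one_factor {p c : ℝ} (h0 : 0 ≤ p) (h1 : p ≤ 1) (hc : |c| ≤ 1) :
    (1 - p) * Real.exp (-(p * c)) + p * Real.exp (c - p * c) ≤ Real.exp (c ^ 2 * (p * (1 - p))) := by
  have hc' := abs_le.mp hc
  have a1 : |-(p * c)| ≤ 1 := by
    rw [abs_neg, abs_mul, abs_of_nonneg h0]
    nlinarith [abs_nonneg c]
  have a2 : |c - p * c| ≤ 1 := by
    have e : c - p * c = (1 - p) * c := by ring
    rw [e, abs_mul, abs_of_nonneg (by linarith)]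
    nlinarith [abs_nonneg c]
  have b1 := mul_le_mul_of_nonneg_left (exp_le_quad a1) (by linarith : 0 ≤ 1 - p)
  have b2 := mul_le_mul_of_nonneg_left (exp_le_quad a2) h0
  have b3 := Real.add_one_le_exp (c ^ 2 * (p * (1 - p)))
  nlinarith

lemma Ex_exp_le {p : ℕ → ℝ} (hp0 : ∀ m, 0 ≤ p m) (hp1 : ∀ m, p m ≤ 1) (J : Finset ℕ) (c : ℕ → ℝ)
    (hc : ∀ r ∈ J, p r = 0 ∨ |c r| ≤ 1) :
    Ex p J (fun A => Real.exp (lin c A - mlin p c J))
      ≤ Real.exp (∑ r ∈ J, c r ^ 2 * (p r * (1 - p r))) := by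
  rw [Ex_exp_prod, Real.exp_sum]
  refine Finset.prod_le_prod (fun r _ => ?_) (fun r hr => ?_)
  · have := hp0 r
    have := hp1 r
    have a := Real.exp_pos (-(p r * c r))
    have b := Real.exp_pos (c r - p r * c r)
    have : 0 ≤ 1 - p r := by linarith
    positivity
  · rcases hc r hr with h | h
    · rw [h]; simp
    · exact one_factor (hp0 r) (hp1 r) h

lemma lin_smul (l : ℝ) (c : ℕ → ℝ) (A : Finset ℕ) : lin (fun r => l * c r) A = l * lin c A := by
  unfold lin; rw [Finset.mul_sum]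

lemma mlin_smul (p : ℕ → ℝ) (l : ℝ) (c : ℕ → ℝ) (J : Finset ℕ) :
    mlin p (fun r => l * c r) J = l * mlin p c J := by
  unfold mlin; rw [Finset.mul_sum]; exact Finset.sum_congr rfl (fun r _ => by ring)

/-- one-sided tail -/
lemma tail_one {p : ℕ → ℝ} (hp0 : ∀ m, 0 ≤ p m) (hp1 : ∀ m, p m ≤ 1) {J : Finset ℕ} {c : ℕ → ℝ}
    (hc : ∀ r ∈ J, p r = 0 ∨ |c r| ≤ 1) {M κ : ℝ} (hM : 0 < M)
    (hv : ∑ r ∈ J, c r ^ 2 * (p r * (1 - p r)) ≤ M / 4) (hκ0 : 0 ≤ κ) (hκ : 2 * κ ≤ M)
    (P : Finset ℕ → Prop) [DecidablePred P] (hP : ∀ A ⊆ J, P A → κ ≤ lin c A - mlin p c J) :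
    Ex p J (fun A => if P A then 1 else 0) ≤ Real.exp (-(κ ^ 2 / M)) := by
  set l := 2 * κ / M with hl
  have hl0 : 0 ≤ l := by positivity
  have hl1 : l ≤ 1 := by rw [hl, div_le_one hM]; exact hκ
  have h1 := Ex_exp_le hp0 hp1 J (fun r => l * c r) (fun r hr => by
    rcases hc r hr with h | h
    · exact Or.inl h
    · right
      rw [abs_mul, abs_of_nonneg hl0]
      nlinarith [abs_nonneg (c r)])
  have h2 : ∑ r ∈ J, (l * c r) ^ 2 * (p r * (1 - p r)) ≤ l ^ 2 * (M / 4) := by
    have : ∑ r ∈ J, (l * c r) ^ 2 * (p r * (1 - p r))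
        = l ^ 2 * ∑ r ∈ J, c r ^ 2 * (p r * (1 - p r)) := by
      rw [Finset.mul_sum]; exact Finset.sum_congr rfl (fun r _ => by ring)
    rw [this]
    exact mul_le_mul_of_nonneg_left hv (sq_nonneg _)
  have h3 := Ex_indicator_le hp0 hp1 (J := J)
    (Φ := fun A => Real.exp (lin (fun r => l * c r) A - mlin p (fun r => l * c r) J))
    (fun A _ => (Real.exp_pos _).le) (t := Real.exp (l * κ)) (Real.exp_pos _) P
    (fun A hA hPA => by
      rw [lin_smul, mlin_smul]
      refine Real.exp_le_exp.mpr ?_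
      have := mul_le_mul_of_nonneg_left (hP A hA hPA) hl0
      linarith)
  refine h3.trans ?_
  rw [div_le_iff₀ (Real.exp_pos _), ← Real.exp_add]
  refine h1.trans (Real.exp_le_exp.mpr (h2.trans (le_of_eq ?_)))
  rw [hl]; field_simp; ring

/-- two-sided tail -/
lemma tail_two {p : ℕ → ℝ} (hp0 : ∀ m, 0 ≤ p m) (hp1 : ∀ m, p m ≤ 1) {J : Finset ℕ} {c : ℕ → ℝ}
    (hc : ∀ r ∈ J, p r = 0 ∨ |c r| ≤ 1) {M κ : ℝ} (hM : 0 < M)
    (hv : ∑ r ∈ J, c r ^ 2 * (p r * (1 - p r)) ≤ M / 4) (hκ0 : 0 ≤ κ) (hκ : 2 * κ ≤ M)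
    (P : Finset ℕ → Prop) [DecidablePred P] (hP : ∀ A ⊆ J, P A → κ ≤ |lin c A - mlin p c J|) :
    Ex p J (fun A => if P A then 1 else 0) ≤ 2 * Real.exp (-(κ ^ 2 / M)) := by
  classical
  have h1 := tail_one hp0 hp1 hc hM hv hκ0 hκ (fun A => κ ≤ lin c A - mlin p c J) (fun A _ h => h)
  have hc' : ∀ r ∈ J, p r = 0 ∨ |(fun r => (-1 : ℝ) * c r) r| ≤ 1 := fun r hr => by
    rcases hc r hr with h | h
    · exact Or.inl h
    · right; simpa using h
  have h2 := tail_one hp0 hp1 (c := fun r => (-1 : ℝ) * c r) hc' hM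
    (by
      refine le_trans (le_of_eq ?_) hv
      exact Finset.sum_congr rfl (fun r _ => by ring)) hκ0 hκ
    (fun A => κ ≤ lin (fun r => (-1 : ℝ) * c r) A - mlin p (fun r => (-1 : ℝ) * c r) J)
    (fun A _ h => h)
  have h3 : Ex p J (fun A => if P A then 1 else 0)
      ≤ Ex p J (fun A => (if κ ≤ lin c A - mlin p c J then 1 else 0)
        + (if κ ≤ lin (fun r => (-1 : ℝ) * c r) A - mlin p (fun r => (-1 : ℝ) * c r) J
            then (1 : ℝ) else 0)) := by
    refine Ex_mono hp0 hp1 (fun A hA => ?_)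
    by_cases hPA : P A
    · rw [if_pos hPA]
      have h4 := hP A hA hPA
      rw [lin_smul, mlin_smul]
      rcases le_abs.mp h4 with h5 | h5
      · rw [if_pos h5]
        split_ifs <;> norm_num
      · rw [if_pos (show κ ≤ -1 * lin c A - -1 * mlin p c J by linarith)]
        split_ifs <;> norm_num
    · rw [if_neg hPA]
      split_ifs <;> norm_num
  rw [Ex_add] at h3
  linarith

/-- Markov for the second moment: Chebyshev's inequality -/
lemma Ex_lin_sq (p : ℕ → ℝ) (J : Finset ℕ) (c : ℕ → ℝ) :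
    Ex p J (fun A => (lin c A - mlin p c J) ^ 2) = ∑ r ∈ J, c r ^ 2 * (p r * (1 - p r)) := by
  have hmean : ∀ J : Finset ℕ, Ex p J (fun A => lin c A - mlin p c J) = 0 := by
    intro J
    induction J using Finset.induction_on with
    | empty => rw [Ex_empty]; simp [lin, mlin]
    | insert a J ha ih =>
      rw [Ex_insert p ha]
      have hml : mlin p c (insert a J) = p a * c a + mlin p c J := by
        unfold mlin; rw [Finset.sum_insert ha]
      have e1 : Ex p J (fun A => lin c A - mlin p c (insert a J))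
          = Ex p J (fun A => lin c A - mlin p c J) - p a * c a := by
        have h := Ex_sub p J (fun A => lin c A - mlin p c J) (fun _ => p a * c a)
        rw [Ex_const] at h
        rw [← h]
        exact Ex_congr (fun A _ => by rw [hml]; ring)
      have e2 : Ex p J (fun A => lin c (insert a A) - mlin p c (insert a J))
          = Ex p J (fun A => lin c A - mlin p c J) + (c a - p a * c a) := by
        have h := Ex_add p J (fun A => lin c A - mlin p c J) (fun _ => c a - p a * c a)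
        rw [Ex_const] at h
        rw [← h]
        refine Ex_congr (fun A hA => ?_)
        rw [hml]
        unfold lin
        rw [Finset.sum_insert (fun h => ha (hA h))]; ring
      rw [e1, e2, ih]; ring
  induction J using Finset.induction_on with
  | empty => rw [Ex_empty]; simp [lin, mlin]
  | insert a J ha ih =>
    rw [Ex_insert p ha, Finset.sum_insert ha, ← ih]
    have hml : mlin p c (insert a J) = p a * c a + mlin p c J := by
      unfold mlin; rw [Finset.sum_insert ha]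
    have key : ∀ δ : ℝ, Ex p J (fun A => (lin c A - mlin p c J + δ) ^ 2)
        = Ex p J (fun A => (lin c A - mlin p c J) ^ 2) + δ ^ 2 := by
      intro δ
      have h1 : Ex p J (fun A => (lin c A - mlin p c J + δ) ^ 2)
          = Ex p J (fun A => ((lin c A - mlin p c J) ^ 2 + (2 * δ) * (lin c A - mlin p c J)) + δ ^ 2) :=
        Ex_congr (fun A _ => by ring)
      rw [h1, Ex_add, Ex_add, Ex_mul_left, hmean, Ex_const]; ring
    have e1 : Ex p J (fun A => (lin c A - mlin p c (insert a J)) ^ 2)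
        = Ex p J (fun A => (lin c A - mlin p c J) ^ 2) + (p a * c a) ^ 2 := by
      rw [← neg_sq (p a * c a), ← key]
      exact Ex_congr (fun A _ => by rw [hml]; ring)
    have e2 : Ex p J (fun A => (lin c (insert a A) - mlin p c (insert a J)) ^ 2)
        = Ex p J (fun A => (lin c A - mlin p c J) ^ 2) + (c a - p a * c a) ^ 2 := by
      rw [← key]
      refine Ex_congr (fun A hA => ?_)
      rw [hml]
      unfold lin
      rw [Finset.sum_insert (fun h => ha (hA h))]; ring
    rw [e1, e2]; ring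

lemma cheb_lin {p : ℕ → ℝ} (hp0 : ∀ m, 0 ≤ p m) (hp1 : ∀ m, p m ≤ 1) {J : Finset ℕ} {c : ℕ → ℝ}
    {κ : ℝ} (hκ : 0 < κ) (P : Finset ℕ → Prop) [DecidablePred P]
    (hP : ∀ A ⊆ J, P A → κ ≤ |lin c A - mlin p c J|) :
    Ex p J (fun A => if P A then 1 else 0) ≤ (∑ r ∈ J, c r ^ 2 * (p r * (1 - p r))) / κ ^ 2 := by
  rw [← Ex_lin_sq]
  refine Ex_indicator_le hp0 hp1 (fun A _ => sq_nonneg _) (by positivity) P (fun A hA hPA => ?_)
  rw [← sq_abs (lin c A - mlin p c J)]
  exact pow_le_pow_left₀ hκ.le (hP A hA hPA) 2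

end Pool.Agent.helper306_thin
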