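import Pool.Agent.helper306_thin.Core
import Pool.Agent.helper306_cramer.Main

/-!
# The thinned primes: the main theorem
-/

namespace Pool.Agent.helper306_thin

open Finset Filter Topology MeasureTheory ProbabilityTheory Pool.Agent.helper306_cramer

lemma reps_eq_cnt (R : Set ℕ) {n i : ℕ} (hn : 1 ≤ n) (hni : n ≤ 2 ^ i) :
    reps R n = cnt (Rf (WL i) R) n := by
  rw [reps_eq R hn]
  have e : RA R n = Rf (WL i) R ∩ Finset.Icc 1 n := by
    ext m
    rw [Finset.mem_inter, mem_RA, mem_Rf, Finset.mem_Icc]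
    unfold WL
    rw [Finset.mem_Icc]
    have h2 : 2 ^ (i + 1) = 2 * 2 ^ i := by rw [pow_succ]; ring
    constructor
    · rintro ⟨⟨h1, h3⟩, h4⟩; exact ⟨⟨⟨h1, by omega⟩, h4⟩, h1, h3⟩
    · rintro ⟨⟨_, h4⟩, h5, h6⟩; exact ⟨⟨h5, h6⟩, h4⟩
  rw [e]
  exact cnt_trunc (fun m hm => by
    have h := (mem_Rf.mp hm).1
    unfold WL at h
    exact (Finset.mem_Icc.mp h).1) le_rfl

/-- **The main theorem on thinned primes.** -/
theorem thinned_main (Kt : ℝ) (hKt : 1 ≤ Kt) : ∃ (q : ℕ) (α β : ℝ), 100 ≤ q ∧ 0 < α ∧ 0 < β ∧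
    ∀ (Ω : Type*) (_ : MeasurableSpace Ω) (μ : Measure Ω) (_ : IsProbabilityMeasure μ)
      (p t : ℕ → ℝ) (j0 : ℕ), PD p → TD p t Kt j0 →
      (∀ᶠ i : ℕ in atTop, ∀ j, j ≤ i → (1 / 2 : ℝ) ^ (i / (16 * q)) ≤ t j) →
      ∀ E : ℕ → Set Ω, (∀ m, MeasurableSet (E m)) → iIndepSet E μ →
      (∀ m, μ (E m) = ENNReal.ofReal (p m)) → (∀ m, ¬ m.Prime → E m = ∅) →
      ∀ᵐ ω ∂μ, ∀ k : ℕ, ∀ᶠ x : ℕ in atTop,
        α * β ^ k / k.factorial * x
          ≤ (((Finset.Icc 1 x).filter (fun n => reps (Rs E ω) n = k)).card : ℝ) := by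
  classical
  obtain ⟨c', cG, hc', hcG, hmany⟩ := many_good Kt hKt
  obtain ⟨q0, hq0⟩ := exists_nat_ge (800 / cG)
  set q := max q0 100 with hq
  have hq100 : 100 ≤ q := le_max_right _ _
  have hqr : 800 / cG ≤ (q : ℝ) := hq0.trans (by exact_mod_cast le_max_left _ _)
  set C'' : ℝ := 64 / cG with hC''
  have hC0 : 0 < C'' := by positivity
  refine ⟨q, cG * Real.exp (-C'') / 8, c', hq100, by positivity, hc', ?_⟩
  intro Ω _ μ _ p t j0 hp hT ht E hEm hEi hEp hEP
  obtain ⟨i0, hi0⟩ := hmany q hq100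
  have hq0' : (0 : ℝ) < q := by
    have : 0 < q := by omega
    exact_mod_cast this
  have hall : ∀ᵐ ω ∂μ, ∀ z : ℚ, 0 ≤ z → z ≤ 1 → ∀ M : ℕ, ∀ᶠ i : ℕ in atTop,
      |YS p q i (z : ℝ) (Rf (WL i) (Rs E ω))| ≤ 2 ^ i / ((M : ℝ) + 1) := by
    rw [ae_all_iff]
    intro z
    by_cases hz : 0 ≤ z ∧ z ≤ 1
    · have h2 : ∀ᵐ ω ∂μ, ∀ M : ℕ, ∀ᶠ i : ℕ in atTop,
          |YS p q i (z : ℝ) (Rf (WL i) (Rs E ω))| ≤ 2 ^ i / ((M : ℝ) + 1) := by
        rw [ae_all_iff]
        intro M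
        exact ae_conc' hp.nonneg hp.le_one hEm hEi hEp (by omega : 20 ≤ q)
          (by exact_mod_cast hz.1) (by exact_mod_cast hz.2) M
      filter_upwards [h2] with ω hω _ _
      exact hω
    · exact Eventually.of_forall (fun ω h0 h1' => absurd ⟨h0, h1'⟩ hz)
  filter_upwards [hall] with ω hω k
  set R := Rs E ω with hR
  have hRP : ∀ m ∈ R, m.Prime := by
    intro m hm
    by_contra hcon
    have h1 : ω ∈ E m := hm
    rw [hEP m hcon] at h1
    exact h1
  set mk : ℝ := Real.exp (-C'') * c' ^ k / k.factorial with hmk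
  have hmk0 : 0 < mk := by positivity
  set η : ℝ := cG * mk / 32 with hη
  have hη0 : 0 < η := by positivity
  obtain ⟨c, hcS, hc⟩ := approx1 k η hη0
  set S : ℝ := ∑ z ∈ c.support, |c z| with hS
  have hS0 : 0 ≤ S := Finset.sum_nonneg (fun _ _ => abs_nonneg _)
  obtain ⟨M, hM⟩ := exists_nat_ge (S / η)
  have hMS : S * (1 / ((M : ℝ) + 1)) ≤ η := by
    rw [mul_one_div, div_le_iff₀ (by positivity)]
    rw [div_le_iff₀ hη0] at hM
    nlinarith
  have hsupp : ∀ z ∈ c.support, 0 ≤ z ∧ z ≤ 1 := by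
    intro z hz
    unfold SupQ at hcS
    rw [Finsupp.mem_supported] at hcS
    exact hcS hz
  have hev1 : ∀ᶠ i : ℕ in atTop, ∀ z ∈ c.support,
      |YS p q i (z : ℝ) (Rf (WL i) R)| ≤ 2 ^ i / ((M : ℝ) + 1) := by
    rw [Filter.eventually_all_finset]
    intro z hz
    exact hω z (hsupp z hz).1 (hsupp z hz).2 M
  have hev2 := ev_pow 11673600 4 (q := 16 * q) (by omega)
  have hhalf : Tendsto (fun i : ℕ => (1 / 2 : ℝ) ^ (i / (16 * q))) atTop (𝓝 0) :=
    (tendsto_pow_atTop_nhds_zero_of_lt_one (by norm_num) (by norm_num)).comp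
      (tendsto_div_atTop (by omega))
  have hev3 : ∀ᶠ i : ℕ in atTop, (1 / 2 : ℝ) ^ (i / (16 * q)) < η / (S + 1) :=
    hhalf.eventually (gt_mem_nhds (by positivity))
  have hev4 : ∀ᶠ i : ℕ in atTop, (1 / 2 : ℝ) ^ (i / (16 * q)) < cG / 80 :=
    hhalf.eventually (gt_mem_nhds (by positivity))
  have hev5 : ∀ᶠ i : ℕ in atTop, 512 / cG ≤ (i : ℝ) :=
    tendsto_natCast_atTop_atTop.eventually_ge_atTop _
  have hall2 := (((hev1.and hev2).and (hev3.and hev4)).and ((hev5.and ht).and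
    ((eventually_ge_atTop (max 40 (2 * j0))).and (eventually_ge_atTop i0)))).exists_forall_of_atTop
  obtain ⟨i1, hi1⟩ := hall2
  have key : ∀ i, i1 ≤ i → (cG * mk / 4) * 2 ^ i
      ≤ (((XX q i).filter (fun n => cnt (Rf (WL i) R) n = k)).card : ℝ) := by
    intro i hi
    obtain ⟨⟨⟨a1, a2⟩, a3, a4⟩, ⟨a5, a6⟩, a7', a8⟩ := hi1 i hi
    have a7 : 40 ≤ i := le_trans (le_max_left _ _) a7'
    have a9 : 2 * j0 ≤ i := le_trans (le_max_right _ _) a7'
    have hi40 : (40 : ℝ) ≤ i := by exact_mod_cast a7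
    set A := Rf (WL i) R with hA
    have hAP : ∀ a ∈ A, a.Prime := fun a ha => hRP a (mem_Rf.mp ha).2
    have h2h : (1 / 2 : ℝ) ^ (i / 100) ≤ (1 / 2 : ℝ) ^ (i / (16 * q)) := by
      refine pow_le_pow_of_le_one (by norm_num) (by norm_num) ?_
      exact Nat.div_le_div_left (by omega) (by norm_num)
    have hmany' := hi0 i a8 p t j0 hp hT a9 (fun j hj => h2h.trans (a6 j hj))
    have hmany'' : cG * 2 ^ i ≤ (((Finset.Icc 1 (2 ^ i)).filter
        (fun n => c' ≤ La p (NB q i) (Ib (i / q)) n)).card : ℝ) := hmany'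
    have hGG := card_GG (C'' := C'') hp (by omega : 20 ≤ q) a7 hAP hC0 hmany''
    -- the constant
    have hiq : ((i / q : ℕ) : ℝ) / i ≤ cG / 800 := by
      rw [div_le_iff₀ (by linarith)]
      have h1 : ((i / q : ℕ) : ℝ) ≤ i / q := Nat.cast_div_le
      have h2 : (i : ℝ) / q ≤ cG / 800 * i := by
        rw [div_le_iff₀ hq0']
        rw [div_le_iff₀ hcG] at hqr
        have h3 : 0 ≤ (i : ℝ) * (q * cG - 800) := mul_nonneg (by linarith) (by linarith)
        nlinarith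
      linarith
    have hpe : (1 : ℝ) / 2 ^ (i / q) ≤ cG / 80 := by
      refine le_trans ?_ a4.le
      rw [one_div_pow]
      refine one_div_le_one_div_of_le (by positivity) ?_
      refine pow_le_pow_right₀ (by norm_num) ?_
      exact Nat.div_le_div_left (by omega) (by omega)
    have h8C : 8 / C'' = cG / 8 := by rw [hC'']; field_simp; norm_num
    have h32 : (32 : ℝ) / i ≤ cG / 16 := by
      rw [div_le_div_iff₀ (by linarith) (by norm_num)]
      rw [div_le_iff₀ hcG] at a5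
      linarith
    have hconst : cG / 2 ≤ cG - 1 / 2 ^ (i / q) - 8 / C''
        - (4 / 2 ^ (i / q) + (3 * ((i / q : ℕ) : ℝ) + 2) * (16 / i)) - 32 * ((i / q : ℕ) : ℝ) / i := by
      have e1 : (3 * ((i / q : ℕ) : ℝ) + 2) * (16 / i) = 48 * (((i / q : ℕ) : ℝ) / i) + 32 / i := by
        ring
      have e2 : 32 * ((i / q : ℕ) : ℝ) / i = 32 * (((i / q : ℕ) : ℝ) / i) := by ring
      have e3 : (4 : ℝ) / 2 ^ (i / q) = 4 * (1 / 2 ^ (i / q)) := by ring
      rw [e1, e2, e3, h8C]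
      linarith
    have hg : cG / 2 * 2 ^ i ≤ ((GG p q i c' C'' A).card : ℝ) :=
      le_trans (mul_le_mul_of_nonneg_right hconst (by positivity)) hGG
    have hmean : ∀ z ∈ c.support, ∑ n ∈ XX q i,
        |Ex p (WL i) (fun B => (z : ℝ) ^ (FS (NB q i) (Ib (i / q)) n B))
        - Real.exp (-((1 - (z : ℝ)) * La p (NB q i) (Ib (i / q)) n))| ≤ 2 ^ i * (1 / 2) ^ (i / (16 * q)) := by
      intro z hz
      exact near_mean hp hT (by omega) a9 a6 a2 (by exact_mod_cast (hsupp z hz).1)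
        (by exact_mod_cast (hsupp z hz).2) NB_sub_WL
    have hcross := cross_total (q := q) (i := i) (A := A) (by omega) a7 (Rf_sub _ _) (by
      refine le_trans ?_ a2
      have h1 : (i : ℝ) ≤ (i : ℝ) ^ 4 := by
        calc (i : ℝ) = (i : ℝ) ^ 1 := (pow_one _).symm
          _ ≤ (i : ℝ) ^ 4 := pow_le_pow_right₀ (by linarith) (by norm_num)
      linarith)
    have hcl := count_lower hp (Rf_sub (WL i) R) hc a1 hmean hcross hc'.le hg
    refine le_trans (mul_le_mul_of_nonneg_right ?_ (by positivity)) hcl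
    rw [← hmk, ← hS]
    set ρ : ℝ := (1 / 2) ^ (i / (16 * q)) with hρ
    have hρ1 : (S + 1) * ρ ≤ η := by
      have := a3
      rw [lt_div_iff₀ (by positivity)] at this
      linarith
    have e1 : cG / 2 * mk = 16 * η := by rw [hη]; ring
    have e2 : cG * mk / 4 = 8 * η := by rw [hη]; ring
    rw [e1, e2]
    have e3 : S * (1 / ((M : ℝ) + 1) + ρ) = S * (1 / ((M : ℝ) + 1)) + S * ρ := by ring
    rw [e3]
    linarith
  have ecst : cG * Real.exp (-C'') / 8 * c' ^ k / k.factorial = cG * mk / 8 := by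
    rw [hmk]; ring
  rw [ecst]
  filter_upwards [eventually_ge_atTop (2 ^ i1)] with x hx
  have hx0 : x ≠ 0 := by
    have : 0 < 2 ^ i1 := by positivity
    omega
  set i := Nat.log 2 x with hi
  have hii : i1 ≤ i := Nat.le_log_of_pow_le (by norm_num) hx
  have hxl : 2 ^ i ≤ x := Nat.pow_log_le_self 2 hx0
  have hxu : x < 2 ^ (i + 1) := Nat.lt_pow_succ_log_self (by norm_num) x
  have h1 := key i hii
  have h2 : ((XX q i).filter (fun n => cnt (Rf (WL i) R) n = k)).card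
      ≤ ((Finset.Icc 1 x).filter (fun n => reps R n = k)).card := by
    refine Finset.card_le_card (fun n hn => ?_)
    rw [Finset.mem_filter, mem_XX] at hn
    have h0 : 0 < 2 ^ (i - i / q) := by positivity
    rw [Finset.mem_filter, Finset.mem_Icc]
    refine ⟨⟨by omega, by omega⟩, ?_⟩
    rw [reps_eq_cnt R (by omega) hn.1.2]
    exact hn.2
  have h3 : (((XX q i).filter (fun n => cnt (Rf (WL i) R) n = k)).card : ℝ)
      ≤ (((Finset.Icc 1 x).filter (fun n => reps R n = k)).card : ℝ) := by exact_mod_cast h2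
  have h4 : (x : ℝ) ≤ 2 * 2 ^ i := by
    have : x ≤ 2 * 2 ^ i := by rw [pow_succ] at hxu; omega
    exact_mod_cast this
  have h5 : 0 < cG * mk := by positivity
  calc cG * mk / 8 * x ≤ cG * mk / 8 * (2 * 2 ^ i) := mul_le_mul_of_nonneg_left h4 (by positivity)
    _ = (cG * mk / 4) * 2 ^ i := by ring
    _ ≤ _ := h1.trans h3

end Pool.Agent.helper306_thin
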