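import Pool.Agent.helper306_thin.Good4
import Pool.Agent.helper306_cramer.Deter2

/-!
# The blocks: small means, few coincidences
-/

namespace Pool.Agent.helper306_thin

open Finset Filter Topology Pool.Agent.helper306_cramer

/-- the integers considered -/
def XX (q i : ℕ) : Finset ℕ := Finset.Ioc (2 ^ (i - i / q)) (2 ^ i)

/-- the blocks -/
def NB (q i : ℕ) : Finset (ℕ × ℕ) := SS (i / q) (JL q i) (i - 4 * (i / q))

lemma mem_XX {q i n : ℕ} : n ∈ XX q i ↔ 2 ^ (i - i / q) < n ∧ n ≤ 2 ^ i := by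
  unfold XX; rw [Finset.mem_Ioc]

lemma mem_NB {q i : ℕ} {s : ℕ × ℕ} : s ∈ NB q i ↔
    (JL q i ≤ s.1 ∧ s.1 ≤ i - 4 * (i / q)) ∧ s.2 < 2 ^ (i / q) := by
  unfold NB; rw [mem_SS]

lemma le_JL (q i : ℕ) : i / q ≤ JL q i := by unfold JL; omega

lemma div_h (q i : ℕ) : 16 * (i / (16 * q)) ≤ i / q := by
  rw [mul_comm 16 q, ← Nat.div_div_eq_div_mul]
  exact Nat.mul_div_le (i / q) 16

lemma card_NB (q i : ℕ) : ((NB q i).card : ℝ) ≤ (i + 1) * 2 ^ (i / q) := by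
  unfold NB SS
  rw [Finset.card_product, Nat.card_Icc, Finset.card_range]
  push_cast
  refine mul_le_mul_of_nonneg_right ?_ (by positivity)
  have : i - 4 * (i / q) + 1 - JL q i ≤ i + 1 := by omega
  exact_mod_cast this

lemma Lb_div_le (e : ℕ) (s : ℕ × ℕ) (x : ℕ) :
    ((Lb e s * (x / yb e s) : ℕ) : ℝ) ≤ x / 2 ^ e := by
  have h5 : Lb e s * (x / yb e s) * 2 ^ e ≤ x := by
    calc Lb e s * (x / yb e s) * 2 ^ e = (Lb e s * 2 ^ e) * (x / yb e s) := by ring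
      _ ≤ yb e s * (x / yb e s) := Nat.mul_le_mul_right _ (Lb_mul_le e s)
      _ ≤ x := Nat.mul_div_le x (yb e s)
  rw [le_div_iff₀ (by positivity)]
  exact_mod_cast h5

lemma exp_sq_le {i : ℕ} (hi : 7 ≤ i) : (16 * i : ℝ) * 2 ^ (5 * i) * Real.exp (-(i : ℝ) ^ 2) ≤ 1 := by
  have h1 : (2 : ℝ) ^ (i * i) ≤ Real.exp ((i : ℝ) ^ 2) := by
    have h2 : (2 : ℝ) ^ (i * i) = Real.exp ((i * i : ℕ) * Real.log 2) := by
      rw [mul_comm ((i * i : ℕ) : ℝ), Real.exp_mul, Real.exp_log (by norm_num), Real.rpow_natCast]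
    rw [h2]
    refine Real.exp_le_exp.mpr ?_
    push_cast
    have h3 : Real.log 2 ≤ 1 := by have := Real.log_two_lt_d9; linarith
    have h4 : (0 : ℝ) ≤ (i : ℝ) * i := by positivity
    nlinarith
  have h2 : (16 * i : ℝ) * 2 ^ (5 * i) ≤ 2 ^ (i * i) := by
    have h3 : 16 * i * 2 ^ (5 * i) ≤ 2 ^ (i * i) := by
      have h4 : i < 2 ^ i := Nat.lt_two_pow_self
      calc 16 * i * 2 ^ (5 * i) ≤ 16 * 2 ^ i * 2 ^ (5 * i) :=
            Nat.mul_le_mul_right _ (Nat.mul_le_mul_left _ h4.le)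
        _ = 2 ^ (4 + i + 5 * i) := by rw [pow_add, pow_add]; ring
        _ ≤ 2 ^ (i * i) := Nat.pow_le_pow_right (by norm_num) (by nlinarith)
    exact_mod_cast h3
  rw [Real.exp_neg, ← div_eq_mul_inv, div_le_one (Real.exp_pos _)]
  linarith

variable {p t : ℕ → ℝ} {Kt : ℝ} {j0 : ℕ}

/-- the primes of a block satisfy the lower bound for the variances -/
lemma block_t (hT : TD p t Kt j0) {q i : ℕ} (hj0 : 2 * j0 ≤ i) {s : ℕ × ℕ} (hs : s ∈ NB q i) :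
    ∀ r, r.Prime → yb (i / q) s ≤ r → r < yb (i / q) s + Lb (i / q) s → t s.1 ≤ p r * (1 - p r) := by
  intro r hr h1 h2
  rw [mem_NB] at hs
  have h3 := le_JL q i
  have h4 := yb_ge (e := i / q) (s := s) (by omega)
  have h5 := yb_add_le (e := i / q) (s := s) (by omega) hs.2
  have h6 : j0 ≤ s.1 := by
    have : i ≤ 2 * JL q i := by unfold JL; omega
    omega
  exact hT.lower s.1 h6 r hr (by omega) (by omega)

/-- mean number of windows of one block -/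
lemma near_one (hp : PD p) (hT : TD p t Kt j0) {q i : ℕ} (hi : 7 ≤ i) (hj0 : 2 * j0 ≤ i)
    (ht : ∀ j, j ≤ i → (1 / 2 : ℝ) ^ (i / (16 * q)) ≤ t j)
    (hev : (11673600 : ℝ) * (i : ℝ) ^ 3 ≤ 2 ^ (i / (16 * q))) {s : ℕ × ℕ} (hs : s ∈ NB q i) {n : ℕ}
    (hn : n ∈ XX q i) :
    Ex p (Ib (i / q) s) (fun A => (cnt A n : ℝ)) ≤ (1 / 2 : ℝ) ^ (3 * (i / (16 * q))) := by
  have hi0 : (7 : ℝ) ≤ i := by exact_mod_cast hi
  have hs' := hs
  rw [mem_NB] at hs'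
  rw [mem_XX] at hn
  have h3 := le_JL q i
  have hdh := div_h q i
  set e := i / q with he
  set h := i / (16 * q) with hh
  have h4 := yb_ge (e := e) (s := s) (by omega)
  have h5 := yb_add_le (e := e) (s := s) (by omega) hs'.2
  have hLy := Lb_mul_le e s
  set y := yb e s with hy
  set L := Lb e s with hL
  have hy1 : 1 ≤ y := by rw [hy]; exact yb_pos e s
  have hy0 : (0 : ℝ) < y := by exact_mod_cast hy1
  have htpos := hT.pos s.1
  have hts := ht s.1 (by omega)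
  have hyL : ((y + L : ℕ) : ℝ) ≤ 2 ^ (i - 4 * e + 1) := by
    have : y + L ≤ 2 ^ (i - 4 * e + 1) := h5.trans (Nat.pow_le_pow_right (by norm_num) (by omega))
    exact_mod_cast this
  push_cast at hyL
  have hn1 : (2 : ℝ) ^ (i - e) ≤ n := by exact_mod_cast hn.1.le
  have hn0 : (0 : ℝ) < n := lt_of_lt_of_le (by positivity) hn1
  have hn2 : (n : ℝ) ≤ 2 ^ i := by exact_mod_cast hn.2
  have hpow : (2 : ℝ) ^ (i - 4 * e + 1) * 2 ^ (2 * e) ≤ 2 ^ (i - e) := by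
    rw [← pow_add]
    refine pow_le_pow_right₀ (by norm_num) ?_
    have : 1 ≤ e := by
      by_contra hcon
      have h0 : h = 0 := by omega
      rw [h0, pow_zero] at hev
      have : (1 : ℝ) ≤ (i : ℝ) ^ 3 := one_le_pow₀ (by linarith)
      linarith
    omega
  have hi2 : (16 : ℝ) * (i : ℝ) ^ 2 ≤ 2 ^ h := by
    have : (1 : ℝ) ≤ i := by linarith
    nlinarith [sq_nonneg (i : ℝ)]
  have h2h : (2 : ℝ) ^ h ≤ 2 ^ (2 * e) := pow_le_pow_right₀ (by norm_num) (by omega)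
  have hmain := block_mean_le hp htpos (hT.le_one s.1) (y := y) (L := L) (B0 := i + 1) (n := n)
    (ℓ := (i : ℝ)) hy1 (block_t hT hj0 hs) (by linarith) (by
      calc 16 * (i : ℝ) ^ 2 * ((y : ℝ) + L) ≤ 2 ^ (2 * e) * 2 ^ (i - 4 * e + 1) :=
            mul_le_mul (hi2.trans h2h) hyL (by positivity) (by positivity)
        _ = 2 ^ (i - 4 * e + 1) * 2 ^ (2 * e) := by ring
        _ ≤ 2 ^ (i - e) := hpow
        _ ≤ n := hn1) (by
      rw [hL]; unfold Lb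
      exact Nat.pow_le_pow_right (by norm_num) (by omega))
  unfold Ib
  refine hmain.trans ?_
  -- the two ratios
  have r1 : (L : ℝ) / y ≤ 1 / 2 ^ e := by
    rw [div_le_div_iff₀ hy0 (by positivity), one_mul]
    exact_mod_cast hLy
  have r2 : ((y : ℝ) + L) / n ≤ 1 / 2 ^ e := by
    rw [div_le_div_iff₀ hn0 (by positivity), one_mul]
    calc ((y : ℝ) + L) * 2 ^ e ≤ 2 ^ (i - 4 * e + 1) * 2 ^ (2 * e) :=
          mul_le_mul hyL (pow_le_pow_right₀ (by norm_num) (by omega)) (by positivity) (by positivity)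
      _ ≤ 2 ^ (i - e) := hpow
      _ ≤ n := hn1
  have ht2 : 1 / t s.1 ^ 2 ≤ 2 ^ (2 * h) := by
    rw [div_le_iff₀ (by positivity)]
    have h6 : ((1 / 2 : ℝ) ^ h) ^ 2 ≤ t s.1 ^ 2 := pow_le_pow_left₀ (by positivity) hts 2
    have h7 : (2 : ℝ) ^ (2 * h) * ((1 / 2 : ℝ) ^ h) ^ 2 = 1 := by
      rw [mul_comm 2 h, pow_mul, ← mul_pow, ← mul_pow]; norm_num
    have h8 : (0 : ℝ) < 2 ^ (2 * h) := by positivity
    nlinarith
  have m1 : (((i + 1 : ℕ) : ℝ) * 972800 * (i : ℝ) ^ 2 / t s.1 ^ 2) * ((L : ℝ) / y + ((y : ℝ) + L) / n)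
      ≤ (1 / 2 : ℝ) * (1 / 2) ^ (3 * h) := by
    have h6 : ((i + 1 : ℕ) : ℝ) ≤ 2 * i := by push_cast; linarith
    have h7 : (((i + 1 : ℕ) : ℝ) * 972800 * (i : ℝ) ^ 2 / t s.1 ^ 2)
        ≤ (1945600 * (i : ℝ) ^ 3) * 2 ^ (2 * h) := by
      rw [div_eq_mul_one_div]
      refine mul_le_mul ?_ ht2 (by positivity) (by positivity)
      calc ((i + 1 : ℕ) : ℝ) * 972800 * (i : ℝ) ^ 2 ≤ (2 * i) * 972800 * (i : ℝ) ^ 2 := by
            refine mul_le_mul_of_nonneg_right ?_ (by positivity)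
            exact mul_le_mul_of_nonneg_right h6 (by norm_num)
        _ = 1945600 * (i : ℝ) ^ 3 := by ring
    have h8 : (L : ℝ) / y + ((y : ℝ) + L) / n ≤ 2 * (1 / 2 ^ e) := by linarith
    have h9 : (1 : ℝ) / 2 ^ e ≤ (1 / 2) ^ (16 * h) := by
      rw [one_div, ← inv_pow, ← one_div]
      exact pow_le_pow_of_le_one (by norm_num) (by norm_num) hdh
    have h10 : 0 ≤ (L : ℝ) / y + ((y : ℝ) + L) / n := by positivity
    calc (((i + 1 : ℕ) : ℝ) * 972800 * (i : ℝ) ^ 2 / t s.1 ^ 2) * ((L : ℝ) / y + ((y : ℝ) + L) / n)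
        ≤ ((1945600 * (i : ℝ) ^ 3) * 2 ^ (2 * h)) * (2 * (1 / 2) ^ (16 * h)) :=
          mul_le_mul h7 (by linarith) h10 (by positivity)
      _ = (1 / 3) * (11673600 * (i : ℝ) ^ 3) * 2 ^ (2 * h) * (1 / 2) ^ (16 * h) := by ring
      _ ≤ (1 / 3) * 2 ^ h * 2 ^ (2 * h) * (1 / 2) ^ (16 * h) := by
          refine mul_le_mul_of_nonneg_right ?_ (by positivity)
          refine mul_le_mul_of_nonneg_right ?_ (by positivity)
          linarith
      _ = (1 / 3) * (1 / 2) ^ (13 * h) := by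
          have e1 : (2 : ℝ) ^ h * 2 ^ (2 * h) * (1 / 2) ^ (16 * h) = (1 / 2) ^ (13 * h) := by
            have e2 : (2 : ℝ) ^ h * 2 ^ (2 * h) = 2 ^ (3 * h) := by rw [← pow_add]; congr 1; ring
            have e3 : (1 / 2 : ℝ) ^ (16 * h) = (1 / 2) ^ (3 * h) * (1 / 2) ^ (13 * h) := by
              rw [← pow_add]; congr 1; ring
            rw [e2, e3, ← mul_assoc, ← mul_pow]; norm_num
          rw [mul_assoc, mul_assoc, ← mul_assoc ((2 : ℝ) ^ h), e1]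
      _ ≤ (1 / 2) * (1 / 2) ^ (3 * h) := by
          have e1 : (1 / 2 : ℝ) ^ (13 * h) ≤ (1 / 2) ^ (3 * h) :=
            pow_le_pow_of_le_one (by norm_num) (by norm_num) (by omega)
          have : (0 : ℝ) < (1 / 2) ^ (3 * h) := by positivity
          linarith
  have m2 : (n : ℝ) * ((L : ℝ) ^ 2 * (4 * Real.exp (-(i : ℝ) ^ 2))) ≤ (1 / 2 : ℝ) * (1 / 2) ^ (3 * h) := by
    have h6 : (L : ℝ) ≤ 2 ^ i := by
      have : L ≤ 2 ^ i := by
        rw [hL]; unfold Lb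
        exact Nat.pow_le_pow_right (by norm_num) (by omega)
      exact_mod_cast this
    have h7 : (n : ℝ) * (L : ℝ) ^ 2 ≤ 2 ^ (3 * i) := by
      calc (n : ℝ) * (L : ℝ) ^ 2 ≤ 2 ^ i * (2 ^ i) ^ 2 :=
            mul_le_mul hn2 (pow_le_pow_left₀ (Nat.cast_nonneg _) h6 2) (by positivity) (by positivity)
        _ = 2 ^ (3 * i) := by rw [← pow_mul, ← pow_add]; congr 1; ring
    have h8 := exp_sq_le hi
    have hexp := Real.exp_pos (-(i : ℝ) ^ 2)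
    have h9 : (1 / 2 : ℝ) ^ (2 * i) ≤ (1 / 2) ^ (3 * h) := by
      refine pow_le_pow_of_le_one (by norm_num) (by norm_num) ?_
      have : h ≤ e := by omega
      have : e ≤ i := Nat.div_le_self _ _
      omega
    have h10 : (8 : ℝ) * 2 ^ (5 * i) * Real.exp (-(i : ℝ) ^ 2) ≤ 1 := by
      refine le_trans ?_ h8
      refine mul_le_mul_of_nonneg_right ?_ hexp.le
      refine mul_le_mul_of_nonneg_right ?_ (by positivity)
      linarith
    have h11 : (2 : ℝ) ^ (5 * i) = 2 ^ (3 * i) * 2 ^ (2 * i) := by rw [← pow_add]; congr 1; ring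
    have h12 : (2 : ℝ) ^ (2 * i) * (1 / 2) ^ (2 * i) = 1 := by rw [← mul_pow]; norm_num
    have h13 : (8 : ℝ) * 2 ^ (3 * i) * Real.exp (-(i : ℝ) ^ 2) ≤ (1 / 2) ^ (2 * i) := by
      rw [h11] at h10
      have h14 := mul_le_mul_of_nonneg_right h10 (by positivity : (0 : ℝ) ≤ (1 / 2) ^ (2 * i))
      rw [one_mul] at h14
      refine le_trans (le_of_eq ?_) h14
      calc (8 : ℝ) * 2 ^ (3 * i) * Real.exp (-(i : ℝ) ^ 2)
          = 8 * 2 ^ (3 * i) * Real.exp (-(i : ℝ) ^ 2) * 1 := by ring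
        _ = 8 * 2 ^ (3 * i) * Real.exp (-(i : ℝ) ^ 2) * (2 ^ (2 * i) * (1 / 2) ^ (2 * i)) := by rw [h12]
        _ = _ := by ring
    calc (n : ℝ) * ((L : ℝ) ^ 2 * (4 * Real.exp (-(i : ℝ) ^ 2)))
        = (n : ℝ) * (L : ℝ) ^ 2 * (4 * Real.exp (-(i : ℝ) ^ 2)) := by ring
      _ ≤ 2 ^ (3 * i) * (4 * Real.exp (-(i : ℝ) ^ 2)) := mul_le_mul_of_nonneg_right h7 (by positivity)
      _ = (1 / 2) * (8 * 2 ^ (3 * i) * Real.exp (-(i : ℝ) ^ 2)) := by ring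
      _ ≤ (1 / 2 : ℝ) * (1 / 2) ^ (3 * h) :=
          mul_le_mul_of_nonneg_left (h13.trans h9) (by norm_num)
  linarith

/-- intersecting windows with equal sums -/
lemma near_inn (hp : PD p) (hT : TD p t Kt j0) {q i : ℕ} (hi : 7 ≤ i) (hj0 : 2 * j0 ≤ i)
    (ht : ∀ j, j ≤ i → (1 / 2 : ℝ) ^ (i / (16 * q)) ≤ t j)
    (hev : (2918400 : ℝ) * (i : ℝ) ^ 4 ≤ 2 ^ (i / (16 * q))) :
    ∑ s ∈ NB q i, Ex p (Ib (i / q) s) (fun A => (inn A (2 ^ i) : ℝ))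
      ≤ 2 ^ i * (1 / 2 : ℝ) ^ (2 * (i / (16 * q))) := by
  have hi0 : (7 : ℝ) ≤ i := by exact_mod_cast hi
  have h3 := le_JL q i
  have hdh := div_h q i
  have hcardNB := card_NB q i
  set e := i / q with he
  set h := i / (16 * q) with hh
  have hei : e ≤ i := Nat.div_le_self _ _
  have hexp := Real.exp_pos (-(i : ℝ) ^ 2)
  have he16 : (2 : ℝ) ^ (8 * h) ≤ Real.sqrt ((2 ^ e : ℕ) : ℝ) := by
    refine Real.le_sqrt_of_sq_le ?_
    push_cast
    rw [← pow_mul]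
    exact pow_le_pow_right₀ (by norm_num) (by omega)
  have hi4 : (1 : ℝ) ≤ (i : ℝ) ^ 2 := one_le_pow₀ (by linarith)
  have hE : 100 * (i : ℝ) ^ 2 ≤ ((2 ^ e : ℕ) : ℝ) := by
    push_cast
    have h1 : (2 : ℝ) ^ h ≤ 2 ^ e := pow_le_pow_right₀ (by norm_num) (by omega)
    nlinarith [sq_nonneg ((i : ℝ) ^ 2)]
  have one : ∀ s ∈ NB q i, Ex p (Ib e s) (fun A => (inn A (2 ^ i) : ℝ))
      ≤ 2 ^ i / 2 ^ e * (364800 * (i : ℝ) ^ 3 * (1 / 2) ^ (6 * h))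
        + 2 ^ (4 * i) * (2 * Real.exp (-(i : ℝ) ^ 2)) := by
    intro s hs
    have hs' := hs
    rw [mem_NB] at hs'
    rw [← he] at hs'
    have htpos := hT.pos s.1
    have hts := ht s.1 (by omega)
    have hbt := block_t hT hj0 hs
    rw [← he] at hbt
    have hmain := Ex_inn_le' hp htpos (hT.le_one s.1) (y := yb e s) (L := Lb e s) (E := 2 ^ e)
      (x := 2 ^ i) (ℓ := (i : ℝ)) hbt (by linarith) (yb_pos e s) (Lb_mul_le e s) hE
    unfold Ib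
    refine hmain.trans (add_le_add ?_ ?_)
    · have a1 := Lb_div_le e s (2 ^ i)
      push_cast at a1
      have a2 : 0 ≤ (91200 * (i : ℝ) ^ 2 / (t s.1 ^ 2 * Real.sqrt ((2 ^ e : ℕ) : ℝ))) := by positivity
      have ht2 : 1 / t s.1 ^ 2 ≤ 2 ^ (2 * h) := by
        rw [div_le_iff₀ (by positivity)]
        have h6 : ((1 / 2 : ℝ) ^ h) ^ 2 ≤ t s.1 ^ 2 := pow_le_pow_left₀ (by positivity) hts 2
        have h7 : (2 : ℝ) ^ (2 * h) * ((1 / 2 : ℝ) ^ h) ^ 2 = 1 := by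
          rw [mul_comm 2 h, pow_mul, ← mul_pow, ← mul_pow]; norm_num
        have h8 : (0 : ℝ) < 2 ^ (2 * h) := by positivity
        nlinarith
      have a3 : (91200 * (i : ℝ) ^ 2 / (t s.1 ^ 2 * Real.sqrt ((2 ^ e : ℕ) : ℝ)))
          ≤ 91200 * (i : ℝ) ^ 2 * (1 / 2) ^ (6 * h) := by
        have e1 : 91200 * (i : ℝ) ^ 2 / (t s.1 ^ 2 * Real.sqrt ((2 ^ e : ℕ) : ℝ))
            = 91200 * (i : ℝ) ^ 2 * ((1 / t s.1 ^ 2) * (1 / Real.sqrt ((2 ^ e : ℕ) : ℝ))) := by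
          field_simp
        rw [e1]
        refine mul_le_mul_of_nonneg_left ?_ (by positivity)
        have e2 : 1 / Real.sqrt ((2 ^ e : ℕ) : ℝ) ≤ (1 / 2) ^ (8 * h) := by
          rw [one_div_pow]
          exact one_div_le_one_div_of_le (by positivity) he16
        calc (1 / t s.1 ^ 2) * (1 / Real.sqrt ((2 ^ e : ℕ) : ℝ))
            ≤ 2 ^ (2 * h) * (1 / 2) ^ (8 * h) := mul_le_mul ht2 e2 (by positivity) (by positivity)
          _ = (1 / 2) ^ (6 * h) := by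
              have e3 : (1 / 2 : ℝ) ^ (8 * h) = (1 / 2) ^ (2 * h) * (1 / 2) ^ (6 * h) := by
                rw [← pow_add]; congr 1; ring
              rw [e3, ← mul_assoc, ← mul_pow]; norm_num
      have a4 : 0 ≤ (((2 ^ i / yb e s : ℕ) : ℕ) : ℝ) * (1 + Real.log (4 * (((2 ^ i / yb e s : ℕ) : ℕ) : ℝ))) ∧
          (((2 ^ i / yb e s : ℕ) : ℕ) : ℝ) * (1 + Real.log (4 * (((2 ^ i / yb e s : ℕ) : ℕ) : ℝ)))
          ≤ (((2 ^ i / yb e s : ℕ) : ℕ) : ℝ) * (4 * i) := by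
        rcases Nat.eq_zero_or_pos (2 ^ i / yb e s) with h0 | h0
        · rw [h0]; simp
        · have b1 : (1 : ℝ) ≤ ((2 ^ i / yb e s : ℕ) : ℝ) := by exact_mod_cast h0
          have b2 : 0 ≤ Real.log (4 * ((2 ^ i / yb e s : ℕ) : ℝ)) := Real.log_nonneg (by linarith)
          have b3 : Real.log (4 * ((2 ^ i / yb e s : ℕ) : ℝ)) ≤ i + 2 := by
            have b4 : 4 * ((2 ^ i / yb e s : ℕ) : ℝ) ≤ 2 ^ (i + 2) := by
              have : 4 * (2 ^ i / yb e s) ≤ 2 ^ (i + 2) := by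
                rw [pow_add]
                have := Nat.div_le_self (2 ^ i) (yb e s)
                omega
              exact_mod_cast this
            have b5 := Real.log_le_log (by linarith) b4
            rw [Real.log_pow] at b5
            have b6 : Real.log 2 ≤ 1 := by have := Real.log_two_lt_d9; linarith
            push_cast at b5
            have : (0 : ℝ) ≤ (i : ℝ) + 2 := by positivity
            nlinarith
          constructor
          · positivity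
          · refine mul_le_mul_of_nonneg_left ?_ (by linarith)
            linarith
      have e1 : (Lb e s : ℝ) * (((2 ^ i / yb e s : ℕ) : ℝ)
            * (91200 * (i : ℝ) ^ 2 / (t s.1 ^ 2 * Real.sqrt ((2 ^ e : ℕ) : ℝ)))
            * (1 + Real.log (4 * ((2 ^ i / yb e s : ℕ) : ℝ))))
          = (91200 * (i : ℝ) ^ 2 / (t s.1 ^ 2 * Real.sqrt ((2 ^ e : ℕ) : ℝ))) * ((Lb e s : ℝ)
            * (((2 ^ i / yb e s : ℕ) : ℝ) * (1 + Real.log (4 * ((2 ^ i / yb e s : ℕ) : ℝ))))) := by ring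
      rw [e1]
      have a5 : (Lb e s : ℝ) * (((2 ^ i / yb e s : ℕ) : ℝ)
          * (1 + Real.log (4 * ((2 ^ i / yb e s : ℕ) : ℝ)))) ≤ 2 ^ i / 2 ^ e * (4 * i) := by
        calc (Lb e s : ℝ) * (((2 ^ i / yb e s : ℕ) : ℝ)
              * (1 + Real.log (4 * ((2 ^ i / yb e s : ℕ) : ℝ))))
            ≤ (Lb e s : ℝ) * (((2 ^ i / yb e s : ℕ) : ℝ) * (4 * i)) :=
              mul_le_mul_of_nonneg_left a4.2 (Nat.cast_nonneg _)
          _ = ((Lb e s : ℝ) * ((2 ^ i / yb e s : ℕ) : ℝ)) * (4 * i) := by ring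
          _ ≤ 2 ^ i / 2 ^ e * (4 * i) := mul_le_mul_of_nonneg_right a1 (by positivity)
      calc (91200 * (i : ℝ) ^ 2 / (t s.1 ^ 2 * Real.sqrt ((2 ^ e : ℕ) : ℝ))) * ((Lb e s : ℝ)
            * (((2 ^ i / yb e s : ℕ) : ℝ) * (1 + Real.log (4 * ((2 ^ i / yb e s : ℕ) : ℝ)))))
          ≤ (91200 * (i : ℝ) ^ 2 * (1 / 2) ^ (6 * h)) * (2 ^ i / 2 ^ e * (4 * i)) :=
            mul_le_mul a3 a5 (mul_nonneg (Nat.cast_nonneg _) a4.1) (by positivity)
        _ = 2 ^ i / 2 ^ e * (364800 * (i : ℝ) ^ 3 * (1 / 2) ^ (6 * h)) := by ring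
    · refine mul_le_mul_of_nonneg_right ?_ (by positivity)
      have b1 : (Lb e s : ℝ) ≤ 2 ^ i := by
        have : Lb e s ≤ 2 ^ i := by
          unfold Lb
          exact Nat.pow_le_pow_right (by norm_num) (by omega)
        exact_mod_cast this
      calc (Lb e s : ℝ) ^ 4 ≤ (2 ^ i) ^ 4 := pow_le_pow_left₀ (Nat.cast_nonneg _) b1 4
        _ = 2 ^ (4 * i) := by rw [← pow_mul]; congr 1; ring
  refine (Finset.sum_le_sum one).trans ?_
  rw [Finset.sum_const, nsmul_eq_mul]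
  have h6 : ((i : ℝ) + 1) ≤ 2 * i := by linarith
  have hc : ((NB q i).card : ℝ) ≤ 2 * i * 2 ^ e :=
    hcardNB.trans (mul_le_mul_of_nonneg_right h6 (by positivity))
  have hpos : 0 ≤ (2 : ℝ) ^ i / 2 ^ e * (364800 * (i : ℝ) ^ 3 * (1 / 2) ^ (6 * h))
        + 2 ^ (4 * i) * (2 * Real.exp (-(i : ℝ) ^ 2)) := by positivity
  refine (mul_le_mul_of_nonneg_right hc hpos).trans ?_
  have b1 : (2 * i * 2 ^ e : ℝ) * (2 ^ i / 2 ^ e * (364800 * (i : ℝ) ^ 3 * (1 / 2) ^ (6 * h)))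
      ≤ 2 ^ i * ((1 / 2) * (1 / 2) ^ (2 * h)) := by
    have e1 : (2 * i * 2 ^ e : ℝ) * (2 ^ i / 2 ^ e * (364800 * (i : ℝ) ^ 3 * (1 / 2) ^ (6 * h)))
        = 2 ^ i * ((729600 * (i : ℝ) ^ 4) * (1 / 2) ^ (6 * h)) := by field_simp; ring
    rw [e1]
    refine mul_le_mul_of_nonneg_left ?_ (by positivity)
    have e2 : (2 : ℝ) ^ h * (1 / 2) ^ (6 * h) = (1 / 2) ^ (5 * h) := by
      have e3 : (1 / 2 : ℝ) ^ (6 * h) = (1 / 2) ^ h * (1 / 2) ^ (5 * h) := by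
        rw [← pow_add]; congr 1; ring
      rw [e3, ← mul_assoc, ← mul_pow]; norm_num
    calc (729600 * (i : ℝ) ^ 4) * (1 / 2) ^ (6 * h) ≤ ((1 / 4) * 2 ^ h) * (1 / 2) ^ (6 * h) :=
          mul_le_mul_of_nonneg_right (by linarith) (by positivity)
      _ = (1 / 4) * (1 / 2) ^ (5 * h) := by rw [mul_assoc, e2]
      _ ≤ (1 / 2) * (1 / 2) ^ (2 * h) := by
          have e3 : (1 / 2 : ℝ) ^ (5 * h) ≤ (1 / 2) ^ (2 * h) :=
            pow_le_pow_of_le_one (by norm_num) (by norm_num) (by omega)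
          have : (0 : ℝ) < (1 / 2) ^ (2 * h) := by positivity
          linarith
  have b2 : (2 * i * 2 ^ e : ℝ) * (2 ^ (4 * i) * (2 * Real.exp (-(i : ℝ) ^ 2)))
      ≤ 2 ^ i * ((1 / 2) * (1 / 2) ^ (2 * h)) := by
    have c1 := exp_sq_le hi
    have c2 : (2 * i * 2 ^ e : ℝ) * (2 ^ (4 * i) * (2 * Real.exp (-(i : ℝ) ^ 2)))
        ≤ (2 * i * 2 ^ i : ℝ) * (2 ^ (4 * i) * (2 * Real.exp (-(i : ℝ) ^ 2))) := by
      refine mul_le_mul_of_nonneg_right ?_ (by positivity)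
      refine mul_le_mul_of_nonneg_left ?_ (by positivity)
      exact pow_le_pow_right₀ (by norm_num) hei
    have c3 : (2 * i * 2 ^ i : ℝ) * (2 ^ (4 * i) * (2 * Real.exp (-(i : ℝ) ^ 2)))
        = (1 / 4) * ((16 * i : ℝ) * 2 ^ (5 * i) * Real.exp (-(i : ℝ) ^ 2)) := by
      have : (2 : ℝ) ^ (5 * i) = 2 ^ i * 2 ^ (4 * i) := by rw [← pow_add]; congr 1; ring
      rw [this]; ring
    have c4 : (1 : ℝ) ≤ 2 ^ i * (1 / 2) ^ (2 * h) := by
      have e3 : (1 / 2 : ℝ) ^ i ≤ (1 / 2) ^ (2 * h) :=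
        pow_le_pow_of_le_one (by norm_num) (by norm_num) (by omega)
      have e4 : (2 : ℝ) ^ i * (1 / 2) ^ i = 1 := by rw [← mul_pow]; norm_num
      have : (0 : ℝ) < 2 ^ i := by positivity
      nlinarith
    linarith
  calc (2 * i * 2 ^ e : ℝ) * (2 ^ i / 2 ^ e * (364800 * (i : ℝ) ^ 3 * (1 / 2) ^ (6 * h))
        + 2 ^ (4 * i) * (2 * Real.exp (-(i : ℝ) ^ 2)))
      = (2 * i * 2 ^ e : ℝ) * (2 ^ i / 2 ^ e * (364800 * (i : ℝ) ^ 3 * (1 / 2) ^ (6 * h)))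
        + (2 * i * 2 ^ e : ℝ) * (2 ^ (4 * i) * (2 * Real.exp (-(i : ℝ) ^ 2))) := by ring
    _ ≤ _ := by linarith

/-- the generating functions of the numbers of windows are close to the Poisson ones -/
theorem near_mean (hp : PD p) (hT : TD p t Kt j0) {q i : ℕ} (hi : 7 ≤ i) (hj0 : 2 * j0 ≤ i)
    (ht : ∀ j, j ≤ i → (1 / 2 : ℝ) ^ (i / (16 * q)) ≤ t j)
    (hev : (11673600 : ℝ) * (i : ℝ) ^ 4 ≤ 2 ^ (i / (16 * q))) {z : ℝ} (hz0 : 0 ≤ z) (hz1 : z ≤ 1)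
    {W : Finset ℕ} (hW : ∀ s ∈ NB q i, Ib (i / q) s ⊆ W) :
    ∑ n ∈ XX q i, |Ex p W (fun A => z ^ (FS (NB q i) (Ib (i / q)) n A))
        - Real.exp (-((1 - z) * La p (NB q i) (Ib (i / q)) n))|
      ≤ 2 ^ i * (1 / 2 : ℝ) ^ (i / (16 * q)) := by
  have hi0 : (7 : ℝ) ≤ i := by exact_mod_cast hi
  have hi1 : (1 : ℝ) ≤ i := by linarith
  have hi34 : (i : ℝ) ^ 3 ≤ (i : ℝ) ^ 4 := pow_le_pow_right₀ hi1 (by norm_num)
  have hi14 : (i : ℝ) ≤ (i : ℝ) ^ 4 := by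
    calc (i : ℝ) = (i : ℝ) ^ 1 := (pow_one _).symm
      _ ≤ (i : ℝ) ^ 4 := pow_le_pow_right₀ hi1 (by norm_num)
  have h3 := le_JL q i
  have hdh := div_h q i
  have hcardNB := card_NB q i
  have hdisj : ((NB q i : Finset (ℕ × ℕ)) : Set (ℕ × ℕ)).PairwiseDisjoint
      (fun s => Finset.Ico (yb (i / q) s) (yb (i / q) s + Lb (i / q) s)) :=
    blocks_disjoint h3
  have hinn := near_inn hp hT hi hj0 ht (by nlinarith)
  have hone : ∀ s ∈ NB q i, ∀ n ∈ XX q i, Ex p (Ib (i / q) s) (fun A => (cnt A n : ℝ))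
      ≤ (1 / 2 : ℝ) ^ (3 * (i / (16 * q))) := fun s hs n hn =>
    near_one hp hT hi hj0 ht (by nlinarith) hs hn
  set e := i / q with he
  set h := i / (16 * q) with hh
  have h1 : ∀ n ∈ XX q i, |Ex p W (fun A => z ^ (FS (NB q i) (Ib e) n A))
        - Real.exp (-((1 - z) * La p (NB q i) (Ib e) n))|
      ≤ ∑ s ∈ NB q i, (2 * (Ex p (Ib e s) (fun A => (cnt A n : ℝ))) ^ 2
        + Ex p (Ib e s) (fun A => (innn A n : ℝ))) := fun n _ =>
    mean_family (p := p) hp.nonneg hp.le_one (NB q i) (yb e) (Lb e) (fun s _ => yb_pos e s)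
      hdisj hW n hz0 hz1
  refine (Finset.sum_le_sum h1).trans ?_
  rw [Finset.sum_comm]
  simp_rw [Finset.sum_add_distrib]
  have hXsub : XX q i ⊆ Finset.Icc 1 (2 ^ i) := by
    intro n hn
    rw [mem_XX] at hn
    have h0 : 0 < 2 ^ (i - i / q) := by positivity
    rw [Finset.mem_Icc]; omega
  -- squares
  have b1 : ∑ s ∈ NB q i, ∑ n ∈ XX q i, 2 * (Ex p (Ib e s) (fun A => (cnt A n : ℝ))) ^ 2
      ≤ 2 ^ i * (1 / 2 : ℝ) ^ (2 * h) := by
    have c1 : ∀ s ∈ NB q i, ∑ n ∈ XX q i, 2 * (Ex p (Ib e s) (fun A => (cnt A n : ℝ))) ^ 2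
        ≤ 2 * (1 / 2 : ℝ) ^ (3 * h) * (2 ^ i / 2 ^ e) := by
      intro s hs
      have c2 : ∀ n ∈ XX q i, 2 * (Ex p (Ib e s) (fun A => (cnt A n : ℝ))) ^ 2
          ≤ 2 * (1 / 2 : ℝ) ^ (3 * h) * Ex p (Ib e s) (fun A => (cnt A n : ℝ)) := by
        intro n hn
        have c3 := hone s hs n hn
        have c4 : 0 ≤ Ex p (Ib e s) (fun A => (cnt A n : ℝ)) :=
          Ex_nonneg hp.nonneg hp.le_one (fun A _ => Nat.cast_nonneg _)
        nlinarith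
      refine (Finset.sum_le_sum c2).trans ?_
      rw [← Finset.mul_sum]
      refine mul_le_mul_of_nonneg_left ?_ (by positivity)
      have c5 : ∑ n ∈ XX q i, Ex p (Ib e s) (fun A => (cnt A n : ℝ))
          ≤ ∑ n ∈ Finset.Icc 1 (2 ^ i), Ex p (Ib e s) (fun A => (cnt A n : ℝ)) :=
        Finset.sum_le_sum_of_subset_of_nonneg hXsub
          (fun n _ _ => Ex_nonneg hp.nonneg hp.le_one (fun A _ => Nat.cast_nonneg _))
      refine c5.trans ?_
      rw [← Ex_sum]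
      refine Ex_le_const hp.nonneg hp.le_one (fun A hA => ?_)
      have c6 := sum_cnt_le (x := 2 ^ i) (yb_pos e s) hA
      have c7 := Lb_div_le e s (2 ^ i)
      have c8 : ∑ n ∈ Finset.Icc 1 (2 ^ i), (cnt A n : ℝ)
          ≤ ((Lb e s * (2 ^ i / yb e s) : ℕ) : ℝ) := by exact_mod_cast c6
      refine c8.trans (c7.trans (le_of_eq ?_))
      push_cast; rfl
    refine (Finset.sum_le_sum c1).trans ?_
    rw [Finset.sum_const, nsmul_eq_mul]
    have h6 : ((i : ℝ) + 1) ≤ 2 * i := by linarith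
    calc ((NB q i).card : ℝ) * (2 * (1 / 2 : ℝ) ^ (3 * h) * (2 ^ i / 2 ^ e))
        ≤ ((i + 1) * 2 ^ e) * (2 * (1 / 2 : ℝ) ^ (3 * h) * (2 ^ i / 2 ^ e)) :=
          mul_le_mul_of_nonneg_right hcardNB (by positivity)
      _ = 2 ^ i * ((2 * (i + 1)) * (1 / 2 : ℝ) ^ (3 * h)) := by field_simp
      _ ≤ 2 ^ i * (2 ^ h * (1 / 2 : ℝ) ^ (3 * h)) := by
          refine mul_le_mul_of_nonneg_left ?_ (by positivity)
          refine mul_le_mul_of_nonneg_right ?_ (by positivity)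
          nlinarith
      _ = 2 ^ i * (1 / 2 : ℝ) ^ (2 * h) := by
          have e3 : (1 / 2 : ℝ) ^ (3 * h) = (1 / 2) ^ h * (1 / 2) ^ (2 * h) := by
            rw [← pow_add]; congr 1; ring
          rw [e3, ← mul_assoc ((2 : ℝ) ^ h), ← mul_pow]; norm_num
  -- intersecting pairs
  have b2 : ∑ s ∈ NB q i, ∑ n ∈ XX q i, Ex p (Ib e s) (fun A => (innn A n : ℝ))
      ≤ 2 ^ i * (1 / 2 : ℝ) ^ (2 * h) := by
    refine le_trans (Finset.sum_le_sum (fun s hs => ?_)) hinn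
    rw [← Ex_sum]
    refine Ex_mono hp.nonneg hp.le_one (fun A hA => ?_)
    have c1 : ∑ n ∈ XX q i, (innn A n : ℝ) ≤ ∑ n ∈ Finset.Icc 1 (2 ^ i), (innn A n : ℝ) :=
      Finset.sum_le_sum_of_subset_of_nonneg hXsub (fun n _ _ => Nat.cast_nonneg _)
    refine c1.trans ?_
    have := sum_innn_le (A := A) (fun m hm => by
      have h := hA hm
      unfold Ib at h
      rw [Finset.mem_Ico] at h
      have := yb_pos e s
      omega) (2 ^ i)
    exact_mod_cast this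
  have h2h : (2 : ℝ) ≤ 2 ^ h := by nlinarith
  have e3 : (2 : ℝ) * (1 / 2) ^ (2 * h) ≤ (1 / 2) ^ h := by
    have e4 : (1 / 2 : ℝ) ^ (2 * h) = (1 / 2) ^ h * (1 / 2) ^ h := by rw [← pow_add]; congr 1; ring
    have e5 : (2 : ℝ) ^ h * (1 / 2) ^ h = 1 := by rw [← mul_pow]; norm_num
    have e6 : (0 : ℝ) < (1 / 2) ^ h := by positivity
    rw [e4]
    have e7 : (2 : ℝ) * (1 / 2) ^ h ≤ 1 := by nlinarith
    nlinarith
  calc (∑ s ∈ NB q i, ∑ n ∈ XX q i, 2 * (Ex p (Ib e s) (fun A => (cnt A n : ℝ))) ^ 2)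
        + ∑ s ∈ NB q i, ∑ n ∈ XX q i, Ex p (Ib e s) (fun A => (innn A n : ℝ))
      ≤ 2 ^ i * (2 * (1 / 2 : ℝ) ^ (2 * h)) := by linarith
    _ ≤ 2 ^ i * (1 / 2 : ℝ) ^ h := mul_le_mul_of_nonneg_left e3 (by positivity)

end Pool.Agent.helper306_thin
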