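import Pool.Agent.helper306_thin.BlockMean
import Pool.Agent.helper306_cramer.Inter

/-!
# Intersecting windows with equal sums: one quadruple
-/

namespace Pool.Agent.helper306_thin

open Finset Pool.Agent.helper306_cramer

variable {p : ℕ → ℝ}

/-- indicator of a pair of intersecting windows with the same sum -/
noncomputable def Th (K : ℕ) (a a' b1 b : ℕ) (A : Finset ℕ) : ℝ :=
  if a ∈ A ∧ b ∈ A ∧ ∑ m ∈ A ∩ Finset.Ico a a', m = ∑ m ∈ A ∩ Finset.Ioc b1 b, m ∧
    (A ∩ Finset.Icc a b1).card ≤ K then 1 else 0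

lemma Th_nonneg (K a a' b1 b : ℕ) (A : Finset ℕ) : 0 ≤ Th K a a' b1 b A := by
  unfold Th; split_ifs <;> norm_num

lemma Th_le_one (K a a' b1 b : ℕ) (A : Finset ℕ) : Th K a a' b1 b A ≤ 1 := by
  unfold Th; split_ifs <;> norm_num

/-- the primes of `[a, a')` -/
def PU (a a' : ℕ) : Finset ℕ := (Finset.Ico a a').filter Nat.Prime

/-- the primes of `(b₁, b]` -/
def PV (b1 b : ℕ) : Finset ℕ := (Finset.Ioc b1 b).filter Nat.Prime

lemma mem_PU {a a' r : ℕ} : r ∈ PU a a' ↔ (a ≤ r ∧ r < a') ∧ r.Prime := by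
  unfold PU; rw [Finset.mem_filter, Finset.mem_Ico]

lemma mem_PV {b1 b r : ℕ} : r ∈ PV b1 b ↔ (b1 < r ∧ r ≤ b) ∧ r.Prime := by
  unfold PV; rw [Finset.mem_filter, Finset.mem_Ioc]

/-- the sums of the symmetric differences -/
lemma sum_split {A : Finset ℕ} {a a' b1 b : ℕ} (h1 : a < a') (h2 : a' ≤ b1) (h3 : b1 < b)
    (h : ∑ m ∈ sg A a b1, m = ∑ m ∈ sg A a' b, m) :
    ∑ m ∈ A ∩ Finset.Ico a a', m = ∑ m ∈ A ∩ Finset.Ioc b1 b, m := by
  have e1 : ∑ m ∈ sg A a b1, m = ∑ m ∈ A ∩ Finset.Ico a a', m + ∑ m ∈ A ∩ Finset.Icc a' b1, m := by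
    rw [← Finset.sum_union]
    · congr 1
      ext x
      simp only [mem_sg, Finset.mem_union, Finset.mem_inter, Finset.mem_Ico, Finset.mem_Icc]
      constructor
      · rintro ⟨hx, h4, h5⟩
        rcases Nat.lt_or_ge x a' with h | h
        · exact Or.inl ⟨hx, h4, h⟩
        · exact Or.inr ⟨hx, h, h5⟩
      · rintro (⟨hx, h4, h5⟩ | ⟨hx, h4, h5⟩)
        · exact ⟨hx, h4, by omega⟩
        · exact ⟨hx, by omega, h5⟩
    · rw [Finset.disjoint_left]
      intro x hx hx'
      rw [Finset.mem_inter, Finset.mem_Ico] at hx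
      rw [Finset.mem_inter, Finset.mem_Icc] at hx'
      omega
  have e2 : ∑ m ∈ sg A a' b, m = ∑ m ∈ A ∩ Finset.Icc a' b1, m + ∑ m ∈ A ∩ Finset.Ioc b1 b, m := by
    rw [← Finset.sum_union]
    · congr 1
      ext x
      simp only [mem_sg, Finset.mem_union, Finset.mem_inter, Finset.mem_Ioc, Finset.mem_Icc]
      constructor
      · rintro ⟨hx, h4, h5⟩
        rcases Nat.lt_or_ge b1 x with h | h
        · exact Or.inr ⟨hx, h, h5⟩
        · exact Or.inl ⟨hx, h4, h⟩
      · rintro (⟨hx, h4, h5⟩ | ⟨hx, h4, h5⟩)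
        · exact ⟨hx, h4, by omega⟩
        · exact ⟨hx, by omega, h5⟩
    · rw [Finset.disjoint_left]
      intro x hx hx'
      rw [Finset.mem_inter, Finset.mem_Icc] at hx
      rw [Finset.mem_inter, Finset.mem_Ioc] at hx'
      omega
  omega

/-- lengths of the two differences -/
lemma lengths {A : Finset ℕ} {a a' b1 b y L E : ℕ} (hLy : L * E ≤ y) (ha : y ≤ a) (hb : b < y + L)
    (h1 : a < a') (h2 : a' ≤ b1) (h3 : b1 < b) (haA : a ∈ A) (hbA : b ∈ A)
    (h : ∑ m ∈ A ∩ Finset.Ico a a', m = ∑ m ∈ A ∩ Finset.Ioc b1 b, m) :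
    E < (A ∩ Finset.Ioc b1 b).card ∧ (A ∩ Finset.Ioc b1 b).card < (A ∩ Finset.Ico a a').card := by
  set k1 := (A ∩ Finset.Ico a a').card with hk1
  set k2 := (A ∩ Finset.Ioc b1 b).card with hk2
  have hk2pos : 1 ≤ k2 := Finset.card_pos.mpr ⟨b, by
    rw [Finset.mem_inter, Finset.mem_Ioc]; exact ⟨hbA, h3, le_rfl⟩⟩
  have s1 : ∑ m ∈ A ∩ Finset.Ico a a', m ≤ k1 * a' := by
    have := Finset.sum_le_card_nsmul (A ∩ Finset.Ico a a') (fun m => m) a' (fun m hm => by
      rw [Finset.mem_inter, Finset.mem_Ico] at hm; omega)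
    rwa [smul_eq_mul] at this
  have s2 : k1 * a ≤ ∑ m ∈ A ∩ Finset.Ico a a', m := by
    have := Finset.card_nsmul_le_sum (A ∩ Finset.Ico a a') (fun m => m) a (fun m hm => by
      rw [Finset.mem_inter, Finset.mem_Ico] at hm; omega)
    rwa [smul_eq_mul] at this
  have s3 : k2 * (a' + 1) ≤ ∑ m ∈ A ∩ Finset.Ioc b1 b, m := by
    have := Finset.card_nsmul_le_sum (A ∩ Finset.Ioc b1 b) (fun m => m) (a' + 1) (fun m hm => by
      rw [Finset.mem_inter, Finset.mem_Ioc] at hm; omega)
    rwa [smul_eq_mul] at this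
  have s4 : ∑ m ∈ A ∩ Finset.Ioc b1 b, m ≤ k2 * b := by
    have := Finset.sum_le_card_nsmul (A ∩ Finset.Ioc b1 b) (fun m => m) b (fun m hm => by
      rw [Finset.mem_inter, Finset.mem_Ioc] at hm; omega)
    rwa [smul_eq_mul] at this
  have hk : k2 < k1 := by
    have : k2 * a' < k1 * a' := by nlinarith
    exact lt_of_mul_lt_mul_right this (Nat.zero_le _)
  refine ⟨?_, hk⟩
  have h5 : (k2 + 1) * a ≤ k2 * b := by
    have : (k2 + 1) * a ≤ k1 * a := Nat.mul_le_mul_right a hk
    omega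
  have h6 : k2 * b < k2 * (a + L) := Nat.mul_lt_mul_of_pos_left (by omega) hk2pos
  have h7 : a < k2 * L := by nlinarith
  have h8 : E * L < k2 * L := by nlinarith
  exact lt_of_mul_lt_mul_right h8 (Nat.zero_le _)

/-- the probability of a given sum -/
lemma prob_sum_le (hp : PD p) {t : ℝ} (ht0 : 0 < t) (ht1 : t ≤ 1) {a a' y L s : ℕ} {ℓ : ℝ}
    (ht : ∀ r, r.Prime → y ≤ r → r < y + L → t ≤ p r * (1 - p r)) (hℓ : 1 ≤ ℓ) (hy : 1 ≤ y)
    (ha : y ≤ a) (haa : a < a') (haL : a' ≤ y + L) (hm : 16 * ℓ ^ 2 ≤ (PU a a').card) :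
    Ex p (PU a a') (fun A => if ∑ m ∈ A, m = s then 1 else 0)
      ≤ (2 * Real.sqrt (PU a a').card * ℓ * (L / y) + 1) * (304 / (t * (PU a a').card) ^ 2)
        + 2 * Real.exp (-ℓ ^ 2) := by
  classical
  set U := PU a a' with hU
  set m := U.card with hmdef
  have hy0 : (0 : ℝ) < y := by exact_mod_cast hy
  have hm0 : (0 : ℝ) < m := by nlinarith
  have hm16 : (16 : ℝ) ≤ m := by nlinarith
  have hsq := Real.sq_sqrt hm0.le
  have hsm : 4 * ℓ ≤ Real.sqrt m := Real.le_sqrt_of_sq_le (by nlinarith)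
  have hsm0 : 0 < Real.sqrt m := by linarith
  set κ := Real.sqrt m * ℓ with hκ
  have hκ0 : 0 ≤ κ := by positivity
  have hκm : 2 * κ ≤ m := by
    have h := mul_le_mul_of_nonneg_left hsm hsm0.le
    rw [hκ]; nlinarith
  have hκ2 : κ ^ 2 / m = ℓ ^ 2 := by rw [hκ, mul_pow, hsq]; field_simp
  set D : ℝ := (a' : ℝ) - a with hD
  have hD0 : 0 < D := by
    have : (a : ℝ) < a' := by exact_mod_cast haa
    rw [hD]; linarith
  have hDL : D ≤ L := by
    have h1 : (a' : ℝ) ≤ y + L := by exact_mod_cast haL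
    have h2 : (y : ℝ) ≤ a := by exact_mod_cast ha
    rw [hD]; linarith
  have hT_le : ∀ r ∈ U, |(fun r : ℕ => ((r : ℝ) - a) / D) r| ≤ 1 := by
    intro r hr
    have h1 := (mem_PU.mp hr).1
    have h2 : (a : ℝ) ≤ r := by exact_mod_cast h1.1
    have h3 : (r : ℝ) ≤ a' := by exact_mod_cast h1.2.le
    simp only
    rw [abs_of_nonneg (div_nonneg (by linarith) hD0.le), div_le_one hD0, hD]
    linarith
  set Mu := mlin p (fun r : ℕ => ((r : ℝ) - a) / D) U with hMu
  -- split according to the number of elements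
  set good := (Finset.range (m + 1)).filter (fun l : ℕ => |((s : ℝ) - l * a) / D - Mu| < κ) with hgood
  have h1 : ∀ A ⊆ U, (if ∑ m ∈ A, m = s then (1 : ℝ) else 0) ≤
      ∑ l ∈ good, (if A.card = l ∧ ∑ m ∈ A, m = s then (1 : ℝ) else 0)
      + (if κ ≤ |lin (fun r : ℕ => ((r : ℝ) - a) / D) A - Mu| then 1 else 0) := by
    intro A hA
    have hnn : ∀ l ∈ good, (0 : ℝ) ≤ (if A.card = l ∧ ∑ m ∈ A, m = s then (1 : ℝ) else 0) := by
      intro l _; split_ifs <;> norm_num
    by_cases hs : ∑ m ∈ A, m = s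
    · rw [if_pos hs]
      have e1 : lin (fun r : ℕ => ((r : ℝ) - a) / D) A = ((s : ℝ) - A.card * a) / D := by
        unfold lin
        rw [← Finset.sum_div, Finset.sum_sub_distrib, Finset.sum_const, nsmul_eq_mul, ← hs]
        push_cast; rfl
      rw [e1]
      by_cases hg : |((s : ℝ) - A.card * a) / D - Mu| < κ
      · have hmem : A.card ∈ good := by
          rw [hgood, Finset.mem_filter, Finset.mem_range]
          exact ⟨by have := Finset.card_le_card hA; omega, hg⟩
        have h2 := Finset.single_le_sum hnn hmem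
        rw [if_pos ⟨rfl, hs⟩] at h2
        have h3 : (0 : ℝ) ≤ (if κ ≤ |((s : ℝ) - A.card * a) / D - Mu| then (1 : ℝ) else 0) := by
          split_ifs <;> norm_num
        linarith
      · push Not at hg
        rw [if_pos hg]
        have := Finset.sum_nonneg hnn
        linarith
    · rw [if_neg hs]
      refine add_nonneg (Finset.sum_nonneg hnn) ?_
      split_ifs <;> norm_num
  have h2 := Ex_mono hp.nonneg hp.le_one h1
  rw [Ex_add, Ex_sum] at h2
  refine h2.trans (add_le_add ?_ ?_)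
  · have hone : ∀ l ∈ good, Ex p U (fun A => if A.card = l ∧ ∑ m ∈ A, m = s then 1 else 0)
        ≤ 304 / (t * m) ^ 2 := by
      intro l _
      have h3 := weak_llt hp.nonneg hp.le_one (Q := U) (by
        have : (3 : ℝ) ≤ m := by linarith
        exact_mod_cast this) ht0 ht1 (fun r hr => by
          have := mem_PU.mp hr
          exact ht r this.2 (by omega) (by omega)) l s
      refine h3.trans ?_
      have h4 : 3 * Real.exp (-(t * m / 4)) ≤ 192 / (t * m) ^ 2 := by
        rw [le_div_iff₀ (by positivity)]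
        have := sq_mul_exp_le (x := t * m) (by positivity)
        linarith
      have h5 : 112 / (t * (m : ℝ) ^ 2) ≤ 112 / (t * m) ^ 2 := by
        refine div_le_div_of_nonneg_left (by norm_num) (by positivity) ?_
        rw [mul_pow]
        refine mul_le_mul_of_nonneg_right ?_ (by positivity)
        nlinarith
      have e : 304 / (t * (m : ℝ)) ^ 2 = 112 / (t * m) ^ 2 + 192 / (t * m) ^ 2 := by ring
      rw [e]
      exact add_le_add h5 h4
    refine (Finset.sum_le_sum hone).trans ?_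
    rw [Finset.sum_const, nsmul_eq_mul]
    refine mul_le_mul_of_nonneg_right ?_ (by positivity)
    -- number of good `l`
    rcases good.eq_empty_or_nonempty with h0 | hne
    · rw [h0]; simp; positivity
    set l0 := good.min' hne with hl0
    set l1 := good.max' hne with hl1
    have g0 := Finset.min'_mem good hne
    have g1 := Finset.max'_mem good hne
    rw [← hl0, hgood, Finset.mem_filter] at g0
    rw [← hl1, hgood, Finset.mem_filter] at g1
    have hll : l0 ≤ l1 := Finset.min'_le _ _ (Finset.max'_mem good hne)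
    have a0 := abs_lt.mp g0.2
    have a1 := abs_lt.mp g1.2
    have h3 : ((l1 : ℝ) - l0) * a / D ≤ 2 * κ := by
      have e : ((l1 : ℝ) - l0) * a / D = (((s : ℝ) - l0 * a) / D - Mu) - (((s : ℝ) - l1 * a) / D - Mu) := by
        ring
      rw [e]; linarith
    have ha0 : (0 : ℝ) < a := by
      have : (y : ℝ) ≤ a := by exact_mod_cast ha
      linarith
    have h4 : (l1 : ℝ) - l0 ≤ 2 * κ * (L / y) := by
      rw [div_le_iff₀ hD0] at h3
      have h5 : ((l1 : ℝ) - l0) * y ≤ ((l1 : ℝ) - l0) * a := by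
        refine mul_le_mul_of_nonneg_left (by exact_mod_cast ha) ?_
        have : (l0 : ℝ) ≤ l1 := by exact_mod_cast hll
        linarith
      have h6 : 2 * κ * D ≤ 2 * κ * L := mul_le_mul_of_nonneg_left hDL (by positivity)
      rw [← mul_div_assoc, le_div_iff₀ hy0]
      linarith
    have h5 : good.card ≤ l1 - l0 + 1 := by
      have hsub : good ⊆ Finset.Icc l0 l1 := fun l hl => by
        rw [Finset.mem_Icc]; exact ⟨Finset.min'_le _ _ hl, Finset.le_max' _ _ hl⟩
      have := Finset.card_le_card hsub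
      rw [Nat.card_Icc] at this
      omega
    have h6 : (good.card : ℝ) ≤ ((l1 - l0 + 1 : ℕ) : ℝ) := by exact_mod_cast h5
    push_cast [Nat.cast_sub hll] at h6
    rw [hκ] at h4
    linarith
  · have h3 := tail_two hp.nonneg hp.le_one (J := U) (c := fun r : ℕ => ((r : ℝ) - a) / D)
      (fun r hr => Or.inr (hT_le r hr)) hm0 (var_le_quarter hp hT_le) hκ0 hκm
      (fun A => κ ≤ |lin (fun r : ℕ => ((r : ℝ) - a) / D) A - Mu|) (fun A _ h => h)
    rw [hκ2] at h3
    exact h3

end Pool.Agent.helper306_thin
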