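import Pool.Agent.helper306_thin.Pairs

/-!
# Intersecting windows with equal sums: the expected number in a block
-/

namespace Pool.Agent.helper306_thin

open Finset Pool.Agent.helper306_cramer

variable {p : ℕ → ℝ}

/-- the primes of the block -/
def IP (y L : ℕ) : Finset ℕ := (Finset.Ico y (y + L)).filter Nat.Prime

lemma mem_IP {y L r : ℕ} : r ∈ IP y L ↔ (y ≤ r ∧ r < y + L) ∧ r.Prime := by
  unfold IP; rw [Finset.mem_filter, Finset.mem_Ico]

lemma Ex_IP (hp : PD p) (y L : ℕ) (Φ : Finset ℕ → ℝ) :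
    Ex p (Finset.Ico y (y + L)) Φ = Ex p (IP y L) Φ :=
  Ex_drop (Finset.filter_subset _ _) (fun r hr hr' => by
    exact hp.zero r (fun h => hr' (mem_IP.mpr ⟨Finset.mem_Ico.mp hr, h⟩))) Φ

/-- the quadruples -/
def QD (y L : ℕ) : Finset ((ℕ × ℕ) × (ℕ × ℕ)) :=
  ((IP y L ×ˢ IP y L) ×ˢ (IP y L ×ˢ IP y L)).filter
    (fun q => q.1.1 < q.1.2 ∧ q.1.2 ≤ q.2.1 ∧ q.2.1 < q.2.2)

lemma mem_QD {y L : ℕ} {q : (ℕ × ℕ) × (ℕ × ℕ)} : q ∈ QD y L ↔
    ((q.1.1 ∈ IP y L ∧ q.1.2 ∈ IP y L) ∧ q.2.1 ∈ IP y L ∧ q.2.2 ∈ IP y L) ∧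
      q.1.1 < q.1.2 ∧ q.1.2 ≤ q.2.1 ∧ q.2.1 < q.2.2 := by
  unfold QD
  simp only [Finset.mem_filter, Finset.mem_product]

lemma inn_le_Th {A : Finset ℕ} {y L x : ℕ} (hy : 1 ≤ y) (hA : A ⊆ IP y L) :
    (inn A x : ℝ) ≤ ∑ q ∈ QD y L, Th (x / y) q.1.1 q.1.2 q.2.1 q.2.2 A := by
  classical
  unfold inn
  have e : ((((A ×ˢ A) ×ˢ (A ×ˢ A)).filter (fun q => q.1.1 < q.1.2 ∧ q.1.2 ≤ q.2.1 ∧
      q.2.1 < q.2.2 ∧ ∑ m ∈ sg A q.1.1 q.2.1, m = ∑ m ∈ sg A q.1.2 q.2.2, m ∧
      ∑ m ∈ sg A q.1.1 q.2.1, m ≤ x)).card : ℝ)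
      = ∑ q ∈ ((A ×ˢ A) ×ˢ (A ×ˢ A)).filter (fun q => q.1.1 < q.1.2 ∧ q.1.2 ≤ q.2.1 ∧
      q.2.1 < q.2.2 ∧ ∑ m ∈ sg A q.1.1 q.2.1, m = ∑ m ∈ sg A q.1.2 q.2.2, m ∧
      ∑ m ∈ sg A q.1.1 q.2.1, m ≤ x), (1 : ℝ) := by
    rw [Finset.sum_const, nsmul_eq_mul, mul_one]
  rw [e]
  have hsub : ((A ×ˢ A) ×ˢ (A ×ˢ A)).filter (fun q => q.1.1 < q.1.2 ∧ q.1.2 ≤ q.2.1 ∧
      q.2.1 < q.2.2 ∧ ∑ m ∈ sg A q.1.1 q.2.1, m = ∑ m ∈ sg A q.1.2 q.2.2, m ∧
      ∑ m ∈ sg A q.1.1 q.2.1, m ≤ x) ⊆ QD y L := by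
    intro q hq
    simp only [Finset.mem_filter, Finset.mem_product] at hq
    rw [mem_QD]
    exact ⟨⟨⟨hA hq.1.1.1, hA hq.1.1.2⟩, hA hq.1.2.1, hA hq.1.2.2⟩, hq.2.1, hq.2.2.1, hq.2.2.2.1⟩
  refine (Finset.sum_le_sum (fun q hq => ?_)).trans
    (Finset.sum_le_sum_of_subset_of_nonneg hsub (fun q _ _ => Th_nonneg _ _ _ _ _ _))
  simp only [Finset.mem_filter, Finset.mem_product] at hq
  obtain ⟨⟨⟨h1, h2⟩, h3, h4⟩, h5, h6, h7, h8, h9⟩ := hq
  have hcard : (A ∩ Finset.Icc q.1.1 q.2.1).card ≤ x / y := by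
    rw [Nat.le_div_iff_mul_le hy]
    have h10 := Finset.card_nsmul_le_sum (sg A q.1.1 q.2.1) (fun m => m) y (fun m hm => by
      exact (mem_IP.mp (hA (mem_sg.mp hm).1)).1.1)
    rw [smul_eq_mul] at h10
    exact h10.trans h9
  unfold Th
  rw [if_pos ⟨h1, h4, sum_split h5 h6 h7 h8, hcard⟩]

/-- difference of the means of the sums -/
noncomputable def mD (p : ℕ → ℝ) (a a' b1 b : ℕ) : ℝ :=
  ∑ r ∈ PV b1 b, p r * r - ∑ r ∈ PU a a', p r * r

lemma PU_sub {y L a a' : ℕ} (ha : y ≤ a) (haL : a' ≤ y + L) : PU a a' ⊆ IP y L := by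
  intro r hr
  rw [mem_PU] at hr
  rw [mem_IP]; exact ⟨by omega, hr.2⟩

lemma PV_sub {y L b1 b : ℕ} (ha : y ≤ b1) (haL : b < y + L) : PV b1 b ⊆ IP y L := by
  intro r hr
  rw [mem_PV] at hr
  rw [mem_IP]; exact ⟨by omega, hr.2⟩

lemma Pr_sub {y L a b : ℕ} (ha : y ≤ a) (haL : b < y + L) : Pr a b ⊆ IP y L := by
  intro r hr
  rw [mem_Pr] at hr
  rw [mem_IP]; exact ⟨by omega, hr.2⟩

/-- too many primes in the first window -/
lemma Th_case_many (hp : PD p) {a a' b1 b y L K : ℕ} {ℓ : ℝ} (hℓ : 1 ≤ ℓ)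
    (ha : y ≤ a) (hb1 : b1 < y + L) (hm : 16 * ℓ ^ 2 ≤ (Pr a b1).card)
    (hK : 4 * K < (Pr a b1).card) :
    Ex p (IP y L) (Th K a a' b1 b) ≤ 2 * Real.exp (-ℓ ^ 2) := by
  classical
  set m := (Pr a b1).card with hmdef
  have hm0 : (0 : ℝ) < m := by nlinarith
  have hsq := Real.sq_sqrt hm0.le
  have hsm : 4 * ℓ ≤ Real.sqrt m := Real.le_sqrt_of_sq_le (by nlinarith)
  have hsm0 : 0 < Real.sqrt m := by linarith
  set κ := Real.sqrt m * ℓ with hκ
  have hκ0 : 0 ≤ κ := by positivity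
  have hkk : 4 * κ ≤ m := by
    have h := mul_le_mul_of_nonneg_left hsm hsm0.le
    rw [hκ]; nlinarith
  have hκ2 : κ ^ 2 / m = ℓ ^ 2 := by rw [hκ, mul_pow, hsq]; field_simp
  have hKr : (4 : ℝ) * K < m := by exact_mod_cast hK
  set c : ℕ → ℝ := fun r => if a ≤ r ∧ r ≤ b1 then 1 else 0 with hc
  have hc1 : ∀ r ∈ IP y L, p r = 0 ∨ |c r| ≤ 1 := fun r _ => by
    right; rw [hc]; simp only; split_ifs <;> simp
  have hPr : Pr a b1 = (IP y L).filter (fun r => a ≤ r ∧ r ≤ b1) := by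
    ext r
    rw [Finset.mem_filter, mem_IP, mem_Pr]
    constructor
    · rintro ⟨h1, h2⟩; exact ⟨⟨by omega, h2⟩, h1⟩
    · rintro ⟨⟨_, h2⟩, h1⟩; exact ⟨h1, h2⟩
  have hv : ∑ r ∈ IP y L, c r ^ 2 * (p r * (1 - p r)) ≤ (m : ℝ) / 4 := by
    have h1 := var_le_quarter hp (J := Pr a b1) (c := fun _ => 1) (fun r _ => by simp)
    refine le_trans (le_of_eq ?_) h1
    rw [hPr, Finset.sum_filter]
    refine Finset.sum_congr rfl (fun r _ => ?_)
    rw [hc]; simp only
    split_ifs <;> simp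
  have hml : mlin p c (IP y L) = ∑ r ∈ Pr a b1, p r := by
    unfold mlin
    rw [hPr, Finset.sum_filter]
    refine Finset.sum_congr rfl (fun r _ => ?_)
    rw [hc]; simp only
    split_ifs <;> simp
  have hmean : (m : ℝ) ≤ 2 * mlin p c (IP y L) := by
    rw [hml]; exact card_primes_le hp (fun r hr => (mem_Pr.mp hr).2)
  have h1 := tail_two hp.nonneg hp.le_one hc1 hm0 hv hκ0 (by linarith)
    (fun A => (A ∩ Finset.Icc a b1).card ≤ K) (fun A _ hA => by
      have e1 : lin c A = ((A ∩ Finset.Icc a b1).card : ℝ) := by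
        unfold lin
        rw [hc]
        simp only
        rw [← Finset.sum_filter, Finset.sum_const, nsmul_eq_mul, mul_one]
        congr 2
        ext r
        rw [Finset.mem_filter, Finset.mem_inter, Finset.mem_Icc]
      have h2 : ((A ∩ Finset.Icc a b1).card : ℝ) ≤ K := by exact_mod_cast hA
      rw [e1, abs_sub_comm]
      refine le_trans ?_ (le_abs_self _)
      linarith)
  rw [hκ2] at h1
  refine le_trans (Ex_mono hp.nonneg hp.le_one (fun A _ => ?_)) h1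
  unfold Th
  by_cases h : (A ∩ Finset.Icc a b1).card ≤ K
  · rw [if_pos h]; split_ifs <;> norm_num
  · rw [if_neg h, if_neg (fun h' => h h'.2.2.2)]

/-- the means of the two sums are far from each other -/
lemma Th_case_far (hp : PD p) {a a' b1 b y L K : ℕ} {ℓ : ℝ} (hℓ : 1 ≤ ℓ) (hy : 1 ≤ y) (hLy : L ≤ y)
    (ha : y ≤ a) (h1 : a < a') (h2 : a' ≤ b1) (h3 : b1 < b) (hb : b < y + L)
    (hm1 : 100 * ℓ ^ 2 ≤ (PU a a').card) (hm2 : 100 * ℓ ^ 2 ≤ (PV b1 b).card)
    (hfar : 8 * (PU a a').card < (PV b1 b).card ∨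
      6 * y * Real.sqrt (PU a a').card * ℓ ≤ |mD p a a' b1 b|) :
    Ex p (IP y L) (Th K a a' b1 b) ≤ 2 * Real.exp (-ℓ ^ 2) := by
  classical
  set m1 := (PU a a').card with hm1def
  set m2 := (PV b1 b).card with hm2def
  have hy0 : (0 : ℝ) < y := by exact_mod_cast hy
  have hℓ2 : 1 ≤ ℓ ^ 2 := one_le_pow₀ hℓ
  have hM0 : (0 : ℝ) < (m1 : ℝ) + m2 := by nlinarith
  set M : ℝ := (m1 : ℝ) + m2 with hM
  have hsq := Real.sq_sqrt hM0.le
  have hsm : 10 * ℓ ≤ Real.sqrt M := Real.le_sqrt_of_sq_le (by nlinarith)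
  have hsm0 : 0 < Real.sqrt M := by linarith
  set κ := Real.sqrt M * ℓ with hκ
  have hκ0 : 0 ≤ κ := by positivity
  have hkk : 10 * κ ≤ M := by
    have h := mul_le_mul_of_nonneg_left hsm hsm0.le
    rw [hκ]; nlinarith
  have hκ2 : κ ^ 2 / M = ℓ ^ 2 := by rw [hκ, mul_pow, hsq]; field_simp
  have hdisj : Disjoint (PU a a') (PV b1 b) := by
    rw [Finset.disjoint_left]
    intro r hr hr'
    rw [mem_PU] at hr
    rw [mem_PV] at hr'
    omega
  set c : ℕ → ℝ := fun r => (if a ≤ r ∧ r < a' then -((r : ℝ) / (2 * y)) else 0)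
    + (if b1 < r ∧ r ≤ b then (r : ℝ) / (2 * y) else 0) with hc
  have hcU : ∀ r, a ≤ r → r < a' → c r = -((r : ℝ) / (2 * y)) := by
    intro r h4 h5
    rw [hc]; simp only
    rw [if_pos ⟨h4, h5⟩, if_neg (by omega), add_zero]
  have hcV : ∀ r, b1 < r → r ≤ b → c r = (r : ℝ) / (2 * y) := by
    intro r h4 h5
    rw [hc]; simp only
    rw [if_neg (by omega), if_pos ⟨h4, h5⟩, zero_add]
  have hc0 : ∀ r, ¬ (a ≤ r ∧ r < a') → ¬ (b1 < r ∧ r ≤ b) → c r = 0 := by
    intro r h4 h5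
    rw [hc]; simp only
    rw [if_neg h4, if_neg h5, add_zero]
  have hr1 : ∀ r : ℕ, r < y + L → (r : ℝ) / (2 * y) ≤ 1 := by
    intro r hr
    rw [div_le_one (by positivity)]
    have h4 : r ≤ 2 * y := by omega
    exact_mod_cast h4
  have hcabs : ∀ r ∈ IP y L, |c r| ≤ 1 := by
    intro r hr
    have h4 := hr1 r (mem_IP.mp hr).1.2
    have h5 : (0 : ℝ) ≤ (r : ℝ) / (2 * y) := by positivity
    by_cases hU : a ≤ r ∧ r < a'
    · rw [hcU r hU.1 hU.2, abs_neg, abs_of_nonneg h5]; exact h4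
    · by_cases hV : b1 < r ∧ r ≤ b
      · rw [hcV r hV.1 hV.2, abs_of_nonneg h5]; exact h4
      · rw [hc0 r hU hV, abs_zero]; norm_num
  have hIPU : PU a a' = (IP y L).filter (fun r => a ≤ r ∧ r < a') := by
    ext r
    rw [Finset.mem_filter, mem_IP, mem_PU]
    constructor
    · rintro ⟨h1, h2⟩; exact ⟨⟨by omega, h2⟩, h1⟩
    · rintro ⟨⟨_, h2⟩, h1⟩; exact ⟨h1, h2⟩
  have hIPV : PV b1 b = (IP y L).filter (fun r => b1 < r ∧ r ≤ b) := by
    ext r
    rw [Finset.mem_filter, mem_IP, mem_PV]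
    constructor
    · rintro ⟨h1, h2⟩; exact ⟨⟨by omega, h2⟩, h1⟩
    · rintro ⟨⟨_, h2⟩, h1⟩; exact ⟨h1, h2⟩
  have hv : ∑ r ∈ IP y L, c r ^ 2 * (p r * (1 - p r)) ≤ M / 4 := by
    have e : ∑ r ∈ IP y L, c r ^ 2 * (p r * (1 - p r))
        ≤ ∑ r ∈ PU a a' ∪ PV b1 b, c r ^ 2 * (p r * (1 - p r)) := by
      rw [← Finset.sum_filter_add_sum_filter_not (IP y L) (fun r => r ∈ PU a a' ∪ PV b1 b)]
      have h4 : ∑ r ∈ (IP y L).filter (fun r => ¬ r ∈ PU a a' ∪ PV b1 b),
          c r ^ 2 * (p r * (1 - p r)) = 0 := by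
        refine Finset.sum_eq_zero (fun r hr => ?_)
        rw [Finset.mem_filter, Finset.mem_union, mem_PU, mem_PV, mem_IP] at hr
        have : c r = 0 := hc0 r (fun h => hr.2 (Or.inl ⟨h, hr.1.2⟩)) (fun h => hr.2 (Or.inr ⟨h, hr.1.2⟩))
        rw [this]; ring
      rw [h4, add_zero]
      refine Finset.sum_le_sum_of_subset_of_nonneg (fun r hr => (Finset.mem_filter.mp hr).2)
        (fun r _ _ => ?_)
      exact mul_nonneg (sq_nonneg _) (mul_nonneg (hp.nonneg r) (by linarith [hp.le_one r]))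
    refine e.trans ?_
    have h4 := var_le_quarter hp (J := PU a a' ∪ PV b1 b) (c := c) (fun r hr => by
      refine hcabs r ?_
      rw [Finset.mem_union] at hr
      rcases hr with hr | hr
      · exact PU_sub ha (by omega) hr
      · exact PV_sub (by omega) hb hr)
    rw [Finset.card_union_of_disjoint hdisj] at h4
    push_cast at h4
    rw [hM, hm1def, hm2def]; exact h4
  have hlin : ∀ A ⊆ IP y L, lin c A = ((∑ m ∈ A ∩ Finset.Ioc b1 b, m : ℕ) : ℝ) / (2 * y)
      - ((∑ m ∈ A ∩ Finset.Ico a a', m : ℕ) : ℝ) / (2 * y) := by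
    intro A hA
    unfold lin
    rw [hc]
    simp only
    rw [Finset.sum_add_distrib, ← Finset.sum_filter, ← Finset.sum_filter]
    have e1 : A.filter (fun r => a ≤ r ∧ r < a') = A ∩ Finset.Ico a a' := by
      ext r; rw [Finset.mem_filter, Finset.mem_inter, Finset.mem_Ico]
    have e2 : A.filter (fun r => b1 < r ∧ r ≤ b) = A ∩ Finset.Ioc b1 b := by
      ext r; rw [Finset.mem_filter, Finset.mem_inter, Finset.mem_Ioc]
    rw [e1, e2, Finset.sum_neg_distrib, ← Finset.sum_div, ← Finset.sum_div]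
    push_cast
    ring
  have hml : mlin p c (IP y L) = mD p a a' b1 b / (2 * y) := by
    unfold mlin mD
    rw [hIPU, hIPV, Finset.sum_filter, Finset.sum_filter, ← Finset.sum_sub_distrib, Finset.sum_div]
    refine Finset.sum_congr rfl (fun r _ => ?_)
    rw [hc]
    simp only
    split_ifs <;> ring
  -- the deviation
  have hdev : κ ≤ |mlin p c (IP y L)| := by
    rw [hml, abs_div, abs_of_pos (by positivity : (0 : ℝ) < 2 * y), le_div_iff₀ (by positivity)]
    by_cases h8 : 8 * m1 < m2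
    · -- many elements on the right
      have h8r : (8 : ℝ) * m1 < m2 := by exact_mod_cast h8
      have b1' : (y : ℝ) * (m2 / 2) ≤ ∑ r ∈ PV b1 b, p r * r := by
        have h5 := card_primes_le hp (S := PV b1 b) (fun r hr => (mem_PV.mp hr).2)
        rw [← hm2def] at h5
        calc (y : ℝ) * (m2 / 2) ≤ y * ∑ r ∈ PV b1 b, p r :=
              mul_le_mul_of_nonneg_left (by linarith) hy0.le
          _ = ∑ r ∈ PV b1 b, y * p r := by rw [Finset.mul_sum]
          _ ≤ ∑ r ∈ PV b1 b, p r * r := by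
              refine Finset.sum_le_sum (fun r hr => ?_)
              have h6 : y ≤ r := by have := (mem_PV.mp hr).1; omega
              have h7 : (y : ℝ) ≤ r := by exact_mod_cast h6
              rw [mul_comm]; exact mul_le_mul_of_nonneg_left h7 (hp.nonneg r)
      have b2' : ∑ r ∈ PU a a', p r * r ≤ (2 * y) * m1 := by
        have : ∑ r ∈ PU a a', p r * r ≤ ∑ r ∈ PU a a', (2 * (y : ℝ)) := by
          refine Finset.sum_le_sum (fun r hr => ?_)
          have h6 : r ≤ 2 * y := by have := (mem_PU.mp hr).1; omega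
          have h7 : (r : ℝ) ≤ 2 * y := by exact_mod_cast h6
          have := hp.le_one r
          have := hp.nonneg r
          have : (0 : ℝ) ≤ r := Nat.cast_nonneg r
          nlinarith
        refine this.trans (le_of_eq ?_)
        rw [Finset.sum_const, nsmul_eq_mul, ← hm1def]; ring
      have h9 : (y : ℝ) * (m2 / 4) ≤ mD p a a' b1 b := by
        unfold mD
        nlinarith
      refine le_trans ?_ (le_abs_self _)
      refine le_trans ?_ h9
      have h10 : M ≤ 9 / 8 * m2 := by rw [hM]; linarith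
      have : κ ≤ m2 / 8 := by linarith
      calc κ * (2 * y) ≤ (m2 / 8) * (2 * y) := mul_le_mul_of_nonneg_right this (by positivity)
        _ = y * (m2 / 4) := by ring
    · rcases hfar with h | h
      · exact absurd h h8
      · refine le_trans ?_ h
        push Not at h8
        have h8r : (m2 : ℝ) ≤ 8 * m1 := by exact_mod_cast h8
        have h10 : M ≤ 9 * m1 := by rw [hM]; linarith
        have h11 : Real.sqrt M ≤ 3 * Real.sqrt m1 := by
          have h5 : Real.sqrt M ≤ Real.sqrt (9 * m1) := Real.sqrt_le_sqrt h10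
          have h6 : Real.sqrt (9 * (m1 : ℝ)) = 3 * Real.sqrt m1 := by
            rw [show (9 : ℝ) * m1 = 3 ^ 2 * m1 by norm_num, Real.sqrt_mul (by norm_num),
              Real.sqrt_sq (by norm_num)]
          rwa [h6] at h5
        have h12 : κ ≤ 3 * Real.sqrt m1 * ℓ := by
          rw [hκ]; exact mul_le_mul_of_nonneg_right h11 (by linarith)
        calc κ * (2 * y) ≤ (3 * Real.sqrt m1 * ℓ) * (2 * y) :=
              mul_le_mul_of_nonneg_right h12 (by positivity)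
          _ = 6 * y * Real.sqrt m1 * ℓ := by ring
  have h4 := tail_two hp.nonneg hp.le_one (J := IP y L) (c := c) (fun r hr => Or.inr (hcabs r hr))
    hM0 hv hκ0 (by linarith)
    (fun A => ∑ m ∈ A ∩ Finset.Ico a a', m = ∑ m ∈ A ∩ Finset.Ioc b1 b, m) (fun A hA hAs => by
      rw [hlin A hA, hAs, sub_self, zero_sub, abs_neg]; exact hdev)
  rw [hκ2] at h4
  refine le_trans (Ex_mono hp.nonneg hp.le_one (fun A _ => ?_)) h4
  unfold Th
  by_cases h : ∑ m ∈ A ∩ Finset.Ico a a', m = ∑ m ∈ A ∩ Finset.Ioc b1 b, m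
  · rw [if_pos h]; split_ifs <;> norm_num
  · rw [if_neg h, if_neg (fun h' => h h'.2.2.1)]

/-- the remaining case -/
lemma Th_case_main (hp : PD p) {t : ℝ} (ht0 : 0 < t) (ht1 : t ≤ 1) {a a' b1 b y L K : ℕ} {ℓ : ℝ}
    (ht : ∀ r, r.Prime → y ≤ r → r < y + L → t ≤ p r * (1 - p r)) (hℓ : 1 ≤ ℓ) (hy : 1 ≤ y)
    (ha : y ≤ a) (h1 : a < a') (h2 : a' ≤ b1) (h3 : b1 < b) (hb : b < y + L)
    (hm1 : 16 * ℓ ^ 2 ≤ (PU a a').card) :
    Ex p (IP y L) (Th K a a' b1 b) ≤
      (2 * Real.sqrt (PU a a').card * ℓ * (L / y) + 1) * (304 / (t * (PU a a').card) ^ 2)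
        + 2 * Real.exp (-ℓ ^ 2) := by
  classical
  set B := (2 * Real.sqrt (PU a a').card * ℓ * (L / y) + 1) * (304 / (t * (PU a a').card) ^ 2)
        + 2 * Real.exp (-ℓ ^ 2) with hB
  have hU : PU a a' ⊆ IP y L := PU_sub ha (by omega)
  have hV : PV b1 b ⊆ IP y L := PV_sub (by omega) hb
  have hdisj : Disjoint (PU a a') (PV b1 b) := by
    rw [Finset.disjoint_left]
    intro r hr hr'
    rw [mem_PU] at hr
    rw [mem_PV] at hr'
    omega
  set S := (∑ r ∈ PV b1 b, r) + 1 with hS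
  have hle : ∀ A ⊆ IP y L, Th K a a' b1 b A ≤ ∑ s ∈ Finset.range S,
      (fun B : Finset ℕ => if ∑ m ∈ B, m = s then (1 : ℝ) else 0) (A ∩ PU a a') *
      (fun B : Finset ℕ => if ∑ m ∈ B, m = s then (1 : ℝ) else 0) (A ∩ PV b1 b) := by
    intro A hA
    have eU : A ∩ Finset.Ico a a' = A ∩ PU a a' := by
      ext r
      rw [Finset.mem_inter, Finset.mem_inter, Finset.mem_Ico, mem_PU]
      constructor
      · rintro ⟨h4, h5⟩; exact ⟨h4, h5, (mem_IP.mp (hA h4)).2⟩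
      · rintro ⟨h4, h5, _⟩; exact ⟨h4, h5⟩
    have eV : A ∩ Finset.Ioc b1 b = A ∩ PV b1 b := by
      ext r
      rw [Finset.mem_inter, Finset.mem_inter, Finset.mem_Ioc, mem_PV]
      constructor
      · rintro ⟨h4, h5⟩; exact ⟨h4, h5, (mem_IP.mp (hA h4)).2⟩
      · rintro ⟨h4, h5, _⟩; exact ⟨h4, h5⟩
    have hnn : ∀ s ∈ Finset.range S, (0 : ℝ) ≤
      (fun B : Finset ℕ => if ∑ m ∈ B, m = s then (1 : ℝ) else 0) (A ∩ PU a a') *
      (fun B : Finset ℕ => if ∑ m ∈ B, m = s then (1 : ℝ) else 0) (A ∩ PV b1 b) := by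
      intro s _
      simp only
      split_ifs <;> norm_num
    unfold Th
    split_ifs with h
    · have h4 := h.2.2.1
      rw [eU, eV] at h4
      have hmem : ∑ m ∈ A ∩ PV b1 b, m ∈ Finset.range S := by
        rw [Finset.mem_range, hS, Nat.lt_succ_iff]
        exact Finset.sum_le_sum_of_subset Finset.inter_subset_right
      refine le_trans (le_of_eq ?_) (Finset.single_le_sum hnn hmem)
      simp only
      rw [if_pos h4, if_true]
      norm_num
    · exact Finset.sum_nonneg hnn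
  refine (Ex_mono hp.nonneg hp.le_one hle).trans ?_
  rw [Ex_sum]
  have hone : ∀ s ∈ Finset.range S, Ex p (IP y L) (fun A =>
      (fun B : Finset ℕ => if ∑ m ∈ B, m = s then (1 : ℝ) else 0) (A ∩ PU a a') *
      (fun B : Finset ℕ => if ∑ m ∈ B, m = s then (1 : ℝ) else 0) (A ∩ PV b1 b))
      ≤ B * Ex p (PV b1 b) (fun A => if ∑ m ∈ A, m = s then (1 : ℝ) else 0) := by
    intro s _
    have h5 := Ex_mul_inter p hdisj hU hV
      (fun B : Finset ℕ => if ∑ m ∈ B, m = s then (1 : ℝ) else 0)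
      (fun B : Finset ℕ => if ∑ m ∈ B, m = s then (1 : ℝ) else 0)
    refine (le_of_eq h5).trans ?_
    refine mul_le_mul_of_nonneg_right ?_ (Ex_nonneg hp.nonneg hp.le_one
      (fun A _ => by split_ifs <;> norm_num))
    exact prob_sum_le hp ht0 ht1 ht hℓ hy ha h1 (by omega) hm1
  refine (Finset.sum_le_sum hone).trans ?_
  rw [← Finset.mul_sum, ← Ex_sum]
  have hB0 : 0 ≤ B := by rw [hB]; positivity
  refine mul_le_of_le_one_right hB0 (Ex_le_const hp.nonneg hp.le_one (fun A _ => ?_))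
  rw [Finset.sum_ite_eq]
  split_ifs <;> norm_num

/-- the main term for one quadruple -/
noncomputable def Fm (t ℓ : ℝ) (y L m : ℕ) : ℝ :=
  (2 * Real.sqrt m * ℓ * (L / y) + 1) * (304 / (t * m) ^ 2)

lemma Fm_nonneg {t ℓ : ℝ} (hℓ : 0 ≤ ℓ) (y L m : ℕ) : 0 ≤ Fm t ℓ y L m := by
  unfold Fm; positivity

/-- one quadruple -/
lemma Ex_Th_le (hp : PD p) {t : ℝ} (ht0 : 0 < t) (ht1 : t ≤ 1) {y L E K : ℕ} {ℓ : ℝ}
    (ht : ∀ r, r.Prime → y ≤ r → r < y + L → t ≤ p r * (1 - p r)) (hℓ : 1 ≤ ℓ) (hy : 1 ≤ y)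
    (hLE : L * E ≤ y) (hE : 100 * ℓ ^ 2 ≤ E) {q : (ℕ × ℕ) × (ℕ × ℕ)} (hq : q ∈ QD y L) :
    Ex p (IP y L) (Th K q.1.1 q.1.2 q.2.1 q.2.2) ≤
      (if E < (PU q.1.1 q.1.2).card ∧ (Pr q.1.1 q.2.1).card ≤ 4 * K ∧
        |mD p q.1.1 q.1.2 q.2.1 q.2.2| < 6 * y * Real.sqrt (PU q.1.1 q.1.2).card * ℓ
        then Fm t ℓ y L (PU q.1.1 q.1.2).card else 0) + 2 * Real.exp (-ℓ ^ 2) := by
  classical
  obtain ⟨⟨a, a'⟩, ⟨b1, b⟩⟩ := q
  rw [mem_QD] at hq
  simp only at hq ⊢
  obtain ⟨⟨⟨ha, ha'⟩, hb1, hb⟩, h1, h2, h3⟩ := hq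
  rw [mem_IP] at ha ha' hb1 hb
  have hexp := Real.exp_pos (-ℓ ^ 2)
  have hF := Fm_nonneg (t := t) (ℓ := ℓ) (by linarith) y L (PU a a').card
  have hE1 : 1 ≤ E := by
    have : (1 : ℝ) ≤ E := by nlinarith
    exact_mod_cast this
  have hLy : L ≤ y := le_trans (Nat.le_mul_of_pos_right _ hE1) hLE
  have hRHS : 0 ≤ (if E < (PU a a').card ∧ (Pr a b1).card ≤ 4 * K ∧
        |mD p a a' b1 b| < 6 * y * Real.sqrt (PU a a').card * ℓ
        then Fm t ℓ y L (PU a a').card else 0) := by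
    split_ifs
    · exact hF
    · exact le_rfl
  by_cases hsmall : E < (PU a a').card ∧ E < (PV b1 b).card
  · have hm1 : 100 * ℓ ^ 2 ≤ (PU a a').card := by
      have : (E : ℝ) ≤ (PU a a').card := by exact_mod_cast hsmall.1.le
      linarith
    have hm2 : 100 * ℓ ^ 2 ≤ (PV b1 b).card := by
      have : (E : ℝ) ≤ (PV b1 b).card := by exact_mod_cast hsmall.2.le
      linarith
    have hm1' : 16 * ℓ ^ 2 ≤ (PU a a').card := by nlinarith [sq_nonneg ℓ]
    by_cases hK : (Pr a b1).card ≤ 4 * K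
    · by_cases hfar : 8 * (PU a a').card < (PV b1 b).card ∨
        6 * y * Real.sqrt (PU a a').card * ℓ ≤ |mD p a a' b1 b|
      · have := Th_case_far (K := K) hp hℓ hy hLy ha.1.1 h1 h2 h3 hb.1.2 hm1 hm2 hfar
        linarith
      · rw [not_or, not_le] at hfar
        rw [if_pos ⟨hsmall.1, hK, hfar.2⟩]
        exact Th_case_main hp ht0 ht1 ht hℓ hy ha.1.1 h1 h2 h3 hb.1.2 hm1'
    · push Not at hK
      have hsubc : (PU a a').card ≤ (Pr a b1).card := by
        refine Finset.card_le_card (fun r hr => ?_)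
        rw [mem_PU] at hr
        rw [mem_Pr]; exact ⟨by omega, hr.2⟩
      have hsubr : ((PU a a').card : ℝ) ≤ (Pr a b1).card := by exact_mod_cast hsubc
      have := Th_case_many (K := K) (a' := a') (b := b) hp hℓ ha.1.1 hb1.1.2 (by linarith) hK
      linarith
  · have hz : Ex p (IP y L) (Th K a a' b1 b) = 0 := by
      rw [Ex_congr (Ψ := fun _ => (0 : ℝ)), Ex_const]
      intro A hA
      unfold Th
      rw [if_neg]
      rintro ⟨g1, g2, g3, _⟩
      have g4 := lengths hLE ha.1.1 hb.1.2 h1 h2 h3 g1 g2 g3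
      have eU : A ∩ Finset.Ico a a' ⊆ PU a a' := fun r hr => by
        rw [Finset.mem_inter, Finset.mem_Ico] at hr
        rw [mem_PU]; exact ⟨hr.2, (mem_IP.mp (hA hr.1)).2⟩
      have eV : A ∩ Finset.Ioc b1 b ⊆ PV b1 b := fun r hr => by
        rw [Finset.mem_inter, Finset.mem_Ioc] at hr
        rw [mem_PV]; exact ⟨hr.2, (mem_IP.mp (hA hr.1)).2⟩
      have g5 := Finset.card_le_card eU
      have g6 := Finset.card_le_card eV
      exact hsmall ⟨by omega, by omega⟩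
    rw [hz]; linarith

/-- number of right ends for given `a, a', b₁` -/
lemma card_b_le (hp : PD p) {y L a a' b1 : ℕ} {R : ℝ} (hR : 0 ≤ R) (hy : 1 ≤ y) (hb1 : y ≤ b1) :
    ((((IP y L).filter (fun b => b1 < b ∧ |mD p a a' b1 b| < R)).card : ℕ) : ℝ)
      ≤ 4 * R / y + 1 := by
  classical
  set T := (IP y L).filter (fun b => b1 < b ∧ |mD p a a' b1 b| < R) with hT
  have hy0 : (0 : ℝ) < y := by exact_mod_cast hy
  rcases T.eq_empty_or_nonempty with h0 | hne
  · rw [h0]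
    simp only [Finset.card_empty, Nat.cast_zero]
    positivity
  set b0 := T.min' hne with hb0
  set b2 := T.max' hne with hb2
  have g0 := Finset.min'_mem T hne
  have g2 := Finset.max'_mem T hne
  rw [← hb0, hT, Finset.mem_filter] at g0
  rw [← hb2, hT, Finset.mem_filter] at g2
  have hle : b0 ≤ b2 := Finset.min'_le _ _ (Finset.max'_mem T hne)
  have a0 := abs_lt.mp g0.2.2
  have a2 := abs_lt.mp g2.2.2
  have h1 : T ⊆ insert b0 (PV b0 b2) := by
    intro r hr
    have h2 := Finset.min'_le _ _ hr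
    have h3 := Finset.le_max' _ _ hr
    rw [← hb0] at h2
    rw [← hb2] at h3
    rw [hT, Finset.mem_filter, mem_IP] at hr
    rw [Finset.mem_insert, mem_PV]
    rcases Nat.lt_or_ge b0 r with h | h
    · exact Or.inr ⟨⟨h, h3⟩, hr.1.2⟩
    · exact Or.inl (le_antisymm h h2)
  have h2 : (T.card : ℝ) ≤ (PV b0 b2).card + 1 := by
    have := (Finset.card_le_card h1).trans (Finset.card_insert_le _ _)
    exact_mod_cast this
  have h3 : mD p a a' b1 b2 - mD p a a' b1 b0 = ∑ r ∈ PV b0 b2, p r * r := by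
    unfold mD
    have e : ∑ r ∈ PV b1 b2, p r * (r : ℝ) = ∑ r ∈ PV b1 b0, p r * (r : ℝ)
        + ∑ r ∈ PV b0 b2, p r * (r : ℝ) := by
      rw [← Finset.sum_union]
      · congr 1
        ext r
        rw [Finset.mem_union, mem_PV, mem_PV, mem_PV]
        have hb10 := g0.2.1
        constructor
        · rintro ⟨h4, h5⟩
          rcases Nat.lt_or_ge b0 r with h | h
          · exact Or.inr ⟨⟨h, h4.2⟩, h5⟩
          · exact Or.inl ⟨⟨h4.1, h⟩, h5⟩
        · rintro (⟨h4, h5⟩ | ⟨h4, h5⟩)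
          · exact ⟨by omega, h5⟩
          · exact ⟨by omega, h5⟩
      · rw [Finset.disjoint_left]
        intro r hr hr'
        rw [mem_PV] at hr hr'
        omega
    rw [e]; ring
  have h4 : (y : ℝ) * ((PV b0 b2).card / 2) ≤ ∑ r ∈ PV b0 b2, p r * r := by
    have h5 := card_primes_le hp (S := PV b0 b2) (fun r hr => (mem_PV.mp hr).2)
    calc (y : ℝ) * ((PV b0 b2).card / 2) ≤ y * ∑ r ∈ PV b0 b2, p r :=
          mul_le_mul_of_nonneg_left (by linarith) hy0.le
      _ = ∑ r ∈ PV b0 b2, y * p r := by rw [Finset.mul_sum]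
      _ ≤ ∑ r ∈ PV b0 b2, p r * r := by
          refine Finset.sum_le_sum (fun r hr => ?_)
          have h6 : y ≤ r := by have := (mem_PV.mp hr).1; have := g0.2.1; omega
          have h7 : (y : ℝ) ≤ r := by exact_mod_cast h6
          rw [mul_comm]; exact mul_le_mul_of_nonneg_left h7 (hp.nonneg r)
  have h5 : ((PV b0 b2).card : ℝ) ≤ 4 * R / y := by
    rw [le_div_iff₀ hy0]
    linarith
  linarith


lemma Pr_card_inj {a b b' : ℕ} (hab' : a ≤ b') (hb : b.Prime) (hb' : b'.Prime) (hab : a ≤ b)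
    (h : (Pr a b).card = (Pr a b').card) : b = b' := by
  rcases Nat.lt_trichotomy b b' with h1 | h1 | h1
  · exfalso
    have : (Pr a b).card < (Pr a b').card := by
      refine Finset.card_lt_card ⟨fun r hr => ?_, fun hcon => ?_⟩
      · rw [mem_Pr] at hr ⊢; exact ⟨by omega, hr.2⟩
      · have := hcon (mem_Pr.mpr ⟨⟨hab', le_rfl⟩, hb'⟩)
        rw [mem_Pr] at this; omega
    omega
  · exact h1
  · exfalso
    have : (Pr a b').card < (Pr a b).card := by
      refine Finset.card_lt_card ⟨fun r hr => ?_, fun hcon => ?_⟩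
      · rw [mem_Pr] at hr ⊢; exact ⟨by omega, hr.2⟩
      · have := hcon (mem_Pr.mpr ⟨⟨hab, le_rfl⟩, hb⟩)
        rw [mem_Pr] at this; omega
    omega

lemma PU_card_inj {a b b' : ℕ} (hb : b.Prime) (hb' : b'.Prime) (hab : a ≤ b) (hab' : a ≤ b')
    (h : (PU a b).card = (PU a b').card) : b = b' := by
  rcases Nat.lt_trichotomy b b' with h1 | h1 | h1
  · exfalso
    have : (PU a b).card < (PU a b').card := by
      refine Finset.card_lt_card ⟨fun r hr => ?_, fun hcon => ?_⟩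
      · rw [mem_PU] at hr ⊢; exact ⟨by omega, hr.2⟩
      · have := hcon (mem_PU.mpr ⟨⟨hab, h1⟩, hb⟩)
        rw [mem_PU] at this; omega
    omega
  · exact h1
  · exfalso
    have : (PU a b').card < (PU a b).card := by
      refine Finset.card_lt_card ⟨fun r hr => ?_, fun hcon => ?_⟩
      · rw [mem_PU] at hr ⊢; exact ⟨by omega, hr.2⟩
      · have := hcon (mem_PU.mpr ⟨⟨hab', h1⟩, hb'⟩)
        rw [mem_PU] at this; omega
    omega

/-- number of `b₁` -/
lemma card_b1_le {y L a K : ℕ} :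
    ((IP y L).filter (fun b1 => a ≤ b1 ∧ (Pr a b1).card ≤ 4 * K)).card ≤ 4 * K := by
  classical
  have h : ((IP y L).filter (fun b1 => a ≤ b1 ∧ (Pr a b1).card ≤ 4 * K)).card
      ≤ (Finset.Icc 1 (4 * K)).card := by
    refine Finset.card_le_card_of_injOn (fun b1 => (Pr a b1).card) ?_ ?_
    · intro b1 hb1
      rw [Finset.mem_coe, Finset.mem_filter, mem_IP] at hb1
      rw [Finset.mem_coe, Finset.mem_Icc]
      exact ⟨Finset.card_pos.mpr ⟨b1, mem_Pr.mpr ⟨⟨hb1.2.1, le_rfl⟩, hb1.1.2⟩⟩, hb1.2.2⟩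
    · intro b1 hb1 b1' hb1' heq
      rw [Finset.mem_coe, Finset.mem_filter, mem_IP] at hb1 hb1'
      exact Pr_card_inj hb1'.2.1 hb1.1.2 hb1'.1.2 hb1.2.1 heq
  rwa [Nat.card_Icc, Nat.add_sub_cancel] at h

lemma sqrt_Fm_le {t ℓ : ℝ} (ht0 : 0 < t) (hℓ : 1 ≤ ℓ) {y L E m : ℕ} (hy : 1 ≤ y) (hE1 : 1 ≤ E)
    (hLE : L * E ≤ y) (hm : E < m) :
    Real.sqrt m * Fm t ℓ y L m ≤ (912 * ℓ / (t ^ 2 * Real.sqrt E)) * (1 / m) := by
  have hy0 : (0 : ℝ) < y := by exact_mod_cast hy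
  have hE0 : (0 : ℝ) < E := by exact_mod_cast hE1
  have hm0 : (0 : ℝ) < m := by
    have : 0 < m := by omega
    exact_mod_cast this
  have hEm : (E : ℝ) ≤ m := by exact_mod_cast hm.le
  have hsE : 0 < Real.sqrt E := Real.sqrt_pos.mpr hE0
  have hsm : 0 < Real.sqrt m := Real.sqrt_pos.mpr hm0
  have hsE1 : 1 ≤ Real.sqrt E := Real.one_le_sqrt.mpr (by exact_mod_cast hE1)
  have hsEm : Real.sqrt E ≤ Real.sqrt m := Real.sqrt_le_sqrt hEm
  have hE2 := Real.mul_self_sqrt hE0.le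
  have hm2 := Real.mul_self_sqrt hm0.le
  have hLy : (L : ℝ) / y ≤ 1 / E := by
    rw [div_le_div_iff₀ hy0 hE0, one_mul]
    exact_mod_cast hLE
  have hLy2 : (L : ℝ) / y ≤ 1 / Real.sqrt E := by
    refine hLy.trans ?_
    refine one_div_le_one_div_of_le hsE ?_
    nlinarith
  have hLy0 : (0 : ℝ) ≤ (L : ℝ) / y := by positivity
  have e : Real.sqrt m * Fm t ℓ y L m
      = (304 / t ^ 2) * (2 * ℓ * (L / y) + 1 / Real.sqrt m) * (1 / m) := by
    unfold Fm
    field_simp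
    nlinarith
  rw [e]
  refine mul_le_mul_of_nonneg_right ?_ (by positivity)
  have h1 : 1 / Real.sqrt m ≤ 1 / Real.sqrt E := one_div_le_one_div_of_le hsE hsEm
  have h2 : 2 * ℓ * ((L : ℝ) / y) ≤ 2 * ℓ * (1 / Real.sqrt E) :=
    mul_le_mul_of_nonneg_left hLy2 (by linarith)
  have h3 : 1 / Real.sqrt E ≤ ℓ * (1 / Real.sqrt E) :=
    le_mul_of_one_le_left (by positivity) hℓ
  calc (304 / t ^ 2) * (2 * ℓ * (L / y) + 1 / Real.sqrt m)
      ≤ (304 / t ^ 2) * (3 * ℓ * (1 / Real.sqrt E)) :=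
        mul_le_mul_of_nonneg_left (by linarith) (by positivity)
    _ = 912 * ℓ / (t ^ 2 * Real.sqrt E) := by field_simp; ring

/-- **The expected number of intersecting pairs of windows with equal sums.** -/
theorem Ex_inn_le' (hp : PD p) {t : ℝ} (ht0 : 0 < t) (ht1 : t ≤ 1) {y L E x : ℕ} {ℓ : ℝ}
    (ht : ∀ r, r.Prime → y ≤ r → r < y + L → t ≤ p r * (1 - p r)) (hℓ : 1 ≤ ℓ) (hy : 1 ≤ y)
    (hLE : L * E ≤ y) (hE : 100 * ℓ ^ 2 ≤ E) :
    Ex p (Finset.Ico y (y + L)) (fun A => (inn A x : ℝ))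
      ≤ L * ((x / y : ℕ) * (91200 * ℓ ^ 2 / (t ^ 2 * Real.sqrt E))
          * (1 + Real.log (4 * ((x / y : ℕ) : ℝ))))
        + (L : ℝ) ^ 4 * (2 * Real.exp (-ℓ ^ 2)) := by
  classical
  set K := x / y with hK
  have hy0 : (0 : ℝ) < y := by exact_mod_cast hy
  have hE1 : 1 ≤ E := by
    have : (1 : ℝ) ≤ E := by nlinarith
    exact_mod_cast this
  rw [Ex_IP hp]
  have h1 : Ex p (IP y L) (fun A => (inn A x : ℝ))
      ≤ ∑ q ∈ QD y L, Ex p (IP y L) (Th K q.1.1 q.1.2 q.2.1 q.2.2) := by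
    rw [← Ex_sum]
    exact Ex_mono hp.nonneg hp.le_one (fun A hA => inn_le_Th hy hA)
  refine h1.trans ((Finset.sum_le_sum (fun q hq =>
    Ex_Th_le (K := K) hp ht0 ht1 ht hℓ hy hLE hE hq)).trans ?_)
  rw [Finset.sum_add_distrib]
  have hIPcard : (IP y L).card ≤ L := by
    refine (Finset.card_filter_le _ _).trans (le_of_eq ?_)
    rw [Nat.card_Ico]; omega
  refine add_le_add ?_ ?_
  · -- the main terms
    set c0 : ℝ := 912 * ℓ / (t ^ 2 * Real.sqrt E) with hc0
    have hc00 : 0 ≤ c0 := by rw [hc0]; positivity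
    -- reorganise
    have h2 : ∑ q ∈ QD y L, (if E < (PU q.1.1 q.1.2).card ∧ (Pr q.1.1 q.2.1).card ≤ 4 * K ∧
        |mD p q.1.1 q.1.2 q.2.1 q.2.2| < 6 * y * Real.sqrt (PU q.1.1 q.1.2).card * ℓ
        then Fm t ℓ y L (PU q.1.1 q.1.2).card else 0)
        ≤ ∑ w ∈ IP y L ×ˢ IP y L, ∑ b1 ∈ (IP y L).filter (fun b1 => w.1 ≤ b1 ∧
            (Pr w.1 b1).card ≤ 4 * K),
          ∑ b ∈ (IP y L).filter (fun b => b1 < b ∧
            |mD p w.1 w.2 b1 b| < 6 * y * Real.sqrt (PU w.1 w.2).card * ℓ),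
            (if w.1 < w.2 ∧ E < (PU w.1 w.2).card ∧ (PU w.1 w.2).card ≤ 4 * K then
              Fm t ℓ y L (PU w.1 w.2).card else 0) := by
      unfold QD
      rw [Finset.sum_filter, Finset.sum_product]
      refine Finset.sum_le_sum (fun w hw => ?_)
      rw [Finset.sum_product, Finset.sum_filter]
      refine Finset.sum_le_sum (fun b1 hb1 => ?_)
      have hF := Fm_nonneg (t := t) (ℓ := ℓ) (by linarith) y L (PU w.1 w.2).card
      by_cases hb : w.1 ≤ b1 ∧ (Pr w.1 b1).card ≤ 4 * K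
      · rw [if_pos hb, Finset.sum_filter]
        refine Finset.sum_le_sum (fun b hb' => ?_)
        simp only
        by_cases hq : w.1 < w.2 ∧ w.2 ≤ b1 ∧ b1 < b
        · rw [if_pos hq]
          by_cases hg : E < (PU w.1 w.2).card ∧ (Pr w.1 b1).card ≤ 4 * K ∧
            |mD p w.1 w.2 b1 b| < 6 * y * Real.sqrt (PU w.1 w.2).card * ℓ
          · rw [if_pos hg, if_pos ⟨hq.2.2, hg.2.2⟩, if_pos]
            refine ⟨hq.1, hg.1, le_trans (Finset.card_le_card (fun r hr => ?_)) hg.2.1⟩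
            rw [mem_PU] at hr
            rw [mem_Pr]; exact ⟨by omega, hr.2⟩
          · rw [if_neg hg]
            split_ifs
            · exact hF
            · exact le_rfl
            · exact le_rfl
        · rw [if_neg hq]
          split_ifs
          · exact hF
          · exact le_rfl
          · exact le_rfl
      · rw [if_neg hb]
        refine Finset.sum_nonpos (fun b hb' => ?_)
        simp only
        split_ifs with g1 g2
        · exact absurd ⟨by omega, g2.2.1⟩ hb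
        · exact le_rfl
        · exact le_rfl
    refine h2.trans ?_
    -- for a given pair
    have h3 : ∀ w ∈ IP y L ×ˢ IP y L, ∑ b1 ∈ (IP y L).filter (fun b1 => w.1 ≤ b1 ∧
            (Pr w.1 b1).card ≤ 4 * K),
          ∑ b ∈ (IP y L).filter (fun b => b1 < b ∧
            |mD p w.1 w.2 b1 b| < 6 * y * Real.sqrt (PU w.1 w.2).card * ℓ),
            (if w.1 < w.2 ∧ E < (PU w.1 w.2).card ∧ (PU w.1 w.2).card ≤ 4 * K then
              Fm t ℓ y L (PU w.1 w.2).card else 0)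
        ≤ if w.1 < w.2 ∧ E < (PU w.1 w.2).card ∧ (PU w.1 w.2).card ≤ 4 * K then
            (100 * K * ℓ * c0) * (1 / ((PU w.1 w.2).card : ℝ)) else 0 := by
      intro w hw
      rw [Finset.mem_product] at hw
      split_ifs with hg
      · set m1 := (PU w.1 w.2).card with hm1
        have hF := Fm_nonneg (t := t) (ℓ := ℓ) (by linarith) y L m1
        have hm10 : (1 : ℝ) ≤ m1 := by
          have : 1 ≤ m1 := by omega
          exact_mod_cast this
        have hs1 : 1 ≤ Real.sqrt m1 := Real.one_le_sqrt.mpr hm10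
        have h4 : ∀ b1 ∈ (IP y L).filter (fun b1 => w.1 ≤ b1 ∧ (Pr w.1 b1).card ≤ 4 * K),
            ∑ b ∈ (IP y L).filter (fun b => b1 < b ∧
              |mD p w.1 w.2 b1 b| < 6 * y * Real.sqrt m1 * ℓ), Fm t ℓ y L m1
            ≤ (25 * Real.sqrt m1 * ℓ) * Fm t ℓ y L m1 := by
          intro b1 hb1
          rw [Finset.mem_filter, mem_IP] at hb1
          rw [Finset.sum_const, nsmul_eq_mul]
          refine mul_le_mul_of_nonneg_right ?_ hF
          have h5 := card_b_le (L := L) (a := w.1) (a' := w.2) (b1 := b1)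
            (R := 6 * y * Real.sqrt m1 * ℓ) hp (by positivity) hy hb1.1.1.1
          have e : 4 * (6 * y * Real.sqrt m1 * ℓ) / y = 24 * Real.sqrt m1 * ℓ := by
            field_simp; ring
          rw [e] at h5
          nlinarith
        refine (Finset.sum_le_sum h4).trans ?_
        rw [Finset.sum_const, nsmul_eq_mul]
        have h6 : (((IP y L).filter (fun b1 => w.1 ≤ b1 ∧ (Pr w.1 b1).card ≤ 4 * K)).card : ℝ)
            ≤ 4 * K := by
          exact_mod_cast card_b1_le (y := y) (L := L) (a := w.1) (K := K)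
        have h7 := sqrt_Fm_le ht0 hℓ hy hE1 hLE hg.2.1
        rw [← hc0] at h7
        calc (((IP y L).filter (fun b1 => w.1 ≤ b1 ∧ (Pr w.1 b1).card ≤ 4 * K)).card : ℝ)
              * ((25 * Real.sqrt m1 * ℓ) * Fm t ℓ y L m1)
            ≤ (4 * K) * ((25 * Real.sqrt m1 * ℓ) * Fm t ℓ y L m1) :=
              mul_le_mul_of_nonneg_right h6 (by positivity)
          _ = (100 * K * ℓ) * (Real.sqrt m1 * Fm t ℓ y L m1) := by ring
          _ ≤ (100 * K * ℓ) * (c0 * (1 / m1)) := mul_le_mul_of_nonneg_left h7 (by positivity)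
          _ = (100 * K * ℓ * c0) * (1 / m1) := by ring
      · refine Finset.sum_nonpos (fun b1 _ => Finset.sum_nonpos (fun b _ => le_rfl))
    refine (Finset.sum_le_sum h3).trans ?_
    rw [Finset.sum_product]
    have h8 : ∀ a ∈ IP y L, ∑ a' ∈ IP y L,
        (if a < a' ∧ E < (PU a a').card ∧ (PU a a').card ≤ 4 * K then
            (100 * K * ℓ * c0) * (1 / ((PU a a').card : ℝ)) else 0)
        ≤ (100 * K * ℓ * c0) * (1 + Real.log (4 * (K : ℝ))) := by
      intro a _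
      rw [← Finset.sum_filter, ← Finset.mul_sum]
      refine mul_le_mul_of_nonneg_left ?_ (by positivity)
      have hharm : ∑ t ∈ Finset.Icc 1 (4 * K), (1 : ℝ) / t ≤ 1 + Real.log (4 * (K : ℝ)) := by
        have h1 := harmonic_le_one_add_log (4 * K)
        rw [harmonic_eq_sum_Icc] at h1
        push_cast at h1
        simpa [one_div] using h1
      refine le_trans ?_ hharm
      rw [← Finset.sum_image (s := (IP y L).filter (fun a' => a < a' ∧ E < (PU a a').card ∧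
        (PU a a').card ≤ 4 * K)) (g := fun a' => (PU a a').card) (f := fun m : ℕ => 1 / (m : ℝ))]
      · refine Finset.sum_le_sum_of_subset_of_nonneg (fun m hm => ?_) (fun _ _ _ => by positivity)
        rw [Finset.mem_image] at hm
        obtain ⟨a', ha', rfl⟩ := hm
        rw [Finset.mem_filter] at ha'
        rw [Finset.mem_Icc]; omega
      · intro b hb b' hb' heq
        rw [Finset.mem_coe, Finset.mem_filter, mem_IP] at hb hb'
        exact PU_card_inj hb.1.2 hb'.1.2 hb.2.1.le hb'.2.1.le heq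
    refine (Finset.sum_le_sum h8).trans ?_
    rw [Finset.sum_const, nsmul_eq_mul]
    have hlog : 0 ≤ (K : ℝ) * (1 + Real.log (4 * (K : ℝ))) := by
      rcases Nat.eq_zero_or_pos K with h | h
      · rw [h]; simp
      · have : (1 : ℝ) ≤ K := by exact_mod_cast h
        have := Real.log_nonneg (x := 4 * (K : ℝ)) (by linarith)
        positivity
    have h9 : ((IP y L).card : ℝ) ≤ L := by exact_mod_cast hIPcard
    have e : (100 * K * ℓ * c0) * (1 + Real.log (4 * (K : ℝ)))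
        = (100 * ℓ * c0) * (K * (1 + Real.log (4 * (K : ℝ)))) := by ring
    rw [e]
    refine (mul_le_mul_of_nonneg_right h9 (by positivity)).trans (le_of_eq ?_)
    rw [hc0]; ring
  · -- the errors
    rw [Finset.sum_const, nsmul_eq_mul]
    refine mul_le_mul_of_nonneg_right ?_ (by positivity)
    have h2 : (QD y L).card ≤ L ^ 4 := by
      unfold QD
      refine (Finset.card_filter_le _ _).trans ?_
      rw [Finset.card_product, Finset.card_product]
      calc (IP y L).card * (IP y L).card * ((IP y L).card * (IP y L).card)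
          ≤ L * L * (L * L) := by gcongr
        _ = L ^ 4 := by ring
    exact_mod_cast h2

end Pool.Agent.helper306_thin
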