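import Pool.Agent.helper306_thin.Char

/-!
# The quadratic form: triangle inequality, Parseval, growth
-/

namespace Pool.Agent.helper306_thin

open Finset Pool.Agent.helper306_cramer

variable {q : ℕ} [NeZero q]

/-- Minkowski's inequality for sums of squares -/
lemma sqrt_sum_add_le {ι : Type*} (s : Finset ι) (f g h : ι → ℝ) (h0 : ∀ i ∈ s, 0 ≤ h i) (hh : ∀ i ∈ s, h i ≤ f i + g i) :
    Real.sqrt (∑ i ∈ s, h i ^ 2) ≤ Real.sqrt (∑ i ∈ s, f i ^ 2) + Real.sqrt (∑ i ∈ s, g i ^ 2) := by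
  have hF : 0 ≤ ∑ i ∈ s, f i ^ 2 := Finset.sum_nonneg (fun _ _ => sq_nonneg _)
  have hG : 0 ≤ ∑ i ∈ s, g i ^ 2 := Finset.sum_nonneg (fun _ _ => sq_nonneg _)
  refine Real.sqrt_le_iff.mpr ⟨by positivity, ?_⟩
  have h1 : ∑ i ∈ s, h i ^ 2 ≤ ∑ i ∈ s, (f i + g i) ^ 2 :=
    Finset.sum_le_sum (fun i hi => pow_le_pow_left₀ (h0 i hi) (hh i hi) 2)
  have h2 : ∑ i ∈ s, (f i + g i) ^ 2
      = ∑ i ∈ s, f i ^ 2 + 2 * ∑ i ∈ s, f i * g i + ∑ i ∈ s, g i ^ 2 := by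
    rw [Finset.mul_sum, ← Finset.sum_add_distrib, ← Finset.sum_add_distrib]
    exact Finset.sum_congr rfl (fun i _ => by ring)
  have h3 : ∑ i ∈ s, f i * g i ≤ Real.sqrt (∑ i ∈ s, f i ^ 2) * Real.sqrt (∑ i ∈ s, g i ^ 2) :=
    Real.sum_mul_le_sqrt_mul_sqrt s f g
  have h4 := Real.sq_sqrt hF
  have h5 := Real.sq_sqrt hG
  nlinarith

lemma norm_one_sub_mul_le {z w : ℂ} (hz : ‖z‖ = 1) : ‖1 - z * w‖ ≤ ‖1 - z‖ + ‖1 - w‖ := by
  have e : 1 - z * w = (1 - z) + z * (1 - w) := by ring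
  rw [e]
  refine (norm_add_le _ _).trans ?_
  rw [norm_mul, hz, one_mul]

lemma norm_one_sub_ch_neg (t : ZMod q) : ‖1 - ch q (-t)‖ = ‖1 - ch q t‖ := by
  have h1 : ch q (-t) * ch q t = 1 := by rw [← ch_add]; simp [ch_zero]
  have h2 : 1 - ch q (-t) = -(ch q (-t) * (1 - ch q t)) := by
    rw [mul_sub, h1]; ring
  rw [h2, norm_neg, norm_mul, norm_ch, one_mul]

lemma norm_one_sub_ch_add (s t : ZMod q) : ‖1 - ch q (s + t)‖ ≤ ‖1 - ch q s‖ + ‖1 - ch q t‖ := by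
  rw [ch_add]; exact norm_one_sub_mul_le (norm_ch s)

lemma norm_one_sub_ch_sub (s t : ZMod q) : ‖1 - ch q (s - t)‖ ≤ ‖1 - ch q s‖ + ‖1 - ch q t‖ := by
  have h := norm_one_sub_ch_add s (-t)
  rw [norm_one_sub_ch_neg, ← sub_eq_add_neg s t] at h
  exact h

lemma sqrt_Vf_add (Q : Finset ℕ) (u v u' v' : ZMod q) :
    Real.sqrt (Vf q Q (u + u') (v + v')) ≤ Real.sqrt (Vf q Q u v) + Real.sqrt (Vf q Q u' v') := by
  unfold Vf
  refine sqrt_sum_add_le Q (fun r => ‖1 - ch q (u + v * r)‖) (fun r => ‖1 - ch q (u' + v' * r)‖)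
    (fun r => ‖1 - ch q (u + u' + (v + v') * r)‖) (fun _ _ => norm_nonneg _) (fun r _ => ?_)
  have e : u + u' + (v + v') * (r : ZMod q) = (u + v * r) + (u' + v' * r) := by ring
  rw [e]
  exact norm_one_sub_ch_add _ _

lemma Vf_neg (Q : Finset ℕ) (u v : ZMod q) : Vf q Q (-u) (-v) = Vf q Q u v := by
  unfold Vf
  refine Finset.sum_congr rfl (fun r _ => ?_)
  have e : -u + -v * (r : ZMod q) = -(u + v * r) := by ring
  rw [e, norm_one_sub_ch_neg]

lemma sqrt_Vf_sub (Q : Finset ℕ) (u v u' v' : ZMod q) :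
    Real.sqrt (Vf q Q (u - u') (v - v')) ≤ Real.sqrt (Vf q Q u v) + Real.sqrt (Vf q Q u' v') := by
  have := sqrt_Vf_add Q u v (-u') (-v')
  rw [Vf_neg] at this
  simpa [sub_eq_add_neg] using this

/-- Parseval -/
lemma parseval {Q : Finset ℕ} (hQ : Set.InjOn (fun r : ℕ => (r : ZMod q)) Q) :
    ∑ v : ZMod q, ‖∑ r ∈ Q, ch q (v * r)‖ ^ 2 = q * Q.card := by
  classical
  have h1 : ∀ v : ZMod q, ((‖∑ r ∈ Q, ch q (v * r)‖ ^ 2 : ℝ) : ℂ)
      = ∑ r ∈ Q, ∑ s ∈ Q, ch q (v * (r - s)) := by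
    intro v
    have e1 : ((‖∑ r ∈ Q, ch q (v * r)‖ ^ 2 : ℝ) : ℂ)
        = (∑ r ∈ Q, ch q (v * r)) * (starRingEnd ℂ) (∑ r ∈ Q, ch q (v * r)) := by
      rw [Complex.mul_conj, Complex.normSq_eq_norm_sq]
    rw [e1, map_sum, Finset.sum_mul_sum]
    refine Finset.sum_congr rfl (fun r _ => Finset.sum_congr rfl (fun s _ => ?_))
    have e2 : (starRingEnd ℂ) (ch q (v * s)) = ch q (-(v * s)) := by
      have h2 : ch q (-(v * s)) * ch q (v * s) = 1 := by rw [← ch_add]; simp [ch_zero]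
      have h3 : (starRingEnd ℂ) (ch q (v * s)) * ch q (v * s) = 1 := by
        rw [mul_comm, Complex.mul_conj, Complex.normSq_eq_norm_sq, norm_ch]; simp
      have h4 : ch q (v * s) ≠ 0 := by
        intro h; have := norm_ch (q := q) (v * s); rw [h] at this; simp at this
      exact mul_right_cancel₀ h4 (h3.trans h2.symm)
    rw [e2, ← ch_add]
    congr 1; ring
  have h2 : ((∑ v : ZMod q, ‖∑ r ∈ Q, ch q (v * r)‖ ^ 2 : ℝ) : ℂ) = ((q * Q.card : ℝ) : ℂ) := by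
    rw [Complex.ofReal_sum, Finset.sum_congr rfl (fun v _ => h1 v), Finset.sum_comm]
    have h3 : ∀ r ∈ Q, ∑ v : ZMod q, ∑ s ∈ Q, ch q (v * (r - s)) = q := by
      intro r hr
      rw [Finset.sum_comm]
      rw [Finset.sum_eq_single r]
      · rw [sum_ch_mul]; simp
      · intro s hs hne
        rw [sum_ch_mul, if_neg]
        intro h
        apply hne
        have := sub_eq_zero.mp h
        exact (hQ hr hs this).symm
      · intro h; exact absurd hr h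
    rw [Finset.sum_congr rfl h3, Finset.sum_const, nsmul_eq_mul]
    push_cast; ring
  exact_mod_cast h2

lemma norm_sub_sq {z : ℂ} (hz : ‖z‖ = 1) : ‖1 - z‖ ^ 2 = 2 - 2 * z.re := by
  have hz2 : z.re * z.re + z.im * z.im = 1 := by
    have := Complex.normSq_eq_norm_sq z
    rw [Complex.normSq_apply, hz] at this
    linarith
  rw [← Complex.normSq_eq_norm_sq, Complex.normSq_apply]
  simp only [Complex.sub_re, Complex.one_re, Complex.sub_im, Complex.one_im, zero_sub]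
  nlinarith

lemma norm_sum_ge (Q : Finset ℕ) (u v : ZMod q) :
    (Q.card : ℝ) - Vf q Q u v / 2 ≤ ‖∑ r ∈ Q, ch q (v * r)‖ := by
  have e1 : ‖∑ r ∈ Q, ch q (v * r)‖ = ‖∑ r ∈ Q, ch q (u + v * r)‖ := by
    have : ∑ r ∈ Q, ch q (u + v * r) = ch q u * ∑ r ∈ Q, ch q (v * r) := by
      rw [Finset.mul_sum]; exact Finset.sum_congr rfl (fun r _ => ch_add _ _)
    rw [this, norm_mul, norm_ch, one_mul]
  rw [e1]
  have h1 := Complex.re_le_norm (∑ r ∈ Q, ch q (u + v * r))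
  refine le_trans (le_of_eq ?_) h1
  rw [Complex.re_sum]
  unfold Vf
  have h2 : ∀ r ∈ Q, (ch q (u + v * r)).re = 1 - ‖1 - ch q (u + v * r)‖ ^ 2 / 2 := by
    intro r _
    rw [norm_sub_sq (norm_ch _)]; ring
  rw [Finset.sum_congr rfl h2, Finset.sum_sub_distrib, Finset.sum_const, nsmul_eq_mul, mul_one,
    Finset.sum_div]

/-- the projection of the set where the quadratic form is small -/
noncomputable def Pj (q : ℕ) [NeZero q] (Q : Finset ℕ) (s : ℝ) : Finset (ZMod q) := by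
  classical
  exact Finset.univ.filter (fun v => ∃ u, Real.sqrt (Vf q Q u v) ≤ s)

lemma mem_Pj {Q : Finset ℕ} {s : ℝ} {v : ZMod q} :
    v ∈ Pj q Q s ↔ ∃ u, Real.sqrt (Vf q Q u v) ≤ s := by
  classical
  unfold Pj; simp

lemma zero_mem_Pj {Q : Finset ℕ} {s : ℝ} (hs : 0 ≤ s) : (0 : ZMod q) ∈ Pj q Q s := by
  rw [mem_Pj]
  refine ⟨0, ?_⟩
  have : Vf q Q (0 : ZMod q) 0 = 0 := by
    unfold Vf
    exact Finset.sum_eq_zero (fun r _ => by simp [ch_zero])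
  rw [this, Real.sqrt_zero]; exact hs

lemma card_Pj_le {Q : Finset ℕ} (hQ : Set.InjOn (fun r : ℕ => (r : ZMod q)) Q)
    (hQ0 : 1 ≤ Q.card) {s : ℝ} (hs : s ^ 2 ≤ Q.card / 2) :
    ((Pj q Q s).card : ℝ) ≤ 2 * q / Q.card := by
  classical
  have hm : (0 : ℝ) < Q.card := by exact_mod_cast hQ0
  have h1 : ∀ v ∈ Pj q Q s, (9 / 16 : ℝ) * (Q.card : ℝ) ^ 2 ≤ ‖∑ r ∈ Q, ch q (v * r)‖ ^ 2 := by
    intro v hv
    obtain ⟨u, hu⟩ := mem_Pj.mp hv
    have h2 : Vf q Q u v ≤ Q.card / 2 := by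
      have := Real.sq_sqrt (Vf_nonneg Q u v)
      have h3 : Real.sqrt (Vf q Q u v) ^ 2 ≤ s ^ 2 := pow_le_pow_left₀ (Real.sqrt_nonneg _) hu 2
      linarith
    have h3 := norm_sum_ge Q u v
    have h4 : (3 / 4 : ℝ) * Q.card ≤ ‖∑ r ∈ Q, ch q (v * r)‖ := by linarith
    have h5 := pow_le_pow_left₀ (by positivity) h4 2
    nlinarith
  have h2 : ((Pj q Q s).card : ℝ) * ((9 / 16 : ℝ) * (Q.card : ℝ) ^ 2) ≤ q * Q.card := by
    rw [← parseval hQ, ← nsmul_eq_mul, ← Finset.sum_const]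
    exact (Finset.sum_le_sum h1).trans
      (Finset.sum_le_sum_of_subset_of_nonneg (Finset.subset_univ _) (fun _ _ _ => sq_nonneg _))
  rw [le_div_iff₀ hm]
  have h3 : ((Pj q Q s).card : ℝ) * Q.card * ((9 / 16) * Q.card) ≤ q * Q.card := by nlinarith
  have hq : (0 : ℝ) ≤ q := Nat.cast_nonneg q
  have h4 : ((Pj q Q s).card : ℝ) * Q.card * (9 / 16) ≤ q := by
    have : (((Pj q Q s).card : ℝ) * Q.card * (9 / 16)) * Q.card ≤ q * Q.card := by nlinarith
    exact le_of_mul_le_mul_right this hm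
  linarith

lemma Pj_add {Q : Finset ℕ} {s t : ℝ} {v w : ZMod q} (hv : v ∈ Pj q Q s) (hw : w ∈ Pj q Q t) :
    v + w ∈ Pj q Q (s + t) := by
  rw [mem_Pj] at *
  obtain ⟨u, hu⟩ := hv
  obtain ⟨u', hu'⟩ := hw
  exact ⟨u + u', (sqrt_Vf_add Q u v u' w).trans (add_le_add hu hu')⟩

lemma Pj_sub {Q : Finset ℕ} {s t : ℝ} {v w : ZMod q} (hv : v ∈ Pj q Q s) (hw : w ∈ Pj q Q t) :
    v - w ∈ Pj q Q (s + t) := by
  rw [mem_Pj] at *
  obtain ⟨u, hu⟩ := hv
  obtain ⟨u', hu'⟩ := hw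
  exact ⟨u - u', (sqrt_Vf_sub Q u v u' w).trans (add_le_add hu hu')⟩

/-- growth, from the Cauchy-Davenport theorem -/
lemma Pj_growth (hq : q.Prime) (Q : Finset ℕ) {s : ℝ} (hs : 0 ≤ s) (k : ℕ) :
    min q (k * ((Pj q Q s).card - 1) + 1) ≤ (Pj q Q (k * s)).card := by
  classical
  induction k with
  | zero =>
    simp only [zero_mul, zero_add]
    refine (min_le_right _ _).trans (Finset.card_pos.mpr ⟨0, zero_mem_Pj (by simp)⟩)
  | succ k ih =>
    have hne1 : (Pj q Q s).Nonempty := ⟨0, zero_mem_Pj hs⟩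
    have hne2 : (Pj q Q (k * s)).Nonempty := ⟨0, zero_mem_Pj (by positivity)⟩
    open scoped Pointwise in
    have hcd := ZMod.cauchy_davenport hq hne2 hne1
    open scoped Pointwise in
    have hsub : Pj q Q (k * s) + Pj q Q s ⊆ Pj q Q ((k + 1 : ℕ) * s) := by
      intro x hx
      obtain ⟨a, ha, b, hb, rfl⟩ := Finset.mem_add.mp hx
      have := Pj_add ha hb
      have e : (k : ℝ) * s + s = ((k + 1 : ℕ) : ℝ) * s := by push_cast; ring
      rwa [e] at this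
    have h1 := hcd.trans (Finset.card_le_card hsub)
    refine le_trans ?_ h1
    have hpos : 1 ≤ (Pj q Q s).card := Finset.card_pos.mpr hne1
    refine le_min (min_le_left _ _) ?_
    rcases Nat.le_total q (k * ((Pj q Q s).card - 1) + 1) with h | h
    · rw [min_eq_left h] at ih
      have := min_le_left q ((k + 1) * ((Pj q Q s).card - 1) + 1)
      omega
    · rw [min_eq_right h] at ih
      refine (min_le_right _ _).trans ?_
      have e : (k + 1) * ((Pj q Q s).card - 1) = k * ((Pj q Q s).card - 1) + ((Pj q Q s).card - 1) := by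
        ring
      omega

end Pool.Agent.helper306_thin
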