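import Pool.Agent.helper306_thin.Quad

/-!
# Sections, and the weak local limit bound
-/

namespace Pool.Agent.helper306_thin

open Finset Pool.Agent.helper306_cramer

variable {q : ℕ} [NeZero q]

lemma norm_one_sub_ch_int (z : ℤ) : ‖1 - ch q (z : ZMod q)‖ = 2 * |Real.sin (Real.pi * z / q)| := by
  unfold ch
  rw [ZMod.stdAddChar_coe, norm_sub_rev]
  have e : (2 * Real.pi * Complex.I * z / q : ℂ) = Complex.I * ((2 * (Real.pi * z / q) : ℝ) : ℂ) := by
    push_cast; ring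
  rw [e, Complex.norm_exp_I_mul_ofReal_sub_one, Real.norm_eq_abs, abs_mul, abs_two]
  congr 3; ring

lemma four_mul_le (z : ℤ) (hz : 2 * |(z : ℝ)| ≤ q) : 4 * |(z : ℝ)| / q ≤ ‖1 - ch q (z : ZMod q)‖ := by
  have hq : (0 : ℝ) < q := by exact_mod_cast Nat.pos_of_ne_zero (NeZero.ne q)
  have hpi := Real.pi_pos
  rw [norm_one_sub_ch_int]
  have h1 : |Real.pi * z / q| ≤ Real.pi / 2 := by
    rw [abs_div, abs_mul, abs_of_pos hpi, abs_of_pos hq, div_le_div_iff₀ hq (by norm_num)]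
    nlinarith
  have h2 := Real.mul_abs_le_abs_sin h1
  have e : 2 / Real.pi * |Real.pi * z / q| = 2 * |(z : ℝ)| / q := by
    rw [abs_div, abs_mul, abs_of_pos hpi, abs_of_pos hq]; field_simp
  rw [e] at h2
  have e2 : 4 * |(z : ℝ)| / q = 2 * (2 * |(z : ℝ)| / q) := by ring
  rw [e2]
  linarith

/-- the number of integers of absolute value at most `B` -/
lemma card_int_le {B : ℝ} (hB : 0 ≤ B) (S : Finset ℤ) (hS : ∀ z ∈ S, |(z : ℝ)| ≤ B) :
    (S.card : ℝ) ≤ 2 * B + 1 := by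
  have h1 : S ⊆ Finset.Icc (-(⌊B⌋₊ : ℤ)) (⌊B⌋₊ : ℤ) := by
    intro z hz
    have h2 := hS z hz
    have h3 : z.natAbs ≤ ⌊B⌋₊ := by
      rw [Nat.le_floor_iff hB, Nat.cast_natAbs, Int.cast_abs]; exact h2
    rw [Finset.mem_Icc]; omega
  have h2 := Finset.card_le_card h1
  rw [Int.card_Icc] at h2
  have h3 : (((⌊B⌋₊ : ℤ) + 1 - -(⌊B⌋₊ : ℤ)).toNat) = 2 * ⌊B⌋₊ + 1 := by omega
  rw [h3] at h2
  have h4 : (S.card : ℝ) ≤ ((2 * ⌊B⌋₊ + 1 : ℕ) : ℝ) := by exact_mod_cast h2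
  have h5 := Nat.floor_le hB
  push_cast at h4
  linarith

lemma card_small_le {rho : ℝ} (h0 : 0 ≤ rho) (S : Finset (ZMod q))
    (hS : ∀ d ∈ S, ‖1 - ch q d‖ ≤ rho) : (S.card : ℝ) ≤ 1 + rho * q / 2 := by
  have hq : (0 : ℝ) < q := by exact_mod_cast Nat.pos_of_ne_zero (NeZero.ne q)
  rw [← Finset.card_image_of_injective S ZMod.injective_valMinAbs]
  have h1 : ∀ z ∈ S.image ZMod.valMinAbs, |(z : ℝ)| ≤ rho * q / 4 := by
    intro z hz
    rw [Finset.mem_image] at hz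
    obtain ⟨d, hd, rfl⟩ := hz
    have h2 := hS d hd
    have h3 : 2 * |((d.valMinAbs : ℤ) : ℝ)| ≤ q := by
      have h4 := ZMod.natAbs_valMinAbs_le d
      have h5 : 2 * d.valMinAbs.natAbs ≤ q := by omega
      have h6 : (2 * (d.valMinAbs.natAbs : ℝ)) ≤ q := by exact_mod_cast h5
      rwa [Nat.cast_natAbs, Int.cast_abs] at h6
    have h4 := four_mul_le (q := q) d.valMinAbs h3
    rw [ZMod.coe_valMinAbs] at h4
    have h5 := h4.trans h2
    rw [div_le_iff₀ hq] at h5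
    linarith
  refine (card_int_le (by positivity) _ h1).trans (le_of_eq ?_)
  ring

lemma section_le {Q : Finset ℕ} (hQ0 : 1 ≤ Q.card) {s : ℝ} (hs : 0 ≤ s) (v : ZMod q)
    (U : Finset (ZMod q)) (hU : ∀ u ∈ U, Real.sqrt (Vf q Q u v) ≤ s) :
    (U.card : ℝ) ≤ 1 + s / Real.sqrt Q.card * q := by
  classical
  have hm : (0 : ℝ) < Q.card := by exact_mod_cast hQ0
  have hsm : 0 < Real.sqrt Q.card := Real.sqrt_pos.mpr hm
  rcases U.eq_empty_or_nonempty with rfl | ⟨u0, hu0⟩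
  · simp; positivity
  have e1 : U.card = (U.image (fun u => u - u0)).card :=
    (Finset.card_image_of_injective U (sub_left_injective)).symm
  rw [e1]
  have h1 : ∀ d ∈ U.image (fun u => u - u0), ‖1 - ch q d‖ ≤ 2 * s / Real.sqrt Q.card := by
    intro d hd
    rw [Finset.mem_image] at hd
    obtain ⟨u, hu, rfl⟩ := hd
    have h2 := sqrt_Vf_sub Q u v u0 v
    rw [sub_self] at h2
    have h3 : Vf q Q (u - u0) 0 = Q.card * ‖1 - ch q (u - u0)‖ ^ 2 := by
      unfold Vf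
      simp only [zero_mul, add_zero, Finset.sum_const, nsmul_eq_mul]
    rw [h3, Real.sqrt_mul hm.le, Real.sqrt_sq (norm_nonneg _)] at h2
    rw [le_div_iff₀ hsm]
    have := hU u hu
    have := hU u0 hu0
    linarith
  refine (card_small_le (by positivity) _ h1).trans (le_of_eq ?_)
  field_simp

/-- the sum of `(k + 1) / 2 ^ k` -/
lemma sum_geo (M : ℕ) : ∑ k ∈ Finset.range M, ((k : ℝ) + 1) / 2 ^ k ≤ 4 := by
  have h : ∑ k ∈ Finset.range M, ((k : ℝ) + 1) / 2 ^ k = 4 - (2 * M + 4) / 2 ^ M := by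
    induction M with
    | zero => norm_num
    | succ M ih =>
      rw [Finset.sum_range_succ, ih, pow_succ]
      field_simp
      push_cast
      ring
  rw [h]
  have : (0 : ℝ) ≤ (2 * M + 4) / 2 ^ M := by positivity
  linarith

lemma exp_neg_le_two_pow (k : ℕ) : Real.exp (-(k : ℝ)) ≤ 1 / 2 ^ k := by
  rw [Real.exp_neg, ← one_div]
  refine one_div_le_one_div_of_le (by positivity) ?_
  have : Real.exp (k : ℝ) = (Real.exp 1) ^ k := by rw [← Real.exp_nat_mul, mul_one]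
  rw [this]
  refine pow_le_pow_left₀ (by norm_num) ?_ k
  have := Real.add_one_le_exp (1 : ℝ)
  linarith

/-- layer cake -/
lemma layer (t W V : ℝ) (ht : 0 < t) (hV : 0 ≤ V) :
    Real.exp (-(t * V / 2)) ≤ 3 * Real.exp (-(t * W / 2))
      + ∑ k ∈ Finset.range ⌊t * W / 2⌋₊, (1 / 2 ^ k : ℝ) * (if V ≤ 2 * (k + 1) / t then 1 else 0) := by
  have hsum0 : 0 ≤ ∑ k ∈ Finset.range ⌊t * W / 2⌋₊,
      (1 / 2 ^ k : ℝ) * (if V ≤ 2 * (k + 1) / t then 1 else 0) :=
    Finset.sum_nonneg (fun k _ => mul_nonneg (by positivity) (by split_ifs <;> norm_num))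
  set k := ⌊t * V / 2⌋₊ with hk
  have hk1 : (k : ℝ) ≤ t * V / 2 := Nat.floor_le (by positivity)
  have hk2 : t * V / 2 < k + 1 := Nat.lt_floor_add_one _
  by_cases hkM : k < ⌊t * W / 2⌋₊
  · have h1 : (1 / 2 ^ k : ℝ) * (if V ≤ 2 * (k + 1) / t then 1 else 0) ≤
        ∑ k ∈ Finset.range ⌊t * W / 2⌋₊,
          (1 / 2 ^ k : ℝ) * (if V ≤ 2 * (k + 1) / t then 1 else 0) :=
      Finset.single_le_sum (f := fun k : ℕ => (1 / 2 ^ k : ℝ) *
        (if V ≤ 2 * ((k : ℝ) + 1) / t then (1 : ℝ) else 0))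
        (fun k _ => mul_nonneg (by positivity) (by split_ifs <;> norm_num))
        (Finset.mem_range.mpr hkM)
    have h2 : V ≤ 2 * (k + 1) / t := by
      rw [le_div_iff₀ ht]; linarith
    rw [if_pos h2, mul_one] at h1
    have h3 : Real.exp (-(t * V / 2)) ≤ 1 / 2 ^ k :=
      (Real.exp_le_exp.mpr (by linarith)).trans (exp_neg_le_two_pow k)
    have h4 := Real.exp_pos (-(t * W / 2))
    linarith
  · push Not at hkM
    have h1 : t * W / 2 < (k : ℝ) + 1 := by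
      have h2 := Nat.lt_floor_add_one (t * W / 2)
      have h3 : ((⌊t * W / 2⌋₊ : ℕ) : ℝ) ≤ k := by exact_mod_cast hkM
      linarith
    have h2 : Real.exp (-(t * V / 2)) ≤ Real.exp (-(t * W / 2) + 1) :=
      Real.exp_le_exp.mpr (by linarith)
    rw [Real.exp_add] at h2
    have h3 : Real.exp 1 < 3 := lt_trans Real.exp_one_lt_d9 (by norm_num)
    have h4 := Real.exp_pos (-(t * W / 2))
    nlinarith

/-- the local bound from a bound for the projections -/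
theorem local_bound {p : ℕ → ℝ} (hp0 : ∀ m, 0 ≤ p m) (hp1 : ∀ m, p m ≤ 1) {Q : Finset ℕ}
    (hQ0 : 1 ≤ Q.card) {t : ℝ} (ht0 : 0 < t) (ht1 : t ≤ 1)
    (ht : ∀ r ∈ Q, t ≤ p r * (1 - p r)) {Y W : ℝ} (hY0 : 0 ≤ Y)
    (hqm : Real.sqrt Q.card ≤ q)
    (hP : ∀ s : ℝ, 1 ≤ s → s ^ 2 ≤ W → ((Pj q Q s).card : ℝ) ≤ Y * (s / Real.sqrt Q.card) * q)
    (l n : ℕ) :
    Ex p Q (fun A => if A.card = l ∧ ∑ m ∈ A, m = n then 1 else 0)
      ≤ 16 * Y / (t * Q.card) + 3 * Real.exp (-(t * W / 2)) := by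
  classical
  have hq : (0 : ℝ) < q := by exact_mod_cast Nat.pos_of_ne_zero (NeZero.ne q)
  have hm : (0 : ℝ) < Q.card := by exact_mod_cast hQ0
  have hsm : 0 < Real.sqrt Q.card := Real.sqrt_pos.mpr hm
  have h1 := prob_le (q := q) hp0 hp1 Q l n
  have h2 : ∑ v : ZMod q, ∑ u : ZMod q, ∏ r ∈ Q, ‖(1 - p r + p r * ch q (u + v * r) : ℂ)‖
      ≤ ∑ v : ZMod q, ∑ u : ZMod q, (3 * Real.exp (-(t * W / 2))
        + ∑ k ∈ Finset.range ⌊t * W / 2⌋₊,
          (1 / 2 ^ k : ℝ) * (if Vf q Q u v ≤ 2 * (k + 1) / t then 1 else 0)) :=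
    Finset.sum_le_sum (fun v _ => Finset.sum_le_sum (fun u _ =>
      (prod_le_exp hp0 hp1 ht u v).trans (layer t W _ ht0 (Vf_nonneg Q u v))))
  have h3 : ∑ v : ZMod q, ∑ u : ZMod q, (3 * Real.exp (-(t * W / 2))
        + ∑ k ∈ Finset.range ⌊t * W / 2⌋₊,
          (1 / 2 ^ k : ℝ) * (if Vf q Q u v ≤ 2 * (k + 1) / t then 1 else 0))
      = (q : ℝ) ^ 2 * (3 * Real.exp (-(t * W / 2))) + ∑ k ∈ Finset.range ⌊t * W / 2⌋₊,
          (1 / 2 ^ k : ℝ) * ∑ v : ZMod q, ∑ u : ZMod q,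
            (if Vf q Q u v ≤ 2 * (k + 1) / t then (1 : ℝ) else 0) := by
    simp_rw [Finset.sum_add_distrib]
    congr 1
    · simp only [Finset.sum_const, Finset.card_univ, ZMod.card, nsmul_eq_mul]
      ring
    · rw [Finset.sum_congr rfl (fun v _ => Finset.sum_comm), Finset.sum_comm]
      refine Finset.sum_congr rfl (fun k _ => ?_)
      rw [Finset.mul_sum]
      refine Finset.sum_congr rfl (fun v _ => ?_)
      rw [Finset.mul_sum]
  have h4 : ∀ k ∈ Finset.range ⌊t * W / 2⌋₊, ∑ v : ZMod q, ∑ u : ZMod q,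
            (if Vf q Q u v ≤ 2 * ((k : ℝ) + 1) / t then (1 : ℝ) else 0)
      ≤ (4 * Y / (t * Q.card) * (q : ℝ) ^ 2) * (k + 1) := by
    intro k hk
    rw [Finset.mem_range] at hk
    have hk' : ((k : ℝ) + 1) ≤ t * W / 2 := by
      have h5 : k + 1 ≤ ⌊t * W / 2⌋₊ := hk
      have h7 := (Nat.le_floor_iff' (by omega : k + 1 ≠ 0)).mp h5
      push_cast at h7
      exact h7
    set s : ℝ := Real.sqrt (2 * (k + 1) / t) with hs
    have hw0 : (0 : ℝ) ≤ 2 * (k + 1) / t := by positivity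
    have hs2 : s ^ 2 = 2 * (k + 1) / t := Real.sq_sqrt hw0
    have hs0 : 0 ≤ s := Real.sqrt_nonneg _
    have hs1 : 1 ≤ s := by
      rw [hs]
      refine Real.one_le_sqrt.mpr ?_
      rw [le_div_iff₀ ht0]
      have : (0 : ℝ) ≤ k := Nat.cast_nonneg k
      linarith
    have hsW : s ^ 2 ≤ W := by
      rw [hs2, div_le_iff₀ ht0]; linarith
    have hPs := hP s hs1 hsW
    have hiff : ∀ u v : ZMod q, Vf q Q u v ≤ 2 * (k + 1) / t ↔ Real.sqrt (Vf q Q u v) ≤ s := by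
      intro u v
      rw [hs]
      exact (Real.sqrt_le_sqrt_iff hw0).symm
    have h5 : ∀ v : ZMod q, ∑ u : ZMod q,
            (if Vf q Q u v ≤ 2 * ((k : ℝ) + 1) / t then (1 : ℝ) else 0)
        ≤ if v ∈ Pj q Q s then 1 + s / Real.sqrt Q.card * q else 0 := by
      intro v
      rw [Finset.sum_ite, Finset.sum_const_zero, add_zero, Finset.sum_const, nsmul_eq_mul, mul_one]
      split_ifs with h
      · refine section_le hQ0 hs0 v _ (fun u hu => ?_)
        rw [Finset.mem_filter] at hu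
        exact (hiff u v).mp hu.2
      · have : (Finset.univ.filter (fun u : ZMod q => Vf q Q u v ≤ 2 * ((k : ℝ) + 1) / t)) = ∅ := by
          rw [Finset.filter_eq_empty_iff]
          intro u _ hu
          exact h (mem_Pj.mpr ⟨u, (hiff u v).mp hu⟩)
        rw [this]; simp
    refine (Finset.sum_le_sum (fun v _ => h5 v)).trans ?_
    rw [Finset.sum_ite, Finset.sum_const_zero, add_zero, Finset.sum_const, nsmul_eq_mul]
    have e1 : (Finset.univ.filter (fun v : ZMod q => v ∈ Pj q Q s)) = Pj q Q s := by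
      ext v; simp
    rw [e1]
    have h6 : 1 + s / Real.sqrt Q.card * q ≤ 2 * (s / Real.sqrt Q.card * q) := by
      have : 1 ≤ s / Real.sqrt Q.card * q := by
        rw [div_mul_eq_mul_div, le_div_iff₀ hsm, one_mul]
        nlinarith
      linarith
    have h7 : ((Pj q Q s).card : ℝ) * (1 + s / Real.sqrt Q.card * q)
        ≤ (Y * (s / Real.sqrt Q.card) * q) * (2 * (s / Real.sqrt Q.card * q)) :=
      mul_le_mul hPs h6 (by positivity) ((Nat.cast_nonneg _).trans hPs)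
    refine h7.trans (le_of_eq ?_)
    have e2 : (Y * (s / Real.sqrt Q.card) * q) * (2 * (s / Real.sqrt Q.card * q))
        = 2 * Y * q ^ 2 * (s ^ 2 / (Real.sqrt Q.card) ^ 2) := by
      field_simp
    rw [e2, hs2, Real.sq_sqrt hm.le]
    field_simp
    ring
  have hY : 0 ≤ 4 * Y / (t * Q.card) * (q : ℝ) ^ 2 := by positivity
  have h5 : ∑ k ∈ Finset.range ⌊t * W / 2⌋₊,
          (1 / 2 ^ k : ℝ) * ∑ v : ZMod q, ∑ u : ZMod q,
            (if Vf q Q u v ≤ 2 * (k + 1) / t then (1 : ℝ) else 0)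
      ≤ (q : ℝ) ^ 2 * (16 * Y / (t * Q.card)) := by
    refine (Finset.sum_le_sum (fun k hk => mul_le_mul_of_nonneg_left (h4 k hk)
      (by positivity))).trans ?_
    have e1 : ∑ k ∈ Finset.range ⌊t * W / 2⌋₊,
        (1 / 2 ^ k : ℝ) * ((4 * Y / (t * Q.card) * (q : ℝ) ^ 2) * (k + 1))
        = (4 * Y / (t * Q.card) * (q : ℝ) ^ 2) * ∑ k ∈ Finset.range ⌊t * W / 2⌋₊,
          ((k : ℝ) + 1) / 2 ^ k := by
      rw [Finset.mul_sum]
      exact Finset.sum_congr rfl (fun k _ => by ring)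
    rw [e1]
    have := mul_le_mul_of_nonneg_left (sum_geo ⌊t * W / 2⌋₊) hY
    refine this.trans (le_of_eq (by ring))
  have h6 : Ex p Q (fun A => if A.card = l ∧ ∑ m ∈ A, m = n then 1 else 0) * (q : ℝ) ^ 2
      ≤ (16 * Y / (t * Q.card) + 3 * Real.exp (-(t * W / 2))) * (q : ℝ) ^ 2 := by
    refine h1.trans (h2.trans ?_)
    rw [h3]
    linarith
  exact le_of_mul_le_mul_right h6 (by positivity)

end Pool.Agent.helper306_thin
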