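import Pool.Agent.helper306_thin.Weak
import Pool.Agent.helper306_thin.Bohr
import Pool.Agent.TH915.UC.BT

/-!
# The sharp local bound for the primes of a short interval
-/

namespace Pool.Agent.helper306_thin

open Finset Pool.Agent.helper306_cramer

/-- the primes in `[a, a + N]` -/
def Qp (a N : ℕ) : Finset ℕ := (Finset.Icc a (a + N)).filter Nat.Prime

lemma mem_Qp {a N r : ℕ} : r ∈ Qp a N ↔ (a ≤ r ∧ r ≤ a + N) ∧ r.Prime := by
  unfold Qp; rw [Finset.mem_filter, Finset.mem_Icc]

lemma card_Qp_le (a N : ℕ) : (Qp a N).card ≤ N + 1 := by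
  unfold Qp
  refine (Finset.card_filter_le _ _).trans ?_
  rw [Nat.card_Icc]; omega

/-- a crude lower bound for Euler's function -/
lemma sqrt_le_totient (k : ℕ) (hk : 1 ≤ k) : Real.sqrt k ≤ 2 * Nat.totient k := by
  have h0 : k.divisors.card ≤ 2 * Nat.sqrt k := by
    have h1 : k.divisors ⊆ (Finset.Icc 1 (Nat.sqrt k)) ∪
        (Finset.Icc 1 (Nat.sqrt k)).image (fun d => k / d) := by
      intro d hd
      have hdk : d ∣ k := Nat.dvd_of_mem_divisors hd
      have hd0 : 0 < d := Nat.pos_of_dvd_of_pos hdk hk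
      rw [Finset.mem_union, Finset.mem_image]
      by_cases h : d ≤ Nat.sqrt k
      · left; rw [Finset.mem_Icc]; exact ⟨hd0, h⟩
      · right
        push Not at h
        refine ⟨k / d, ?_, ?_⟩
        · rw [Finset.mem_Icc]
          refine ⟨Nat.div_pos (Nat.le_of_dvd hk hdk) hd0, ?_⟩
          by_contra hcon
          push Not at hcon
          have h2 : d * (k / d) = k := Nat.mul_div_cancel' hdk
          have h3 : (Nat.sqrt k + 1) * (Nat.sqrt k + 1) ≤ d * (k / d) := Nat.mul_le_mul h hcon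
          have h4 := Nat.lt_succ_sqrt k
          rw [h2] at h3
          exact absurd h4 (not_lt.mpr h3)
        · have h2 : d * (k / d) = k := Nat.mul_div_cancel' hdk
          have hq : 0 < k / d := Nat.div_pos (Nat.le_of_dvd hk hdk) hd0
          exact Nat.div_eq_of_eq_mul_left hq h2.symm
    refine (Finset.card_le_card h1).trans ((Finset.card_union_le _ _).trans ?_)
    have h2 : ((Finset.Icc 1 (Nat.sqrt k)).image (fun d => k / d)).card ≤ Nat.sqrt k :=
      Finset.card_image_le.trans (by simp)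
    have h3 : (Finset.Icc 1 (Nat.sqrt k)).card = Nat.sqrt k := by simp
    omega
  have h1 : k ≤ k.divisors.card * Nat.totient k := by
    calc k = ∑ e ∈ k.divisors, Nat.totient e := (Nat.sum_totient k).symm
      _ ≤ ∑ _e ∈ k.divisors, Nat.totient k := by
          apply Finset.sum_le_sum
          intro e he
          exact Nat.le_of_dvd (Nat.totient_pos.mpr (by omega))
            (Nat.totient_dvd_of_dvd (Nat.dvd_of_mem_divisors he))
      _ = k.divisors.card * Nat.totient k := by rw [Finset.sum_const, smul_eq_mul]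
  have h3 : k ≤ 2 * Nat.sqrt k * Nat.totient k := h1.trans (Nat.mul_le_mul_right _ h0)
  have h4 : (k : ℝ) ≤ 2 * (Nat.sqrt k : ℝ) * Nat.totient k := by exact_mod_cast h3
  have h5 : (Nat.sqrt k : ℝ) ≤ Real.sqrt k := Real.nat_sqrt_le_real_sqrt
  have h6 : 0 < Real.sqrt k := Real.sqrt_pos.mpr (by exact_mod_cast (by omega : 0 < k))
  have h7 : Real.sqrt k * Real.sqrt k = k := Real.mul_self_sqrt (by positivity)
  have h8 : (0 : ℝ) ≤ Nat.totient k := by positivity
  have h9 : Real.sqrt k * Real.sqrt k ≤ Real.sqrt k * (2 * Nat.totient k) := by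
    rw [h7]
    refine h4.trans ?_
    nlinarith
  exact le_of_mul_le_mul_left h9 h6

/-- primes of one class, in an interval of length `N` -/
lemma class_bt {S : Finset ℕ} {N r0 : ℕ} (hr0 : 1 ≤ r0) (hN : r0 ≤ N) (hS : ∀ r ∈ S, r.Prime)
    (h : ∀ r ∈ S, ∀ s ∈ S, (r0 : ℤ) ∣ (r : ℤ) - s) (hl : ∀ r ∈ S, ∀ s ∈ S, r ≤ s + N) :
    (S.card : ℝ) ≤ 22 * ((r0 : ℝ) / r0.totient) * ((N / r0 + 1 : ℕ) : ℝ)
      / Real.log ((N / r0 + 1 : ℕ) : ℝ) := by
  rcases S.eq_empty_or_nonempty with rfl | hne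
  · have : 0 ≤ Real.log ((N / r0 + 1 : ℕ) : ℝ) := Real.log_natCast_nonneg _
    simp only [Finset.card_empty, Nat.cast_zero]
    positivity
  set a := S.min' hne with ha
  have haS : a ∈ S := Finset.min'_mem _ _
  have hN2 : 2 ≤ N / r0 + 1 := by
    have : 1 ≤ N / r0 := (Nat.one_le_div_iff hr0).mpr hN
    omega
  refine le_trans ?_ (Pool.Agent.TH915.UC.bt_gen a r0 (N / r0 + 1) hr0 hN2)
  have h1 : S.card ≤ ((Finset.range (N / r0 + 1)).filter (fun k => (a + k * r0).Prime)).card := by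
    refine Finset.card_le_card_of_injOn (fun r => (r - a) / r0) ?_ ?_
    · intro r hr
      rw [Finset.mem_coe] at hr
      have h3 : a ≤ r := Finset.min'_le _ _ hr
      have d1 : r0 ∣ r - a := by
        have := h r hr a haS
        rw [← Nat.cast_sub h3] at this
        exact_mod_cast this
      have e1 := Nat.div_mul_cancel d1
      rw [Finset.mem_coe, Finset.mem_filter, Finset.mem_range]
      simp only
      refine ⟨?_, ?_⟩
      · have h4 := hl r hr a haS
        have : (r - a) / r0 ≤ N / r0 := Nat.div_le_div_right (by omega)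
        omega
      · rw [e1]
        have : a + (r - a) = r := by omega
        rw [this]; exact hS r hr
    · intro r hr s hs heq
      rw [Finset.mem_coe] at hr hs
      simp only at heq
      have h3 : a ≤ r := Finset.min'_le _ _ hr
      have h4 : a ≤ s := Finset.min'_le _ _ hs
      have d1 : r0 ∣ r - a := by
        have := h r hr a haS
        rw [← Nat.cast_sub h3] at this
        exact_mod_cast this
      have d2 : r0 ∣ s - a := by
        have := h s hs a haS
        rw [← Nat.cast_sub h4] at this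
        exact_mod_cast this
      have e1 := Nat.div_mul_cancel d1
      have e2 := Nat.div_mul_cancel d2
      rw [heq] at e1
      omega
  exact_mod_cast h1

variable {q : ℕ} [NeZero q]

lemma ch_mul_int (v : ZMod q) (d : ℤ) :
    4 * |((v.val : ℝ) / q) * d - round (((v.val : ℝ) / q) * d)| ≤ ‖1 - ch q (v * (d : ZMod q))‖ := by
  have hq : (0 : ℝ) < q := by exact_mod_cast Nat.pos_of_ne_zero (NeZero.ne q)
  have hpi := Real.pi_pos
  have e0 : v * (d : ZMod q) = (((v.val : ℤ) * d : ℤ) : ZMod q) := by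
    push_cast
    rw [ZMod.natCast_zmod_val]
  rw [e0, norm_one_sub_ch_int]
  set x : ℝ := ((v.val : ℝ) / q) * d with hx
  have e1 : Real.pi * (((v.val : ℤ) * d : ℤ) : ℝ) / q = Real.pi * x := by
    rw [hx]; push_cast; ring
  rw [e1]
  set k := round x with hk
  have h1 : |Real.sin (Real.pi * x)| = |Real.sin (Real.pi * (x - k))| := by
    have e2 : Real.pi * (x - k) = Real.pi * x - k * Real.pi := by ring
    rw [e2, Real.sin_sub_int_mul_pi, abs_mul, abs_zpow, abs_neg, abs_one, one_zpow, one_mul]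
  rw [h1]
  have h2 : |x - k| ≤ 1 / 2 := abs_sub_round x
  have h3 : |Real.pi * (x - k)| ≤ Real.pi / 2 := by
    rw [abs_mul, abs_of_pos hpi]; nlinarith
  have h4 := Real.mul_abs_le_abs_sin h3
  have e3 : 2 / Real.pi * |Real.pi * (x - k)| = 2 * |x - k| := by
    rw [abs_mul, abs_of_pos hpi]; field_simp
  rw [e3] at h4
  linarith

/-- a Bohr set with many primes has a small modulus -/
lemma arc {a N : ℕ} {A : ℝ} (hA : 1 ≤ A) (hm36 : 36 ≤ (Qp a N).card)
    (hNA : (N : ℝ) ≤ A * (Qp a N).card * Real.log (Qp a N).card) {s : ℝ}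
    (hs : s ^ 2 ≤ (Qp a N).card / (1024 * A ^ 2 * Real.log (Qp a N).card ^ 2))
    {v : ZMod q} (hv : v ∈ Pj q (Qp a N) s) (hs0 : 0 ≤ s) :
    ∃ r0 b : ℕ, 1 ≤ r0 ∧ r0 ≤ ⌊4 * (176 * A) ^ 2⌋₊ ∧ b ≤ r0 ∧
      |(v.val : ℝ) / q - b / r0| < 1 / (4 * r0 * N) := by
  classical
  set Q := Qp a N with hQ
  set m := Q.card with hm
  have hm36' : (36 : ℝ) ≤ m := by exact_mod_cast hm36
  have hm0 : (0 : ℝ) < m := by linarith
  have hN1 : 1 ≤ N := by
    have := card_Qp_le a N
    rw [← hQ, ← hm] at this; omega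
  have hN0 : (0 : ℝ) < N := by exact_mod_cast hN1
  have hq0 : (0 : ℝ) < q := by exact_mod_cast Nat.pos_of_ne_zero (NeZero.ne q)
  have hlog : 0 < Real.log m := Real.log_pos (by linarith)
  obtain ⟨u, hu⟩ := mem_Pj.mp hv
  set σ : ℝ := Real.sqrt 2 / (32 * A * Real.log m) with hσ
  have hσ0 : 0 < σ := by positivity
  have hσ2 : σ ^ 2 = 2 / (1024 * A ^ 2 * Real.log m ^ 2) := by
    rw [hσ, div_pow, Real.sq_sqrt (by norm_num)]
    congr 1; ring
  set B := Q.filter (fun r : ℕ => ‖1 - ch q (u + v * r)‖ ≤ σ) with hB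
  have hV : Vf q Q u v ≤ s ^ 2 := by
    have h1 := Real.sq_sqrt (Vf_nonneg Q u v)
    have h3 : Real.sqrt (Vf q Q u v) ^ 2 ≤ s ^ 2 := pow_le_pow_left₀ (Real.sqrt_nonneg _) hu 2
    linarith
  have hBcard : (m : ℝ) / 2 ≤ B.card := by
    have h1 : ((Q.filter (fun r : ℕ => ¬ ‖1 - ch q (u + v * r)‖ ≤ σ)).card : ℝ) * σ ^ 2
        ≤ Vf q Q u v := by
      rw [← nsmul_eq_mul, ← Finset.sum_const]
      unfold Vf
      refine (Finset.sum_le_sum (fun r hr => ?_)).trans
        (Finset.sum_le_sum_of_subset_of_nonneg (Finset.filter_subset _ _) (fun _ _ _ => sq_nonneg _))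
      rw [Finset.mem_filter, not_le] at hr
      exact pow_le_pow_left₀ hσ0.le hr.2.le 2
    have h2 : B.card + (Q.filter (fun r : ℕ => ¬ ‖1 - ch q (u + v * r)‖ ≤ σ)).card = m :=
      Finset.card_filter_add_card_filter_not _
    have h3 : (B.card : ℝ) + ((Q.filter (fun r : ℕ => ¬ ‖1 - ch q (u + v * r)‖ ≤ σ)).card : ℝ) = m := by
      exact_mod_cast h2
    have h4 : ((Q.filter (fun r : ℕ => ¬ ‖1 - ch q (u + v * r)‖ ≤ σ)).card : ℝ) * σ ^ 2
        ≤ (m / 2) * σ ^ 2 := by
      refine h1.trans (hV.trans (hs.trans (le_of_eq ?_)))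
      rw [hσ2]; field_simp
    have h5 := le_of_mul_le_mul_right h4 (by positivity)
    linarith
  have hBpos : (0 : ℝ) < B.card := by linarith
  have hB3 : 3 ≤ B.card := by
    have : (18 : ℝ) ≤ B.card := by linarith
    have : 18 ≤ B.card := by exact_mod_cast this
    omega
  have hBA : ∀ r ∈ B, a ≤ r ∧ r ≤ a + N := fun r hr => by
    rw [hB, Finset.mem_filter, hQ, mem_Qp] at hr; exact hr.1.1
  have hclose : ∀ r ∈ B, ∀ s ∈ B, |((v.val : ℝ) / q) * ((r : ℝ) - s)
      - round (((v.val : ℝ) / q) * ((r : ℝ) - s))| ≤ σ / 2 := by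
    intro r hr s hs
    rw [hB, Finset.mem_filter] at hr hs
    have h1 := ch_mul_int v ((r : ℤ) - s)
    have h2 : ‖1 - ch q (v * (((r : ℤ) - s : ℤ) : ZMod q))‖ ≤ 2 * σ := by
      have e : v * (((r : ℤ) - s : ℤ) : ZMod q) = (u + v * r) - (u + v * s) := by push_cast; ring
      rw [e]
      refine (norm_one_sub_ch_sub _ _).trans ?_
      linarith [hr.2, hs.2]
    have h3 := h1.trans h2
    push_cast at h3
    linarith
  have hcond : 16 * N * (σ / 2) < B.card := by
    have h1 : (N : ℝ) * σ ≤ Real.sqrt 2 / 32 * m := by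
      calc (N : ℝ) * σ ≤ (A * m * Real.log m) * σ := mul_le_mul_of_nonneg_right hNA hσ0.le
        _ = Real.sqrt 2 / 32 * m := by rw [hσ]; field_simp
    have h2 : Real.sqrt 2 < 1.5 := by
      rw [Real.sqrt_lt' (by norm_num)]; norm_num
    nlinarith
  obtain ⟨r0, hr1, hr2, ⟨b, hb⟩, hcong⟩ := bohr hN1 hBA hB3 (by positivity) hcond hclose
  have hr0' : (0 : ℝ) < r0 := by exact_mod_cast hr1
  -- size of `r0`
  have hmN : (m : ℝ) ≤ N + 1 := by exact_mod_cast card_Qp_le a N
  have hN1' : (1 : ℝ) ≤ N := by exact_mod_cast hN1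
  have hr6 : (r0 : ℝ) * m ≤ 6 * N := by
    have h1 : 2 * (N : ℝ) / B.card ≤ 2 * N / (m / 2) :=
      div_le_div_of_nonneg_left (by positivity) (by positivity) hBcard
    have h2 : (r0 : ℝ) ≤ 4 * N / m + 1 := by
      refine hr2.trans ?_
      have e : 2 * (N : ℝ) / (m / 2) = 4 * N / m := by field_simp; norm_num
      rw [e] at h1; linarith
    have h3 : (r0 : ℝ) * m ≤ (4 * N / m + 1) * m := mul_le_mul_of_nonneg_right h2 hm0.le
    have e : (4 * (N : ℝ) / m + 1) * m = 4 * N + m := by field_simp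
    rw [e] at h3; linarith
  have hr0N : r0 ≤ N := by
    have h1 : (r0 : ℝ) ≤ N := by nlinarith
    exact_mod_cast h1
  have hbt := class_bt hr1 hr0N (fun r hr => by
    rw [hB, Finset.mem_filter, hQ, mem_Qp] at hr; exact hr.1.2) hcong
    (fun r hr s hs => by have := hBA r hr; have := hBA s hs; omega)
  set N' := N / r0 + 1 with hN'
  have hN'1 : (m : ℝ) / 6 ≤ N' := by
    have h1 : (N : ℝ) / r0 < N' := by
      rw [hN']; push_cast
      have := Nat.lt_floor_add_one ((N : ℝ) / r0)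
      rw [Nat.floor_div_natCast, Nat.floor_natCast] at this
      exact_mod_cast this
    have h2 : (m : ℝ) / 6 ≤ N / r0 := by
      rw [div_le_div_iff₀ (by norm_num) hr0']; linarith
    linarith
  have hN'2 : (N' : ℝ) ≤ 2 * (N / r0) := by
    have h1 : ((N / r0 : ℕ) : ℝ) ≤ N / r0 := Nat.cast_div_le
    have h2 : (1 : ℝ) ≤ N / r0 := by
      rw [one_le_div hr0']; exact_mod_cast hr0N
    rw [hN']; push_cast; linarith
  have hlogN' : Real.log m / 2 ≤ Real.log N' := by
    have h1 : Real.log m / 2 = Real.log (Real.sqrt m) := by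
      rw [Real.log_sqrt hm0.le]
    rw [h1]
    refine Real.log_le_log (Real.sqrt_pos.mpr hm0) (le_trans ?_ hN'1)
    have h2 : (6 : ℝ) ≤ Real.sqrt m := Real.le_sqrt_of_sq_le (by linarith)
    have h3 := Real.sq_sqrt hm0.le
    nlinarith
  have hφ : (0 : ℝ) < r0.totient := by exact_mod_cast Nat.totient_pos.mpr (by omega)
  have hφA : (r0.totient : ℝ) ≤ 176 * A := by
    have h1 : (m : ℝ) / 2 ≤ 88 * N / (r0.totient * Real.log m) := by
      refine hBcard.trans (hbt.trans ?_)
      calc 22 * ((r0 : ℝ) / r0.totient) * N' / Real.log N'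
          ≤ 22 * ((r0 : ℝ) / r0.totient) * (2 * (N / r0)) / (Real.log m / 2) := by
            refine div_le_div₀ (by positivity) ?_ (by positivity) hlogN'
            exact mul_le_mul_of_nonneg_left hN'2 (by positivity)
        _ = 88 * N / (r0.totient * Real.log m) := by field_simp; norm_num
    rw [le_div_iff₀ (by positivity)] at h1
    have h2 : m / 2 * (r0.totient * Real.log m) ≤ 88 * (A * m * Real.log m) := by linarith
    have h3 : (r0.totient : ℝ) * (m * Real.log m) ≤ (176 * A) * (m * Real.log m) := by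
      linarith
    exact le_of_mul_le_mul_right h3 (by positivity)
  have hr0Q : r0 ≤ ⌊4 * (176 * A) ^ 2⌋₊ := by
    rw [Nat.le_floor_iff (by positivity)]
    have h1 := sqrt_le_totient r0 hr1
    have h2 : Real.sqrt r0 ≤ 2 * (176 * A) := by linarith
    have h3 := Real.sq_sqrt hr0'.le
    have h4 : Real.sqrt r0 ^ 2 ≤ (2 * (176 * A)) ^ 2 := pow_le_pow_left₀ (Real.sqrt_nonneg _) h2 2
    rw [h3] at h4
    linarith
  -- the numerator
  have hβ0 : (0 : ℝ) ≤ (v.val : ℝ) / q := by positivity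
  have hβ1 : (v.val : ℝ) / q < 1 := by
    rw [div_lt_one hq0]; exact_mod_cast ZMod.val_lt v
  have hbb := abs_lt.mp hb
  have hsmall : 1 / (4 * (r0 : ℝ) * N) * r0 ≤ 1 / 4 := by
    have e : 1 / (4 * (r0 : ℝ) * N) * r0 = 1 / (4 * N) := by field_simp
    rw [e]
    exact one_div_le_one_div_of_le (by norm_num) (by linarith)
  have hb0 : 0 ≤ b := by
    by_contra hcon
    push Not at hcon
    have h1 : (b : ℝ) ≤ -1 := by exact_mod_cast (by omega : b ≤ -1)
    have h2 : (v.val : ℝ) / q - b / r0 < 1 / (4 * r0 * N) := hbb.2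
    have h3 : ((v.val : ℝ) / q - b / r0) * r0 < 1 / (4 * r0 * N) * r0 :=
      mul_lt_mul_of_pos_right h2 hr0'
    have e : ((v.val : ℝ) / q - b / r0) * r0 = (v.val : ℝ) / q * r0 - b := by field_simp
    rw [e] at h3
    have h4 : 0 ≤ (v.val : ℝ) / q * r0 := by positivity
    linarith
  have hb1 : b ≤ r0 := by
    by_contra hcon
    push Not at hcon
    have h1 : (r0 : ℝ) + 1 ≤ b := by exact_mod_cast (by omega : (r0 : ℤ) + 1 ≤ b)
    have h2 : -(1 / (4 * r0 * N)) < (v.val : ℝ) / q - b / r0 := hbb.1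
    have h3 : -(1 / (4 * r0 * N)) * r0 < ((v.val : ℝ) / q - b / r0) * r0 :=
      mul_lt_mul_of_pos_right h2 hr0'
    have e : ((v.val : ℝ) / q - b / r0) * r0 = (v.val : ℝ) / q * r0 - b := by field_simp
    rw [e] at h3
    have h4 : (v.val : ℝ) / q * r0 ≤ 1 * r0 := mul_le_mul_of_nonneg_right hβ1.le hr0'.le
    linarith
  refine ⟨r0, b.toNat, hr1, hr0Q, by omega, ?_⟩
  have e : ((b.toNat : ℕ) : ℝ) = (b : ℝ) := by
    have : ((b.toNat : ℕ) : ℤ) = b := Int.toNat_of_nonneg hb0
    exact_mod_cast this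
  rw [e]; exact hb

end Pool.Agent.helper306_thin
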