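import Pool.Agent.helper306_thin.MainT

/-!
# Changing a set at finitely many places
-/

namespace Pool.Agent.helper306_thin

open Finset Filter Topology MeasureTheory ProbabilityTheory Pool.Agent.helper306_cramer

lemma card_sq_le (F : Finset ℕ) : (∀ m ∈ F, 1 ≤ m) → F.card * (F.card + 1) ≤ 2 * ∑ m ∈ F, m := by
  classical
  induction F using Finset.induction_on_max with
  | empty => simp
  | insert a s hs ih =>
    intro h
    have ha : a ∉ s := fun h' => lt_irrefl _ (hs a h')
    rw [Finset.card_insert_of_notMem ha, Finset.sum_insert ha]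
    have h1 := ih (fun m hm => h m (Finset.mem_insert_of_mem hm))
    have h2 : s.card ≤ a - 1 := by
      have : s ⊆ Finset.Ico 1 a := fun m hm => by
        rw [Finset.mem_Ico]
        exact ⟨h m (Finset.mem_insert_of_mem hm), hs m hm⟩
      have h3 := Finset.card_le_card this
      rwa [Nat.card_Ico] at h3
    have h4 : 1 ≤ a := h a (Finset.mem_insert_self _ _)
    have h5 : s.card + 1 ≤ a := by omega
    nlinarith

open Classical in
/-- the sums of the windows starting at `a` -/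
noncomputable def Vs (T : Set ℕ) (a x : ℕ) : Finset ℕ :=
  (Finset.Icc 1 x).filter (fun n => ∃ b, ∑ m ∈ Finset.Icc a b, T.indicator id m = n)

open Classical in
lemma sum_ind (T : Set ℕ) (a b : ℕ) :
    ∑ m ∈ Finset.Icc a b, T.indicator id m = ∑ m ∈ (Finset.Icc a b).filter (fun m => m ∈ T), m := by
  rw [Finset.sum_filter]
  refine Finset.sum_congr rfl (fun m _ => ?_)
  by_cases h : m ∈ T <;> simp [Set.indicator, h]

lemma card_Vs (T : Set ℕ) {a : ℕ} (ha : 1 ≤ a) (x : ℕ) : (Vs T a x).card ≤ Nat.sqrt (2 * x) + 1 := by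
  classical
  have hex : ∀ n ∈ Vs T a x, ∃ b, ∑ m ∈ Finset.Icc a b, T.indicator id m = n := by
    intro n hn
    unfold Vs at hn
    exact (Finset.mem_filter.mp hn).2
  choose! b hb using hex
  rw [← Finset.card_range (Nat.sqrt (2 * x) + 1)]
  refine Finset.card_le_card_of_injOn
    (fun n => ((Finset.Icc a (b n)).filter (fun m => m ∈ T)).card) ?_ ?_
  · intro n hn
    have hn' : n ∈ Vs T a x := hn
    have h1 := hb n hn'
    rw [sum_ind] at h1
    have h2 := card_sq_le ((Finset.Icc a (b n)).filter (fun m => m ∈ T)) (fun m hm => by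
      have := (Finset.mem_Icc.mp (Finset.mem_filter.mp hm).1).1
      omega)
    have h3 : n ≤ x := by
      unfold Vs at hn'
      exact (Finset.mem_Icc.mp (Finset.mem_filter.mp hn').1).2
    show _ ∈ ((Finset.range (Nat.sqrt (2 * x) + 1) : Finset ℕ) : Set ℕ)
    rw [Finset.coe_range, Set.mem_Iio]
    refine Nat.lt_succ_of_le (Nat.le_sqrt.mpr ?_)
    nlinarith
  · intro n hn n' hn' hnn
    have h1 := hb n hn
    have h2 := hb n' hn'
    rw [sum_ind] at h1 h2
    have hnn' : ((Finset.Icc a (b n)).filter (fun m => m ∈ T)).card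
      = ((Finset.Icc a (b n')).filter (fun m => m ∈ T)).card := hnn
    rcases le_total (b n) (b n') with h | h
    · have h3 : (Finset.Icc a (b n)).filter (fun m => m ∈ T)
          ⊆ (Finset.Icc a (b n')).filter (fun m => m ∈ T) :=
        Finset.filter_subset_filter _ (Finset.Icc_subset_Icc_right h)
      rw [← h1, ← h2, Finset.eq_of_subset_of_card_le h3 hnn'.ge]
    · have h3 : (Finset.Icc a (b n')).filter (fun m => m ∈ T)
          ⊆ (Finset.Icc a (b n)).filter (fun m => m ∈ T) :=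
        Finset.filter_subset_filter _ (Finset.Icc_subset_Icc_right h)
      rw [← h1, ← h2, Finset.eq_of_subset_of_card_le h3 hnn'.le]

/-- two sets which agree from `q₀` on have almost always the same number of representations -/
lemma card_exc {R R' : Set ℕ} {q₀ : ℕ} (h : ∀ m, q₀ ≤ m → (m ∈ R ↔ m ∈ R')) (x : ℕ) :
    ((Finset.Icc 1 x).filter (fun n => reps R n ≠ reps R' n)).card
      ≤ q₀ * (2 * (Nat.sqrt (2 * x) + 1)) := by
  classical
  have hsub : (Finset.Icc 1 x).filter (fun n => reps R n ≠ reps R' n)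
      ⊆ (Finset.Ico 1 q₀).biUnion (fun a => Vs R a x ∪ Vs R' a x) := by
    intro n hn
    rw [Finset.mem_filter] at hn
    by_contra hcon
    refine hn.2 ?_
    unfold reps
    have key : ∀ a b : ℕ, 1 ≤ a → ((a ≤ b ∧ a ∈ R ∧ b ∈ R ∧
        ∑ m ∈ Finset.Icc a b, R.indicator id m = n) ↔ (a ≤ b ∧ a ∈ R' ∧ b ∈ R' ∧
        ∑ m ∈ Finset.Icc a b, R'.indicator id m = n)) := by
      intro a b ha
      by_cases haq : a < q₀
      · have hno : ¬ (n ∈ Vs R a x ∪ Vs R' a x) := fun h' =>
          hcon (Finset.mem_biUnion.mpr ⟨a, Finset.mem_Ico.mpr ⟨ha, haq⟩, h'⟩)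
        rw [Finset.mem_union] at hno
        push Not at hno
        unfold Vs at hno
        rw [Finset.mem_filter, Finset.mem_filter] at hno
        constructor
        · rintro ⟨_, _, _, h4⟩; exact absurd ⟨hn.1, b, h4⟩ hno.1
        · rintro ⟨_, _, _, h4⟩; exact absurd ⟨hn.1, b, h4⟩ hno.2
      · have e1 : ∑ m ∈ Finset.Icc a b, R.indicator id m = ∑ m ∈ Finset.Icc a b, R'.indicator id m := by
          refine Finset.sum_congr rfl (fun m hm => ?_)
          rw [Finset.mem_Icc] at hm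
          have h5 := h m (by omega)
          by_cases h6 : m ∈ R
          · rw [Set.indicator_of_mem h6, Set.indicator_of_mem (h5.mp h6)]
          · rw [Set.indicator_of_notMem h6, Set.indicator_of_notMem (fun h7 => h6 (h5.mpr h7))]
        rw [e1]
        constructor
        · rintro ⟨h1, h2, h3, h4⟩; exact ⟨h1, (h a (by omega)).mp h2, (h b (by omega)).mp h3, h4⟩
        · rintro ⟨h1, h2, h3, h4⟩; exact ⟨h1, (h a (by omega)).mpr h2, (h b (by omega)).mpr h3, h4⟩
    congr 1
    ext ⟨a, b⟩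
    simp only [Set.mem_ofPred_eq]
    constructor
    · rintro ⟨h1, h2⟩; exact ⟨h1, (key a b h1).mp h2⟩
    · rintro ⟨h1, h2⟩; exact ⟨h1, (key a b h1).mpr h2⟩
  refine (Finset.card_le_card hsub).trans (Finset.card_biUnion_le.trans ?_)
  have h1 : ∀ a ∈ Finset.Ico 1 q₀, (Vs R a x ∪ Vs R' a x).card ≤ 2 * (Nat.sqrt (2 * x) + 1) := by
    intro a ha
    rw [Finset.mem_Ico] at ha
    have h2 := card_Vs R ha.1 x
    have h3 := card_Vs R' ha.1 x
    have h4 := Finset.card_union_le (Vs R a x) (Vs R' a x)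
    omega
  refine (Finset.sum_le_card_nsmul _ _ _ h1).trans ?_
  rw [Nat.card_Ico, smul_eq_mul]
  exact Nat.mul_le_mul_right _ (by omega)

/-- the counts of the two sets -/
lemma count_transfer {R R' : Set ℕ} {q₀ : ℕ} (h : ∀ m, q₀ ≤ m → (m ∈ R ↔ m ∈ R')) (x k : ℕ) :
    ((Finset.Icc 1 x).filter (fun n => reps R' n = k)).card
      ≤ ((Finset.Icc 1 x).filter (fun n => reps R n = k)).card + q₀ * (2 * (Nat.sqrt (2 * x) + 1)) := by
  classical
  have h1 := card_exc h x
  have h2 : (Finset.Icc 1 x).filter (fun n => reps R' n = k)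
      ⊆ (Finset.Icc 1 x).filter (fun n => reps R n = k)
        ∪ (Finset.Icc 1 x).filter (fun n => reps R n ≠ reps R' n) := by
    intro n hn
    rw [Finset.mem_filter] at hn
    rw [Finset.mem_union, Finset.mem_filter, Finset.mem_filter]
    by_cases h3 : reps R n = reps R' n
    · exact Or.inl ⟨hn.1, h3.trans hn.2⟩
    · exact Or.inr ⟨hn.1, h3⟩
  have h3 := (Finset.card_le_card h2).trans (Finset.card_union_le _ _)
  omega

lemma ev_sqrt (q₀ : ℕ) {ε : ℝ} (hε : 0 < ε) :
    ∀ᶠ x : ℕ in atTop, ((q₀ * (2 * (Nat.sqrt (2 * x) + 1)) : ℕ) : ℝ) ≤ ε * x := by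
  obtain ⟨N, hN⟩ := exists_nat_ge ((8 * (q₀ : ℝ) / ε) ^ 2)
  filter_upwards [eventually_ge_atTop (N + 1)] with x hx
  have hx1 : (1 : ℝ) ≤ x := by
    have : 1 ≤ x := by omega
    exact_mod_cast this
  have hxN : (8 * (q₀ : ℝ) / ε) ^ 2 ≤ x := hN.trans (by
    have : N ≤ x := by omega
    exact_mod_cast this)
  have h1 : ((Nat.sqrt (2 * x) : ℕ) : ℝ) ≤ Real.sqrt (2 * x) := by
    have := Real.nat_sqrt_le_real_sqrt (a := 2 * x)
    push_cast at this
    exact this
  have h2 : Real.sqrt (2 * x) ≤ 2 * Real.sqrt x := by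
    rw [Real.sqrt_le_left (by positivity), mul_pow, Real.sq_sqrt (by linarith)]
    linarith
  have h3 : 8 * (q₀ : ℝ) / ε ≤ Real.sqrt x := by
    rw [← Real.sqrt_sq (show (0 : ℝ) ≤ 8 * (q₀ : ℝ) / ε by positivity)]
    exact Real.sqrt_le_sqrt hxN
  have h4 : (1 : ℝ) ≤ Real.sqrt x := by rwa [Real.one_le_sqrt]
  have h5 : Real.sqrt x * Real.sqrt x = x := Real.mul_self_sqrt (by linarith)
  push_cast
  rw [div_le_iff₀ hε] at h3
  have h6 : (q₀ : ℝ) * (2 * ((Nat.sqrt (2 * x) : ℕ) + 1)) ≤ q₀ * (8 * Real.sqrt x) :=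
    mul_le_mul_of_nonneg_left (by linarith) (Nat.cast_nonneg _)
  calc (q₀ : ℝ) * (2 * ((Nat.sqrt (2 * x) : ℕ) + 1)) ≤ q₀ * (8 * Real.sqrt x) := h6
    _ = (8 * q₀) * Real.sqrt x := by ring
    _ ≤ (Real.sqrt x * ε) * Real.sqrt x := mul_le_mul_of_nonneg_right h3 (by positivity)
    _ = ε * (Real.sqrt x * Real.sqrt x) := by ring
    _ = ε * x := by rw [h5]

end Pool.Agent.helper306_thin
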