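import Pool.Agent.helper306_thin.Near

/-!
# Variance with weights depending on other coordinates
-/

namespace Pool.Agent.helper306_thin

open Finset Filter Topology Pool.Agent.helper306_cramer

variable {ι : Type*} [DecidableEq ι]

lemma cov_abs {p : ℕ → ℝ} (hp0 : ∀ m, 0 ≤ p m) (hp1 : ∀ m, p m ≤ 1) (S : Finset ι)
    (I : ι → Finset ℕ) (hd : (S : Set ι).PairwiseDisjoint I)
    {J : Finset ℕ} (hJ : ∀ s ∈ S, I s ⊆ J) (n m : ℕ) {z : ℝ} (hz0 : 0 ≤ z) (hz1 : z ≤ 1) :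
    |Ex p J (fun A => z ^ (FS S I n A) * z ^ (FS S I m A))
      - Ex p J (fun A => z ^ (FS S I n A)) * Ex p J (fun A => z ^ (FS S I m A))|
    ≤ ∑ s ∈ S, (Ex p (I s) (fun A => (cnt A n : ℝ) * (cnt A m : ℝ))
        + Ex p (I s) (fun A => (cnt A n : ℝ)) * Ex p (I s) (fun A => (cnt A m : ℝ))) := by
  rw [Ex_FS2 p S I hd hJ n m z, Ex_FS p S I hd hJ n z, Ex_FS p S I hd hJ m z,
    ← Finset.prod_mul_distrib]
  have b : ∀ s k, 0 ≤ Ex p (I s) (fun A => z ^ (cnt A k)) ∧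
      Ex p (I s) (fun A => z ^ (cnt A k)) ≤ 1 := fun s k =>
    ⟨Ex_nonneg hp0 hp1 (fun A _ => pow_nonneg hz0 _),
      Ex_le_const hp0 hp1 (fun A _ => pow_le_one₀ hz0 hz1)⟩
  refine (abs_prod_sub_prod_le S _ _ ?_ ?_ ?_ ?_).trans (Finset.sum_le_sum (fun s hs => ?_))
  · exact fun s _ => Ex_nonneg hp0 hp1 (fun A _ => mul_nonneg (pow_nonneg hz0 _) (pow_nonneg hz0 _))
  · exact fun s _ => Ex_le_const hp0 hp1 (fun A _ =>
      mul_le_one₀ (pow_le_one₀ hz0 hz1) (pow_nonneg hz0 _) (pow_le_one₀ hz0 hz1))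
  · exact fun s _ => mul_nonneg (b s n).1 (b s m).1
  · exact fun s _ => mul_le_one₀ (b s n).2 (b s m).1 (b s m).2
  · exact cov_block hp0 hp1 (I s) n m hz0 hz1

lemma cov_sum {p : ℕ → ℝ} (hp0 : ∀ m, 0 ≤ p m) (hp1 : ∀ m, p m ≤ 1) (S : Finset ι)
    (y L : ι → ℕ) (hy : ∀ s ∈ S, 1 ≤ y s) (x : ℕ) {X : Finset ℕ} (hX : X ⊆ Finset.Icc 1 x) :
    ∑ n ∈ X, ∑ m ∈ X, ∑ s ∈ S,
      (Ex p (Finset.Ico (y s) (y s + L s)) (fun A => (cnt A n : ℝ) * (cnt A m : ℝ))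
        + Ex p (Finset.Ico (y s) (y s + L s)) (fun A => (cnt A n : ℝ))
          * Ex p (Finset.Ico (y s) (y s + L s)) (fun A => (cnt A m : ℝ)))
    ≤ ∑ s ∈ S, 2 * ((L s * (x / y s) : ℕ) : ℝ) ^ 2 := by
  set I : ι → Finset ℕ := fun s => Finset.Ico (y s) (y s + L s) with hI
  have e2 : ∑ n ∈ X, ∑ m ∈ X, ∑ s ∈ S, (Ex p (I s) (fun A => (cnt A n : ℝ) * (cnt A m : ℝ))
        + Ex p (I s) (fun A => (cnt A n : ℝ)) * Ex p (I s) (fun A => (cnt A m : ℝ)))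
      = ∑ s ∈ S, (Ex p (I s) (fun A => (∑ n ∈ X, (cnt A n : ℝ)) * (∑ m ∈ X, (cnt A m : ℝ)))
        + (Ex p (I s) (fun A => ∑ n ∈ X, (cnt A n : ℝ)))
          * (Ex p (I s) (fun A => ∑ m ∈ X, (cnt A m : ℝ)))) := by
    have e3 : ∀ n, ∑ m ∈ X, ∑ s ∈ S, (Ex p (I s) (fun A => (cnt A n : ℝ) * (cnt A m : ℝ))
        + Ex p (I s) (fun A => (cnt A n : ℝ)) * Ex p (I s) (fun A => (cnt A m : ℝ)))
        = ∑ s ∈ S, ∑ m ∈ X, (Ex p (I s) (fun A => (cnt A n : ℝ) * (cnt A m : ℝ))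
        + Ex p (I s) (fun A => (cnt A n : ℝ)) * Ex p (I s) (fun A => (cnt A m : ℝ))) :=
      fun n => Finset.sum_comm
    rw [Finset.sum_congr rfl (fun n _ => e3 n), Finset.sum_comm]
    refine Finset.sum_congr rfl (fun s _ => ?_)
    rw [Ex_congr (fun A _ => Finset.sum_mul_sum X X (fun n => (cnt A n : ℝ))
      (fun m => (cnt A m : ℝ))), Ex_sum, Ex_sum, Finset.sum_mul_sum, ← Finset.sum_add_distrib]
    refine Finset.sum_congr rfl (fun n _ => ?_)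
    rw [Ex_sum, ← Finset.sum_add_distrib]
  rw [e2]
  refine Finset.sum_le_sum (fun s hs => ?_)
  set M : ℝ := ((L s * (x / y s) : ℕ) : ℝ) with hM
  have hW : ∀ A ⊆ I s, 0 ≤ ∑ n ∈ X, (cnt A n : ℝ) ∧ ∑ n ∈ X, (cnt A n : ℝ) ≤ M := by
    intro A hA
    constructor
    · exact Finset.sum_nonneg (fun n _ => Nat.cast_nonneg _)
    · have h1 := sum_cnt_le (x := x) (hy s hs) hA
      have h2 : ∑ n ∈ X, (cnt A n : ℝ) ≤ ∑ n ∈ Finset.Icc 1 x, (cnt A n : ℝ) :=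
        Finset.sum_le_sum_of_subset_of_nonneg hX (fun n _ _ => Nat.cast_nonneg _)
      refine h2.trans ?_
      rw [hM]
      exact_mod_cast h1
  have b1 : Ex p (I s) (fun A => (∑ n ∈ X, (cnt A n : ℝ)) * (∑ m ∈ X, (cnt A m : ℝ))) ≤ M * M :=
    Ex_le_const hp0 hp1 (fun A hA => mul_le_mul (hW A hA).2 (hW A hA).2 (hW A hA).1
      ((hW A hA).1.trans (hW A hA).2))
  have b2 : 0 ≤ Ex p (I s) (fun A => ∑ n ∈ X, (cnt A n : ℝ)) :=
    Ex_nonneg hp0 hp1 (fun A hA => (hW A hA).1)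
  have b3 : Ex p (I s) (fun A => ∑ n ∈ X, (cnt A n : ℝ)) ≤ M :=
    Ex_le_const hp0 hp1 (fun A hA => (hW A hA).2)
  have b4 := mul_le_mul b3 b3 b2 (b2.trans b3)
  nlinarith

/-- **Variance of the weighted generating sum.** -/
theorem var_weight {p : ℕ → ℝ} (hp0 : ∀ m, 0 ≤ p m) (hp1 : ∀ m, p m ≤ 1) (S : Finset ι)
    (y L : ι → ℕ) (hy : ∀ s ∈ S, 1 ≤ y s)
    (hd : (S : Set ι).PairwiseDisjoint (fun s => Finset.Ico (y s) (y s + L s)))
    {Fr Nr W : Finset ℕ} (hNr : ∀ s ∈ S, Finset.Ico (y s) (y s + L s) ⊆ Nr) (hdis : Disjoint Fr Nr)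
    (hF : Fr ⊆ W) (hN : Nr ⊆ W) (x : ℕ) {X : Finset ℕ} (hX : X ⊆ Finset.Icc 1 x) {z : ℝ}
    (hz0 : 0 ≤ z) (hz1 : z ≤ 1) (H : ℕ → Finset ℕ → ℝ) (hH0 : ∀ n B, 0 ≤ H n B)
    (hH1 : ∀ n B, H n B ≤ 1) :
    Ex p W (fun A => (∑ n ∈ X, H n (A ∩ Fr) *
      (z ^ (FS S (fun s => Finset.Ico (y s) (y s + L s)) n A)
        - Ex p W (fun B => z ^ (FS S (fun s => Finset.Ico (y s) (y s + L s)) n B)))) ^ 2)
    ≤ ∑ s ∈ S, 2 * ((L s * (x / y s) : ℕ) : ℝ) ^ 2 := by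
  set I : ι → Finset ℕ := fun s => Finset.Ico (y s) (y s + L s) with hI
  set f : ℕ → Finset ℕ → ℝ := fun n A => z ^ (FS S I n A) with hf
  set c : ℕ → ℝ := fun n => Ex p W (f n) with hc
  have hcN : ∀ n, Ex p Nr (f n) = c n := by
    intro n
    rw [hc]; simp only
    rw [hf]; simp only
    rw [Ex_FS p S I hd hNr n z, Ex_FS p S I hd (fun s hs => (hNr s hs).trans hN) n z]
  have hfN : ∀ n A, f n (A ∩ Nr) = f n A := by
    intro n A
    rw [hf]; simp only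
    congr 1
    unfold FS
    refine Finset.sum_congr rfl (fun s hs => ?_)
    rw [Finset.inter_assoc, Finset.inter_eq_right.mpr (hNr s hs)]
  have e1 : Ex p W (fun A => (∑ n ∈ X, H n (A ∩ Fr) * (f n A - c n)) ^ 2)
      = ∑ n ∈ X, ∑ m ∈ X, Ex p Fr (fun B => H n B * H m B)
        * (Ex p Nr (fun A => f n A * f m A) - Ex p Nr (f n) * Ex p Nr (f m)) := by
    have h1 : ∀ A ⊆ W, (∑ n ∈ X, H n (A ∩ Fr) * (f n A - c n)) ^ 2
        = ∑ n ∈ X, ∑ m ∈ X, (fun B => H n B * H m B) (A ∩ Fr)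
          * (fun B => (f n B - c n) * (f m B - c m)) (A ∩ Nr) := by
      intro A _
      rw [sq, Finset.sum_mul_sum]
      refine Finset.sum_congr rfl (fun n _ => Finset.sum_congr rfl (fun m _ => ?_))
      simp only
      rw [hfN, hfN]; ring
    rw [Ex_congr h1, Ex_sum]
    refine Finset.sum_congr rfl (fun n _ => ?_)
    rw [Ex_sum]
    refine Finset.sum_congr rfl (fun m _ => ?_)
    have h2 := Ex_mul_inter p hdis hF hN (fun B => H n B * H m B)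
      (fun B => (f n B - c n) * (f m B - c m))
    refine (h2).trans ?_
    congr 1
    have h3 : Ex p Nr (fun B => (f n B - c n) * (f m B - c m))
        = Ex p Nr (fun B => ((f n B * f m B - c m * f n B) - c n * f m B) + c n * c m) :=
      Ex_congr (fun B _ => by ring)
    rw [h3, Ex_add, Ex_sub, Ex_sub, Ex_mul_left, Ex_mul_left, Ex_const, hcN, hcN]
    ring
  rw [e1]
  refine le_trans (Finset.sum_le_sum (fun n _ => Finset.sum_le_sum (fun m _ => ?_)))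
    (cov_sum hp0 hp1 S y L hy x hX)
  have h1 : 0 ≤ Ex p Fr (fun B => H n B * H m B) :=
    Ex_nonneg hp0 hp1 (fun B _ => mul_nonneg (hH0 n B) (hH0 m B))
  have h2 : Ex p Fr (fun B => H n B * H m B) ≤ 1 :=
    Ex_le_const hp0 hp1 (fun B _ => mul_le_one₀ (hH1 n B) (hH0 m B) (hH1 m B))
  have h3 := cov_abs hp0 hp1 S I hd hNr n m hz0 hz1
  calc Ex p Fr (fun B => H n B * H m B)
        * (Ex p Nr (fun A => f n A * f m A) - Ex p Nr (f n) * Ex p Nr (f m))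
      ≤ Ex p Fr (fun B => H n B * H m B)
        * |Ex p Nr (fun A => f n A * f m A) - Ex p Nr (f n) * Ex p Nr (f m)| :=
        mul_le_mul_of_nonneg_left (le_abs_self _) h1
    _ ≤ 1 * |Ex p Nr (fun A => f n A * f m A) - Ex p Nr (f n) * Ex p Nr (f m)| :=
        mul_le_mul_of_nonneg_right h2 (abs_nonneg _)
    _ ≤ _ := by rw [one_mul]; exact h3

end Pool.Agent.helper306_thin
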