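import Pool.Agent.helper306_thin.Sect

/-!
# The weak local bound, for an arbitrary set of integers
-/

namespace Pool.Agent.helper306_thin

open Finset Pool.Agent.helper306_cramer

lemma natCast_injOn {q : ℕ} [NeZero q] {Q : Finset ℕ} (h : ∀ r ∈ Q, r < q) :
    Set.InjOn (fun r : ℕ => (r : ZMod q)) Q := by
  intro r hr s hs hrs
  simp only at hrs
  have h1 := (ZMod.natCast_eq_natCast_iff' r s q).mp hrs
  rwa [Nat.mod_eq_of_lt (h r hr), Nat.mod_eq_of_lt (h s hs)] at h1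

lemma Pj_card_weak {q : ℕ} [NeZero q] (hq : q.Prime) {Q : Finset ℕ} (hQ3 : 3 ≤ Q.card)
    (hQq : ∀ r ∈ Q, r < q) (hq2 : Q.card * Q.card ≤ q) {s : ℝ} (hs1 : 1 ≤ s)
    (hs : s ^ 2 ≤ Q.card / 2) :
    ((Pj q Q s).card : ℝ) ≤ 7 / Q.card * (s / Real.sqrt Q.card) * q := by
  have hm3 : (3 : ℝ) ≤ Q.card := by exact_mod_cast hQ3
  have hm : (0 : ℝ) < Q.card := by linarith
  have hsm : 0 < Real.sqrt Q.card := Real.sqrt_pos.mpr hm
  have hss : Real.sqrt Q.card ^ 2 = Q.card := Real.sq_sqrt hm.le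
  have hq0 : (0 : ℝ) < q := by exact_mod_cast hq.pos
  have hs0 : 0 < s := by linarith
  set R := Real.sqrt (Q.card / 2) with hR
  have hR2 : R ^ 2 = Q.card / 2 := Real.sq_sqrt (by positivity)
  have hR0 : 0 < R := Real.sqrt_pos.mpr (by positivity)
  have hsR : s ≤ R := Real.le_sqrt_of_sq_le hs
  set k := ⌊R / s⌋₊ with hk
  have hk1 : 1 ≤ k := by
    rw [hk]; exact Nat.floor_pos.mpr ((one_le_div hs0).mpr hsR)
  have hk1' : (1 : ℝ) ≤ k := by exact_mod_cast hk1
  have hkle : (k : ℝ) ≤ R / s := Nat.floor_le (by positivity)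
  have hklt : R / s < k + 1 := Nat.lt_floor_add_one _
  have hk2 : R / s ≤ 2 * k := by linarith
  have hks : (k * s) ^ 2 ≤ Q.card / 2 := by
    rw [← hR2]
    refine pow_le_pow_left₀ (by positivity) ?_ 2
    rwa [le_div_iff₀ hs0] at hkle
  have h1 := card_Pj_le (natCast_injOn hQq) (by omega) hks
  have h2 := Pj_growth hq Q hs0.le k
  have h3 : 2 * (q : ℝ) / Q.card < q := by
    rw [div_lt_iff₀ hm]; nlinarith
  have h4 : (Pj q Q (k * s)).card < q := by exact_mod_cast h1.trans_lt h3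
  have h5 : k * ((Pj q Q s).card - 1) + 1 ≤ (Pj q Q (k * s)).card := by
    rcases Nat.le_total q (k * ((Pj q Q s).card - 1) + 1) with h | h
    · rw [min_eq_left h] at h2; omega
    · rwa [min_eq_right h] at h2
  have hpos : 1 ≤ (Pj q Q s).card := Finset.card_pos.mpr ⟨0, zero_mem_Pj hs0.le⟩
  have h6 : (k : ℝ) * (((Pj q Q s).card : ℝ) - 1) + 1 ≤ 2 * q / Q.card := by
    refine le_trans ?_ h1
    have : ((k * ((Pj q Q s).card - 1) + 1 : ℕ) : ℝ) ≤ ((Pj q Q (k * s)).card : ℝ) := by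
      exact_mod_cast h5
    rw [Nat.cast_add, Nat.cast_mul, Nat.cast_sub hpos] at this
    simpa using this
  -- `card - 1 ≤ 2 q / (m k) ≤ 4 q s / (m R)`
  have h7 : ((Pj q Q s).card : ℝ) - 1 ≤ 4 * q * s / (Q.card * R) := by
    have h8 : (R / s) * (((Pj q Q s).card : ℝ) - 1) ≤ 2 * (2 * q / Q.card) := by
      have h9 : (0 : ℝ) ≤ ((Pj q Q s).card : ℝ) - 1 := by
        have : (1 : ℝ) ≤ (Pj q Q s).card := by exact_mod_cast hpos
        linarith
      have := mul_le_mul_of_nonneg_right hk2 h9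
      nlinarith
    have e1 : (R / s) * (((Pj q Q s).card : ℝ) - 1) = (((Pj q Q s).card : ℝ) - 1) * (R / s) := by
      ring
    rw [e1, ← le_div_iff₀ (by positivity)] at h8
    refine h8.trans (le_of_eq ?_)
    field_simp
    ring
  have h8 : 4 * q * s / (Q.card * R) ≤ 6 / Q.card * (s / Real.sqrt Q.card) * q := by
    have h9 : 2 * Real.sqrt Q.card ≤ 3 * R := by
      have h10 : (2 * Real.sqrt Q.card) ^ 2 ≤ (3 * R) ^ 2 := by
        rw [mul_pow, mul_pow, hss, hR2]; linarith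
      exact le_of_sq_le_sq h10 (by positivity)
    have e1 : 6 / (Q.card : ℝ) * (s / Real.sqrt Q.card) * q
        = (6 * q * s) / (Q.card * Real.sqrt Q.card) := by field_simp
    rw [e1, div_le_div_iff₀ (by positivity) (by positivity)]
    have : 0 ≤ (q : ℝ) * s * Q.card := by positivity
    nlinarith
  have h9 : 1 ≤ 1 / Q.card * (s / Real.sqrt Q.card) * q := by
    have e1 : 1 / (Q.card : ℝ) * (s / Real.sqrt Q.card) * q = (s * q) / (Q.card * Real.sqrt Q.card) := by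
      field_simp
    rw [e1, le_div_iff₀ (by positivity), one_mul]
    have h10 : (Q.card : ℝ) * Q.card ≤ q := by exact_mod_cast hq2
    have h11 : Real.sqrt Q.card ≤ Q.card := by
      have : (1 : ℝ) ≤ Real.sqrt Q.card := Real.one_le_sqrt.mpr (by linarith)
      nlinarith
    nlinarith
  have e : 7 / (Q.card : ℝ) * (s / Real.sqrt Q.card) * q
      = 6 / Q.card * (s / Real.sqrt Q.card) * q + 1 / Q.card * (s / Real.sqrt Q.card) * q := by ring
  rw [e]
  linarith
where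
  le_of_sq_le_sq {a b : ℝ} (h : a ^ 2 ≤ b ^ 2) (hb : 0 ≤ b) : a ≤ b := by
    exact le_of_abs_le (abs_le_of_sq_le_sq h hb)

/-- the weak local limit bound -/
theorem weak_llt {p : ℕ → ℝ} (hp0 : ∀ m, 0 ≤ p m) (hp1 : ∀ m, p m ≤ 1) {Q : Finset ℕ}
    (hQ3 : 3 ≤ Q.card) {t : ℝ} (ht0 : 0 < t) (ht1 : t ≤ 1) (ht : ∀ r ∈ Q, t ≤ p r * (1 - p r))
    (l n : ℕ) :
    Ex p Q (fun A => if A.card = l ∧ ∑ m ∈ A, m = n then 1 else 0)
      ≤ 112 / (t * (Q.card : ℝ) ^ 2) + 3 * Real.exp (-(t * Q.card / 4)) := by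
  obtain ⟨q, hqge, hq⟩ := Nat.exists_infinite_primes (Q.card * Q.card + Q.sup id + 1)
  haveI : NeZero q := ⟨hq.ne_zero⟩
  have hQq : ∀ r ∈ Q, r < q := by
    intro r hr
    have := Finset.le_sup (f := id) hr
    simp only [id] at this
    omega
  have hm3 : (3 : ℝ) ≤ Q.card := by exact_mod_cast hQ3
  have hm : (0 : ℝ) < Q.card := by linarith
  have h := local_bound (q := q) hp0 hp1 (by omega : 1 ≤ Q.card) ht0 ht1 ht
    (Y := 7 / Q.card) (W := Q.card / 2) (by positivity) (by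
      have h1 : (Q.card : ℝ) ≤ q := by
        have : Q.card ≤ q := by nlinarith
        exact_mod_cast this
      have h11 : Real.sqrt Q.card ≤ Q.card := by
        have h12 : (1 : ℝ) ≤ Real.sqrt Q.card := Real.one_le_sqrt.mpr (by linarith)
        have h13 := Real.sq_sqrt hm.le
        nlinarith
      linarith)
    (fun s hs1 hs2 => Pj_card_weak hq hQ3 hQq (by omega) hs1 hs2) l n
  refine h.trans (le_of_eq ?_)
  congr 1
  · field_simp; norm_num
  · congr 2; ring_nf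

end Pool.Agent.helper306_thin
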