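import Pool.Agent.helper306_thin.Feas
import Pool.Agent.helper306_thin.Weak
import Pool.Agent.helper306_cramer.Blocks

/-!
# Windows with a given number of elements and given sum
-/

namespace Pool.Agent.helper306_thin

open Finset Pool.Agent.helper306_cramer

/-- coordinates of probability zero may be dropped -/
lemma Ex_drop {p : ℕ → ℝ} {J J' : Finset ℕ} (hsub : J' ⊆ J) (h0 : ∀ r ∈ J, r ∉ J' → p r = 0)
    (Φ : Finset ℕ → ℝ) : Ex p J Φ = Ex p J' Φ := by
  classical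
  unfold Ex
  symm
  have hwt : ∀ A ∈ J'.powerset, wt p J' A = wt p J A := by
    intro A hA
    rw [Finset.mem_powerset] at hA
    unfold wt
    rw [← Finset.prod_sdiff hsub]
    have : ∏ m ∈ J \ J', (if m ∈ A then p m else 1 - p m) = 1 := by
      refine Finset.prod_eq_one (fun m hm => ?_)
      rw [Finset.mem_sdiff] at hm
      rw [if_neg (fun h => hm.2 (hA h)), h0 m hm.1 hm.2, sub_zero]
    rw [this, one_mul]
  rw [Finset.sum_congr rfl (fun A hA => by rw [hwt A hA])]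
  refine Finset.sum_subset (Finset.powerset_mono.mpr hsub) (fun A hA hA' => ?_)
  rw [Finset.mem_powerset] at hA hA'
  rw [Finset.not_subset] at hA'
  obtain ⟨r, hr, hr'⟩ := hA'
  have : wt p J A = 0 := by
    unfold wt
    refine Finset.prod_eq_zero (hA hr) ?_
    rw [if_pos hr]; exact h0 r (hA hr) hr'
  rw [this, zero_mul]

/-- the primes in `[a, b]` -/
def Pr (a b : ℕ) : Finset ℕ := (Finset.Icc a b).filter Nat.Prime

lemma mem_Pr {a b r : ℕ} : r ∈ Pr a b ↔ (a ≤ r ∧ r ≤ b) ∧ r.Prime := by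
  unfold Pr; rw [Finset.mem_filter, Finset.mem_Icc]

variable {p : ℕ → ℝ}

lemma Ex_Pr (hp : PD p) (a b : ℕ) (Φ : Finset ℕ → ℝ) :
    Ex p (Finset.Icc a b) Φ = Ex p (Pr a b) Φ :=
  Ex_drop (Finset.filter_subset _ _) (fun r hr hr' => by
    exact hp.zero r (fun h => hr' (mem_Pr.mpr ⟨Finset.mem_Icc.mp hr, h⟩))) Φ

/-- probability of prescribed cardinality and sum -/
noncomputable def Pl (p : ℕ → ℝ) (J : Finset ℕ) (l n : ℕ) : ℝ :=
  Ex p J (fun A => if A.card = l ∧ ∑ m ∈ A, m = n then 1 else 0)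

lemma Pl_nonneg (hp : PD p) (J : Finset ℕ) (l n : ℕ) : 0 ≤ Pl p J l n :=
  Ex_nonneg hp.nonneg hp.le_one (fun A _ => by split_ifs <;> norm_num)

lemma Pl_eq_zero {J : Finset ℕ} {l n : ℕ} (h : J.card < l) : Pl p J l n = 0 := by
  unfold Pl
  rw [Ex_congr (Ψ := fun _ => (0 : ℝ)), Ex_const]
  intro A hA
  have := Finset.card_le_card hA
  rw [if_neg]; rintro ⟨h1, _⟩; omega

lemma Ex_th_le (hp : PD p) {y L a b n : ℕ} (ha : y ≤ a) (hb : b < y + L) :
    Ex p (Finset.Icc a b) (th n a b) ≤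
      ∑ l ∈ (Finset.Icc 1 n).filter (fun l => l * y ≤ n ∧ n < l * (y + L)),
        if a.Prime ∧ b.Prime ∧ a ≤ b ∧ l * a ≤ n ∧ n ≤ l * b then Pl p (Pr a b) l n else 0 := by
  classical
  rw [Ex_Pr hp]
  have h1 : ∀ A ⊆ Pr a b, th n a b A ≤
      ∑ l ∈ (Finset.Icc 1 n).filter (fun l => l * y ≤ n ∧ n < l * (y + L)),
        if a.Prime ∧ b.Prime ∧ a ≤ b ∧ l * a ≤ n ∧ n ≤ l * b then
          (if A.card = l ∧ ∑ m ∈ A, m = n then (1 : ℝ) else 0) else 0 := by
    intro A hA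
    unfold th
    have hnn : ∀ l ∈ (Finset.Icc 1 n).filter (fun l => l * y ≤ n ∧ n < l * (y + L)),
        0 ≤ (if a.Prime ∧ b.Prime ∧ a ≤ b ∧ l * a ≤ n ∧ n ≤ l * b then
          (if A.card = l ∧ ∑ m ∈ A, m = n then (1 : ℝ) else 0) else 0) := by
      intro l _; split_ifs <;> norm_num
    split_ifs with h
    · obtain ⟨hab, haA, hbA, hs⟩ := h
      have hpa := (mem_Pr.mp (hA haA)).2
      have hpb := (mem_Pr.mp (hA hbA)).2
      have hpos : 0 < A.card := Finset.card_pos.mpr ⟨a, haA⟩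
      have hla : A.card * a ≤ n := by
        rw [← hs]
        have := Finset.card_nsmul_le_sum A (fun m => m) a (fun m hm => (mem_Pr.mp (hA hm)).1.1)
        rwa [smul_eq_mul] at this
      have hlb : n ≤ A.card * b := by
        rw [← hs]
        have := Finset.sum_le_card_nsmul A (fun m => m) b (fun m hm => (mem_Pr.mp (hA hm)).1.2)
        rwa [smul_eq_mul] at this
      have hmem : A.card ∈ (Finset.Icc 1 n).filter (fun l => l * y ≤ n ∧ n < l * (y + L)) := by
        rw [Finset.mem_filter, Finset.mem_Icc]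
        have h2 : 1 ≤ a := hpa.one_lt.le
        refine ⟨⟨hpos, ?_⟩, ?_, ?_⟩
        · calc A.card ≤ A.card * a := Nat.le_mul_of_pos_right _ h2
            _ ≤ n := hla
        · exact (Nat.mul_le_mul_left _ ha).trans hla
        · exact lt_of_le_of_lt hlb (Nat.mul_lt_mul_of_pos_left hb hpos)
      refine le_trans ?_ (Finset.single_le_sum hnn hmem)
      rw [if_pos ⟨hpa, hpb, hab, hla, hlb⟩, if_pos ⟨rfl, hs⟩]
    · exact Finset.sum_nonneg hnn
  refine (Ex_mono hp.nonneg hp.le_one h1).trans (le_of_eq ?_)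
  rw [Ex_sum]
  refine Finset.sum_congr rfl (fun l _ => ?_)
  split_ifs
  · rfl
  · exact Ex_const _ _ _

lemma lin_one (A : Finset ℕ) : lin (fun _ => 1) A = A.card := by
  unfold lin; simp

lemma mlin_Pr_one (hp : PD p) (a b : ℕ) : mlin p (fun _ => 1) (Pr a b) = Mi p a (b + 1) := by
  unfold mlin Mi Pr
  rw [Finset.sum_filter]
  have e : Finset.Ico a (b + 1) = Finset.Icc a b := by
    ext x; simp only [Finset.mem_Ico, Finset.mem_Icc]; omega
  rw [e]
  refine Finset.sum_congr rfl (fun r _ => ?_)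
  split_ifs with h
  · rw [mul_one]
  · exact (hp.zero r h).symm

lemma mlin_Pr_W (hp : PD p) (a b : ℕ) (D : ℝ) :
    mlin p (fun r => ((r : ℝ) - a) / D) (Pr a b) = Wi p a (b + 1) / D := by
  unfold mlin Wi Pr
  rw [Finset.sum_filter, Finset.sum_div]
  have e : Finset.Ico a (b + 1) = Finset.Icc a b := by
    ext x; simp only [Finset.mem_Ico, Finset.mem_Icc]; omega
  rw [e]
  refine Finset.sum_congr rfl (fun r _ => ?_)
  split_ifs with h
  · ring
  · rw [hp.zero r h]; simp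

lemma var_le_quarter (hp : PD p) {J : Finset ℕ} {c : ℕ → ℝ} (hc : ∀ r ∈ J, |c r| ≤ 1) :
    ∑ r ∈ J, c r ^ 2 * (p r * (1 - p r)) ≤ (J.card : ℝ) / 4 := by
  have h1 : ∀ r ∈ J, c r ^ 2 * (p r * (1 - p r)) ≤ 1 / 4 := by
    intro r hr
    have h2 : c r ^ 2 ≤ 1 := by
      rw [← sq_abs]; exact pow_le_one₀ (abs_nonneg _) (hc r hr)
    have h3 : p r * (1 - p r) ≤ 1 / 4 := by nlinarith [sq_nonneg (p r - 1 / 2)]
    have h4 : 0 ≤ p r * (1 - p r) := mul_nonneg (hp.nonneg r) (by linarith [hp.le_one r])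
    nlinarith [sq_nonneg (c r)]
  refine (Finset.sum_le_sum h1).trans (le_of_eq ?_)
  rw [Finset.sum_const, nsmul_eq_mul]; ring

/-- an interval which is not feasible carries the window with small probability only -/
lemma Pl_far (hp : PD p) {a b l n : ℕ} {ℓ : ℝ} (hℓ : 1 ≤ ℓ) (hab : a < b)
    (hl : 16 * ℓ ^ 2 ≤ l) (hml : l ≤ (Pr a b).card)
    (hnot : ¬ (|Mi p a (b + 1) - l| ≤ 2 * Real.sqrt l * ℓ ∧
      |(n : ℝ) - (l * a + Wi p a (b + 1))| ≤ (2 * Real.sqrt l * ℓ) * ((b : ℝ) - a))) :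
    Pl p (Pr a b) l n ≤ 4 * Real.exp (-ℓ ^ 2) := by
  classical
  set m := (Pr a b).card with hm
  have hl0 : (0 : ℝ) < l := by nlinarith
  have hlm : (l : ℝ) ≤ m := by exact_mod_cast hml
  have hm0 : (0 : ℝ) < m := by linarith
  have hD : (0 : ℝ) < (b : ℝ) - a := by
    have : (a : ℝ) < b := by exact_mod_cast hab
    linarith
  have hsq := Real.sq_sqrt hm0.le
  have hsm : 4 * ℓ ≤ Real.sqrt m := Real.le_sqrt_of_sq_le (by nlinarith)
  have hsm0 : 0 < Real.sqrt m := by linarith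
  set κ := Real.sqrt m * ℓ with hκ
  have hκ0 : 0 ≤ κ := by positivity
  have hkk : 4 * κ ≤ m := by
    have h := mul_le_mul_of_nonneg_left hsm hsm0.le
    rw [hκ]; nlinarith
  have hκm : 2 * κ ≤ m := by linarith
  have hκ2 : κ ^ 2 / m = ℓ ^ 2 := by rw [hκ, mul_pow, hsq]; field_simp
  -- either deviation is large
  have hor : κ ≤ |Mi p a (b + 1) - l| ∨ κ * ((b : ℝ) - a) ≤ |(n : ℝ) - (l * a + Wi p a (b + 1))| := by
    by_cases h4 : (m : ℝ) ≤ 4 * l
    · have hle : κ ≤ 2 * Real.sqrt l * ℓ := by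
        have : Real.sqrt m ≤ 2 * Real.sqrt l := by
          have h5 : Real.sqrt m ≤ Real.sqrt (4 * l) := Real.sqrt_le_sqrt h4
          have h6 : Real.sqrt (4 * (l : ℝ)) = 2 * Real.sqrt l := by
            rw [show (4 : ℝ) * l = 2 ^ 2 * l by norm_num, Real.sqrt_mul (by norm_num),
              Real.sqrt_sq (by norm_num)]
          rwa [h6] at h5
        rw [hκ]; exact mul_le_mul_of_nonneg_right this (by linarith)
      rw [not_and_or, not_le, not_le] at hnot
      rcases hnot with h | h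
      · left; linarith
      · right
        have := mul_le_mul_of_nonneg_right hle hD.le
        linarith
    · push Not at h4
      left
      have h5 : (m : ℝ) ≤ 2 * Mi p a (b + 1) := by
        refine card_le_Mi hp (fun r hr => (mem_Pr.mp hr).2) (fun r hr => ?_)
        have := (mem_Pr.mp hr).1; omega
      have h6 : κ ≤ m / 4 := by linarith
      have h7 := le_abs_self (Mi p a (b + 1) - l)
      linarith
  have hcard_le : ∀ r ∈ Pr a b, |(fun _ => (1 : ℝ)) r| ≤ 1 := fun r _ => by simp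
  have hT_le : ∀ r ∈ Pr a b, |(fun r : ℕ => ((r : ℝ) - a) / ((b : ℝ) - a)) r| ≤ 1 := by
    intro r hr
    have h1 := (mem_Pr.mp hr).1
    have h2 : (a : ℝ) ≤ r := by exact_mod_cast h1.1
    have h3 : (r : ℝ) ≤ b := by exact_mod_cast h1.2
    simp only
    rw [abs_of_nonneg (div_nonneg (by linarith) hD.le), div_le_one hD]
    linarith
  have hexp0 := Real.exp_pos (-ℓ ^ 2)
  rcases hor with h | h
  · have h1 := tail_two hp.nonneg hp.le_one (J := Pr a b) (c := fun _ => 1)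
      (fun r hr => Or.inr (hcard_le r hr)) hm0 (var_le_quarter hp hcard_le) hκ0 hκm
      (fun A => A.card = l ∧ ∑ m ∈ A, m = n) (fun A _ hA => by
        rw [lin_one, mlin_Pr_one hp, hA.1, abs_sub_comm]; exact h)
    rw [hκ2] at h1
    unfold Pl
    linarith
  · have h1 := tail_two hp.nonneg hp.le_one (J := Pr a b)
      (c := fun r : ℕ => ((r : ℝ) - a) / ((b : ℝ) - a))
      (fun r hr => Or.inr (hT_le r hr)) hm0 (var_le_quarter hp hT_le) hκ0 hκm
      (fun A => A.card = l ∧ ∑ m ∈ A, m = n) (fun A _ hA => by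
        have e1 : lin (fun r : ℕ => ((r : ℝ) - a) / ((b : ℝ) - a)) A = ((n : ℝ) - l * a) / ((b : ℝ) - a) := by
          unfold lin
          rw [← Finset.sum_div, Finset.sum_sub_distrib, Finset.sum_const, nsmul_eq_mul, hA.1,
            ← hA.2]
          push_cast; rfl
        rw [e1, mlin_Pr_W hp, ← sub_div, abs_div, abs_of_pos hD, le_div_iff₀ hD]
        have e2 : (n : ℝ) - l * a - Wi p a (b + 1) = (n : ℝ) - (l * a + Wi p a (b + 1)) := by ring
        rw [e2]; exact h)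
    rw [hκ2] at h1
    unfold Pl
    linarith

/-- **The mean number of windows with `l` elements and sum `n`.** -/
theorem sum_Pl_le (hp : PD p) {t : ℝ} (ht0 : 0 < t) (ht1 : t ≤ 1) {y L B0 l n : ℕ} {ℓ : ℝ}
    (ht : ∀ r, r.Prime → y ≤ r → r < y + L → t ≤ p r * (1 - p r)) (hℓ : 1 ≤ ℓ)
    (hl : 16 * ℓ ^ 2 ≤ l) (hL : L ≤ 2 ^ B0) :
    ∑ w ∈ Finset.Ico y (y + L) ×ˢ Finset.Ico y (y + L),
      (if w.1.Prime ∧ w.2.Prime ∧ w.1 ≤ w.2 ∧ l * w.1 ≤ n ∧ n ≤ l * w.2 then
        Pl p (Pr w.1 w.2) l n else 0)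
    ≤ (B0 * (3200 * l * ℓ ^ 2)) * (112 / (t * (l : ℝ) ^ 2) + 3 * Real.exp (-(t * l / 4)))
      + (L : ℝ) ^ 2 * (4 * Real.exp (-ℓ ^ 2)) := by
  classical
  set I := Finset.Ico y (y + L) with hI
  have hl0 : (0 : ℝ) < l := by nlinarith
  have hl16 : (16 : ℝ) ≤ l := by nlinarith
  have hl3 : 3 ≤ l := by
    have : (3 : ℝ) ≤ l := by linarith
    exact_mod_cast this
  set κ := 2 * Real.sqrt l * ℓ with hκ
  have hsl : 1 ≤ Real.sqrt l := Real.one_le_sqrt.mpr (by linarith)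
  have hκ1 : 1 ≤ κ := by rw [hκ]; nlinarith
  have hκ2 : κ ^ 2 = 4 * l * ℓ ^ 2 := by
    rw [hκ, mul_pow, mul_pow, Real.sq_sqrt hl0.le]; ring
  set S := (I ×ˢ I).filter (fun w => w.1.Prime ∧ w.2.Prime ∧ w.1 ≤ w.2 ∧ l * w.1 ≤ n ∧ n ≤ l * w.2)
    with hS
  rw [← Finset.sum_filter, ← hS]
  set F := S.filter (fun w => l ≤ (Pr w.1 w.2).card ∧ w.1 < w.2 ∧ |Mi p w.1 (w.2 + 1) - l| ≤ κ ∧
      |(n : ℝ) - (l * w.1 + Wi p w.1 (w.2 + 1))| ≤ κ * ((w.2 : ℝ) - w.1)) with hF
  rw [← Finset.sum_filter_add_sum_filter_not S (fun w => l ≤ (Pr w.1 w.2).card ∧ w.1 < w.2 ∧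
      |Mi p w.1 (w.2 + 1) - l| ≤ κ ∧
      |(n : ℝ) - (l * w.1 + Wi p w.1 (w.2 + 1))| ≤ κ * ((w.2 : ℝ) - w.1))]
  rw [← hF]
  have hSmem : ∀ w ∈ S, (y ≤ w.1 ∧ w.1 < y + L) ∧ (y ≤ w.2 ∧ w.2 < y + L) ∧ w.1.Prime ∧
      w.2.Prime ∧ w.1 ≤ w.2 ∧ l * w.1 ≤ n ∧ n ≤ l * w.2 := by
    intro w hw
    rw [hS, Finset.mem_filter, Finset.mem_product, hI, Finset.mem_Ico, Finset.mem_Ico] at hw
    exact ⟨hw.1.1, hw.1.2, hw.2⟩
  refine add_le_add ?_ ?_
  · -- feasible pairs
    have hcard : (F.card : ℝ) ≤ B0 * (3200 * l * ℓ ^ 2) := by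
      have hcov : F ⊆ (Finset.range B0).biUnion (fun i => F.filter (fun w =>
          2 ^ i ≤ w.2 - w.1 ∧ w.2 - w.1 < 2 ^ (i + 1))) := by
        intro w hw
        have hw' := hw
        rw [hF, Finset.mem_filter] at hw'
        have hwS := hSmem w hw'.1
        have hpos : w.2 - w.1 ≠ 0 := by have := hw'.2.2.1; omega
        rw [Finset.mem_biUnion]
        refine ⟨Nat.log 2 (w.2 - w.1), ?_, ?_⟩
        · rw [Finset.mem_range]
          refine Nat.log_lt_of_lt_pow hpos ?_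
          have := hwS.1
          have := hwS.2.1
          omega
        · rw [Finset.mem_filter]
          exact ⟨hw, Nat.pow_log_le_self 2 hpos, Nat.lt_pow_succ_log_self (by norm_num) _⟩
      have h1 : (F.card : ℝ) ≤ ∑ i ∈ Finset.range B0, ((F.filter (fun w =>
          2 ^ i ≤ w.2 - w.1 ∧ w.2 - w.1 < 2 ^ (i + 1))).card : ℝ) := by
        exact_mod_cast (Finset.card_le_card hcov).trans Finset.card_biUnion_le
      refine h1.trans ?_
      have h2 : ∀ i ∈ Finset.range B0, ((F.filter (fun w =>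
          2 ^ i ≤ w.2 - w.1 ∧ w.2 - w.1 < 2 ^ (i + 1))).card : ℝ) ≤ 3200 * l * ℓ ^ 2 := by
        intro i _
        have h3 := feas_class hp (l := l) (n := n) (i := i) hκ1 (by omega : 1 ≤ l)
          (F.filter (fun w => 2 ^ i ≤ w.2 - w.1 ∧ w.2 - w.1 < 2 ^ (i + 1))) (fun w hw => by
            rw [Finset.mem_filter] at hw
            have hw' := hw.1
            rw [hF, Finset.mem_filter] at hw'
            have hwS := hSmem w hw'.1
            exact ⟨hwS.2.2.1, hwS.2.2.2.1, hwS.2.2.2.2.1, hw'.2.2.2.1, hw'.2.2.2.2,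
              hwS.2.2.2.2.2.1, hwS.2.2.2.2.2.2, hw.2.1, hw.2.2⟩)
        refine h3.trans (le_of_eq ?_)
        rw [hκ2]; ring
      refine (Finset.sum_le_sum h2).trans (le_of_eq ?_)
      rw [Finset.sum_const, Finset.card_range, nsmul_eq_mul]
    have hone : ∀ w ∈ F, Pl p (Pr w.1 w.2) l n
        ≤ 112 / (t * (l : ℝ) ^ 2) + 3 * Real.exp (-(t * l / 4)) := by
      intro w hw
      rw [hF, Finset.mem_filter] at hw
      have hwS := hSmem w hw.1
      have hml := hw.2.1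
      have hml' : (l : ℝ) ≤ (Pr w.1 w.2).card := by exact_mod_cast hml
      have h1 := weak_llt hp.nonneg hp.le_one (Q := Pr w.1 w.2) (by omega) ht0 ht1 (fun r hr => by
        have := mem_Pr.mp hr
        exact ht r this.2 (by omega) (by omega)) l n
      refine h1.trans (add_le_add ?_ ?_)
      · refine div_le_div_of_nonneg_left (by norm_num) (by positivity) ?_
        exact mul_le_mul_of_nonneg_left (pow_le_pow_left₀ hl0.le hml' 2) ht0.le
      · refine mul_le_mul_of_nonneg_left (Real.exp_le_exp.mpr ?_) (by norm_num)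
        have := mul_le_mul_of_nonneg_left hml' ht0.le
        linarith
    refine (Finset.sum_le_sum hone).trans ?_
    rw [Finset.sum_const, nsmul_eq_mul]
    exact mul_le_mul_of_nonneg_right hcard (by positivity)
  · -- infeasible pairs
    have hone : ∀ w ∈ S.filter (fun w => ¬ (l ≤ (Pr w.1 w.2).card ∧ w.1 < w.2 ∧
        |Mi p w.1 (w.2 + 1) - l| ≤ κ ∧
        |(n : ℝ) - (l * w.1 + Wi p w.1 (w.2 + 1))| ≤ κ * ((w.2 : ℝ) - w.1))),
        Pl p (Pr w.1 w.2) l n ≤ 4 * Real.exp (-ℓ ^ 2) := by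
      intro w hw
      rw [Finset.mem_filter] at hw
      obtain ⟨hwS, hnot⟩ := hw
      have hwS' := hSmem w hwS
      by_cases hml : l ≤ (Pr w.1 w.2).card
      · have hab : w.1 < w.2 := by
          rcases Nat.lt_or_ge w.1 w.2 with h | h
          · exact h
          · exfalso
            have h1 : (Pr w.1 w.2).card ≤ (Finset.Icc w.1 w.2).card := Finset.card_filter_le _ _
            rw [Nat.card_Icc] at h1
            omega
        refine Pl_far hp hℓ hab hl hml (fun h => hnot ⟨hml, hab, h.1, h.2⟩)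
      · rw [Pl_eq_zero (by omega)]; positivity
    refine (Finset.sum_le_sum hone).trans ?_
    rw [Finset.sum_const, nsmul_eq_mul]
    refine mul_le_mul_of_nonneg_right ?_ (by positivity)
    have h1 : (S.filter (fun w => ¬ (l ≤ (Pr w.1 w.2).card ∧ w.1 < w.2 ∧
        |Mi p w.1 (w.2 + 1) - l| ≤ κ ∧
        |(n : ℝ) - (l * w.1 + Wi p w.1 (w.2 + 1))| ≤ κ * ((w.2 : ℝ) - w.1)))).card ≤ L ^ 2 := by
      refine (Finset.card_filter_le _ _).trans ((Finset.card_filter_le _ _).trans (le_of_eq ?_))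
      rw [Finset.card_product, hI, Nat.card_Ico, Nat.add_sub_cancel_left]; ring
    exact_mod_cast h1

end Pool.Agent.helper306_thin
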